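import Mathlib

/-!
The table B(q, t) in thousandths, for the block lengths t0 = 12, 15, ..., 33 (an entry for t0 serves all t ≤ t0, needs
q ≥ t0 + 1) and 16 ≤ q ≤ 43; for q ≥ 44 all weights vanish.
-/

set_option autoImplicit false

namespace Pool.Agent.SQF4

/-- rows: t0 = 12, 15, ..., 33; columns: q = 16, ..., 43 (0: not used) -/
def tabB : List (List ℕ) := [
  [7900, 7300, 6750, 6450, 5900, 5600, 5250, 5100, 5050, 4750, 4750, 4750, 4500, 4300, 4300, 4116, 3478, 3444, 2956, 2560, 2284, 2284, 2284, 2284, 2284, 2284, 2284, 2284],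
  [9850, 8500, 7400, 6450, 5900, 5600, 5300, 5100, 5050, 4750, 4750, 4750, 4500, 4300, 4300, 4116, 3478, 3444, 2956, 2560, 2284, 2284, 2284, 2284, 2284, 2284, 2284, 2284],
  [0, 0, 0, 7900, 6750, 5750, 5600, 5300, 5050, 4750, 4750, 4750, 4500, 4300, 4300, 4116, 3478, 3444, 2956, 2560, 2284, 2284, 2284, 2284, 2284, 2284, 2284, 2284],
  [0, 0, 0, 0, 0, 0, 6500, 5700, 5300, 5200, 5200, 4800, 4500, 4300, 4300, 4116, 3478, 3444, 2956, 2560, 2284, 2284, 2284, 2284, 2284, 2284, 2284, 2284],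
  [0, 0, 0, 0, 0, 0, 0, 0, 0, 6150, 6150, 4950, 4800, 4750, 4450, 4116, 3478, 3444, 2956, 2560, 2284, 2284, 2284, 2284, 2284, 2284, 2284, 2284],
  [0, 0, 0, 0, 0, 0, 0, 0, 0, 0, 0, 0, 5950, 5500, 4500, 4166, 3828, 3444, 2956, 2560, 2284, 2284, 2284, 2284, 2284, 2284, 2284, 2284],
  [0, 0, 0, 0, 0, 0, 0, 0, 0, 0, 0, 0, 0, 0, 0, 5116, 4678, 3544, 3056, 2670, 2284, 2284, 2284, 2284, 2284, 2284, 2284, 2284],
  [0, 0, 0, 0, 0, 0, 0, 0, 0, 0, 0, 0, 0, 0, 0, 0, 0, 0, 3806, 3360, 2570, 2434, 2434, 2434, 2434, 2434, 2434, 2434]]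

/-- the number of the row of t: the smallest i with t ≤ 12 + 3 i -/
def tI (t : ℕ) : ℕ := (t + 2) / 3 - 4

/-- the block lengths and thresholds for which the table may be used -/
def Sb (q t : ℕ) : Bool := Nat.ble 44 q || (Nat.ble 16 q && (Nat.ble t 33 && Nat.ble (3 * tI t + 13) q))

/-- the bound -/
def Bt (q t : ℕ) : ℕ := bif Nat.ble 44 q then 0 else (tabB.getD (tI t) []).getD (q - 16) 0

/-- the table as a predicate -/
def SP (q t : ℕ) : Prop := Sb q t = true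

end Pool.Agent.SQF4
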