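import Mathlib

/-!
The soft weights a(P) in thousandths.
-/

set_option autoImplicit false

namespace Pool.Agent.SQF4

/-- a(31), ..., a(43) in thousandths -/
def aL : List ℕ := [929, 857, 786, 714, 640, 571, 496, 429, 297, 247, 172, 122, 46]

/-- the weight of an event of half-length p, in thousandths: 1000 up to 30, 0 from 44 on -/
def aw (p : ℕ) : ℕ := if p ≤ 30 then 1000 else aL.getD (p - 31) 0

theorem aw_le (p : ℕ) : aw p ≤ 1000 := by
  unfold aw
  split_ifs
  · exact le_refl _
  · rcases Nat.lt_or_ge (p - 31) 13 with h | h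
    · have key : ∀ i : ℕ, i < 13 → aL.getD i 0 ≤ 1000 := by decide
      exact key _ h
    · have : aL.getD (p - 31) 0 = 0 := by
        rw [List.getD_eq_getElem?_getD, List.getElem?_eq_none (by simpa [aL] using h)]
        rfl
      omega

theorem aw_zero {p : ℕ} (h : 44 ≤ p) : aw p = 0 := by
  unfold aw
  rw [if_neg (by omega), List.getD_eq_getElem?_getD, List.getElem?_eq_none (by simp [aL]; omega)]
  rfl

theorem aw_one {p : ℕ} (h : p ≤ 30) : aw p = 1000 := by
  unfold aw
  rw [if_pos h]

end Pool.Agent.SQF4
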