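import Mathlib
import Pool.Agent.SQF.Def

/-!
Square-free words over FOUR letters: events with their centre, visible parts, certificates of a window.

An event (τ, P, c, g): a square of half-length P in the word with one letter inserted at the gap g (between the
positions g-1 and g); in the original word it occupies the 2P-1 positions [c-P+1, c+P), its middle letter is c.
τ = false: the inserted letter is in the first half, c-P+1 ≤ g < c, the letter is W (g+P-1);
τ = true: the inserted letter is in the second half, c+2 ≤ g ≤ c+P, the letter is W (g-P).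
-/

set_option autoImplicit false

namespace Pool.Agent.SQF4

/-- the position of the letter equal to the inserted letter -/
def hinge (τ : Bool) (P : ℕ) (g : ℤ) : ℤ := if τ then g - P else g + P - 1

/-- the comparisons of the event (τ, P, c, g) whose two positions lie in [lo, hi) -/
def Pot {β : Type*} (u : ℤ → β) (lo hi : ℤ) (τ : Bool) (P : ℕ) (c g : ℤ) : Prop :=
  if τ then
    c + 2 ≤ g ∧ g ≤ c + P ∧
    (∀ i : ℤ, c - P + 1 ≤ i → i < g - P → lo ≤ i → i + P < hi → u i = u (i + P)) ∧
    (∀ i : ℤ, g - P < i → i ≤ c → lo ≤ i → i + P - 1 < hi → u i = u (i + P - 1))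
  else
    c - P + 1 ≤ g ∧ g < c ∧
    (∀ i : ℤ, c - P + 1 ≤ i → i < g → lo ≤ i → i + P - 1 < hi → u i = u (i + P - 1)) ∧
    (∀ i : ℤ, g ≤ i → i < c → lo ≤ i → i + P < hi → u i = u (i + P))

/-- the event (τ, P, c, g) inside the bi-infinite word W, with the inserted letter y -/
def EvAt {β : Type*} (W : ℤ → β) (τ : Bool) (P : ℕ) (c g : ℤ) (y : β) : Prop :=
  Pot W (c - P + 1) (c + P) τ P c g ∧ W (hinge τ P g) = y

/-- an event inside the window [0, N) -/
def EvIn {γ : Type*} (u : ℤ → γ) (N : ℕ) (τ : Bool) (P : ℕ) (c g : ℤ) (y : γ) : Prop :=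
  0 ≤ c - P + 1 ∧ c + P ≤ N ∧ EvAt u τ P c g y

/-- the letter y differs from the visible neighbours of the gap g -/
def VisNT {γ : Type*} (u : ℤ → γ) (N : ℕ) (g : ℤ) (y : γ) : Prop :=
  (0 < g → g ≤ N → u (g - 1) ≠ y) ∧ (0 ≤ g → g < N → u g ≠ y)

/-- no event inside the window with the pair (g, y) and (half-length, type) lexicographically smaller than (P, τ) -/
def NoLess {γ : Type*} (u : ℤ → γ) (N : ℕ) (τ : Bool) (P : ℕ) (g : ℤ) (y : γ) : Prop :=
  ∀ (τ' : Bool) (P' : ℕ) (c' : ℤ), (P' < P ∨ (P' = P ∧ τ' = false ∧ τ = true)) → ¬ EvIn u N τ' P' c' g y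

/-- the pair of the potential event is not visible, or it is nontrivial, not in T, and has no smaller event -/
def Open {γ : Type*} (u : ℤ → γ) (N : ℕ) (T : Finset (ℤ × γ)) (τ : Bool) (P : ℕ) (g : ℤ) : Prop :=
  0 ≤ hinge τ P g → hinge τ P g < N → 0 ≤ g → g ≤ N →
    VisNT u N g (u (hinge τ P g)) ∧ (g, u (hinge τ P g)) ∉ T ∧ NoLess u N τ P g (u (hinge τ P g))

/-- T contains the pairs of the events inside the window [0, N) with centre in the block [A, A+t) and P < q -/
def CovT {γ : Type*} (u : ℤ → γ) (N A t q : ℕ) (T : Finset (ℤ × γ)) : Prop :=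
  ∀ (τ : Bool) (P : ℕ) (c g : ℤ) (y : γ), P < q → (A : ℤ) ≤ c → c < A + t → EvIn u N τ P c g y →
    VisNT u N g y → NoLess u N τ P g y → (g, y) ∈ T

/-- F contains (type, half-length) of the open potential events crossing the right end of the window only -/
def CovR {γ : Type*} (u : ℤ → γ) (N A t q : ℕ) (T : Finset (ℤ × γ)) (F : Finset (Bool × ℕ)) : Prop :=
  ∀ (τ : Bool) (P : ℕ) (c g : ℤ), P < q → (A : ℤ) ≤ c → c < A + t → 0 ≤ c - P + 1 → N < c + P →
    Pot u 0 N τ P c g → Open u N T τ P g → (τ, P) ∈ F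

/-- the same for the left end only -/
def CovL {γ : Type*} (u : ℤ → γ) (N A t q : ℕ) (T : Finset (ℤ × γ)) (F : Finset (Bool × ℕ)) : Prop :=
  ∀ (τ : Bool) (P : ℕ) (c g : ℤ), P < q → (A : ℤ) ≤ c → c < A + t → c - P + 1 < 0 → c + P ≤ N →
    Pot u 0 N τ P c g → Open u N T τ P g → (τ, P) ∈ F

/-- the same for both ends -/
def CovB {γ : Type*} (u : ℤ → γ) (N A t q : ℕ) (T : Finset (ℤ × γ)) (F : Finset (Bool × ℕ)) : Prop :=
  ∀ (τ : Bool) (P : ℕ) (c g : ℤ), P < q → (A : ℤ) ≤ c → c < A + t → c - P + 1 < 0 → N < c + P →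
    Pot u 0 N τ P c g → Open u N T τ P g → (τ, P) ∈ F

/-- certificate of the window u on [0, N) with the block [A, A+t) -/
structure Cert {γ : Type*} (u : ℤ → γ) (N A t q : ℕ) (T : Finset (ℤ × γ)) (FR FL FB : Finset (Bool × ℕ)) : Prop where
  hT : CovT u N A t q T
  hR : CovR u N A t q T FR
  hL : CovL u N A t q T FL
  hB : CovB u N A t q T FB

end Pool.Agent.SQF4
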