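import Mathlib
import Pool.Agent.SQF4.Def

/-!
Events: conversion from and to LEv / REv, events lie inside [0, n), two events of the same type and half-length
whose centres differ by at most P - 2 belong to the same pair.
-/

set_option autoImplicit false

namespace Pool.Agent.SQF4

open Pool.Agent.SQF

variable {β : Type*} {W : ℤ → β} {n : ℕ}

theorem evAt_false {P : ℕ} {c g : ℤ} {y : β} : EvAt W false P c g y ↔
    c - P + 1 ≤ g ∧ g < c ∧ (∀ i : ℤ, c - P + 1 ≤ i → i < g → W i = W (i + P - 1)) ∧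
    (∀ i : ℤ, g ≤ i → i < c → W i = W (i + P)) ∧ W (g + P - 1) = y := by
  unfold EvAt Pot hinge
  simp only [Bool.false_eq_true, if_false]
  constructor
  · rintro ⟨⟨h1, h2, h3, h4⟩, h5⟩
    exact ⟨h1, h2, fun i hi hj => h3 i hi hj (by omega) (by omega),
      fun i hi hj => h4 i hi hj (by omega) (by omega), h5⟩
  · rintro ⟨h1, h2, h3, h4, h5⟩
    exact ⟨⟨h1, h2, fun i hi hj _ _ => h3 i hi hj, fun i hi hj _ _ => h4 i hi hj⟩, h5⟩

theorem evAt_true {P : ℕ} {c g : ℤ} {y : β} : EvAt W true P c g y ↔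
    c + 2 ≤ g ∧ g ≤ c + P ∧ (∀ i : ℤ, c - P + 1 ≤ i → i < g - P → W i = W (i + P)) ∧
    (∀ i : ℤ, g - P < i → i ≤ c → W i = W (i + P - 1)) ∧ W (g - P) = y := by
  unfold EvAt Pot hinge
  simp only [if_true]
  constructor
  · rintro ⟨⟨h1, h2, h3, h4⟩, h5⟩
    exact ⟨h1, h2, fun i hi hj => h3 i hi hj (by omega) (by omega),
      fun i hi hj => h4 i hi hj (by omega) (by omega), h5⟩
  · rintro ⟨h1, h2, h3, h4, h5⟩
    exact ⟨⟨h1, h2, fun i hi hj _ _ => h3 i hi hj, fun i hi hj _ _ => h4 i hi hj⟩, h5⟩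

theorem EvAt.two_le {τ : Bool} {P : ℕ} {c g : ℤ} {y : β} (h : EvAt W τ P c g y) : 2 ≤ P := by
  cases τ
  · obtain ⟨h1, h2, -⟩ := evAt_false.1 h
    omega
  · obtain ⟨h1, h2, -⟩ := evAt_true.1 h
    omega

theorem EvAt.hinge_eq {τ : Bool} {P : ℕ} {c g : ℤ} {y : β} (h : EvAt W τ P c g y) : W (hinge τ P g) = y := h.2

theorem hinge_mem {τ : Bool} {P : ℕ} {c g : ℤ} {y : β} (h : EvAt W τ P c g y) :
    c - P + 1 ≤ hinge τ P g ∧ hinge τ P g < c + P := by
  cases τ
  · obtain ⟨h1, h2, -⟩ := evAt_false.1 h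
    simp only [hinge, Bool.false_eq_true, if_false]
    have := h.two_le
    omega
  · obtain ⟨h1, h2, -⟩ := evAt_true.1 h
    simp only [hinge, if_true]
    omega

theorem gap_mem {τ : Bool} {P : ℕ} {c g : ℤ} {y : β} (h : EvAt W τ P c g y) :
    c - P + 1 ≤ g ∧ g ≤ c + P := by
  cases τ
  · obtain ⟨h1, h2, -⟩ := evAt_false.1 h
    have := h.two_le
    omega
  · obtain ⟨h1, h2, -⟩ := evAt_true.1 h
    have := h.two_le
    omega

theorem evAt_of_LEv {g : ℤ} {x : β} {P b : ℕ} (h : LEv W g x P b) : EvAt W false P (g - b + P - 1) g x := by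
  obtain ⟨h1, h2, h3, h4⟩ := h
  refine evAt_false.2 ⟨by omega, by omega, fun i hi hj => ?_, fun i hi hj => ?_, h2⟩
  · have := h3 (g - 1 - i).toNat (by omega)
    have e : g - 1 - ((g - 1 - i).toNat : ℤ) = i := by omega
    rw [e] at this
    rw [this]
    congr 1
    omega
  · have := h4 (i - g).toNat (by omega)
    have e : g + ((i - g).toNat : ℤ) = i := by omega
    rw [e] at this
    rw [this]

theorem evAt_of_REv {g : ℤ} {x : β} {P b : ℕ} (h : REv W g x P b) : EvAt W true P (g - b - 1) g x := by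
  obtain ⟨h0, h1, h2, h3, h4⟩ := h
  refine evAt_true.2 ⟨by omega, by omega, fun i hi hj => ?_, fun i hi hj => ?_, h2⟩
  · have := h3 (g - 1 - i - P).toNat (by omega)
    have e : g - 1 - ((g - 1 - i - P).toNat : ℤ) = i + P := by omega
    rw [e] at this
    rw [this]
    congr 1
    omega
  · have := h4 (i - g + P - 1).toNat (by omega)
    have e : g + ((i - g + P - 1).toNat : ℤ) = i + P - 1 := by omega
    rw [e] at this
    rw [this]
    congr 1
    omega

theorem EvAt.ev {τ : Bool} {P : ℕ} {c g : ℤ} {y : β} (h : EvAt W τ P c g y) : Ev W g y P := by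
  cases τ
  · obtain ⟨h1, h2, h3, h4, h5⟩ := evAt_false.1 h
    have hP := h.two_le
    refine ⟨(g - c + P - 1).toNat, Or.inl ⟨by omega, h5, fun t ht => ?_, fun t ht => ?_⟩⟩
    · have := h3 (g - 1 - t) (by omega) (by omega)
      rw [this]
      congr 1
      omega
    · exact h4 (g + t) (by omega) (by omega)
  · obtain ⟨h1, h2, h3, h4, h5⟩ := evAt_true.1 h
    have hP := h.two_le
    refine ⟨(g - c - 1).toNat, Or.inr ⟨by omega, by omega, h5, fun t ht => ?_, fun t ht => ?_⟩⟩
    · have := h3 (g - 1 - t - P) (by omega) (by omega)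
      rw [this]
      congr 1
      omega
    · have := h4 (g + t - (P - 1)) (by omega) (by omega)
      rw [this]
      congr 1
      omega

theorem exists_evAt {g : ℤ} {x : β} {P : ℕ} (h : Ev W g x P) : ∃ (τ : Bool) (c : ℤ), EvAt W τ P c g x := by
  obtain ⟨b, h | h⟩ := h
  · exact ⟨false, _, evAt_of_LEv h⟩
  · exact ⟨true, _, evAt_of_REv h⟩

/-- all the positions of an event lie in [0, n) -/
theorem EvAt.inside (hF : Fresh W n) {τ : Bool} {P : ℕ} {c g : ℤ} {y : β} (h : EvAt W τ P c g y) :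
    0 ≤ c - P + 1 ∧ c + P ≤ n := by
  have hP := h.two_le
  cases τ
  · obtain ⟨h1, h2, h3, h4, -⟩ := evAt_false.1 h
    constructor
    · by_contra hc
      rcases lt_or_eq_of_le h1 with h5 | h5
      · exact hF (c - P + 1) (Or.inl (by omega)) (c - P + 1 + P - 1) (by omega)
          (h3 _ (le_refl _) h5).symm
      · exact hF (c - P + 1) (Or.inl (by omega)) (c - P + 1 + P) (by omega)
          (h4 _ (by omega) (by omega)).symm
    · by_contra hc
      exact hF (c - 1 + P) (Or.inr (by omega)) (c - 1) (by omega) (h4 _ (by omega) (by omega))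
  · obtain ⟨h1, h2, h3, h4, -⟩ := evAt_true.1 h
    constructor
    · by_contra hc
      exact hF (c - P + 1) (Or.inl (by omega)) (c - P + 1 + P) (by omega)
        (h3 _ (le_refl _) (by omega)).symm
    · by_contra hc
      rcases lt_or_eq_of_le h2 with h5 | h5
      · exact hF (c + P - 1) (Or.inr (by omega)) c (by omega) (h4 _ (by omega) (le_refl _))
      · exact hF (c - 1 + P) (Or.inr (by omega)) (c - 1) (by omega) (h3 _ (by omega) (by omega))

private theorem noDouble (hW : Sqf W) (i : ℤ) : W i ≠ W (i + 1) := by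
  obtain ⟨j, hj, h⟩ := hW i 1 (by omega)
  have e : j = 0 := by omega
  subst e
  simpa using h

private theorem noRun (hW : Sqf W) (s : ℤ) (p : ℕ) (hp : 0 < p)
    (h : ∀ i : ℤ, s ≤ i → i < s + p → W i = W (i + p)) : False := by
  obtain ⟨j, hj, hne⟩ := hW s p hp
  exact hne (h (s + j) (by omega) (by omega))

private theorem sameF_aux (hW : Sqf W) {P : ℕ} {c c' g g' : ℤ} {y y' : β} (h : EvAt W false P c g y)
    (h' : EvAt W false P c' g' y') (h1 : c - c' ≤ P - 2) (h2 : c' - c ≤ P - 2) : ¬ g < g' := by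
  intro hlt
  obtain ⟨a1, a2, a3, a4, -⟩ := evAt_false.1 h
  obtain ⟨b1, b2, b3, b4, -⟩ := evAt_false.1 h'
  by_cases hs : g' ≤ c' - P + 1
  · refine noRun hW g P (by omega) (fun i hi hj => ?_)
    by_cases hic : i < c
    · exact a4 i hi hic
    · exact b4 i (by omega) (by omega)
  · -- a point i in both first halves with g ≤ i < g'
    have hi : ∃ i : ℤ, g ≤ i ∧ i < g' ∧ i < c ∧ c' - P + 1 ≤ i := by
      rcases le_total g (c' - P + 1) with hg | hg
      · exact ⟨c' - P + 1, hg, by omega, by omega, le_refl _⟩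
      · exact ⟨g, le_refl _, hlt, a2, hg⟩
    obtain ⟨i, i1, i2, i3, i4⟩ := hi
    have e1 := a4 i i1 i3
    have e2 := b3 i i4 i2
    apply noDouble hW (i + P - 1)
    rw [← e2, e1]
    congr 1
    ring

private theorem sameT_aux (hW : Sqf W) {P : ℕ} {c c' g g' : ℤ} {y y' : β} (h : EvAt W true P c g y)
    (h' : EvAt W true P c' g' y') (h1 : c - c' ≤ P - 2) (h2 : c' - c ≤ P - 2) : ¬ g < g' := by
  intro hlt
  obtain ⟨a1, a2, a3, a4, -⟩ := evAt_true.1 h
  obtain ⟨b1, b2, b3, b4, -⟩ := evAt_true.1 h'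
  by_cases hs : c + P ≤ g
  · refine noRun hW (c - P + 1) P (by omega) (fun i hi hj => ?_)
    by_cases hic : i < g - P
    · exact a3 i hi hic
    · exact b3 i (by omega) (by omega)
  · -- a position j in both second halves with g ≤ j < g'
    have hj : ∃ j : ℤ, g ≤ j ∧ j < g' ∧ c' + 1 ≤ j ∧ j < c + P := by
      rcases le_total g (c' + 1) with hg | hg
      · exact ⟨c' + 1, hg, by omega, le_refl _, by omega⟩
      · exact ⟨g, le_refl _, hlt, hg, by omega⟩
    obtain ⟨j, j1, j2, j3, j4⟩ := hj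
    have e1 := a4 (j - P + 1) (by omega) (by omega)
    have e2 := b3 (j - P) (by omega) (by omega)
    apply noDouble hW (j - P)
    have e3 : j - P + 1 + P - 1 = j := by ring
    have e4 : j - P + P = j := by ring
    rw [e3] at e1
    rw [e4] at e2
    rw [e2, e1]

/-- same type, same half-length, centres at distance at most P - 2: the same pair -/
theorem same_pair (hW : Sqf W) {τ : Bool} {P : ℕ} {c c' g g' : ℤ} {y y' : β} (h : EvAt W τ P c g y)
    (h' : EvAt W τ P c' g' y') (h1 : c - c' ≤ P - 2) (h2 : c' - c ≤ P - 2) : g = g' ∧ y = y' := by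
  have hg : g = g' := by
    cases τ
    · have e1 := sameF_aux hW h h' h1 h2
      have e2 := sameF_aux hW h' h h2 h1
      omega
    · have e1 := sameT_aux hW h h' h1 h2
      have e2 := sameT_aux hW h' h h2 h1
      omega
  refine ⟨hg, ?_⟩
  rw [← h.hinge_eq, ← h'.hinge_eq, hg]

end Pool.Agent.SQF4
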