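import Mathlib
import Pool.Agent.SQF4.Ev

/-!
BLOCK THEOREM: a certificate of a window bounds the weight of the pairs whose chosen event has its centre in the block.
-/

set_option autoImplicit false

namespace Pool.Agent.SQF4

open Pool.Agent.SQF

variable {β : Type*} {W : ℤ → β} {n : ℕ}

/-- every pair of Z is nontrivial and has a chosen event (τ, P, c), (P, τ) lexicographically minimal -/
structure Wit (W : ℤ → β) (Z : Finset (ℤ × β)) (τ : ℤ × β → Bool) (P : ℤ × β → ℕ) (c : ℤ × β → ℤ) : Prop where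
  nt : ∀ z ∈ Z, NonTriv W z
  ev : ∀ z ∈ Z, EvAt W (τ z) (P z) (c z) z.1 z.2
  mn : ∀ z ∈ Z, ∀ (τ' : Bool) (P' : ℕ) (c' : ℤ), EvAt W τ' P' c' z.1 z.2 →
    P z < P' ∨ (P z = P' ∧ (τ z = true → τ' = true))

/-- the pairs with centre in [x, x + t) -/
def blk (Z : Finset (ℤ × β)) (c : ℤ × β → ℤ) (x : ℤ) (t : ℕ) : Finset (ℤ × β) :=
  Z.filter (fun z => x ≤ c z ∧ c z < x + t)

section transfer

variable {γ : Type*} {φ : β → γ} {u : ℤ → γ} {lo : ℤ} {N : ℕ}

theorem pot_transfer (hu : ∀ i : ℤ, 0 ≤ i → i < N → u i = φ (W (lo + i))) {τ : Bool} {P : ℕ} {c g : ℤ} {y : β}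
    (h : EvAt W τ P c g y) : Pot u 0 N τ P (c - lo) (g - lo) := by
  have hP := h.two_le
  cases τ
  · obtain ⟨h1, h2, h3, h4, -⟩ := evAt_false.1 h
    unfold Pot
    simp only [Bool.false_eq_true, if_false]
    refine ⟨by omega, by omega, fun i hi hj hl hr => ?_, fun i hi hj hl hr => ?_⟩
    · rw [hu i hl (by omega), hu (i + P - 1) (by omega) hr, h3 (lo + i) (by omega) (by omega)]
      congr 2
      ring
    · rw [hu i hl (by omega), hu (i + P) (by omega) hr, h4 (lo + i) (by omega) (by omega)]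
      congr 2
      ring
  · obtain ⟨h1, h2, h3, h4, -⟩ := evAt_true.1 h
    unfold Pot
    simp only [if_true]
    refine ⟨by omega, by omega, fun i hi hj hl hr => ?_, fun i hi hj hl hr => ?_⟩
    · rw [hu i hl (by omega), hu (i + P) (by omega) hr, h3 (lo + i) (by omega) (by omega)]
      congr 2
      ring
    · rw [hu i hl (by omega), hu (i + P - 1) (by omega) hr, h4 (lo + i) (by omega) (by omega)]
      congr 2
      ring

theorem evIn_transfer (hu : ∀ i : ℤ, 0 ≤ i → i < N → u i = φ (W (lo + i))) {τ : Bool} {P : ℕ} {c g : ℤ} {y : β}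
    (h : EvAt W τ P c g y) (h1 : lo ≤ c - P + 1) (h2 : c + P ≤ lo + N) :
    EvIn u N τ P (c - lo) (g - lo) (φ y) := by
  refine ⟨by omega, by omega, ?_, ?_⟩
  · have h3 := pot_transfer hu h
    cases τ
    · unfold Pot at h3 ⊢
      simp only [Bool.false_eq_true, if_false] at h3 ⊢
      obtain ⟨a1, a2, a3, a4⟩ := h3
      exact ⟨a1, a2, fun i hi hj _ _ => a3 i hi hj (by omega) (by omega),
        fun i hi hj _ _ => a4 i hi hj (by omega) (by omega)⟩
    · unfold Pot at h3 ⊢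
      simp only [if_true] at h3 ⊢
      obtain ⟨a1, a2, a3, a4⟩ := h3
      exact ⟨a1, a2, fun i hi hj _ _ => a3 i hi hj (by omega) (by omega),
        fun i hi hj _ _ => a4 i hi hj (by omega) (by omega)⟩
  · have h3 := hinge_mem h
    have e : hinge τ P (g - lo) = hinge τ P g - lo := by
      unfold hinge
      split_ifs <;> ring
    rw [e, hu _ (by omega) (by omega), ← h.hinge_eq]
    congr 2
    ring

theorem evAt_of_evIn (hu : ∀ i : ℤ, 0 ≤ i → i < N → u i = φ (W (lo + i)))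
    (hφ : ∀ i j : ℤ, 0 ≤ i → i < N → 0 ≤ j → j < N → φ (W (lo + i)) = φ (W (lo + j)) → W (lo + i) = W (lo + j))
    {τ : Bool} {P : ℕ} {c g : ℤ} {k : ℤ} (hk : 0 ≤ k) (hk2 : k < N)
    (h : EvIn u N τ P c g (u k)) : EvAt W τ P (c + lo) (g + lo) (W (lo + k)) := by
  have key : ∀ i j : ℤ, 0 ≤ i → i < N → 0 ≤ j → j < N → u i = u j → W (lo + i) = W (lo + j) := by
    intro i j h1 h2 h3 h4 h5
    apply hφ i j h1 h2 h3 h4
    rw [← hu i h1 h2, ← hu j h3 h4, h5]
  obtain ⟨h1, h2, h3⟩ := h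
  have hP := h3.two_le
  cases τ
  · obtain ⟨a1, a2, a3, a4, a5⟩ := evAt_false.1 h3
    refine evAt_false.2 ⟨by omega, by omega, fun i hi hj => ?_, fun i hi hj => ?_, ?_⟩
    · have := key (i - lo) (i - lo + P - 1) (by omega) (by omega) (by omega) (by omega)
        (a3 (i - lo) (by omega) (by omega))
      have e1 : lo + (i - lo) = i := by ring
      have e2 : lo + (i - lo + P - 1) = i + P - 1 := by ring
      rwa [e1, e2] at this
    · have := key (i - lo) (i - lo + P) (by omega) (by omega) (by omega) (by omega)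
        (a4 (i - lo) (by omega) (by omega))
      have e1 : lo + (i - lo) = i := by ring
      have e2 : lo + (i - lo + P) = i + P := by ring
      rwa [e1, e2] at this
    · have := key (g + P - 1) k (by omega) (by omega) hk hk2 a5
      rw [← this]
      congr 1
      ring
  · obtain ⟨a1, a2, a3, a4, a5⟩ := evAt_true.1 h3
    refine evAt_true.2 ⟨by omega, by omega, fun i hi hj => ?_, fun i hi hj => ?_, ?_⟩
    · have := key (i - lo) (i - lo + P) (by omega) (by omega) (by omega) (by omega)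
        (a3 (i - lo) (by omega) (by omega))
      have e1 : lo + (i - lo) = i := by ring
      have e2 : lo + (i - lo + P) = i + P := by ring
      rwa [e1, e2] at this
    · have := key (i - lo) (i - lo + P - 1) (by omega) (by omega) (by omega) (by omega)
        (a4 (i - lo) (by omega) (by omega))
      have e1 : lo + (i - lo) = i := by ring
      have e2 : lo + (i - lo + P - 1) = i + P - 1 := by ring
      rwa [e1, e2] at this
    · have := key (g - P) k (by omega) (by omega) hk hk2 a5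
      rw [← this]
      congr 1
      ring

end transfer

theorem sum_le_flags (hW : Sqf W) {Z : Finset (ℤ × β)} {τ : ℤ × β → Bool} {P : ℤ × β → ℕ} {c : ℤ × β → ℤ}
    (hwit : Wit W Z τ P c) (a : ℕ → ℕ) (X : Finset (ℤ × β)) (hX : X ⊆ Z) (F : Finset (Bool × ℕ))
    (hF : ∀ z ∈ X, (τ z, P z) ∈ F)
    (hc : ∀ z ∈ X, ∀ z' ∈ X, P z = P z' → c z - c z' ≤ P z - 2) :
    ∑ z ∈ X, a (P z) ≤ ∑ f ∈ F, a f.2 := by
  classical
  have hinj : Set.InjOn (fun z => (τ z, P z)) (X : Set (ℤ × β)) := by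
    intro z hz z' hz' h
    simp only [Prod.mk.injEq] at h
    have h1 := hwit.ev z (hX hz)
    have h2 := hwit.ev z' (hX hz')
    rw [← h.1, ← h.2] at h2
    have h3 := hc z hz z' hz' h.2
    have h4 := hc z' hz' z hz h.2.symm
    rw [← h.2] at h4
    have := same_pair hW h1 h2 h3 h4
    exact Prod.ext this.1 this.2
  calc ∑ z ∈ X, a (P z) = ∑ z ∈ X, (fun f : Bool × ℕ => a f.2) ((fun z => (τ z, P z)) z) := rfl
    _ = ∑ f ∈ X.image (fun z => (τ z, P z)), a f.2 := by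
        rw [Finset.sum_image hinj]
    _ ≤ ∑ f ∈ F, a f.2 := by
        apply Finset.sum_le_sum_of_subset
        intro f hf
        rw [Finset.mem_image] at hf
        obtain ⟨z, hz, rfl⟩ := hf
        exact hF z hz

/-- general form: the cover of an end may be replaced by the fact that no event crosses this end -/
theorem block_gen (hW : Sqf W) {Z : Finset (ℤ × β)} {τ : ℤ × β → Bool} {P : ℤ × β → ℕ} {c : ℤ × β → ℤ}
    (hwit : Wit W Z τ P c) (a : ℕ → ℕ) (D : ℕ) (ha : ∀ p, a p ≤ D) (lo : ℤ) (N A t q : ℕ) (hAt : A + t ≤ N)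
    {γ : Type*} (φ : β → γ) (u : ℤ → γ) (hu : ∀ i : ℤ, 0 ≤ i → i < N → u i = φ (W (lo + i)))
    (hφ : ∀ i j : ℤ, 0 ≤ i → i < N → 0 ≤ j → j < N → φ (W (lo + i)) = φ (W (lo + j)) → W (lo + i) = W (lo + j))
    {T : Finset (ℤ × γ)} {FR FL FB : Finset (Bool × ℕ)} (hT : CovT u N A t q T)
    (hR : CovR u N A t q T FR ∨ ∀ z ∈ Z, c z + P z ≤ lo + N)
    (hL : CovL u N A t q T FL ∨ ∀ z ∈ Z, lo ≤ c z - P z + 1)
    (hRL : CovB u N A t q T FB ∨ (∀ z ∈ Z, c z + P z ≤ lo + N) ∨ ∀ z ∈ Z, lo ≤ c z - P z + 1) (B : ℕ)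
    (hB : ∑ z ∈ (blk Z c (lo + A) t).filter (fun z => q ≤ P z), a (P z) ≤ B) :
    ∑ z ∈ blk Z c (lo + A) t, a (P z) ≤
      D * T.card + ∑ f ∈ FR, a f.2 + ∑ f ∈ FL, a f.2 + ∑ f ∈ FB, a f.2 + B := by
  classical
  -- the pair of z is visible and belongs to T
  set good : ℤ × β → Prop := fun z => 0 ≤ hinge (τ z) (P z) (z.1 - lo) ∧ hinge (τ z) (P z) (z.1 - lo) < N ∧
    (z.1 - lo, u (hinge (τ z) (P z) (z.1 - lo))) ∈ T with hgood
  have hmem : ∀ z ∈ blk Z c (lo + A) t, z ∈ Z ∧ lo + A ≤ c z ∧ c z < lo + A + t := by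
    intro z hz
    have := Finset.mem_filter.1 hz
    exact ⟨this.1, this.2.1, this.2.2⟩
  have hhin : ∀ z : ℤ × β, hinge (τ z) (P z) (z.1 - lo) = hinge (τ z) (P z) z.1 - lo := by
    intro z
    unfold hinge
    split_ifs <;> ring
  have huh : ∀ z ∈ Z, 0 ≤ hinge (τ z) (P z) (z.1 - lo) → hinge (τ z) (P z) (z.1 - lo) < N →
      u (hinge (τ z) (P z) (z.1 - lo)) = φ z.2 ∧ W (lo + hinge (τ z) (P z) (z.1 - lo)) = z.2 := by
    intro z hz h1 h2
    have e : W (lo + hinge (τ z) (P z) (z.1 - lo)) = z.2 := by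
      have h3 := (hwit.ev z hz).hinge_eq
      rw [← h3, hhin z]
      congr 1
      ring
    exact ⟨by rw [hu _ h1 h2, e], e⟩
  -- a pair which is not good is open
  have hopen : ∀ z ∈ Z, ¬ good z → Open u N T (τ z) (P z) (z.1 - lo) := by
    intro z hz hng h1 h2 h3 h4
    obtain ⟨e1, e2⟩ := huh z hz h1 h2
    have hnt := hwit.nt z hz
    refine ⟨⟨fun h5 h6 h7 => ?_, fun h5 h6 h7 => ?_⟩, fun h5 => hng ⟨h1, h2, h5⟩, fun τ' P' c' hP' hev => ?_⟩
    · rw [hu _ (by omega) (by omega), hu _ h1 h2] at h7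
      have h8 := hφ _ _ (by omega) (by omega) h1 h2 h7
      rw [e2] at h8
      apply hnt.1
      rw [← h8]
      congr 1
      ring
    · rw [hu _ (by omega) (by omega), hu _ h1 h2] at h7
      have h8 := hφ _ _ (by omega) (by omega) h1 h2 h7
      rw [e2] at h8
      apply hnt.2
      rw [← h8]
      congr 1
      ring
    · have h5 := evAt_of_evIn hu hφ h1 h2 hev
      rw [e2] at h5
      have e3 : z.1 - lo + lo = z.1 := by ring
      rw [e3] at h5
      rcases hwit.mn z hz τ' P' _ h5 with h6 | ⟨h6, h7⟩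
      · rcases hP' with h8 | ⟨h8, -, -⟩ <;> omega
      · rcases hP' with h8 | ⟨-, h8, h9⟩
        · omega
        · rw [h7 h9] at h8
          exact absurd h8 (by decide)
  have hpot : ∀ z ∈ Z, Pot u 0 N (τ z) (P z) (c z - lo) (z.1 - lo) := fun z hz =>
    pot_transfer hu (hwit.ev z hz)
  -- inside pairs are good
  have hin : ∀ z ∈ blk Z c (lo + A) t, P z < q → lo ≤ c z - P z + 1 → c z + P z ≤ lo + N → good z := by
    intro z hz hq h1 h2
    obtain ⟨hZ, hx1, hx2⟩ := hmem z hz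
    have hev := hwit.ev z hZ
    have h3 := evIn_transfer hu hev h1 h2
    have h4 := hinge_mem hev
    have h5 : 0 ≤ hinge (τ z) (P z) (z.1 - lo) := by rw [hhin]; omega
    have h6 : hinge (τ z) (P z) (z.1 - lo) < N := by rw [hhin]; omega
    obtain ⟨e1, e2⟩ := huh z hZ h5 h6
    have h7 := gap_mem hev
    refine ⟨h5, h6, ?_⟩
    by_contra hnT
    obtain ⟨o1, -, o3⟩ := hopen z hZ (fun hg => hnT hg.2.2) h5 h6 (by omega) (by omega)
    apply hnT
    rw [e1] at o1 o3 ⊢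
    exact hT (τ z) (P z) (c z - lo) (z.1 - lo) (φ z.2) hq (by omega) (by omega) h3 o1 o3
  -- the sum over the good pairs
  set G := (blk Z c (lo + A) t).filter (fun z => good z ∧ P z < q) with hG
  set XR := (blk Z c (lo + A) t).filter (fun z => ¬ good z ∧ P z < q ∧ lo ≤ c z - P z + 1 ∧ lo + N < c z + P z) with hXR
  set XL := (blk Z c (lo + A) t).filter (fun z => ¬ good z ∧ P z < q ∧ c z - P z + 1 < lo ∧ c z + P z ≤ lo + N) with hXL
  set XB := (blk Z c (lo + A) t).filter (fun z => ¬ good z ∧ P z < q ∧ c z - P z + 1 < lo ∧ lo + N < c z + P z) with hXB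
  set XQ := (blk Z c (lo + A) t).filter (fun z => q ≤ P z) with hXQ
  have hblkZ : blk Z c (lo + A) t ⊆ Z := Finset.filter_subset _ _
  have sG : ∑ z ∈ G, a (P z) ≤ D * T.card := by
    have h1 : ∑ z ∈ G, a (P z) ≤ ∑ z ∈ G, D := Finset.sum_le_sum (fun z _ => ha _)
    rw [Finset.sum_const, smul_eq_mul, mul_comm] at h1
    refine h1.trans (Nat.mul_le_mul_left _ ?_)
    apply Finset.card_le_card_of_injOn (fun z => (z.1 - lo, u (hinge (τ z) (P z) (z.1 - lo))))
    · intro z hz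
      exact (Finset.mem_filter.1 hz).2.1.2.2
    · intro z hz z' hz' h
      obtain ⟨hz1, ⟨g1, g2, -⟩, -⟩ := Finset.mem_filter.1 hz
      obtain ⟨hz1', ⟨g1', g2', -⟩, -⟩ := Finset.mem_filter.1 hz'
      simp only [Prod.mk.injEq] at h
      obtain ⟨-, e2⟩ := huh z (hblkZ hz1) g1 g2
      obtain ⟨-, e2'⟩ := huh z' (hblkZ hz1') g1' g2'
      have h3 := h.2
      rw [hu _ g1 g2, hu _ g1' g2'] at h3
      have h4 := hφ _ _ g1 g2 g1' g2' h3
      rw [e2, e2'] at h4
      exact Prod.ext (by omega) h4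
  have sR : ∑ z ∈ XR, a (P z) ≤ ∑ f ∈ FR, a f.2 := by
    refine sum_le_flags hW hwit a XR ((Finset.filter_subset _ _).trans hblkZ) FR (fun z hz => ?_) (fun z hz z' hz' hP => ?_)
    · obtain ⟨h1, h2, h3, h4, h5⟩ := Finset.mem_filter.1 hz
      obtain ⟨hZ, hx1, hx2⟩ := hmem z h1
      rcases hR with hR | hR
      · exact hR (τ z) (P z) (c z - lo) (z.1 - lo) h3 (by omega) (by omega) (by omega) (by omega)
          (hpot z hZ) (hopen z hZ h2)
      · have := hR z hZ
        omega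
    · obtain ⟨h1, h2, h3, h4, h5⟩ := Finset.mem_filter.1 hz
      obtain ⟨hZ, hx1, hx2⟩ := hmem z h1
      obtain ⟨h1', h2', h3', h4', h5'⟩ := Finset.mem_filter.1 hz'
      omega
  have sL : ∑ z ∈ XL, a (P z) ≤ ∑ f ∈ FL, a f.2 := by
    refine sum_le_flags hW hwit a XL ((Finset.filter_subset _ _).trans hblkZ) FL (fun z hz => ?_) (fun z hz z' hz' hP => ?_)
    · obtain ⟨h1, h2, h3, h4, h5⟩ := Finset.mem_filter.1 hz
      obtain ⟨hZ, hx1, hx2⟩ := hmem z h1
      rcases hL with hL | hL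
      · exact hL (τ z) (P z) (c z - lo) (z.1 - lo) h3 (by omega) (by omega) (by omega) (by omega)
          (hpot z hZ) (hopen z hZ h2)
      · have := hL z hZ
        omega
    · obtain ⟨h1, h2, h3, h4, h5⟩ := Finset.mem_filter.1 hz
      obtain ⟨h1', h2', h3', h4', h5'⟩ := Finset.mem_filter.1 hz'
      obtain ⟨hZ', hx1', hx2'⟩ := hmem z' h1'
      omega
  have sB : ∑ z ∈ XB, a (P z) ≤ ∑ f ∈ FB, a f.2 := by
    refine sum_le_flags hW hwit a XB ((Finset.filter_subset _ _).trans hblkZ) FB (fun z hz => ?_) (fun z hz z' hz' hP => ?_)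
    · obtain ⟨h1, h2, h3, h4, h5⟩ := Finset.mem_filter.1 hz
      obtain ⟨hZ, hx1, hx2⟩ := hmem z h1
      rcases hRL with hR | hR | hR
      · exact hR (τ z) (P z) (c z - lo) (z.1 - lo) h3 (by omega) (by omega) (by omega) (by omega)
          (hpot z hZ) (hopen z hZ h2)
      · have := hR z hZ
        omega
      · have := hR z hZ
        omega
    · obtain ⟨h1, h2, h3, h4, h5⟩ := Finset.mem_filter.1 hz
      obtain ⟨h1', h2', h3', h4', h5'⟩ := Finset.mem_filter.1 hz'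
      obtain ⟨hZ', hx1', hx2'⟩ := hmem z' h1'
      omega
  have hcover : blk Z c (lo + A) t ⊆ G ∪ (XR ∪ (XL ∪ (XB ∪ XQ))) := by
    intro z hz
    simp only [Finset.mem_union, hG, hXR, hXL, hXB, hXQ, Finset.mem_filter]
    by_cases hq : P z < q
    · by_cases hg : good z
      · exact Or.inl ⟨hz, hg, hq⟩
      · by_cases hl : lo ≤ c z - P z + 1
        · by_cases hr : c z + P z ≤ lo + N
          · exact absurd (hin z hz hq hl hr) hg
          · exact Or.inr (Or.inl ⟨hz, hg, hq, hl, by omega⟩)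
        · by_cases hr : c z + P z ≤ lo + N
          · exact Or.inr (Or.inr (Or.inl ⟨hz, hg, hq, by omega, hr⟩))
          · exact Or.inr (Or.inr (Or.inr (Or.inl ⟨hz, hg, hq, by omega, by omega⟩)))
    · exact Or.inr (Or.inr (Or.inr (Or.inr ⟨hz, by omega⟩)))
  have hun : ∀ X Y : Finset (ℤ × β), ∑ z ∈ X ∪ Y, a (P z) ≤ ∑ z ∈ X, a (P z) + ∑ z ∈ Y, a (P z) := by
    intro X Y
    rw [← Finset.sum_union_inter]
    exact Nat.le_add_right _ _
  have h0 := Finset.sum_le_sum_of_subset (f := fun z => a (P z)) hcover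
  have h1 := hun G (XR ∪ (XL ∪ (XB ∪ XQ)))
  have h2 := hun XR (XL ∪ (XB ∪ XQ))
  have h3 := hun XL (XB ∪ XQ)
  have h4 := hun XB XQ
  omega

theorem block (hW : Sqf W) {Z : Finset (ℤ × β)} {τ : ℤ × β → Bool} {P : ℤ × β → ℕ} {c : ℤ × β → ℤ}
    (hwit : Wit W Z τ P c) (a : ℕ → ℕ) (D : ℕ) (ha : ∀ p, a p ≤ D) (lo : ℤ) (N A t q : ℕ) (hAt : A + t ≤ N)
    {γ : Type*} (φ : β → γ) (u : ℤ → γ) (hu : ∀ i : ℤ, 0 ≤ i → i < N → u i = φ (W (lo + i)))
    (hφ : ∀ i j : ℤ, 0 ≤ i → i < N → 0 ≤ j → j < N → φ (W (lo + i)) = φ (W (lo + j)) → W (lo + i) = W (lo + j))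
    {T : Finset (ℤ × γ)} {FR FL FB : Finset (Bool × ℕ)} (hc : Cert u N A t q T FR FL FB) (B : ℕ)
    (hB : ∑ z ∈ (blk Z c (lo + A) t).filter (fun z => q ≤ P z), a (P z) ≤ B) :
    ∑ z ∈ blk Z c (lo + A) t, a (P z) ≤
      D * T.card + ∑ f ∈ FR, a f.2 + ∑ f ∈ FL, a f.2 + ∑ f ∈ FB, a f.2 + B :=
  block_gen hW hwit a D ha lo N A t q hAt φ u hu hφ hc.hT (Or.inl hc.hR) (Or.inl hc.hL) (Or.inl hc.hB) B hB

end Pool.Agent.SQF4
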