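import Pool.Agent.SQF4.S13

/-!
THE SEED STATE: the four words 0102, 0120, 0121, 0123 as a state with 4 rows and 4 positions.
-/

set_option autoImplicit false

namespace Pool.Agent.SQF4.Eng

/-- rows 0102, 0120, 0121, 0123 -/
def seed : Sta := ⟨4, 40448, 49392⟩

theorem seed_clean : CleanS 4 seed := cleanB_sound (by decide)

theorem seed_row (r : ℕ) (hr : r < 4) (v : ℕ × ℕ × ℕ × ℕ) (hv : roots.getD r (0, 0, 0, 0) = v) :
    (((uN 4 40448 49392 r 0 : Fin 4) : ℕ), ((uN 4 40448 49392 r 1 : Fin 4) : ℕ),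
      ((uN 4 40448 49392 r 2 : Fin 4) : ℕ), ((uN 4 40448 49392 r 3 : Fin 4) : ℕ)) = v := by
  rw [← hv]
  interval_cases r <;> decide

/-- from the seed state to the hypothesis hroot of top -/
theorem hroot_of_seed {S : ℕ → ℕ → Prop} {Bt : ℕ → ℕ → ℕ} (h : AllS S Bt 4 4 seed) (u : ℤ → Fin 4)
    (hu : (((u 0 : Fin 4) : ℕ), ((u 1 : Fin 4) : ℕ), ((u 2 : Fin 4) : ℕ), ((u 3 : Fin 4) : ℕ)) ∈ roots) :
    GoodW aw 1000 1760 3999 S Bt 4 4 u := by
  obtain ⟨r, hr, he⟩ := List.getElem_of_mem hu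
  have hr4 : r < 4 := hr
  have hv : roots.getD r (0, 0, 0, 0) = (((u 0 : Fin 4) : ℕ), ((u 1 : Fin 4) : ℕ), ((u 2 : Fin 4) : ℕ),
      ((u 3 : Fin 4) : ℕ)) := by
    rw [List.getD_eq_getElem _ _ hr, he]
  have h1 := seed_row r hr4 _ hv
  simp only [Prod.mk.injEq] at h1
  obtain ⟨e0, e1, e2, e3⟩ := h1
  refine goodW_congr (h r hr4) (fun i h0 h4 => ?_)
  show u i = uZ 4 40448 49392 r i
  have hi : i = 0 ∨ i = 1 ∨ i = 2 ∨ i = 3 := by omega
  rcases hi with rfl | rfl | rfl | rfl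
  · exact (Fin.ext e0).symm
  · exact (Fin.ext e1).symm
  · exact (Fin.ext e2).symm
  · exact (Fin.ext e3).symm

end Pool.Agent.SQF4.Eng
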