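import Mathlib
import Pool.Agent.SQF4.AD

set_option autoImplicit false
set_option maxRecDepth 100000

namespace Pool.Agent.SQF4

theorem c_A31 : ((List.range' 31 70).all fun P => dat.chkA P) = true := by decide +kernel

theorem c_pref : dat.pref = true := by decide +kernel

theorem c_167 : Nat.ble 128 (dat.g1 167) = true := by decide +kernel

theorem c_f : ((List.range 64).all fun P => Nat.ble (dat.st P) dat.sD) = true := by decide +kernel

theorem c_E : ((List.range' 30 138).all fun P => dat.chkE P) = true := by decide +kernel

theorem c_F : ((List.range' 168 168).all fun P => dat.chkF P) = true := by decide +kernel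

theorem c_s30 : ((List.range 31).all fun P => dat.st P == 0) = true := by decide +kernel

end Pool.Agent.SQF4
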