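import Mathlib
import Pool.Agent.SQF4.AD

set_option autoImplicit false
set_option maxRecDepth 100000

namespace Pool.Agent.SQF4

theorem c_A101 : ((List.range' 101 38).all fun P => dat.chkA P) = true := by decide +kernel

end Pool.Agent.SQF4
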