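import Mathlib
import Pool.Agent.SQF.A3

/-!
AREA ARGUMENT with a self-similar table of weights: heights y < 256 use the table, a height y ≥ 256 is judged at
half scale: wq y = wq (y/2) / 4, use y p K = use (y/2) (p/2) ((K-1)/2).
-/

set_option autoImplicit false

namespace Pool.Agent.SQF4

open Pool.Agent.SQF

/-- weights and cut functions -/
structure Par where
  w0 : ℕ → ℕ
  f1 : ℕ → ℕ
  f3 : ℕ → ℕ
  f4 : ℕ → ℕ
  mono1 : Monotone f1
  mono3 : Monotone f3
  mono4 : Monotone f4

variable (A : Par)

def Par.lo (p K : ℕ) : ℕ := max (max (A.f3 (3 * p - K)) (A.f1 p)) (A.f4 (p - K))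
def Par.hi (p K : ℕ) : ℕ := min (min (A.f3 (3 * p + K)) (A.f1 (p + K))) (A.f4 p)

/-- the width of the diamond of a run with period p and K = k + 1 at the height y -/
def wi (y p K : ℕ) : ℕ := K - ((y - p) + (p - y))

/-- the run (p, K) uses the height y -/
def Par.use (y p K : ℕ) : Prop :=
  if y < 256 then A.lo p K ≤ y ∧ y < A.hi p K ∧ 1 ≤ wi y p K else Par.use (y / 2) (p / 2) ((K - 1) / 2)
termination_by y
decreasing_by omega

/-- the weight of the height y -/
def Par.wq (y : ℕ) : ℚ := if y < 256 then (A.w0 y : ℚ) else Par.wq (y / 2) / 4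
termination_by y
decreasing_by omega

theorem use_lt {y p K : ℕ} (h : y < 256) : A.use y p K ↔ A.lo p K ≤ y ∧ y < A.hi p K ∧ 1 ≤ wi y p K := by
  rw [Par.use, if_pos h]

theorem use_ge {y p K : ℕ} (h : 256 ≤ y) : A.use y p K ↔ A.use (y / 2) (p / 2) ((K - 1) / 2) := by
  conv_lhs => rw [Par.use]
  rw [if_neg (by omega)]

theorem wq_lt {y : ℕ} (h : y < 256) : A.wq y = (A.w0 y : ℚ) := by
  rw [Par.wq, if_pos h]

theorem wq_ge {y : ℕ} (h : 256 ≤ y) : A.wq y = A.wq (y / 2) / 4 := by
  conv_lhs => rw [Par.wq]
  rw [if_neg (by omega)]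

theorem wq_nonneg (y : ℕ) : 0 ≤ A.wq y := by
  induction y using Nat.strong_induction_on with
  | _ y ih =>
    by_cases h : y < 256
    · rw [wq_lt A h]
      exact Nat.cast_nonneg _
    · rw [wq_ge A (by omega)]
      have := ih (y / 2) (by omega)
      positivity

/-- halving loses nothing in the widths -/
theorem wi_half {y p K : ℕ} : 2 * wi (y / 2) (p / 2) ((K - 1) / 2) ≤ wi y p K := by
  unfold wi
  omega

theorem use_wi {y p K : ℕ} (h : A.use y p K) : 1 ≤ wi y p K := by
  induction y using Nat.strong_induction_on generalizing p K with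
  | _ y ih =>
    by_cases hy : y < 256
    · exact ((use_lt A hy).1 h).2.2
    · have := ih (y / 2) (by omega) ((use_ge A (by omega)).1 h)
      have := @wi_half y p K
      omega

theorem lo_anti {p K K' : ℕ} (h : K ≤ K') : A.lo p K' ≤ A.lo p K := by
  unfold Par.lo
  refine max_le_max (max_le_max (A.mono3 (by omega)) (le_refl _)) (A.mono4 (by omega))

theorem hi_mono {p K K' : ℕ} (h : K ≤ K') : A.hi p K ≤ A.hi p K' := by
  unfold Par.hi
  refine min_le_min (min_le_min (A.mono3 (by omega)) (A.mono1 (by omega))) (le_refl _)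

theorem use_mono {y p K K' : ℕ} (h : K ≤ K') (hu : A.use y p K) : A.use y p K' := by
  induction y using Nat.strong_induction_on generalizing p K K' with
  | _ y ih =>
    by_cases hy : y < 256
    · rw [use_lt A hy] at hu ⊢
      refine ⟨(lo_anti A h).trans hu.1, lt_of_lt_of_le hu.2.1 (hi_mono A h), ?_⟩
      have := hu.2.2
      unfold wi at this ⊢
      omega
    · rw [use_ge A (by omega)] at hu ⊢
      exact ih (y / 2) (by omega) (by omega) hu

theorem use_noconf {y p K p' K' : ℕ} (h : A.use y p K) (h' : A.use y p' K') :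
    ¬ (p + K ≤ p' ∨ p + K' ≤ p' ∨ 3 * p + K + K' ≤ 3 * p') := by
  induction y using Nat.strong_induction_on generalizing p K p' K' with
  | _ y ih =>
    intro hC
    by_cases hy : y < 256
    · rw [use_lt A hy] at h h'
      obtain ⟨-, h1b, hw⟩ := h
      obtain ⟨h2a, -, hw'⟩ := h'
      have hK : 1 ≤ K := by unfold wi at hw; omega
      have hK' : 1 ≤ K' := by unfold wi at hw'; omega
      unfold Par.hi at h1b
      unfold Par.lo at h2a
      have a1 : y < A.f3 (3 * p + K) := lt_of_lt_of_le h1b ((min_le_left _ _).trans (min_le_left _ _))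
      have a2 : y < A.f1 (p + K) := lt_of_lt_of_le h1b ((min_le_left _ _).trans (min_le_right _ _))
      have a3 : y < A.f4 p := lt_of_lt_of_le h1b (min_le_right _ _)
      have b1 : A.f3 (3 * p' - K') ≤ y := ((le_max_left _ _).trans (le_max_left _ _)).trans h2a
      have b2 : A.f1 p' ≤ y := ((le_max_right _ _).trans (le_max_left _ _)).trans h2a
      have b3 : A.f4 (p' - K') ≤ y := (le_max_right _ _).trans h2a
      rcases hC with h | h | h
      · exact absurd (a2.trans_le ((A.mono1 h).trans b2)) (lt_irrefl _)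
      · exact absurd (a3.trans_le ((A.mono4 (by omega : p ≤ p' - K')).trans b3)) (lt_irrefl _)
      · exact absurd (a1.trans_le ((A.mono3 (by omega : 3 * p + K ≤ 3 * p' - K')).trans b1)) (lt_irrefl _)
    · have hw := use_wi A h
      have hw' := use_wi A h'
      have hK : 1 ≤ K := by unfold wi at hw; omega
      have hK' : 1 ≤ K' := by unfold wi at hw'; omega
      rw [use_ge A (by omega)] at h h'
      exact ih (y / 2) (by omega) h h' (by omega)

open Classical in
/-- the weighted area of a run -/
noncomputable def Par.M (p K : ℕ) : ℚ :=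
  ∑ y ∈ Finset.range (2 * p + 1), if A.use y p K then A.wq y * (wi y p K : ℚ) else 0

theorem M_nonneg (p K : ℕ) : 0 ≤ A.M p K := by
  classical
  unfold Par.M
  apply Finset.sum_nonneg
  intro y _
  split_ifs
  · exact mul_nonneg (wq_nonneg A y) (Nat.cast_nonneg _)
  · exact le_refl _

theorem M_mono {p K K' : ℕ} (h : K ≤ K') : A.M p K ≤ A.M p K' := by
  classical
  unfold Par.M
  apply Finset.sum_le_sum
  intro y _
  by_cases h1 : A.use y p K
  · rw [if_pos h1, if_pos (use_mono A h h1)]
    apply mul_le_mul_of_nonneg_left _ (wq_nonneg A y)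
    have : wi y p K ≤ wi y p K' := by unfold wi; omega
    exact_mod_cast this
  · rw [if_neg h1]
    split_ifs
    · exact mul_nonneg (wq_nonneg A y) (Nat.cast_nonneg _)
    · exact le_refl _

variable {β : Type*} {W : ℤ → β} {n : ℕ}

theorem wd_eq (y : ℕ) (r : Run) : wd y r = wi y r.p (r.k + 1) := by
  unfold wd wi
  rcases le_total y r.p with h | h
  · rw [max_eq_right h, min_eq_left h]
    omega
  · rw [max_eq_left h, min_eq_right h]
    omega

/-- AREA: the weighted areas of the runs add up to at most n times the total weight -/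
theorem area4 (hW : Sqf W) (hF : Fresh W n) (R : Finset Run) (hR : ∀ r ∈ R, IsRun W r) (L : ℚ)
    (hL : ∀ N : ℕ, ∑ y ∈ Finset.range N, A.wq y ≤ L) :
    ∑ r ∈ R, A.M r.p (r.k + 1) ≤ L * n := by
  classical
  obtain ⟨N, hN⟩ : ∃ N : ℕ, ∀ r ∈ R, 2 * r.p + 1 ≤ N := by
    refine ⟨∑ r ∈ R, (2 * r.p + 1), fun r hr => ?_⟩
    exact Finset.single_le_sum (f := fun r : Run => 2 * r.p + 1) (fun _ _ => Nat.zero_le _) hr
  have h1 : ∀ r ∈ R, A.M r.p (r.k + 1) ≤ ∑ y ∈ Finset.range N,
      if A.use y r.p (r.k + 1) then A.wq y * (wi y r.p (r.k + 1) : ℚ) else 0 := by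
    intro r hr
    unfold Par.M
    apply Finset.sum_le_sum_of_subset_of_nonneg
    · intro y hy
      have := hN r hr
      have := Finset.mem_range.1 hy
      exact Finset.mem_range.2 (by omega)
    · intro y _ _
      split_ifs
      · exact mul_nonneg (wq_nonneg A y) (Nat.cast_nonneg _)
      · exact le_refl _
  refine (Finset.sum_le_sum h1).trans ?_
  rw [Finset.sum_comm]
  have h2 : ∀ y ∈ Finset.range N, ∑ r ∈ R, (if A.use y r.p (r.k + 1) then A.wq y * (wi y r.p (r.k + 1) : ℚ) else 0) ≤
      A.wq y * n := by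
    intro y _
    rw [← Finset.sum_filter, ← Finset.mul_sum]
    apply mul_le_mul_of_nonneg_left _ (wq_nonneg A y)
    rcases Nat.eq_zero_or_pos y with h0 | hy
    · have : ∑ r ∈ R.filter (fun r => A.use y r.p (r.k + 1)), (wi y r.p (r.k + 1) : ℚ) = 0 := by
        apply Finset.sum_eq_zero
        intro r hr
        have h3 := hR r (Finset.mem_filter.1 hr).1
        have h4 := IsRun.k_lt hW h3
        have : wi y r.p (r.k + 1) = 0 := by
          unfold wi
          omega
        rw [this]
        rfl
      rw [this]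
      exact Nat.cast_nonneg _
    · have h3 := height hW hF y hy (R.filter (fun r => A.use y r.p (r.k + 1)))
        (fun r hr => hR r (Finset.mem_filter.1 hr).1)
        (fun r hr => by
          rw [wd_eq]
          exact use_wi A (Finset.mem_filter.1 hr).2)
        (fun r hr r' hr' _ hC => by
          refine use_noconf A (Finset.mem_filter.1 hr).2 (Finset.mem_filter.1 hr').2 ?_
          rcases hC with h | h | h
          · exact Or.inl h
          · exact Or.inr (Or.inl h)
          · exact Or.inr (Or.inr (by omega)))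
      have h4 : ∑ r ∈ R.filter (fun r => A.use y r.p (r.k + 1)), (wi y r.p (r.k + 1) : ℚ) =
          ((∑ r ∈ R.filter (fun r => A.use y r.p (r.k + 1)), wd y r : ℕ) : ℚ) := by
        push_cast
        exact Finset.sum_congr rfl (fun r _ => by rw [wd_eq])
      rw [h4]
      exact_mod_cast h3
  refine (Finset.sum_le_sum h2).trans ?_
  rw [← Finset.sum_mul]
  exact mul_le_mul_of_nonneg_right (hL N) (Nat.cast_nonneg _)

/-- the total weight -/
theorem wq_total (N : ℕ) : ∑ y ∈ Finset.range N, A.wq y ≤
    2 * ∑ y ∈ Finset.range 256, (A.w0 y : ℚ) - ∑ y ∈ Finset.range 128, (A.w0 y : ℚ) := by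
  have hbase : ∀ N : ℕ, N ≤ 256 → ∑ y ∈ Finset.range N, A.wq y = ∑ y ∈ Finset.range N, (A.w0 y : ℚ) := by
    intro N hN
    apply Finset.sum_congr rfl
    intro y hy
    exact wq_lt A (by have := Finset.mem_range.1 hy; omega)
  have hmono : ∀ N N' : ℕ, N ≤ N' → ∑ y ∈ Finset.range N, A.wq y ≤ ∑ y ∈ Finset.range N', A.wq y := by
    intro N N' h
    apply Finset.sum_le_sum_of_subset_of_nonneg
    · exact Finset.range_mono h
    · intro y _ _
      exact wq_nonneg A y
  have hdbl : ∀ N : ℕ, 128 ≤ N → ∑ y ∈ Finset.range (2 * N), A.wq y =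
      ∑ y ∈ Finset.range 256, A.wq y + (∑ y ∈ Finset.range N, A.wq y - ∑ y ∈ Finset.range 128, A.wq y) / 2 := by
    intro N hN
    induction N, hN using Nat.le_induction with
    | base => simp
    | succ N hN ih =>
      have e : 2 * (N + 1) = 2 * N + 1 + 1 := by ring
      have h3 := Finset.sum_range_succ (fun y => A.wq y) N
      rw [e, Finset.sum_range_succ, Finset.sum_range_succ, ih, h3]
      rw [wq_ge A (by omega : 256 ≤ 2 * N), wq_ge A (by omega : 256 ≤ 2 * N + 1)]
      have e1 : 2 * N / 2 = N := by omega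
      have e2 : (2 * N + 1) / 2 = N := by omega
      rw [e1, e2]
      ring
  rw [← hbase 256 (le_refl _), ← hbase 128 (by omega)]
  induction N using Nat.strong_induction_on with
  | _ N ih =>
    by_cases h : N ≤ 256
    · have h1 := hmono N 256 h
      have h2 := hmono 128 256 (by omega)
      linarith
    · have h1 := hmono N (2 * ((N + 1) / 2)) (by omega)
      rw [hdbl ((N + 1) / 2) (by omega)] at h1
      have h2 := ih ((N + 1) / 2) (by omega)
      linarith

end Pool.Agent.SQF4
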