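import Mathlib
import Pool.Agent.SQF4.Area

/-!
LOWER BOUNDS for the weighted area: by the table (mm) and by halving.
-/

set_option autoImplicit false

namespace Pool.Agent.SQF4

variable (A : Par)

/-- weighted widths over the heights of [l, h) -/
def Par.bs (l h p K : ℕ) : ℕ := ∑ y ∈ Finset.Ico l h, A.w0 y * wi y p K

/-- the part of the area below the height 256, and the part between 128 and 256 -/
def Par.m0 (p K : ℕ) : ℕ := A.bs (A.lo p K) (min (A.hi p K) 256) p K
def Par.m1 (p K : ℕ) : ℕ := A.bs (max (A.lo p K) 128) (min (A.hi p K) 256) p K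

/-- the computable lower bound of the area -/
def Par.mm (p K : ℕ) : ℕ := A.m0 p K + A.m1 (p / 2) ((K - 1) / 2)

open Classical in
/-- the summand of M -/
noncomputable def Par.F (p K y : ℕ) : ℚ := if A.use y p K then A.wq y * (wi y p K : ℚ) else 0

theorem F_nonneg (p K y : ℕ) : 0 ≤ A.F p K y := by
  unfold Par.F
  split_ifs
  · exact mul_nonneg (wq_nonneg A y) (Nat.cast_nonneg _)
  · exact le_refl _

theorem F_zero {p K y : ℕ} (h : p + K ≤ y) : A.F p K y = 0 := by
  unfold Par.F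
  rw [if_neg]
  intro hu
  have := use_wi A hu
  unfold wi at this
  omega

theorem sum_le_M {p K : ℕ} (hK : K ≤ p) (s : Finset ℕ) : ∑ y ∈ s, A.F p K y ≤ A.M p K := by
  classical
  have h1 : ∑ y ∈ s, A.F p K y = ∑ y ∈ s.filter (fun y => y < 2 * p + 1), A.F p K y := by
    rw [Finset.sum_filter]
    apply Finset.sum_congr rfl
    intro y _
    split_ifs with h
    · rfl
    · exact F_zero A (by omega)
  rw [h1]
  unfold Par.M
  apply Finset.sum_le_sum_of_subset_of_nonneg
  · intro y hy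
    exact Finset.mem_range.2 (Finset.mem_filter.1 hy).2
  · intro y _ _
    exact F_nonneg A p K y

theorem F_double {p K y : ℕ} (hy : 128 ≤ y) :
    A.F (p / 2) ((K - 1) / 2) y ≤ A.F p K (2 * y) + A.F p K (2 * y + 1) := by
  unfold Par.F
  have e1 : 2 * y / 2 = y := by omega
  have e2 : (2 * y + 1) / 2 = y := by omega
  have u1 : A.use (2 * y) p K ↔ A.use y (p / 2) ((K - 1) / 2) := by
    rw [use_ge A (by omega), e1]
  have u2 : A.use (2 * y + 1) p K ↔ A.use y (p / 2) ((K - 1) / 2) := by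
    rw [use_ge A (by omega), e2]
  have v1 : A.wq (2 * y) = A.wq y / 4 := by rw [wq_ge A (by omega), e1]
  have v2 : A.wq (2 * y + 1) = A.wq y / 4 := by rw [wq_ge A (by omega), e2]
  by_cases h : A.use y (p / 2) ((K - 1) / 2)
  · rw [if_pos h, if_pos (u1.2 h), if_pos (u2.2 h), v1, v2]
    have w1 := @wi_half (2 * y) p K
    have w2 := @wi_half (2 * y + 1) p K
    rw [e1] at w1
    rw [e2] at w2
    have w1' : 2 * (wi y (p / 2) ((K - 1) / 2) : ℚ) ≤ (wi (2 * y) p K : ℚ) := by exact_mod_cast w1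
    have w2' : 2 * (wi y (p / 2) ((K - 1) / 2) : ℚ) ≤ (wi (2 * y + 1) p K : ℚ) := by exact_mod_cast w2
    have h0 := wq_nonneg A y
    nlinarith [mul_nonneg h0 (sub_nonneg.2 w1'), mul_nonneg h0 (sub_nonneg.2 w2')]
  · rw [if_neg h]
    exact add_nonneg (F_nonneg A p K (2 * y)) (F_nonneg A p K (2 * y + 1))

theorem M_split {p K : ℕ} (hK : K ≤ p) (N : ℕ) (hN : 128 ≤ N) :
    ∑ y ∈ Finset.range 256, A.F p K y + ∑ y ∈ Finset.Ico 128 N, A.F (p / 2) ((K - 1) / 2) y ≤ A.M p K := by
  have key : ∀ N : ℕ, 128 ≤ N → ∑ y ∈ Finset.range 256, A.F p K y +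
      ∑ y ∈ Finset.Ico 128 N, A.F (p / 2) ((K - 1) / 2) y ≤ ∑ y ∈ Finset.range (2 * N), A.F p K y := by
    intro N hN
    induction N, hN using Nat.le_induction with
    | base => simp
    | succ N hN ih =>
      have e : 2 * (N + 1) = 2 * N + 1 + 1 := by ring
      have e1 := Finset.sum_range_succ (fun y => A.F p K y) (2 * N + 1)
      have e2 := Finset.sum_range_succ (fun y => A.F p K y) (2 * N)
      rw [Finset.sum_Ico_succ_top hN, e, e1, e2]
      have := @F_double A p K N hN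
      linarith
  exact (key N hN).trans (sum_le_M A hK _)

theorem bs_le {l p K : ℕ} (hl : A.lo p K ≤ l) :
    (A.bs l (min (A.hi p K) 256) p K : ℚ) ≤ ∑ y ∈ Finset.Ico l 256, A.F p K y := by
  classical
  unfold Par.bs
  push_cast
  have h1 : Finset.Ico l (min (A.hi p K) 256) ⊆ Finset.Ico l 256 := by
    intro y hy
    rw [Finset.mem_Ico] at hy ⊢
    omega
  refine le_trans ?_ (Finset.sum_le_sum_of_subset_of_nonneg h1 (fun y _ _ => F_nonneg A p K y))
  apply Finset.sum_le_sum
  intro y hy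
  rw [Finset.mem_Ico] at hy
  have hy2 : y < 256 := by omega
  have hy3 : y < A.hi p K := by omega
  rcases Nat.eq_zero_or_pos (wi y p K) with h0 | h0
  · rw [h0, Nat.cast_zero, mul_zero]
    exact F_nonneg A p K y
  · unfold Par.F
    rw [if_pos ((use_lt A hy2).2 ⟨by omega, hy3, h0⟩), wq_lt A hy2]

theorem mm_le_M {p K : ℕ} (hK : K ≤ p) : (A.mm p K : ℚ) ≤ A.M p K := by
  unfold Par.mm Par.m0 Par.m1
  have h1 := M_split A hK 256 (by omega)
  have h2 := bs_le A (le_refl (A.lo p K))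
  have h3 := bs_le A (le_max_left (A.lo (p / 2) ((K - 1) / 2)) 128)
  have h4 : ∑ y ∈ Finset.Ico (A.lo p K) 256, A.F p K y ≤ ∑ y ∈ Finset.range 256, A.F p K y := by
    apply Finset.sum_le_sum_of_subset_of_nonneg
    · intro y hy
      exact Finset.mem_range.2 (Finset.mem_Ico.1 hy).2
    · intro y _ _
      exact F_nonneg A p K y
  have h5 : ∑ y ∈ Finset.Ico (max (A.lo (p / 2) ((K - 1) / 2)) 128) 256, A.F (p / 2) ((K - 1) / 2) y ≤
      ∑ y ∈ Finset.Ico 128 256, A.F (p / 2) ((K - 1) / 2) y := by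
    apply Finset.sum_le_sum_of_subset_of_nonneg
    · intro y hy
      rw [Finset.mem_Ico] at hy ⊢
      omega
    · intro y _ _
      exact F_nonneg A _ _ y
  push_cast
  linarith

theorem use_large (h167 : 128 ≤ A.f1 167) {y p K : ℕ} (hp : 167 ≤ p) (h : A.use y p K) : 128 ≤ y := by
  by_contra hc
  have h1 := (use_lt A (by omega : y < 256)).1 h
  have h2 : A.f1 p ≤ A.lo p K := by
    unfold Par.lo
    exact (le_max_right _ _).trans (le_max_left _ _)
  have h3 := A.mono1 hp
  omega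

/-- HALVING -/
theorem M_half (h167 : 128 ≤ A.f1 167) {p K : ℕ} (hK : K ≤ p) (hp : 334 ≤ p) :
    A.M (p / 2) ((K - 1) / 2) ≤ A.M p K := by
  classical
  have h1 := M_split A hK (p + 128) (by omega)
  have h2 : 0 ≤ ∑ y ∈ Finset.range 256, A.F p K y := Finset.sum_nonneg (fun y _ => F_nonneg A p K y)
  have h3 : A.M (p / 2) ((K - 1) / 2) ≤ ∑ y ∈ Finset.Ico 128 (p + 128), A.F (p / 2) ((K - 1) / 2) y := by
    have e : A.M (p / 2) ((K - 1) / 2) = ∑ y ∈ (Finset.range (2 * (p / 2) + 1)).filter (fun y => 128 ≤ y),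
        A.F (p / 2) ((K - 1) / 2) y := by
      rw [Finset.sum_filter]
      unfold Par.M
      apply Finset.sum_congr rfl
      intro y _
      by_cases hy : 128 ≤ y
      · rw [if_pos hy]
        rfl
      · rw [if_neg hy, if_neg]
        intro hu
        exact hy (use_large A h167 (by omega) hu)
    rw [e]
    apply Finset.sum_le_sum_of_subset_of_nonneg
    · intro y hy
      obtain ⟨h4, h5⟩ := Finset.mem_filter.1 hy
      have := Finset.mem_range.1 h4
      exact Finset.mem_Ico.2 ⟨h5, by omega⟩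
    · intro y _ _
      exact F_nonneg A _ _ y
  linarith

/-- the finitely many inequalities to be checked; s P = required share of an event of half-length P,
sD = full share -/
structure Rows (s : ℕ → ℕ) (sD : ℕ) : Prop where
  h167 : 128 ≤ A.f1 167
  full : ∀ P : ℕ, s P ≤ sD
  rA : ∀ P K : ℕ, 31 ≤ P → P ≤ 167 → 2 ≤ K → K + 2 ≤ P → 2 * s P ≤ A.mm (P - 1) K + A.mm P (P + 1 - K)
  rB : ∀ P K : ℕ, 168 ≤ P → P ≤ 335 → K + 4 ≤ P → 2 * sD ≤ A.mm (P - 1) K + A.mm P (P - 4 - K)
  rC : ∀ P K : ℕ, 168 ≤ P → P ≤ 335 → K + 4 ≤ P → 2 * sD ≤ A.mm P K + A.mm P (P - 4 - K)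
  rE : ∀ p : ℕ, 30 ≤ p → p ≤ 167 → 2 * s p + 2 * s (p + 1) ≤ A.mm p p
  rF : ∀ p : ℕ, 168 ≤ p → p ≤ 335 → 4 * sD ≤ A.mm p (p - 2)

variable {A} {s : ℕ → ℕ} {sD : ℕ}

theorem rows_big (h : Rows A s sD) (P : ℕ) (hP : 168 ≤ P) :
    (∀ K1 K2 : ℕ, K1 ≤ P - 1 → K2 ≤ P → P ≤ K1 + K2 + 4 → 2 * (sD : ℚ) ≤ A.M (P - 1) K1 + A.M P K2) ∧
    (∀ K1 K2 : ℕ, K1 ≤ P → K2 ≤ P → P ≤ K1 + K2 + 4 → 2 * (sD : ℚ) ≤ A.M P K1 + A.M P K2) := by
  induction P using Nat.strong_induction_on with
  | _ P ih =>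
    by_cases hs : P ≤ 335
    · constructor
      · intro K1 K2 h1 h2 h3
        have h4 := h.rB P (min K1 (P - 4)) hP hs (by omega)
        have h5 := mm_le_M A (by omega : min K1 (P - 4) ≤ P - 1)
        have h6 := mm_le_M A (by omega : P - 4 - min K1 (P - 4) ≤ P)
        have h7 := M_mono A (p := P - 1) (by omega : min K1 (P - 4) ≤ K1)
        have h8 := M_mono A (p := P) (by omega : P - 4 - min K1 (P - 4) ≤ K2)
        have h9 : 2 * (sD : ℚ) ≤ (A.mm (P - 1) (min K1 (P - 4)) : ℚ) + (A.mm P (P - 4 - min K1 (P - 4)) : ℚ) := by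
          exact_mod_cast h4
        linarith
      · intro K1 K2 h1 h2 h3
        have h4 := h.rC P (min K1 (P - 4)) hP hs (by omega)
        have h5 := mm_le_M A (by omega : min K1 (P - 4) ≤ P)
        have h6 := mm_le_M A (by omega : P - 4 - min K1 (P - 4) ≤ P)
        have h7 := M_mono A (p := P) (by omega : min K1 (P - 4) ≤ K1)
        have h8 := M_mono A (p := P) (by omega : P - 4 - min K1 (P - 4) ≤ K2)
        have h9 : 2 * (sD : ℚ) ≤ (A.mm P (min K1 (P - 4)) : ℚ) + (A.mm P (P - 4 - min K1 (P - 4)) : ℚ) := by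
          exact_mod_cast h4
        linarith
    · obtain ⟨i1, i2⟩ := ih (P / 2) (by omega) (by omega)
      constructor
      · intro K1 K2 h1 h2 h3
        have h4 := M_half A h.h167 h1 (by omega)
        have h5 := M_half A h.h167 h2 (by omega)
        rcases (by omega : (P - 1) / 2 = P / 2 ∨ (P - 1) / 2 = P / 2 - 1) with e | e
        · rw [e] at h4
          have h6 := i2 ((K1 - 1) / 2) ((K2 - 1) / 2) (by omega) (by omega) (by omega)
          linarith
        · rw [e] at h4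
          have h6 := i1 ((K1 - 1) / 2) ((K2 - 1) / 2) (by omega) (by omega) (by omega)
          linarith
      · intro K1 K2 h1 h2 h3
        have h4 := M_half A h.h167 h1 (by omega)
        have h5 := M_half A h.h167 h2 (by omega)
        have h6 := i2 ((K1 - 1) / 2) ((K2 - 1) / 2) (by omega) (by omega) (by omega)
        linarith

theorem full_big (h : Rows A s sD) (p : ℕ) (hp : 168 ≤ p) :
    ∀ K : ℕ, K ≤ p → p ≤ K + 2 → 4 * (sD : ℚ) ≤ A.M p K := by
  induction p using Nat.strong_induction_on with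
  | _ p ih =>
    intro K h1 h2
    by_cases hs : p ≤ 335
    · have h3 := h.rF p hp hs
      have h4 := mm_le_M A (by omega : p - 2 ≤ p)
      have h5 := M_mono A (p := p) (by omega : p - 2 ≤ K)
      have h6 : 4 * (sD : ℚ) ≤ (A.mm p (p - 2) : ℚ) := by exact_mod_cast h3
      linarith
    · have h3 := M_half A h.h167 h1 (by omega)
      have h4 := ih (p / 2) (by omega) (by omega) ((K - 1) / 2) (by omega) (by omega)
      linarith

/-- the two runs of an event, none of them full -/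
theorem row_all (h : Rows A s sD) (P b a : ℕ) (hP : 31 ≤ P) (hb : b + 3 ≤ P) (ha : a + 2 ≤ P) (hab : P ≤ a + b + 1) :
    2 * (s P : ℚ) ≤ A.M (P - 1) (b + 1) + A.M P (a + 1) := by
  by_cases hs : P ≤ 167
  · have h1 := h.rA P (P - a) hP hs (by omega) (by omega)
    have h2 := mm_le_M A (by omega : P - a ≤ P - 1)
    have h3 := mm_le_M A (by omega : P + 1 - (P - a) ≤ P)
    have h4 := M_mono A (p := P - 1) (by omega : P - a ≤ b + 1)
    have h5 := M_mono A (p := P) (by omega : P + 1 - (P - a) ≤ a + 1)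
    have h6 : 2 * (s P : ℚ) ≤ (A.mm (P - 1) (P - a) : ℚ) + (A.mm P (P + 1 - (P - a)) : ℚ) := by
      exact_mod_cast h1
    linarith
  · have h1 := (rows_big h P (by omega)).1 (b + 1) (a + 1) (by omega) (by omega) (by omega)
    have h2 : (s P : ℚ) ≤ sD := by exact_mod_cast h.full P
    linarith

/-- a full run -/
theorem full_all (h : Rows A s sD) (p : ℕ) (hp : 30 ≤ p) : 2 * (s p : ℚ) + 2 * (s (p + 1) : ℚ) ≤ A.M p p := by
  by_cases hs : p ≤ 167
  · have h1 := h.rE p hp hs
    have h2 := mm_le_M A (le_refl p)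
    have h3 : 2 * (s p : ℚ) + 2 * (s (p + 1) : ℚ) ≤ (A.mm p p : ℚ) := by exact_mod_cast h1
    linarith
  · have h1 := full_big h p (by omega) p (le_refl _) (by omega)
    have h2 : (s p : ℚ) ≤ sD := by exact_mod_cast h.full p
    have h3 : (s (p + 1) : ℚ) ≤ sD := by exact_mod_cast h.full (p + 1)
    linarith

end Pool.Agent.SQF4
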