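import Mathlib
import Pool.Agent.SQF4.Halve
import Pool.Agent.SQF4.Blk
import Pool.Agent.SQF.B1
import Pool.Agent.SQF.B2

/-!
H3: soft shares. Every pair z with P z ≥ 31 receives the share s (P z) from the runs of its event; a run gives at most
its weighted area.
-/

set_option autoImplicit false

namespace Pool.Agent.SQF4

open Pool.Agent.SQF

variable {β : Type*} {W : ℤ → β} {n : ℕ}

/-- the half-length of the event in which the run r has the role i -/
def pw (i : Fin 4) (r : Run) : ℕ := if i = 0 ∨ i = 3 then r.p + 1 else r.p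

theorem vrol_pw {Q : ℕ → Prop} {i : Fin 4} {r : Run} (h : Vrol W Q i r) : Q (pw i r) := by
  unfold Vrol at h
  fin_cases i
  · simp only [Fin.zero_eta, Fin.isValue, if_true] at h
    simpa [pw] using h.1
  · simp at h
    simpa [pw] using h.1
  · simp at h
    simpa [pw] using h.1
  · simp at h
    simpa [pw] using h.1

theorem vrol_imp {Q Q' : ℕ → Prop} (hQ : ∀ x, Q x → Q' x) {i : Fin 4} {r : Run} (h : Vrol W Q i r) :
    Vrol W Q' i r := by
  unfold Vrol at h ⊢
  split_ifs at h ⊢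
  · exact ⟨hQ _ h.1, h.2⟩
  · exact ⟨hQ _ h.1, h.2⟩
  · exact ⟨hQ _ h.1, h.2⟩
  · exact ⟨hQ _ h.1, h.2⟩

open Classical in
theorem soft_count (hW : Sqf W) (hF : Fresh W n) {Z : Finset (ℤ × β)} {τ : ℤ × β → Bool} {P : ℤ × β → ℕ}
    {c : ℤ × β → ℤ} (hwit : Wit W Z τ P c) {A : Par} {s : ℕ → ℕ} {sD : ℕ} (h : Rows A s sD)
    (h31 : ∀ z ∈ Z, 31 ≤ P z) :
    ∑ z ∈ Z, (s (P z) : ℚ) ≤ ∑ r ∈ Runs W n, A.M r.p (r.k + 1) := by
  obtain ⟨sh, hsh⟩ : ∃ sh : Run → Fin 4 → ℚ, ∀ r i, sh r i =
      if r.k + 1 = r.p then (s (pw i r) : ℚ) else A.M r.p (r.k + 1) / 2 := ⟨_, fun _ _ => rfl⟩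
  have hsh0 : ∀ r i, 0 ≤ sh r i := by
    intro r i
    rw [hsh]
    split_ifs
    · exact Nat.cast_nonneg _
    · have := M_nonneg A r.p (r.k + 1)
      linarith
  set f : ℤ × β → Run × Fin 4 → ℚ := fun z x =>
    if Vrol W (fun P' => P' = P z) x.2 x.1 ∧ Rol W x.2 x.1 = z then sh x.1 x.2 else 0 with hf
  have hf0 : ∀ z x, 0 ≤ f z x := by
    intro z x
    rw [hf]
    dsimp only
    split_ifs
    · exact hsh0 _ _
    · exact le_refl _
  have key : ∀ z ∈ Z, (s (P z) : ℚ) ≤ ∑ x ∈ Runs W n ×ˢ (Finset.univ : Finset (Fin 4)), f z x := by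
    intro z hz
    have hP := h31 z hz
    obtain ⟨i, j, b, a, hb, ha, hab, h1, r2, hr2, hp2, hk2, hv2, hrol2⟩ :=
      ev_roles hW hF (g := z.1) (x := z.2) (hwit.nt z hz) (by omega) (hwit.ev z hz).ev (fun P' => P' = P z) rfl
    have hmem2 : (r2, j) ∈ Runs W n ×ˢ (Finset.univ : Finset (Fin 4)) :=
      Finset.mem_product.2 ⟨(mem_Runs hF r2).2 hr2, Finset.mem_univ _⟩
    have hf2 : f z (r2, j) = sh r2 j := by
      rw [hf]
      dsimp only
      rw [if_pos ⟨hv2, hrol2⟩]
    have hge2 : sh r2 j ≤ ∑ x ∈ Runs W n ×ˢ (Finset.univ : Finset (Fin 4)), f z x := by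
      rw [← hf2]
      exact Finset.single_le_sum (fun x _ => hf0 z x) hmem2
    by_cases ha1 : a + 1 = P z
    · refine le_trans (le_of_eq ?_) hge2
      rw [hsh, if_pos (by omega), vrol_pw hv2]
    · obtain ⟨r1, hr1, hp1, hk1, hv1, hrol1⟩ := h1 (by omega)
      have hmem1 : (r1, i) ∈ Runs W n ×ˢ (Finset.univ : Finset (Fin 4)) :=
        Finset.mem_product.2 ⟨(mem_Runs hF r1).2 hr1, Finset.mem_univ _⟩
      have hf1 : f z (r1, i) = sh r1 i := by
        rw [hf]
        dsimp only
        rw [if_pos ⟨hv1, hrol1⟩]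
      have hge1 : sh r1 i ≤ ∑ x ∈ Runs W n ×ˢ (Finset.univ : Finset (Fin 4)), f z x := by
        rw [← hf1]
        exact Finset.single_le_sum (fun x _ => hf0 z x) hmem1
      by_cases hb1 : b + 2 = P z
      · refine le_trans (le_of_eq ?_) hge1
        rw [hsh, if_pos (by omega), vrol_pw hv1]
      · have hrow := row_all h (P z) b a hP (by omega) (by omega) hab
        have e1 : sh r1 i = A.M (P z - 1) (b + 1) / 2 := by
          rw [hsh, if_neg (by omega), hp1, hk1]
        have e2 : sh r2 j = A.M (P z) (a + 1) / 2 := by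
          rw [hsh, if_neg (by omega), hp2, hk2]
        have hne : (r1, i) ≠ (r2, j) := by
          intro h
          have h2 : r1 = r2 := congrArg Prod.fst h
          rw [h2, hp2] at hp1
          omega
        have hsub : ({(r1, i), (r2, j)} : Finset (Run × Fin 4)) ⊆
            Runs W n ×ˢ (Finset.univ : Finset (Fin 4)) := by
          intro x hx
          rw [Finset.mem_insert, Finset.mem_singleton] at hx
          rcases hx with rfl | rfl
          · exact hmem1
          · exact hmem2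
        have h3 := Finset.sum_le_sum_of_subset_of_nonneg (f := f z) hsub (fun x _ _ => hf0 z x)
        rw [Finset.sum_pair hne, hf1, hf2, e1, e2] at h3
        linarith
  refine (Finset.sum_le_sum key).trans ?_
  rw [Finset.sum_comm, Finset.sum_product]
  refine Finset.sum_le_sum (fun r hr => ?_)
  have hrun := (mem_Runs hF r).1 hr
  have hklt := IsRun.k_lt hW hrun
  have h6 : ∀ i : Fin 4, ∑ z ∈ Z, f z (r, i) =
      if Vrol W (fun P' => P' = P (Rol W i r)) i r ∧ Rol W i r ∈ Z then sh r i else 0 := by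
    intro i
    rw [hf]
    dsimp only
    have e : ∀ z ∈ Z, (if Vrol W (fun P' => P' = P z) i r ∧ Rol W i r = z then sh r i else 0) =
        if Rol W i r = z then (if Vrol W (fun P' => P' = P (Rol W i r)) i r then sh r i else 0) else 0 := by
      intro z _
      by_cases hz : Rol W i r = z
      · rw [if_pos hz, hz]
        by_cases hv : Vrol W (fun P' => P' = P z) i r
        · rw [if_pos ⟨hv, rfl⟩, if_pos hv]
        · rw [if_neg (fun hh => hv hh.1), if_neg hv]
      · rw [if_neg hz, if_neg (fun hh => hz hh.2)]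
    rw [Finset.sum_congr rfl e, Finset.sum_ite_eq]
    by_cases h1 : Rol W i r ∈ Z
    · rw [if_pos h1]
      by_cases hv : Vrol W (fun P' => P' = P (Rol W i r)) i r
      · rw [if_pos hv, if_pos ⟨hv, h1⟩]
      · rw [if_neg hv, if_neg (fun hh => hv hh.1)]
    · rw [if_neg h1, if_neg (fun hh => h1 hh.2)]
  simp_rw [h6]
  by_cases hex : ∃ i : Fin 4, Vrol W (fun P' => P' = P (Rol W i r)) i r ∧ Rol W i r ∈ Z
  · have hp30 : 30 ≤ r.p := by
      obtain ⟨i, hv, hz⟩ := hex
      have h7 := h31 _ hz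
      have h8 : pw i r = P (Rol W i r) := vrol_pw hv
      unfold pw at h8
      split_ifs at h8 <;> omega
    by_cases hfull : r.k + 1 = r.p
    · have h9 : ∀ i : Fin 4, (if Vrol W (fun P' => P' = P (Rol W i r)) i r ∧ Rol W i r ∈ Z then sh r i else 0) ≤
          (s (pw i r) : ℚ) := by
        intro i
        split_ifs
        · rw [hsh, if_pos hfull]
        · exact Nat.cast_nonneg _
      refine (Finset.sum_le_sum (fun i _ => h9 i)).trans ?_
      have h10 := full_all h r.p hp30
      rw [hfull]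
      rw [Fin.sum_univ_four]
      have e0 : pw 0 r = r.p + 1 := by simp [pw]
      have e1 : pw 1 r = r.p := by simp [pw]
      have e2 : pw 2 r = r.p := by simp [pw]
      have e3 : pw 3 r = r.p + 1 := by simp [pw]
      rw [e0, e1, e2, e3]
      linarith
    · have hnear : ∀ z ∈ Z, ¬ Near W z := by
        rintro z hz ⟨P', hP', hev⟩
        obtain ⟨τ', c', hev'⟩ := exists_evAt hev
        have h8 := h31 z hz
        rcases hwit.mn z hz τ' P' c' hev' with h7 | ⟨h7, -⟩ <;> omega
      have hcnt := cnt_le_two hW hrun (by omega) (fun _ => True) Z hnear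
      unfold cnt at hcnt
      have hM := M_nonneg A r.p (r.k + 1)
      rw [← Finset.sum_filter]
      have h11 : (Finset.univ.filter (fun i : Fin 4 => Vrol W (fun P' => P' = P (Rol W i r)) i r ∧ Rol W i r ∈ Z)).card ≤ 2 := by
        refine le_trans (Finset.card_le_card ?_) hcnt
        intro i hi
        rw [Finset.mem_filter] at hi ⊢
        exact ⟨hi.1, vrol_imp (fun _ _ => trivial) hi.2.1, hi.2.2⟩
      have h12 : ∑ i ∈ Finset.univ.filter (fun i : Fin 4 => Vrol W (fun P' => P' = P (Rol W i r)) i r ∧ Rol W i r ∈ Z),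
          sh r i = ((Finset.univ.filter (fun i : Fin 4 => Vrol W (fun P' => P' = P (Rol W i r)) i r ∧
            Rol W i r ∈ Z)).card : ℚ) * (A.M r.p (r.k + 1) / 2) := by
        rw [Finset.sum_congr rfl (fun i _ => by rw [hsh, if_neg hfull]), Finset.sum_const, nsmul_eq_mul]
      rw [h12]
      have h13 : ((Finset.univ.filter (fun i : Fin 4 => Vrol W (fun P' => P' = P (Rol W i r)) i r ∧
            Rol W i r ∈ Z)).card : ℚ) ≤ 2 := by exact_mod_cast h11
      nlinarith
  · have : ∀ i ∈ (Finset.univ : Finset (Fin 4)),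
        (if Vrol W (fun P' => P' = P (Rol W i r)) i r ∧ Rol W i r ∈ Z then sh r i else 0) = 0 := by
      intro i _
      rw [if_neg (fun hh => hex ⟨i, hh⟩)]
    rw [Finset.sum_eq_zero this]
    exact M_nonneg A _ _

theorem soft_area (hW : Sqf W) (hF : Fresh W n) {Z : Finset (ℤ × β)} {τ : ℤ × β → Bool} {P : ℤ × β → ℕ}
    {c : ℤ × β → ℤ} (hwit : Wit W Z τ P c) {A : Par} {s : ℕ → ℕ} {sD : ℕ} (h : Rows A s sD)
    (hs : ∀ p, p ≤ 30 → s p = 0) :
    ∑ z ∈ Z, (s (P z) : ℚ) ≤
      (2 * ∑ y ∈ Finset.range 256, (A.w0 y : ℚ) - ∑ y ∈ Finset.range 128, (A.w0 y : ℚ)) * n := by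
  classical
  have h1 : ∑ z ∈ Z, (s (P z) : ℚ) = ∑ z ∈ Z.filter (fun z => 31 ≤ P z), (s (P z) : ℚ) := by
    rw [Finset.sum_filter]
    apply Finset.sum_congr rfl
    intro z _
    split_ifs with h2
    · rfl
    · rw [hs _ (by omega), Nat.cast_zero]
  rw [h1]
  have hwit' : Wit W (Z.filter (fun z => 31 ≤ P z)) τ P c :=
    ⟨fun z hz => hwit.nt z (Finset.mem_filter.1 hz).1, fun z hz => hwit.ev z (Finset.mem_filter.1 hz).1,
      fun z hz => hwit.mn z (Finset.mem_filter.1 hz).1⟩
  refine (soft_count hW hF hwit' h (fun z hz => (Finset.mem_filter.1 hz).2)).trans ?_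
  exact area4 A hW hF (Runs W n) (fun r hr => (mem_Runs hF r).1 hr) _ (wq_total A)

end Pool.Agent.SQF4
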