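import Mathlib

/-!
Definitions of the KERNEL CHECK of the rows of the area argument: tables of the weights and of their prefix sums
S0, S1 (computable functions, given by decision trees with packed leaves of 16 lanes of 32 bits).
-/

set_option autoImplicit false

namespace Pool.Agent.SQF4

/-- lane y mod 16 of the packed leaf B -/
def lnR (B y : ℕ) : ℕ := (B >>> (32 * (y % 16))) % 4294967296

/-- call by value -/
def fcR {α : Type} (n : ℕ) (f : ℕ → α) : α := @Nat.rec (fun _ => α) (f 0) (fun k _ => f (Nat.succ k)) n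

def mxR (a b : ℕ) : ℕ := a + (b - a)
def miR (a b : ℕ) : ℕ := a - (a - b)

def mrR3 (S0 S1 : ℕ → ℕ) (l h m p K : ℕ) : ℕ :=
  (K * (S0 h - S0 l) + p * (S0 h + S0 l) + 2 * S1 m) - (2 * p * S0 m + S1 l + S1 h)

def mrR (S0 S1 : ℕ → ℕ) (a b p K : ℕ) : ℕ :=
  fcR (mxR a (p + 1 - K)) fun l => fcR (mxR (miR b (p + K)) l) fun h => fcR (mxR (miR p h) l) fun m => mrR3 S0 S1 l h m p K

/-- the cut functions (s x + c) / 10000 and the tables -/
structure Dat where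
  w : ℕ → ℕ
  S0 : ℕ → ℕ
  S1 : ℕ → ℕ
  s1 : ℕ
  c1 : ℕ
  s3 : ℕ
  c3 : ℕ
  s4 : ℕ
  c4 : ℕ
  st : ℕ → ℕ
  sD : ℕ

variable (C : Dat)

def Dat.g1 (x : ℕ) : ℕ := (C.s1 * x + C.c1) / 10000
def Dat.g3 (x : ℕ) : ℕ := (C.s3 * x + C.c3) / 10000
def Dat.g4 (x : ℕ) : ℕ := (C.s4 * x + C.c4) / 10000

def Dat.lo (p K : ℕ) : ℕ := mxR (mxR (C.g3 (3 * p - K)) (C.g1 p)) (C.g4 (p - K))
def Dat.hi (p K : ℕ) : ℕ := miR (miR (C.g3 (3 * p + K)) (C.g1 (p + K))) (C.g4 p)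

def Dat.ma (p K : ℕ) : ℕ := mrR C.S0 C.S1 (C.lo p K) (miR (C.hi p K) 256) p K
def Dat.mb (p K : ℕ) : ℕ := mrR C.S0 C.S1 (mxR (C.lo p K) 128) (miR (C.hi p K) 256) p K
def Dat.mm (p K : ℕ) : ℕ := C.ma p K + C.mb (p / 2) ((K - 1) / 2)

/-- the required share -/
def Dat.s (P : ℕ) : ℕ := cond (Nat.ble P 63) (C.st P) C.sD

/-- the prefix sums are correct -/
def Dat.pref : Bool :=
  (C.S0 0 == 0) && (C.S1 0 == 0) &&
  (List.range 256).all (fun y => (C.S0 (y + 1) == C.S0 y + C.w y) &&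
    (C.S1 (y + 1) == C.S1 y + y * C.w y))

def Dat.chkA (P : ℕ) : Bool :=
  (List.range (P - 3)).all (fun i => Nat.ble (2 * C.s P) (C.mm (P - 1) (i + 2) + C.mm P (P + 1 - (i + 2))))
def Dat.chkB (P : ℕ) : Bool :=
  (List.range (P - 3)).all (fun K => fcR (C.mm P (P - 4 - K)) fun v =>
    and (Nat.ble (2 * C.sD) (C.mm (P - 1) K + v))
      (cond (Nat.ble (2 * K) (P - 4)) (Nat.ble (2 * C.sD) (C.mm P K + v)) true))
def Dat.chkE (p : ℕ) : Bool := Nat.ble (2 * C.s p + 2 * C.s (p + 1)) (C.mm p p)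
def Dat.chkF (p : ℕ) : Bool := Nat.ble (4 * C.sD) (C.mm p (p - 2))

end Pool.Agent.SQF4
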