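import Mathlib
import Pool.Agent.SQF4.RowDef
import Pool.Agent.SQF4.Far

/-!
KERNEL CHECK of the rows: tables of the weights w0 and of their prefix sums S0, S1 (computable functions, given by
decision trees with packed leaves of 16 lanes of 32 bits).
-/

set_option autoImplicit false

namespace Pool.Agent.SQF4

open Pool.Agent.SQF

theorem fcR_eq {α : Type} (n : ℕ) (f : ℕ → α) : fcR n f = f n := by
  unfold fcR
  cases n <;> rfl

theorem mxR_eq (a b : ℕ) : mxR a b = max a b := by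
  unfold mxR
  rcases le_total a b with h | h
  · rw [max_eq_right h]; omega
  · rw [max_eq_left h]; omega

theorem miR_eq (a b : ℕ) : miR a b = min a b := by
  unfold miR
  rcases le_total a b with h | h
  · rw [min_eq_left h]; omega
  · rw [min_eq_right h]; omega

variable (C : Dat)

theorem lin_mono (s c : ℕ) : Monotone (fun x : ℕ => (s * x + c) / 10000) := by
  intro x y h
  exact Nat.div_le_div_right (Nat.add_le_add_right (Nat.mul_le_mul_left _ h) _)

/-- the parameters of the area argument -/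
def Dat.par : Par where
  w0 := C.w
  f1 := C.g1
  f3 := C.g3
  f4 := C.g4
  mono1 := lin_mono _ _
  mono3 := lin_mono _ _
  mono4 := lin_mono _ _

theorem sum_wi_eq (w S0 S1 : ℕ → ℕ) (hS0 : ∀ y, y ≤ 256 → S0 y = ∑ i ∈ Finset.range y, w i)
    (hS1 : ∀ y, y ≤ 256 → S1 y = ∑ i ∈ Finset.range y, i * w i) (l m h p K : ℕ) (hlm : l ≤ m) (hmh : m ≤ h)
    (hh : h ≤ 256) (h1 : ∀ y, l ≤ y → y < m → y ≤ p ∧ p ≤ y + K) (h2 : ∀ y, m ≤ y → y < h → p ≤ y ∧ y ≤ p + K) :
    ∑ y ∈ Finset.Ico l h, w y * wi y p K =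
      (K * (S0 h - S0 l) + p * (S0 h + S0 l) + 2 * S1 m) - (2 * p * S0 m + S1 l + S1 h) := by
  have e0 : ∀ a b : ℕ, a ≤ b → b ≤ 256 → ((S0 b : ℤ) - S0 a) = ∑ y ∈ Finset.Ico a b, (w y : ℤ) := by
    intro a b hab hb
    rw [Finset.sum_Ico_eq_sub _ hab, hS0 b hb, hS0 a (by omega)]
    push_cast
    rfl
  have e1 : ∀ a b : ℕ, a ≤ b → b ≤ 256 → ((S1 b : ℤ) - S1 a) = ∑ y ∈ Finset.Ico a b, (y : ℤ) * (w y : ℤ) := by
    intro a b hab hb
    rw [Finset.sum_Ico_eq_sub _ hab, hS1 b hb, hS1 a (by omega)]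
    push_cast
    rfl
  have key : ((∑ y ∈ Finset.Ico l h, w y * wi y p K : ℕ) : ℤ) =
      ((K : ℤ) * (S0 h - S0 l) + p * (S0 h + S0 l) + 2 * S1 m) - (2 * p * S0 m + S1 l + S1 h) := by
    rw [← Finset.sum_Ico_consecutive _ hlm hmh]
    push_cast
    have a1 : ∑ y ∈ Finset.Ico l m, (w y : ℤ) * (wi y p K : ℤ) =
        ((K : ℤ) - p) * ∑ y ∈ Finset.Ico l m, (w y : ℤ) + ∑ y ∈ Finset.Ico l m, (y : ℤ) * (w y : ℤ) := by
      rw [Finset.mul_sum, ← Finset.sum_add_distrib]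
      apply Finset.sum_congr rfl
      intro y hy
      rw [Finset.mem_Ico] at hy
      obtain ⟨b1, b2⟩ := h1 y hy.1 hy.2
      have : (wi y p K : ℤ) = (K : ℤ) - p + y := by
        unfold wi
        omega
      rw [this]
      ring
    have a2 : ∑ y ∈ Finset.Ico m h, (w y : ℤ) * (wi y p K : ℤ) =
        ((K : ℤ) + p) * ∑ y ∈ Finset.Ico m h, (w y : ℤ) - ∑ y ∈ Finset.Ico m h, (y : ℤ) * (w y : ℤ) := by
      rw [Finset.mul_sum, ← Finset.sum_sub_distrib]
      apply Finset.sum_congr rfl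
      intro y hy
      rw [Finset.mem_Ico] at hy
      obtain ⟨b1, b2⟩ := h2 y hy.1 hy.2
      have : (wi y p K : ℤ) = (K : ℤ) + p - y := by
        unfold wi
        omega
      rw [this]
      ring
    rw [a1, a2, ← e0 l m hlm (by omega), ← e0 m h hmh hh, ← e1 l m hlm (by omega), ← e1 m h hmh hh]
    ring
  have hS : S0 l ≤ S0 h := by
    rw [hS0 h hh, hS0 l (by omega)]
    exact Finset.sum_le_sum_of_subset (Finset.range_mono (by omega))
  have e3 : ((K * (S0 h - S0 l) : ℕ) : ℤ) = (K : ℤ) * (S0 h - S0 l) := by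
    push_cast [Nat.cast_sub hS]
    ring
  have e4 : ((2 * p * S0 m : ℕ) : ℤ) = 2 * p * S0 m := by push_cast; ring
  have e5 : ((p * (S0 h + S0 l) : ℕ) : ℤ) = p * (S0 h + S0 l) := by push_cast; ring
  rw [← e3, ← e4, ← e5] at key
  generalize K * (S0 h - S0 l) = X1 at *
  generalize 2 * p * S0 m = X2 at *
  generalize p * (S0 h + S0 l) = X3 at *
  omega

theorem mrR_eq (w S0 S1 : ℕ → ℕ) (hS0 : ∀ y, y ≤ 256 → S0 y = ∑ i ∈ Finset.range y, w i)
    (hS1 : ∀ y, y ≤ 256 → S1 y = ∑ i ∈ Finset.range y, i * w i) (a b p K : ℕ) (hb : b ≤ 256) :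
    mrR S0 S1 a b p K = ∑ y ∈ Finset.Ico a b, w y * wi y p K := by
  unfold mrR
  rw [fcR_eq, fcR_eq, fcR_eq]
  obtain ⟨l, hl⟩ : ∃ l, l = mxR a (p + 1 - K) := ⟨_, rfl⟩
  obtain ⟨h, hh⟩ : ∃ h, h = mxR (miR b (p + K)) l := ⟨_, rfl⟩
  obtain ⟨m, hm⟩ : ∃ m, m = mxR (miR p h) l := ⟨_, rfl⟩
  rw [← hl, ← hh, ← hm]
  rw [mxR_eq] at hl hh hm
  rw [miR_eq] at hh hm
  have hsum : ∑ y ∈ Finset.Ico a b, w y * wi y p K = ∑ y ∈ Finset.Ico l h, w y * wi y p K := by
    have hz : ∀ y, y ∈ Finset.Ico a b → y ∉ Finset.Ico l h → w y * wi y p K = 0 := by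
      intro y h1 h2
      rw [Finset.mem_Ico] at h1 h2
      have : wi y p K = 0 := by
        unfold wi
        omega
      rw [this, mul_zero]
    have hz2 : ∀ y, y ∈ Finset.Ico l h → y ∈ Finset.Ico a b := by
      intro y h1
      rw [Finset.mem_Ico] at h1 ⊢
      omega
    symm
    apply Finset.sum_subset
    · intro y hy
      exact hz2 y hy
    · intro y hy hy2
      exact hz y hy hy2
  rw [hsum]
  unfold mrR3
  rcases Nat.lt_or_ge l h with hlt | hge
  · exact (sum_wi_eq w S0 S1 hS0 hS1 l m h p K (by omega) (by omega) (by omega)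
      (fun y h1 h2 => by omega) (fun y h1 h2 => by omega)).symm
  · have e1 : h = l := by omega
    have e2 : m = l := by omega
    rw [e1, e2, Finset.Ico_self, Finset.sum_empty, Nat.sub_self, mul_zero]
    have : 0 + p * (S0 l + S0 l) + 2 * S1 l = 2 * p * S0 l + S1 l + S1 l := by ring
    rw [this, Nat.sub_self]

theorem pref_sound (h : C.pref = true) :
    (∀ y, y ≤ 256 → C.S0 y = ∑ i ∈ Finset.range y, C.w i) ∧
    (∀ y, y ≤ 256 → C.S1 y = ∑ i ∈ Finset.range y, i * C.w i) := by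
  unfold Dat.pref at h
  simp only [Bool.and_eq_true, beq_iff_eq, List.all_eq_true, List.mem_range] at h
  obtain ⟨⟨h1, h2⟩, h3⟩ := h
  constructor
  · intro y
    induction y with
    | zero => intro _; simpa using h1
    | succ y ih =>
      intro hy
      rw [(h3 y (by omega)).1, ih (by omega), Finset.sum_range_succ]
  · intro y
    induction y with
    | zero => intro _; simpa using h2
    | succ y ih =>
      intro hy
      rw [(h3 y (by omega)).2, ih (by omega), Finset.sum_range_succ]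

theorem lo_eq (p K : ℕ) : C.lo p K = C.par.lo p K := by
  unfold Dat.lo Par.lo
  rw [mxR_eq, mxR_eq]
  rfl

theorem hi_eq (p K : ℕ) : C.hi p K = C.par.hi p K := by
  unfold Dat.hi Par.hi
  rw [miR_eq, miR_eq]
  rfl

theorem mm_eq (h : C.pref = true) (p K : ℕ) : C.mm p K = C.par.mm p K := by
  obtain ⟨h1, h2⟩ := pref_sound C h
  unfold Dat.mm Dat.ma Dat.mb Par.mm Par.m0 Par.m1 Par.bs
  rw [miR_eq, miR_eq, mxR_eq, mrR_eq C.w C.S0 C.S1 h1 h2 _ _ _ _ (min_le_right _ _),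
    mrR_eq C.w C.S0 C.S1 h1 h2 _ _ _ _ (min_le_right _ _), lo_eq, hi_eq, lo_eq, hi_eq]
  rfl

theorem rows_of_checks (hp : C.pref = true) (h167 : Nat.ble 128 (C.g1 167) = true)
    (hf : ((List.range 64).all fun P => Nat.ble (C.st P) C.sD) = true)
    (hA : ∀ P, 31 ≤ P → P ≤ 167 → C.chkA P = true) (hB : ∀ P, 168 ≤ P → P ≤ 335 → C.chkB P = true)
    (hE : ∀ P, 30 ≤ P → P ≤ 167 → C.chkE P = true)
    (hF : ∀ P, 168 ≤ P → P ≤ 335 → C.chkF P = true) : Rows C.par C.s C.sD where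
  h167 := Nat.le_of_ble_eq_true h167
  full := by
    intro P
    unfold Dat.s
    cases h : Nat.ble P 63
    · exact le_refl _
    · rw [List.all_eq_true] at hf
      exact Nat.le_of_ble_eq_true (hf P (List.mem_range.2 (Nat.lt_succ_of_le (Nat.le_of_ble_eq_true h))))
  rA := by
    intro P K h1 h2 h3 h4
    have h5 := hA P h1 h2
    unfold Dat.chkA at h5
    rw [List.all_eq_true] at h5
    have h6 := Nat.le_of_ble_eq_true (h5 (K - 2) (List.mem_range.2 (by omega)))
    have e : K - 2 + 2 = K := by omega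
    rw [e, mm_eq C hp, mm_eq C hp] at h6
    exact h6
  rB := by
    intro P K h1 h2 h3
    have h5 := hB P h1 h2
    unfold Dat.chkB at h5
    rw [List.all_eq_true] at h5
    have h6 := h5 K (List.mem_range.2 (by omega))
    rw [fcR_eq, Bool.and_eq_true] at h6
    have h7 := Nat.le_of_ble_eq_true h6.1
    rw [mm_eq C hp, mm_eq C hp] at h7
    exact h7
  rC := by
    have key : ∀ P K : ℕ, 168 ≤ P → P ≤ 335 → 2 * K ≤ P - 4 →
        2 * C.sD ≤ C.par.mm P K + C.par.mm P (P - 4 - K) := by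
      intro P K h1 h2 h3
      have h5 := hB P h1 h2
      unfold Dat.chkB at h5
      rw [List.all_eq_true] at h5
      have h6 := h5 K (List.mem_range.2 (by omega))
      rw [fcR_eq, Bool.and_eq_true, Nat.ble_eq_true_of_le h3, cond_true] at h6
      have h7 := Nat.le_of_ble_eq_true h6.2
      rw [mm_eq C hp, mm_eq C hp] at h7
      exact h7
    intro P K h1 h2 h3
    rcases le_total (2 * K) (P - 4) with h4 | h4
    · exact key P K h1 h2 h4
    · have h5 := key P (P - 4 - K) h1 h2 (by omega)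
      have e : P - 4 - (P - 4 - K) = K := by omega
      rw [e, add_comm] at h5
      exact h5
  rE := by
    intro P h1 h2
    have h6 := Nat.le_of_ble_eq_true (hE P h1 h2)
    rw [mm_eq C hp] at h6
    exact h6
  rF := by
    intro P h1 h2
    have h6 := Nat.le_of_ble_eq_true (hF P h1 h2)
    rw [mm_eq C hp] at h6
    exact h6

/-- H3 from the checks. S' = C.S scale between the weights and D. -/
theorem H3_of (C : Dat) (S D l0 : ℕ) (a : ℕ → ℕ) (hS : 0 < S) (hp : C.pref = true) (hR : Rows C.par C.s C.sD)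
    (hs : ∀ p, p ≤ 30 → C.s p = 0) (hrel : ∀ p, S * (D - a p) ≤ C.s p)
    (htot : 2 * C.S0 256 ≤ S * l0 + C.S0 128)
    {β : Type*} {W : ℤ → β} {n : ℕ} (hW : Sqf W) (hF : Fresh W n) {Z : Finset (ℤ × β)} {τ : ℤ × β → Bool}
    {P : ℤ × β → ℕ} {c : ℤ × β → ℤ} (hwit : Wit W Z τ P c) : ∑ z ∈ Z, (D - a (P z)) ≤ l0 * n := by
  have h1 := soft_area hW hF hwit hR hs
  obtain ⟨p1, -⟩ := pref_sound C hp
  have e256 : ∑ y ∈ Finset.range 256, (C.par.w0 y : ℚ) = (C.S0 256 : ℚ) := by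
    rw [p1 256 (le_refl _)]
    push_cast
    rfl
  have e128 : ∑ y ∈ Finset.range 128, (C.par.w0 y : ℚ) = (C.S0 128 : ℚ) := by
    rw [p1 128 (by omega)]
    push_cast
    rfl
  rw [e256, e128] at h1
  have h2 : ∑ z ∈ Z, ((S * (D - a (P z)) : ℕ) : ℚ) ≤ ∑ z ∈ Z, (C.s (P z) : ℚ) := by
    apply Finset.sum_le_sum
    intro z _
    exact_mod_cast hrel (P z)
  have h3 : 2 * (C.S0 256 : ℚ) ≤ S * l0 + C.S0 128 := by exact_mod_cast htot
  have h4 : ((S * ∑ z ∈ Z, (D - a (P z)) : ℕ) : ℚ) ≤ ((S * (l0 * n) : ℕ) : ℚ) := by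
    rw [Finset.mul_sum]
    push_cast at h2 ⊢
    refine h2.trans (h1.trans ?_)
    have hn : (0 : ℚ) ≤ n := Nat.cast_nonneg _
    nlinarith
  have h5 : S * ∑ z ∈ Z, (D - a (P z)) ≤ S * (l0 * n) := by exact_mod_cast h4
  exact Nat.le_of_mul_le_mul_left h5 hS

end Pool.Agent.SQF4
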