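import Mathlib
import Pool.Agent.SQF4.Rows
import Pool.Agent.SQF4.Tab
import Pool.Agent.SQF4.AC0
import Pool.Agent.SQF4.AC1
import Pool.Agent.SQF4.AC2
import Pool.Agent.SQF4.AC3
import Pool.Agent.SQF4.AC4
import Pool.Agent.SQF4.AC5
import Pool.Agent.SQF4.AC6
import Pool.Agent.SQF4.AC7
import Pool.Agent.SQF4.AC8
import Pool.Agent.SQF4.AC9
import Pool.Agent.SQF4.AC10
import Pool.Agent.SQF4.AC11
import Pool.Agent.SQF4.AC12
import Pool.Agent.SQF4.AC13
import Pool.Agent.SQF4.AC14
import Pool.Agent.SQF4.AC15
import Pool.Agent.SQF4.AC16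

/-!
H3 for the profile aw, c = 1.76: the shares 1000 - aw (P z) add up to at most 240 n.
-/

set_option autoImplicit false
set_option maxRecDepth 100000

namespace Pool.Agent.SQF4

open Pool.Agent.SQF

theorem all_range' {l m : ℕ} {f : ℕ → Bool} (h : (List.range' l m).all f = true) {P : ℕ} (h1 : l ≤ P)
    (h2 : P < l + m) : f P = true := by
  rw [List.all_eq_true] at h
  exact h P (List.mem_range'_1.2 ⟨h1, h2⟩)

theorem rows4 : Rows dat.par dat.s dat.sD := by
  refine rows_of_checks dat c_pref c_167 c_f ?_ ?_ ?_ ?_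
  · intro P h1 h2
    by_cases h3 : P ≤ 100
    · exact all_range' c_A31 (by omega) (by omega)
    by_cases h4 : P ≤ 138
    · exact all_range' c_A101 (by omega) (by omega)
    exact all_range' c_A139 (by omega) (by omega)
  · intro P h1 h2
    by_cases h3 : P ≤ 185
    · exact all_range' c_B168 (by omega) (by omega)
    by_cases h4 : P ≤ 200
    · exact all_range' c_B186 (by omega) (by omega)
    by_cases h5 : P ≤ 215
    · exact all_range' c_B201 (by omega) (by omega)
    by_cases h6 : P ≤ 228
    · exact all_range' c_B216 (by omega) (by omega)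
    by_cases h7 : P ≤ 241
    · exact all_range' c_B229 (by omega) (by omega)
    by_cases h8 : P ≤ 254
    · exact all_range' c_B242 (by omega) (by omega)
    by_cases h9 : P ≤ 265
    · exact all_range' c_B255 (by omega) (by omega)
    by_cases h10 : P ≤ 276
    · exact all_range' c_B266 (by omega) (by omega)
    by_cases h11 : P ≤ 287
    · exact all_range' c_B277 (by omega) (by omega)
    by_cases h12 : P ≤ 297
    · exact all_range' c_B288 (by omega) (by omega)
    by_cases h13 : P ≤ 307
    · exact all_range' c_B298 (by omega) (by omega)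
    by_cases h14 : P ≤ 317
    · exact all_range' c_B308 (by omega) (by omega)
    by_cases h15 : P ≤ 326
    · exact all_range' c_B318 (by omega) (by omega)
    exact all_range' c_B327 (by omega) (by omega)
  · intro P h1 h2
    exact all_range' c_E (by omega) (by omega)
  · intro P h1 h2
    exact all_range' c_F (by omega) (by omega)

theorem c_tot : Nat.ble (2 * dat.S0 256) (10000 * 240 + dat.S0 128) = true := by decide +kernel

theorem c_aw : ((List.range 64).all fun P => Nat.ble (10000 * (1000 - aw P)) (dat.s P)) = true := by decide +kernel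

theorem aw_rel (P : ℕ) : 10000 * (1000 - aw P) ≤ dat.s P := by
  by_cases h : P < 64
  · have h1 := c_aw
    rw [List.all_eq_true] at h1
    exact Nat.le_of_ble_eq_true (h1 P (List.mem_range.2 h))
  · rw [aw_zero (by omega)]
    have h1 : dat.s P = dat.sD := by
      unfold Dat.s
      cases h2 : Nat.ble P 63
      · rfl
      · have := Nat.le_of_ble_eq_true h2
        omega
    rw [h1]
    exact le_refl _

theorem H3_area {β : Type*} {W : ℤ → β} {n : ℕ} (hW : Sqf W) (hF : Fresh W n) {Z : Finset (ℤ × β)}
    {τ : ℤ × β → Bool} {P : ℤ × β → ℕ} {c : ℤ × β → ℤ} (hwit : Wit W Z τ P c) :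
    ∑ z ∈ Z, (1000 - aw (P z)) ≤ 240 * n := by
  refine H3_of dat 10000 1000 240 aw (by norm_num) c_pref rows4 ?_ aw_rel ?_ hW hF hwit
  · intro p hp
    have h1 := c_s30
    rw [List.all_eq_true] at h1
    have h2 := h1 p (List.mem_range.2 (by omega))
    rw [beq_iff_eq] at h2
    unfold Dat.s
    rw [Nat.ble_eq_true_of_le (by omega : p ≤ 63), cond_true]
    exact h2
  · exact Nat.le_of_ble_eq_true c_tot

end Pool.Agent.SQF4
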