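import Mathlib
import Pool.Agent.SQF4.Blk

/-!
BLOCK INDUCTION and the four alternatives for a position x of the word.
-/

set_option autoImplicit false

namespace Pool.Agent.SQF4

open Pool.Agent.SQF

variable {β : Type*} {W : ℤ → β} {n : ℕ}

/-- the weight of the pairs with centre ≥ x -/
noncomputable def tailW (Z : Finset (ℤ × β)) (P : ℤ × β → ℕ) (c : ℤ × β → ℤ) (a : ℕ → ℕ) (x : ℤ) : ℕ :=
  ∑ z ∈ Z.filter (fun z => x ≤ c z), a (P z)

theorem tailW_split (Z : Finset (ℤ × β)) (P : ℤ × β → ℕ) (c : ℤ × β → ℤ) (a : ℕ → ℕ) (x : ℤ) (t : ℕ) :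
    tailW Z P c a x = ∑ z ∈ blk Z c x t, a (P z) + tailW Z P c a (x + t) := by
  classical
  unfold tailW blk
  rw [← Finset.sum_union]
  · apply Finset.sum_congr _ (fun _ _ => rfl)
    ext z
    simp only [Finset.mem_union, Finset.mem_filter]
    constructor
    · rintro ⟨h1, h2⟩
      by_cases h : c z < x + t
      · exact Or.inl ⟨h1, h2, h⟩
      · exact Or.inr ⟨h1, by omega⟩
    · rintro (⟨h1, h2, -⟩ | ⟨h1, h2⟩)
      · exact ⟨h1, h2⟩
      · exact ⟨h1, by omega⟩
  · rw [Finset.disjoint_left]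
    intro z h1 h2
    have h3 := (Finset.mem_filter.1 h1).2.2
    have h4 := (Finset.mem_filter.1 h2).2
    omega

theorem tail_bound (Z : Finset (ℤ × β)) (P : ℤ × β → ℕ) (c : ℤ × β → ℤ) (a : ℕ → ℕ) (cn K : ℕ)
    (hin : ∀ z ∈ Z, c z < n)
    (H : ∀ x : ℕ, x < n → (∃ t : ℕ, 1 ≤ t ∧ x + t ≤ n ∧ ∑ z ∈ blk Z c x t, a (P z) ≤ cn * t) ∨
      tailW Z P c a x ≤ cn * (n - x) + K) :
    ∀ m x : ℕ, n = x + m → tailW Z P c a x ≤ cn * m + K := by
  intro m
  induction m using Nat.strong_induction_on with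
  | _ m ih =>
    intro x hx
    rcases Nat.eq_zero_or_pos m with h0 | h0
    · subst h0
      have : tailW Z P c a x = 0 := by
        unfold tailW
        apply Finset.sum_eq_zero
        intro z hz
        obtain ⟨h1, h2⟩ := Finset.mem_filter.1 hz
        have := hin z h1
        omega
      omega
    · rcases H x (by omega) with ⟨t, h1, h2, h3⟩ | h
      · have h4 := ih (m - t) (by omega) (x + t) (by omega)
        rw [tailW_split Z P c a x t]
        have e : ((x + t : ℕ) : ℤ) = (x : ℤ) + t := by push_cast; rfl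
        rw [e] at h4
        have e2 : cn * m = cn * t + cn * (m - t) := by
          rw [← mul_add]
          congr 1
          omega
        omega
      · have e : n - x = m := by omega
        rw [e] at h
        exact h

/-- no square of the word v lies inside [0, n) -/
def SqfOn {γ : Type*} (v : ℤ → γ) (n : ℕ) : Prop :=
  ∀ (s : ℤ) (p : ℕ), 0 < p → 0 ≤ s → s + 2 * p ≤ n → ∃ i : ℕ, i < p ∧ v (s + i) ≠ v (s + i + p)

/-- the window [lo, lo + N) of v read as u, up to a renaming φ of the letters -/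
structure View (v : ℤ → Fin 4) (lo : ℤ) (N : ℕ) (φ : Fin 4 → Fin 4) (u : ℤ → Fin 4) : Prop where
  inj : Function.Injective φ
  eq : ∀ i : ℤ, 0 ≤ i → i < N → u i = φ (v (lo + i))

/-- What the tree has to deliver at the position x of a square-free word v of length n. The block starts at
x = lo + A. First alternative: an interior window; second: a window starting at the beginning of the word;
third: a window ending at the end of the word; fourth: the whole word. S q t: the table Bt may be used at (q, t). -/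
inductive Good (a : ℕ → ℕ) (D cn K : ℕ) (S : ℕ → ℕ → Prop) (Bt : ℕ → ℕ → ℕ) (v : ℤ → Fin 4) (n : ℕ) (x : ℕ) : Prop
  | cut (lo N A t q : ℕ) (φ : Fin 4 → Fin 4) (u : ℤ → Fin 4) (T : Finset (ℤ × Fin 4)) (FR FL FB : Finset (Bool × ℕ))
      (hx : lo + A = x) (hn : lo + N ≤ n) (ht : 1 ≤ t) (hAt : A + t ≤ N) (hq : t + 1 ≤ q) (hS : S q t)
      (hv : View v lo N φ u)
      (hc : Cert u N A t q T FR FL FB)
      (hs : D * T.card + ∑ f ∈ FR, a f.2 + ∑ f ∈ FL, a f.2 + ∑ f ∈ FB, a f.2 + Bt q t ≤ cn * t)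
  | start (N t : ℕ) (φ : Fin 4 → Fin 4) (u : ℤ → Fin 4) (T : Finset (ℤ × Fin 4)) (FR : Finset (Bool × ℕ))
      (hn : N ≤ n) (ht : 1 ≤ t) (hAt : x + t ≤ N) (hv : View v 0 N φ u)
      (hT : CovT u N x t (x + t + 1) T) (hR : CovR u N x t (x + t + 1) T FR)
      (hs : D * T.card + ∑ f ∈ FR, a f.2 ≤ cn * t)
  | fin (lo N A t : ℕ) (φ : Fin 4 → Fin 4) (u : ℤ → Fin 4) (T : Finset (ℤ × Fin 4)) (FL : Finset (Bool × ℕ))
      (hx : lo + A = x) (hn : lo + N = n) (hAt : A + t = N) (hv : View v lo N φ u)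
      (hT : CovT u N A t (t + 1) T) (hL : CovL u N A t (t + 1) T FL)
      (hs : D * T.card + ∑ f ∈ FL, a f.2 ≤ cn * t + K)
  | whole (t : ℕ) (φ : Fin 4 → Fin 4) (u : ℤ → Fin 4) (T : Finset (ℤ × Fin 4))
      (hn : x + t = n) (hv : View v 0 n φ u) (hT : CovT u n x t (t + 1) T)
      (hs : D * T.card ≤ cn * t + K)

theorem step_of_good (hW : Sqf W) (hF : Fresh W n) {Z : Finset (ℤ × β)} {τ : ℤ × β → Bool} {P : ℤ × β → ℕ}
    {c : ℤ × β → ℤ} (hwit : Wit W Z τ P c) (a : ℕ → ℕ) (D cn K : ℕ) (ha : ∀ p, a p ≤ D)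
    (S : ℕ → ℕ → Prop) (Bt : ℕ → ℕ → ℕ) (ψ : β → Fin 4) (v : ℤ → Fin 4) (hv : ∀ i : ℤ, 0 ≤ i → i < n → ψ (W i) = v i)
    (hψ : ∀ i j : ℤ, 0 ≤ i → i < n → 0 ≤ j → j < n → v i = v j → W i = W j)
    (H2 : ∀ (x : ℤ) (t q : ℕ), t + 1 ≤ q → S q t → ∑ z ∈ (blk Z c x t).filter (fun z => q ≤ P z), a (P z) ≤ Bt q t)
    (x : ℕ) (hg : Good a D cn K S Bt v n x) :
    (∃ t : ℕ, 1 ≤ t ∧ x + t ≤ n ∧ ∑ z ∈ blk Z c x t, a (P z) ≤ cn * t) ∨
      tailW Z P c a x ≤ cn * (n - x) + K := by
  have hins : ∀ z ∈ Z, 0 ≤ c z - P z + 1 ∧ c z + P z ≤ n := fun z hz => (hwit.ev z hz).inside hF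
  have view : ∀ (lo N : ℕ) (φ : Fin 4 → Fin 4) (u : ℤ → Fin 4), lo + N ≤ n → View v lo N φ u →
      (∀ i : ℤ, 0 ≤ i → i < N → u i = (fun y => φ (ψ y)) (W (lo + i))) ∧
      (∀ i j : ℤ, 0 ≤ i → i < N → 0 ≤ j → j < N →
        (fun y => φ (ψ y)) (W (lo + i)) = (fun y => φ (ψ y)) (W (lo + j)) → W (lo + i) = W (lo + j)) := by
    intro lo N φ u hN hw
    refine ⟨fun i h1 h2 => ?_, fun i j h1 h2 h3 h4 h => ?_⟩
    · simp only
      rw [hw.eq i h1 h2, hv _ (by omega) (by omega)]
    · simp only at h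
      rw [hv _ (by omega) (by omega), hv _ (by omega) (by omega)] at h
      exact hψ _ _ (by omega) (by omega) (by omega) (by omega) (hw.inj h)
  have hbt : ∀ t : ℕ, x + t = n → tailW Z P c a x = ∑ z ∈ blk Z c x t, a (P z) := by
    intro t ht
    unfold tailW blk
    apply Finset.sum_congr _ (fun _ _ => rfl)
    apply Finset.filter_congr
    intro z hz
    have := hins z hz
    have := (hwit.ev z hz).two_le
    constructor
    · intro h
      exact ⟨h, by omega⟩
    · intro h
      exact h.1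
  cases hg with
  | cut lo N A t q φ u T FR FL FB hx hn ht hAt hq hSq hvw hc hs =>
    left
    refine ⟨t, ht, by omega, ?_⟩
    obtain ⟨h1, h2⟩ := view lo N φ u hn hvw
    have h3 := block hW hwit a D ha lo N A t q hAt (fun y => φ (ψ y)) u h1 h2 hc (Bt q t)
      (H2 _ t q hq hSq)
    have e : ((lo : ℤ) + A) = x := by
      rw [← hx]
      push_cast
      rfl
    rw [e] at h3
    exact h3.trans hs
  | start N t φ u T FR hn ht hAt hvw hT hR hs =>
    left
    refine ⟨t, ht, by omega, ?_⟩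
    obtain ⟨h1, h2⟩ := view 0 N φ u (by omega) hvw
    have h3 := block_gen hW hwit a D ha ((0 : ℕ) : ℤ) N x t (x + t + 1) hAt (fun y => φ (ψ y)) u h1 h2 (FL := ∅)
      (FB := ∅) hT (Or.inl hR) (Or.inr (fun z hz => by have := hins z hz; omega))
      (Or.inr (Or.inr (fun z hz => by have := hins z hz; omega))) 0 (by
        rw [Finset.sum_eq_zero]
        intro z hz
        obtain ⟨hz1, hz2⟩ := Finset.mem_filter.1 hz
        obtain ⟨hz3, hz4, hz5⟩ := Finset.mem_filter.1 hz1
        have := hins z hz3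
        omega)
    have e : (((0 : ℕ) : ℤ) + x) = x := by
      push_cast
      ring
    rw [e] at h3
    simp only [Finset.sum_empty, add_zero] at h3
    exact h3.trans hs
  | fin lo N A t φ u T FL hx hn hAt hvw hT hL hs =>
    right
    obtain ⟨h1, h2⟩ := view lo N φ u (by omega) hvw
    have h3 := block_gen hW hwit a D ha lo N A t (t + 1) (by omega) (fun y => φ (ψ y)) u h1 h2 (FR := ∅)
      (FB := ∅) hT (Or.inr (fun z hz => by have := hins z hz; omega)) (Or.inl hL)
      (Or.inr (Or.inl (fun z hz => by have := hins z hz; omega))) 0 (by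
        rw [Finset.sum_eq_zero]
        intro z hz
        obtain ⟨hz1, hz2⟩ := Finset.mem_filter.1 hz
        obtain ⟨hz3, hz4, hz5⟩ := Finset.mem_filter.1 hz1
        have := hins z hz3
        omega)
    have e : ((lo : ℤ) + A) = x := by
      rw [← hx]
      push_cast
      rfl
    rw [e] at h3
    simp only [Finset.sum_empty, add_zero] at h3
    rw [hbt t (by omega)]
    have e2 : n - x = t := by omega
    rw [e2]
    exact h3.trans hs
  | whole t φ u T hn hvw hT hs =>
    right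
    obtain ⟨h1, h2⟩ := view 0 n φ u (by omega) hvw
    have h3 := block_gen hW hwit a D ha ((0 : ℕ) : ℤ) n x t (t + 1) (by omega) (fun y => φ (ψ y)) u h1 h2 (FR := ∅)
      (FL := ∅) (FB := ∅) hT (Or.inr (fun z hz => by have := hins z hz; omega))
      (Or.inr (fun z hz => by have := hins z hz; omega))
      (Or.inr (Or.inl (fun z hz => by have := hins z hz; omega))) 0 (by
        rw [Finset.sum_eq_zero]
        intro z hz
        obtain ⟨hz1, hz2⟩ := Finset.mem_filter.1 hz
        obtain ⟨hz3, hz4, hz5⟩ := Finset.mem_filter.1 hz1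
        have := hins z hz3
        omega)
    have e : (((0 : ℕ) : ℤ) + x) = x := by
      push_cast
      ring
    rw [e] at h3
    simp only [Finset.sum_empty, add_zero] at h3
    rw [hbt t (by omega)]
    have e2 : n - x = t := by omega
    rw [e2]
    exact h3.trans hs

end Pool.Agent.SQF4
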