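import Mathlib
import Pool.Agent.SQF4.Ind
import Pool.Agent.SQF.I1

/-!
ASSEMBLY. H1: the tree; H2: the universal table B(q,t); H3: the area argument.
If every insertion creates a square, then there are 2n + 4 nontrivial pairs, all with events;
D (2n+4) = Σ a(P) + Σ (D - a(P)) ≤ cn n + (4D - 1) + ln n = 2 D n + 4 D - 1.
-/

set_option autoImplicit false

namespace Pool.Agent.SQF4

open Pool.Agent.SQF

/-- existence of chosen events -/
theorem exists_wit {β : Type*} {W : ℤ → β} (Z : Finset (ℤ × β))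
    (hZ : ∀ z ∈ Z, NonTriv W z ∧ ∃ P : ℕ, Ev W z.1 z.2 P) :
    ∃ (τ : ℤ × β → Bool) (P : ℤ × β → ℕ) (c : ℤ × β → ℤ), Wit W Z τ P c := by
  classical
  have h1 : ∀ z : ℤ × β, ∃ d : Bool × ℕ × ℤ, z ∈ Z → (EvAt W d.1 d.2.1 d.2.2 z.1 z.2 ∧
      ∀ (τ' : Bool) (P' : ℕ) (c' : ℤ), EvAt W τ' P' c' z.1 z.2 →
        d.2.1 < P' ∨ (d.2.1 = P' ∧ (d.1 = true → τ' = true))) := by
    intro z
    by_cases hz : z ∈ Z
    · obtain ⟨-, hex⟩ := hZ z hz
      have hmin := Nat.find_spec hex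
      by_cases hf : ∃ c : ℤ, EvAt W false (Nat.find hex) c z.1 z.2
      · obtain ⟨c, hev⟩ := hf
        refine ⟨(false, Nat.find hex, c), fun _ => ⟨hev, fun τ' P' c' h' => ?_⟩⟩
        rcases lt_or_eq_of_le (Nat.find_min' hex h'.ev) with h2 | h2
        · exact Or.inl h2
        · exact Or.inr ⟨h2, fun h3 => (Bool.false_ne_true h3).elim⟩
      · obtain ⟨τ, c, hev⟩ := exists_evAt hmin
        refine ⟨(τ, Nat.find hex, c), fun _ => ⟨hev, fun τ' P' c' h' => ?_⟩⟩
        rcases lt_or_eq_of_le (Nat.find_min' hex h'.ev) with h2 | h2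
        · exact Or.inl h2
        · refine Or.inr ⟨h2, fun _ => ?_⟩
          cases τ'
          · exact absurd ⟨c', by rw [h2]; exact h'⟩ hf
          · rfl
    · exact ⟨(false, 0, 0), fun h => absurd h hz⟩
  choose d hd using h1
  exact ⟨fun z => (d z).1, fun z => (d z).2.1, fun z => (d z).2.2, ⟨fun z hz => (hZ z hz).1,
    fun z hz => (hd z hz).1, fun z hz => (hd z hz).2⟩⟩

open Classical in
theorem card_letters4 {A : Type*} [Fintype A] (hA : 4 ≤ Fintype.card A) (w : List A) (g : ℕ)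
    (hg : g ≤ w.length) : 4 ≤ ((Finset.univ : Finset A).filter (fun a => NonTriv (Wd w) ((g : ℤ), Sum.inl a))).card +
      (if 0 < g then 1 else 0) + (if g < w.length then 1 else 0) := by
  have key : ∀ t : A ⊕ ℤ, ((Finset.univ : Finset A).filter (fun a => (Sum.inl a : A ⊕ ℤ) = t)).card ≤ 1 := by
    intro t
    rw [Finset.card_le_one]
    intro a ha b hb
    simp only [Finset.mem_filter, Finset.mem_univ, true_and] at ha hb
    exact Sum.inl_injective (ha.trans hb.symm)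
  have key0 : ∀ i : ℤ, (i < 0 ∨ (w.length : ℤ) ≤ i) →
      ((Finset.univ : Finset A).filter (fun a => (Sum.inl a : A ⊕ ℤ) = Wd w i)).card = 0 := by
    intro i hi
    rw [Wd_out w i hi, Finset.card_eq_zero]
    apply Finset.filter_eq_empty_iff.2
    intro a _ h
    exact absurd h (by simp)
  have h1 : ((Finset.univ : Finset A).filter (fun a => (Sum.inl a : A ⊕ ℤ) = Wd w ((g : ℤ) - 1))).card ≤
      (if 0 < g then 1 else 0) := by
    split_ifs with h
    · exact key _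
    · rw [key0 _ (Or.inl (by omega))]
  have h2 : ((Finset.univ : Finset A).filter (fun a => (Sum.inl a : A ⊕ ℤ) = Wd w (g : ℤ))).card ≤
      (if g < w.length then 1 else 0) := by
    split_ifs with h
    · exact key _
    · rw [key0 _ (Or.inr (by omega))]
  have hcover : (Finset.univ : Finset A) ⊆
      ((Finset.univ : Finset A).filter (fun a => NonTriv (Wd w) ((g : ℤ), Sum.inl a))) ∪
      (((Finset.univ : Finset A).filter (fun a => (Sum.inl a : A ⊕ ℤ) = Wd w ((g : ℤ) - 1))) ∪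
       ((Finset.univ : Finset A).filter (fun a => (Sum.inl a : A ⊕ ℤ) = Wd w (g : ℤ)))) := by
    intro a _
    simp only [Finset.mem_union, Finset.mem_filter, Finset.mem_univ, true_and]
    by_cases e1 : (Sum.inl a : A ⊕ ℤ) = Wd w ((g : ℤ) - 1)
    · exact Or.inr (Or.inl e1)
    · by_cases e2 : (Sum.inl a : A ⊕ ℤ) = Wd w (g : ℤ)
      · exact Or.inr (Or.inr e2)
      · exact Or.inl ⟨e1, e2⟩
  have h3 := Finset.card_le_card hcover
  have h4 := Finset.card_union_le ((Finset.univ : Finset A).filter (fun a => NonTriv (Wd w) ((g : ℤ), Sum.inl a)))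
    (((Finset.univ : Finset A).filter (fun a => (Sum.inl a : A ⊕ ℤ) = Wd w ((g : ℤ) - 1))) ∪
       ((Finset.univ : Finset A).filter (fun a => (Sum.inl a : A ⊕ ℤ) = Wd w (g : ℤ))))
  have h5 := Finset.card_union_le ((Finset.univ : Finset A).filter (fun a => (Sum.inl a : A ⊕ ℤ) = Wd w ((g : ℤ) - 1)))
    ((Finset.univ : Finset A).filter (fun a => (Sum.inl a : A ⊕ ℤ) = Wd w (g : ℤ)))
  rw [Finset.card_univ] at h3
  omega

private theorem sum_pos_ind (n : ℕ) : ∑ g ∈ Finset.range (n + 1), (if 0 < g then 1 else 0) = n := by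
  rw [Finset.sum_range_succ']
  simp

private theorem sum_lt_ind (n : ℕ) : ∑ g ∈ Finset.range (n + 1), (if g < n then 1 else 0) = n := by
  rw [Finset.sum_range_succ]
  rw [if_neg (lt_irrefl n), add_zero]
  rw [Finset.sum_congr rfl (fun g hg => if_pos (Finset.mem_range.1 hg))]
  simp

open Classical in
/-- THE ASSEMBLY -/
theorem no_extremal (D cn ln : ℕ) (hD : 0 < D) (h2D : cn + ln = 2 * D) (a : ℕ → ℕ) (ha : ∀ p, a p ≤ D)
    (S : ℕ → ℕ → Prop) (Bt : ℕ → ℕ → ℕ)
    (H1 : ∀ (v : ℤ → Fin 4) (n : ℕ), SqfOn v n → ∀ x : ℕ, x < n → Good a D cn (4 * D - 1) S Bt v n x)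
    (H2 : ∀ (W : ℤ → Fin 4 ⊕ ℤ), Sqf W → ∀ (Z : Finset (ℤ × (Fin 4 ⊕ ℤ))) (τ : ℤ × (Fin 4 ⊕ ℤ) → Bool)
      (P : ℤ × (Fin 4 ⊕ ℤ) → ℕ) (c : ℤ × (Fin 4 ⊕ ℤ) → ℤ), Wit W Z τ P c →
      ∀ (x : ℤ) (t q : ℕ), t + 1 ≤ q → S q t → ∑ z ∈ (blk Z c x t).filter (fun z => q ≤ P z), a (P z) ≤ Bt q t)
    (H3 : ∀ (W : ℤ → Fin 4 ⊕ ℤ) (n : ℕ), Sqf W → Fresh W n → ∀ (Z : Finset (ℤ × (Fin 4 ⊕ ℤ)))
      (τ : ℤ × (Fin 4 ⊕ ℤ) → Bool) (P : ℤ × (Fin 4 ⊕ ℤ) → ℕ) (c : ℤ × (Fin 4 ⊕ ℤ) → ℤ), Wit W Z τ P c →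
      ∑ z ∈ Z, (D - a (P z)) ≤ ln * n)
    (w : List (Fin 4)) (hw : ∀ x u y : List (Fin 4), u ≠ [] → w ≠ x ++ u ++ u ++ y) :
    ∃ p s : List (Fin 4), ∃ b : Fin 4, w = p ++ s ∧
      ∀ x u y : List (Fin 4), u ≠ [] → p ++ b :: s ≠ x ++ u ++ u ++ y := by
  by_contra hcon
  push Not at hcon
  have hW : Sqf (Wd w) := Wd_sqf w hw
  have hF : Fresh (Wd w) w.length := Wd_fresh w
  set n := w.length with hn
  set T : Finset (ℕ × Fin 4) := (Finset.range (n + 1) ×ˢ (Finset.univ : Finset (Fin 4))).filter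
    (fun t => NonTriv (Wd w) ((t.1 : ℤ), Sum.inl t.2)) with hT
  have hTcard : 2 * n + 4 ≤ T.card := by
    have e : T.card = ∑ g ∈ Finset.range (n + 1), ((Finset.univ : Finset (Fin 4)).filter
        (fun a => NonTriv (Wd w) ((g : ℤ), Sum.inl a))).card := by
      rw [hT, Finset.card_filter, Finset.sum_product]
      exact Finset.sum_congr rfl (fun g _ => (Finset.card_filter _ _).symm)
    have h1 : ∑ g ∈ Finset.range (n + 1), 4 ≤ ∑ g ∈ Finset.range (n + 1), (((Finset.univ : Finset (Fin 4)).filter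
        (fun a => NonTriv (Wd w) ((g : ℤ), Sum.inl a))).card +
      (if 0 < g then 1 else 0) + (if g < n then 1 else 0)) := by
      apply Finset.sum_le_sum
      intro g hg
      refine (card_letters4 (A := Fin 4) (by simp) w g (by have := Finset.mem_range.1 hg; omega)).trans
        (le_of_eq ?_)
      congr 3
    rw [Finset.sum_add_distrib, Finset.sum_add_distrib, ← e, sum_pos_ind, sum_lt_ind, Finset.sum_const,
      Finset.card_range, smul_eq_mul] at h1
    omega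
  set Z : Finset (ℤ × (Fin 4 ⊕ ℤ)) := T.image (fun t => ((t.1 : ℤ), (Sum.inl t.2 : Fin 4 ⊕ ℤ))) with hZ
  have hZcard : Z.card = T.card := by
    rw [hZ]
    apply Finset.card_image_of_injective
    rintro ⟨g, a⟩ ⟨g', a'⟩ h
    simp only [Prod.mk.injEq, Nat.cast_inj, Sum.inl.injEq] at h
    exact Prod.ext h.1 h.2
  have hZmem : ∀ z ∈ Z, NonTriv (Wd w) z ∧ ∃ P : ℕ, Ev (Wd w) z.1 z.2 P := by
    intro z hz
    rw [hZ, Finset.mem_image] at hz
    obtain ⟨⟨g, a⟩, ht, rfl⟩ := hz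
    rw [hT, Finset.mem_filter, Finset.mem_product, Finset.mem_range] at ht
    obtain ⟨⟨hg, _⟩, hnt⟩ := ht
    have hg' : g ≤ w.length := by
      have h0 : g < n + 1 := hg
      omega
    have hlen : (w.take g).length = g := by
      rw [List.length_take]
      exact Nat.min_eq_left hg'
    refine ⟨hnt, ?_⟩
    have hps : w = w.take g ++ w.drop g := (List.take_append_drop g w).symm
    obtain ⟨x, u, y, hu, he⟩ := hcon (w.take g) (w.drop g) a hps
    have hnt' : NonTriv (Wd w) (((w.take g).length : ℤ), Sum.inl a) := by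
      rw [hlen]; exact hnt
    have := ins_ev w hw (w.take g) (w.drop g) a hps ⟨x, u, y, hu, he⟩ hnt'
    rw [hlen] at this
    exact this
  obtain ⟨τ, P, c, hwit⟩ := exists_wit Z hZmem
  have h3 := H3 (Wd w) n hW hF Z τ P c hwit
  -- the word as a function
  set v : ℤ → Fin 4 := fun i => w.getD i.toNat 0 with hv
  have hvW : ∀ i : ℤ, 0 ≤ i → i < n → Wd w i = Sum.inl (v i) := by
    intro i h1 h2
    obtain ⟨k, rfl⟩ := Int.eq_ofNat_of_zero_le h1
    have hk : k < w.length := by omega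
    rw [Wd_some w k (w[k]'hk) (List.getElem?_eq_getElem hk)]
    simp only [hv, Int.toNat_natCast, List.getD_eq_getElem?_getD, List.getElem?_eq_getElem hk, Option.getD_some]
  have hvS : SqfOn v n := by
    intro s p hp hs hsp
    obtain ⟨i, hi, hne⟩ := hW s p hp
    refine ⟨i, hi, fun h => hne ?_⟩
    rw [hvW _ (by omega) (by omega), hvW _ (by omega) (by omega), h]
  have hstep : ∀ x : ℕ, x < n → (∃ t : ℕ, 1 ≤ t ∧ x + t ≤ n ∧ ∑ z ∈ blk Z c x t, a (P z) ≤ cn * t) ∨
      tailW Z P c a x ≤ cn * (n - x) + (4 * D - 1) := by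
    intro x hx
    refine step_of_good hW hF hwit a D cn (4 * D - 1) ha S Bt (fun y => Sum.elim id (fun _ => 0) y) v ?_ ?_
      (H2 (Wd w) hW Z τ P c hwit) x (H1 v n hvS x hx)
    · intro i h1 h2
      rw [hvW i h1 h2]
      rfl
    · intro i j h1 h2 h3 h4 h
      rw [hvW i h1 h2, hvW j h3 h4, h]
  have hmain := tail_bound Z P c a cn (4 * D - 1) (n := n) (fun z hz => by
    have := (hwit.ev z hz).inside hF
    have := (hwit.ev z hz).two_le
    omega) hstep n 0 (by omega)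
  have htail : tailW Z P c a ((0 : ℕ) : ℤ) = ∑ z ∈ Z, a (P z) := by
    unfold tailW
    apply Finset.sum_congr _ (fun _ _ => rfl)
    apply Finset.filter_true_of_mem
    intro z hz
    have := (hwit.ev z hz).inside hF
    have := (hwit.ev z hz).two_le
    omega
  rw [htail] at hmain
  have hsum : ∑ z ∈ Z, a (P z) + ∑ z ∈ Z, (D - a (P z)) = D * Z.card := by
    rw [← Finset.sum_add_distrib, Finset.sum_congr rfl (fun z _ => (by
      have := ha (P z)
      omega : a (P z) + (D - a (P z)) = D)), Finset.sum_const, smul_eq_mul, mul_comm]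
  have h4 : D * (2 * n + 4) ≤ D * Z.card := Nat.mul_le_mul_left _ (by rw [hZcard]; exact hTcard)
  have h5 : cn * n + ln * n = 2 * D * n := by rw [← add_mul, h2D]
  have h6 : D * (2 * n + 4) = 2 * D * n + 4 * D := by ring
  omega

end Pool.Agent.SQF4
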