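import Mathlib
import Pool.Agent.SQF4.Ind

/-!
ROOT: a square-free window of length 4 is one of 0102, 0120, 0121, 0123 up to a renaming of the letters.
-/

set_option autoImplicit false

namespace Pool.Agent.SQF4

/-- the four canonical words of length 4 -/
def roots : List (ℕ × ℕ × ℕ × ℕ) := [(0, 1, 0, 2), (0, 1, 2, 0), (0, 1, 2, 1), (0, 1, 2, 3)]

/-- the renaming with the values a b c d at 0 1 2 3 -/
def ren (a b c d : Fin 4) : Fin 4 → Fin 4 := fun x =>
  if x = 0 then a else if x = 1 then b else if x = 2 then c else d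

/-- is the renaming injective and maps w x y z to a canonical word -/
def good4 (w x y z a b c d : Fin 4) : Bool :=
  decide (a ≠ b) && decide (a ≠ c) && decide (a ≠ d) && decide (b ≠ c) && decide (b ≠ d) && decide (c ≠ d) &&
  ((ren a b c d w == 0) && (ren a b c d x == 1) &&
    (((ren a b c d y == 0) && (ren a b c d z == 2)) || ((ren a b c d y == 2) && (ren a b c d z == 0)) ||
     ((ren a b c d y == 2) && (ren a b c d z == 1)) || ((ren a b c d y == 2) && (ren a b c d z == 3))))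

def fin4 : List (Fin 4) := [0, 1, 2, 3]

def exGood (w x y z : Fin 4) : Bool :=
  fin4.any fun a => fin4.any fun b => fin4.any fun c => fin4.any fun d => good4 w x y z a b c d

def chkRoot : Bool :=
  fin4.all fun w => fin4.all fun x => fin4.all fun y => fin4.all fun z =>
    (w == x) || (x == y) || (y == z) || ((w == y) && (x == z)) || exGood w x y z

theorem chkRoot_true : chkRoot = true := by decide +kernel

theorem mem_fin4 (x : Fin 4) : x ∈ fin4 := by
  fin_cases x <;> simp [fin4]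

theorem ren_inj {a b c d : Fin 4} (h1 : a ≠ b) (h2 : a ≠ c) (h3 : a ≠ d) (h4 : b ≠ c) (h5 : b ≠ d) (h6 : c ≠ d) :
    Function.Injective (ren a b c d) := by
  intro x y h
  fin_cases x <;> fin_cases y <;> simp [ren] at h <;> first | rfl | (exfalso; tauto)

theorem root4 (w x y z : Fin 4) (h1 : w ≠ x) (h2 : x ≠ y) (h3 : y ≠ z) (h4 : ¬ (w = y ∧ x = z)) :
    ∃ φ : Fin 4 → Fin 4, Function.Injective φ ∧
      (((φ w : Fin 4) : ℕ), ((φ x : Fin 4) : ℕ), ((φ y : Fin 4) : ℕ), ((φ z : Fin 4) : ℕ)) ∈ roots := by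
  have h := chkRoot_true
  unfold chkRoot at h
  simp only [List.all_eq_true] at h
  have h5 := h w (mem_fin4 w) x (mem_fin4 x) y (mem_fin4 y) z (mem_fin4 z)
  have h6 : exGood w x y z = true := by
    simp only [Bool.or_eq_true, beq_iff_eq, Bool.and_eq_true] at h5
    tauto
  unfold exGood at h6
  simp only [List.any_eq_true] at h6
  obtain ⟨a, -, b, -, c, -, d, -, h7⟩ := h6
  unfold good4 at h7
  simp only [Bool.and_eq_true, Bool.or_eq_true, beq_iff_eq, decide_eq_true_eq] at h7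
  obtain ⟨⟨⟨⟨⟨⟨c1, c2⟩, c3⟩, c4⟩, c5⟩, c6⟩, ⟨d1, d2⟩, d3⟩ := h7
  refine ⟨ren a b c d, ren_inj c1 c2 c3 c4 c5 c6, ?_⟩
  rw [d1, d2]
  rcases d3 with ((⟨e1, e2⟩ | ⟨e1, e2⟩) | ⟨e1, e2⟩) | ⟨e1, e2⟩ <;> rw [e1, e2] <;> simp [roots]

/-- neighbours differ -/
theorem SqfOn.ne1 {v : ℤ → Fin 4} {n : ℕ} (hv : SqfOn v n) (i : ℤ) (h0 : 0 ≤ i) (h1 : i + 2 ≤ n) :
    v i ≠ v (i + 1) := by
  obtain ⟨j, hj, h⟩ := hv i 1 (by norm_num) h0 (by omega)
  have : j = 0 := by omega
  subst this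
  simpa using h

theorem root_window (v : ℤ → Fin 4) (n : ℕ) (hv : SqfOn v n) (lo : ℕ) (h : lo + 4 ≤ n) :
    ∃ φ : Fin 4 → Fin 4, Function.Injective φ ∧
      (((φ (v (lo : ℤ)) : Fin 4) : ℕ), ((φ (v ((lo : ℤ) + 1)) : Fin 4) : ℕ), ((φ (v ((lo : ℤ) + 2)) : Fin 4) : ℕ),
        ((φ (v ((lo : ℤ) + 3)) : Fin 4) : ℕ)) ∈ roots := by
  apply root4
  · exact hv.ne1 _ (by omega) (by omega)
  · have := hv.ne1 ((lo : ℤ) + 1) (by omega) (by omega)
    rwa [add_assoc] at this
  · have := hv.ne1 ((lo : ℤ) + 2) (by omega) (by omega)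
    rwa [add_assoc] at this
  · rintro ⟨e1, e2⟩
    obtain ⟨j, hj, h5⟩ := hv (lo : ℤ) 2 (by norm_num) (by omega) (by omega)
    apply h5
    rcases Nat.lt_or_ge j 1 with hj1 | hj1
    · have : j = 0 := by omega
      subst this
      simpa using e1
    · have : j = 1 := by omega
      subst this
      have e3 : (lo : ℤ) + ((1 : ℕ) : ℤ) + ((2 : ℕ) : ℤ) = (lo : ℤ) + 3 := by push_cast; ring
      rw [e3]
      simpa using e2

end Pool.Agent.SQF4
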