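import Mathlib
import Pool.Agent.SQF4.Ind
import Pool.Agent.SQF4.Root

/-!
DESCENT. GoodW N A u: every position x = lo + A of a square-free word whose window [lo, lo + N) reads as u (up to a
renaming of the letters) is good. A row u is good if it is closed by a cut, or if all its square-free extensions by one
letter on the right (and the end condition holds) or on the left (and the start condition holds) are good.
-/

set_option autoImplicit false

namespace Pool.Agent.SQF4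

/-- the row u is closed by a cut -/
def CutOK (a : ℕ → ℕ) (D cn : ℕ) (S : ℕ → ℕ → Prop) (Bt : ℕ → ℕ → ℕ) (N A : ℕ) (u : ℤ → Fin 4) : Prop :=
  ∃ (t q : ℕ) (T : Finset (ℤ × Fin 4)) (FR FL FB : Finset (Bool × ℕ)), 1 ≤ t ∧ A + t ≤ N ∧ t + 1 ≤ q ∧ S q t ∧
    Cert u N A t q T FR FL FB ∧
    D * T.card + ∑ f ∈ FR, a f.2 + ∑ f ∈ FL, a f.2 + ∑ f ∈ FB, a f.2 + Bt q t ≤ cn * t

/-- the word may end at the right end of the window -/
def EndOK (a : ℕ → ℕ) (D cn K : ℕ) (N A : ℕ) (u : ℤ → Fin 4) : Prop :=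
  ∃ (T : Finset (ℤ × Fin 4)) (FL : Finset (Bool × ℕ)), CovT u N A (N - A) (N - A + 1) T ∧
    CovL u N A (N - A) (N - A + 1) T FL ∧ D * T.card + ∑ f ∈ FL, a f.2 ≤ cn * (N - A) + K

/-- the word may start at the left end of the window -/
def StartOK (a : ℕ → ℕ) (D cn : ℕ) (N A : ℕ) (u : ℤ → Fin 4) : Prop :=
  ∃ (t : ℕ) (T : Finset (ℤ × Fin 4)) (FR : Finset (Bool × ℕ)), 1 ≤ t ∧ A + t ≤ N ∧ CovT u N A t (A + t + 1) T ∧
    CovR u N A t (A + t + 1) T FR ∧ D * T.card + ∑ f ∈ FR, a f.2 ≤ cn * t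

/-- all positions with this window are good -/
def GoodW (a : ℕ → ℕ) (D cn K : ℕ) (S : ℕ → ℕ → Prop) (Bt : ℕ → ℕ → ℕ) (N A : ℕ) (u : ℤ → Fin 4) : Prop :=
  ∀ (v : ℤ → Fin 4) (n : ℕ) (φ : Fin 4 → Fin 4) (lo : ℕ), SqfOn v n → lo + N ≤ n → lo + A < n → View v lo N φ u →
    Good a D cn K S Bt v n (lo + A)

variable {a : ℕ → ℕ} {D cn K : ℕ} {S : ℕ → ℕ → Prop} {Bt : ℕ → ℕ → ℕ}

theorem sqfOn_view {v : ℤ → Fin 4} {n : ℕ} (hv : SqfOn v n) {φ : Fin 4 → Fin 4} (hφ : Function.Injective φ)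
    (lo N : ℕ) (h : lo + N ≤ n) : SqfOn (fun i : ℤ => φ (v (lo + i))) N := by
  intro s p hp hs hsp
  obtain ⟨i, hi, hne⟩ := hv (lo + s) p hp (by omega) (by omega)
  refine ⟨i, hi, fun h1 => hne ?_⟩
  have h2 := hφ h1
  convert h2 using 2
  · ring
  · ring

/-- the letters outside of the window do not matter -/
theorem goodW_congr {N A : ℕ} {u u' : ℤ → Fin 4} (h : GoodW a D cn K S Bt N A u)
    (e : ∀ i : ℤ, 0 ≤ i → i < N → u' i = u i) : GoodW a D cn K S Bt N A u' := by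
  intro v n φ lo hv hn hx hw
  exact h v n φ lo hv hn hx ⟨hw.inj, fun i h1 h2 => by rw [← e i h1 h2]; exact hw.eq i h1 h2⟩

theorem goodW_cut {N A : ℕ} {u : ℤ → Fin 4} (h : CutOK a D cn S Bt N A u) : GoodW a D cn K S Bt N A u := by
  intro v n φ lo hv hn hx hw
  obtain ⟨t, q, T, FR, FL, FB, h1, h2, h3, h4, h5, h6⟩ := h
  exact Good.cut lo N A t q φ u T FR FL FB rfl hn h1 h2 h3 h4 hw h5 h6

/-- growth on the right. The row is square-free whenever its window occurs in a square-free word -/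
theorem goodW_right {N A : ℕ} {u : ℤ → Fin 4} (hend : A < N → SqfOn u N → EndOK a D cn K N A u)
    (h : ∀ u' : ℤ → Fin 4, (∀ i : ℤ, 0 ≤ i → i < N → u' i = u i) → SqfOn u' (N + 1) →
      GoodW a D cn K S Bt (N + 1) A u') : GoodW a D cn K S Bt N A u := by
  intro v n φ lo hv hn hx hw
  rcases Nat.lt_or_ge (lo + N) n with h1 | h1
  · have e : ∀ i : ℤ, 0 ≤ i → i < N → (fun i : ℤ => φ (v (lo + i))) i = u i := fun i h2 h3 => (hw.eq i h2 h3).symm
    exact h _ e (sqfOn_view hv hw.inj lo (N + 1) (by omega)) v n φ lo hv (by omega) hx ⟨hw.inj, fun i _ _ => rfl⟩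
  · have hsq : SqfOn u N := by
      intro s p hp hs hsp
      obtain ⟨i, hi, hne⟩ := sqfOn_view hv hw.inj lo N hn s p hp hs hsp
      refine ⟨i, hi, ?_⟩
      rw [hw.eq _ (by omega) (by omega), hw.eq _ (by omega) (by omega)]
      exact hne
    obtain ⟨T, FL, h2, h3, h4⟩ := hend (by omega) hsq
    exact Good.fin lo N A (N - A) φ u T FL rfl (by omega) (by omega) hw h2 h3 h4

/-- growth on the left -/
theorem goodW_left {N A : ℕ} {u : ℤ → Fin 4} (hst : SqfOn u N → StartOK a D cn N A u)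
    (h : ∀ u' : ℤ → Fin 4, (∀ i : ℤ, 0 ≤ i → i < N → u' (i + 1) = u i) → SqfOn u' (N + 1) →
      GoodW a D cn K S Bt (N + 1) (A + 1) u') : GoodW a D cn K S Bt N A u := by
  intro v n φ lo hv hn hx hw
  rcases Nat.eq_zero_or_pos lo with h1 | h1
  · subst h1
    have hsq : SqfOn u N := by
      intro s p hp hs hsp
      obtain ⟨i, hi, hne⟩ := sqfOn_view hv hw.inj 0 N hn s p hp hs hsp
      refine ⟨i, hi, ?_⟩
      rw [hw.eq _ (by omega) (by omega), hw.eq _ (by omega) (by omega)]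
      exact hne
    obtain ⟨t, T, FR, h2, h3, h4, h5, h6⟩ := hst hsq
    rw [Nat.zero_add]
    exact Good.start N t φ u T FR (by omega) h2 h3 ⟨hw.inj, hw.eq⟩ h4 h5 h6
  · obtain ⟨lo', rfl⟩ : ∃ lo', lo = lo' + 1 := ⟨lo - 1, by omega⟩
    have e : ∀ i : ℤ, 0 ≤ i → i < N → (fun i : ℤ => φ (v (lo' + i))) (i + 1) = u i := by
      intro i h2 h3
      rw [hw.eq i h2 h3]
      simp only
      congr 2
      push_cast
      ring
    have h5 := h _ e (sqfOn_view hv hw.inj lo' (N + 1) (by omega)) v n φ lo' hv (by omega) (by omega)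
      ⟨hw.inj, fun i _ _ => rfl⟩
    have e2 : lo' + 1 + A = lo' + (A + 1) := by ring
    rw [e2]
    exact h5

/-- H1 for the positions x ≥ 4 -/
theorem good_of_roots (h : ∀ u : ℤ → Fin 4,
    (((u 0 : Fin 4) : ℕ), ((u 1 : Fin 4) : ℕ), ((u 2 : Fin 4) : ℕ), ((u 3 : Fin 4) : ℕ)) ∈ roots →
    GoodW a D cn K S Bt 4 4 u) (v : ℤ → Fin 4) (n : ℕ) (hv : SqfOn v n)
    (x : ℕ) (hx4 : 4 ≤ x) (hxn : x < n) : Good a D cn K S Bt v n x := by
  obtain ⟨lo, rfl⟩ : ∃ lo, x = lo + 4 := ⟨x - 4, by omega⟩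
  obtain ⟨φ, hφ, hroot⟩ := root_window v n hv lo (by omega)
  refine h (fun i : ℤ => φ (v (lo + i))) ?_ v n φ lo hv (by omega) hxn ⟨hφ, fun i _ _ => rfl⟩
  simpa using hroot

end Pool.Agent.SQF4
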