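import Mathlib
import Pool.Agent.SQF4.Root

/-!
POSITIONS x ≤ 3: the window starts at the beginning of the word; small trees.
-/

set_option autoImplicit false

namespace Pool.Agent.SQF4

/-- letter i of the code X -/
def dg (X i : ℕ) : ℕ := (X / 4 ^ i) % 4

/-- the word of the code X -/
def uX (X : ℕ) : ℤ → Fin 4 := fun i => ⟨dg X i.toNat, Nat.mod_lt _ (by norm_num)⟩

theorem uX_nat (X i : ℕ) : ((uX X (i : ℤ) : Fin 4) : ℕ) = dg X i := by
  simp [uX]

/-- positions i < j agree, or j is not visible -/
def eqv (X N i j : ℕ) : Bool := Nat.ble N j || Nat.beq (dg X i) (dg X j)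

theorem eqv_iff (X N i j : ℕ) : eqv X N i j = true ↔ (j < N → uX X (i : ℤ) = uX X (j : ℤ)) := by
  unfold eqv
  rw [Bool.or_eq_true]
  constructor
  · rintro (h | h) hj
    · exact absurd (Nat.le_of_ble_eq_true h) (by omega)
    · apply Fin.ext
      rw [uX_nat, uX_nat]
      exact Nat.eq_of_beq_eq_true h
  · intro h
    by_cases hj : j < N
    · right
      have := congrArg (fun x : Fin 4 => (x : ℕ)) (h hj)
      simp only [uX_nat] at this
      rw [this]
      exact Nat.beq_refl _
    · left
      exact Nat.ble_eq_true_of_le (by omega)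

/-- τ = false, start s, centre s + P - 1, gap s + b (b < P - 1) -/
def potF (X N P s b : ℕ) : Bool :=
  ((List.range b).all fun i => eqv X N (s + i) (s + i + (P - 1))) &&
  ((List.range (P - 1 - b)).all fun i => eqv X N (s + b + i) (s + b + i + P))

/-- τ = true, start s, centre s + P - 1, hinge s + b (1 ≤ b < P) -/
def potT (X N P s b : ℕ) : Bool :=
  ((List.range b).all fun i => eqv X N (s + i) (s + i + P)) &&
  ((List.range (P - 1 - b)).all fun i => eqv X N (s + b + 1 + i) (s + b + 1 + i + (P - 1)))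

theorem potF_iff (X N P s b : ℕ) (hb : b + 2 ≤ P) :
    potF X N P s b = true ↔ Pot (uX X) 0 N false P ((s : ℤ) + P - 1) ((s : ℤ) + b) := by
  unfold potF Pot
  simp only [Bool.false_eq_true, if_false, Bool.and_eq_true, List.all_eq_true, List.mem_range, eqv_iff]
  constructor
  · rintro ⟨h1, h2⟩
    refine ⟨by omega, by omega, ?_, ?_⟩
    · intro i a1 a2 a3 a4
      obtain ⟨k, hk⟩ := Int.eq_ofNat_of_zero_le (show 0 ≤ i - s by omega)
      have h3 := h1 k (by omega) (by omega)
      have e1 : i = ((s + k : ℕ) : ℤ) := by push_cast; omega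
      have e2 : i + P - 1 = ((s + k + (P - 1) : ℕ) : ℤ) := by
        have : ((P - 1 : ℕ) : ℤ) = (P : ℤ) - 1 := by omega
        push_cast [this]
        omega
      rw [e2, e1]
      exact h3
    · intro i a1 a2 a3 a4
      obtain ⟨k, hk⟩ := Int.eq_ofNat_of_zero_le (show 0 ≤ i - (s + b) by omega)
      have h3 := h2 k (by omega) (by omega)
      have e1 : i = ((s + b + k : ℕ) : ℤ) := by push_cast; omega
      have e2 : i + P = ((s + b + k + P : ℕ) : ℤ) := by push_cast; omega
      rw [e2, e1]
      exact h3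
  · rintro ⟨-, -, h1, h2⟩
    refine ⟨fun i hi hN => ?_, fun i hi hN => ?_⟩
    · have h3 := h1 ((s + i : ℕ) : ℤ) (by push_cast; omega) (by push_cast; omega) (by omega) (by push_cast; omega)
      have e2 : ((s + i : ℕ) : ℤ) + P - 1 = ((s + i + (P - 1) : ℕ) : ℤ) := by
        have : ((P - 1 : ℕ) : ℤ) = (P : ℤ) - 1 := by omega
        push_cast [this]
        omega
      rw [e2] at h3
      exact h3
    · have h3 := h2 ((s + b + i : ℕ) : ℤ) (by push_cast; omega) (by push_cast; omega) (by omega) (by push_cast; omega)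
      have e2 : ((s + b + i : ℕ) : ℤ) + P = ((s + b + i + P : ℕ) : ℤ) := by push_cast; omega
      rw [e2] at h3
      exact h3

theorem potT_iff (X N P s b : ℕ) (hb : 1 ≤ b) (hb2 : b + 1 ≤ P) :
    potT X N P s b = true ↔ Pot (uX X) 0 N true P ((s : ℤ) + P - 1) ((s : ℤ) + b + P) := by
  unfold potT Pot
  simp only [if_true, Bool.and_eq_true, List.all_eq_true, List.mem_range, eqv_iff]
  constructor
  · rintro ⟨h1, h2⟩
    refine ⟨by omega, by omega, ?_, ?_⟩
    · intro i a1 a2 a3 a4
      obtain ⟨k, hk⟩ := Int.eq_ofNat_of_zero_le (show 0 ≤ i - s by omega)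
      have h3 := h1 k (by omega) (by omega)
      have e1 : i = ((s + k : ℕ) : ℤ) := by push_cast; omega
      have e2 : i + P = ((s + k + P : ℕ) : ℤ) := by push_cast; omega
      rw [e2, e1]
      exact h3
    · intro i a1 a2 a3 a4
      obtain ⟨k, hk⟩ := Int.eq_ofNat_of_zero_le (show 0 ≤ i - (s + b + 1) by omega)
      have h3 := h2 k (by omega) (by omega)
      have e1 : i = ((s + b + 1 + k : ℕ) : ℤ) := by push_cast; omega
      have e2 : i + P - 1 = ((s + b + 1 + k + (P - 1) : ℕ) : ℤ) := by
        have : ((P - 1 : ℕ) : ℤ) = (P : ℤ) - 1 := by omega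
        push_cast [this]
        omega
      rw [e2, e1]
      exact h3
  · rintro ⟨-, -, h1, h2⟩
    refine ⟨fun i hi hN => ?_, fun i hi hN => ?_⟩
    · have h3 := h1 ((s + i : ℕ) : ℤ) (by push_cast; omega) (by push_cast; omega) (by omega) (by push_cast; omega)
      have e2 : ((s + i : ℕ) : ℤ) + P = ((s + i + P : ℕ) : ℤ) := by push_cast; omega
      rw [e2] at h3
      exact h3
    · have h3 := h2 ((s + b + 1 + i : ℕ) : ℤ) (by push_cast; omega) (by push_cast; omega) (by omega)
        (by push_cast; omega)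
      have e2 : ((s + b + 1 + i : ℕ) : ℤ) + P - 1 = ((s + b + 1 + i + (P - 1) : ℕ) : ℤ) := by
        have : ((P - 1 : ℕ) : ℤ) = (P : ℤ) - 1 := by omega
        push_cast [this]
        omega
      rw [e2] at h3
      exact h3

/-- the letter y differs from the neighbours of the gap g -/
def vnt (X N g y : ℕ) : Bool :=
  (Nat.beq g 0 || Nat.ble (N + 1) g || !Nat.beq (dg X (g - 1)) y) && (Nat.ble N g || !Nat.beq (dg X g) y)

theorem vnt_iff (X N g : ℕ) (y : Fin 4) : vnt X N g (y : ℕ) = true ↔ VisNT (uX X) N (g : ℤ) y := by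
  unfold vnt VisNT
  have hne : ∀ i : ℕ, (!Nat.beq (dg X i) (y : ℕ)) = true ↔ uX X (i : ℤ) ≠ y := by
    intro i
    rw [Bool.not_eq_true', ← Bool.not_eq_true]
    apply not_congr
    constructor
    · intro h
      apply Fin.ext
      rw [uX_nat]
      exact Nat.eq_of_beq_eq_true h
    · intro h
      rw [← h, uX_nat]
      exact Nat.beq_refl _
  rw [Bool.and_eq_true, Bool.or_eq_true, Bool.or_eq_true, Bool.or_eq_true, hne, hne]
  apply and_congr
  · constructor
    · rintro ((h | h) | h) h1 h2
      · have := Nat.eq_of_beq_eq_true h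
        omega
      · have := Nat.le_of_ble_eq_true h
        omega
      · have e : ((g - 1 : ℕ) : ℤ) = (g : ℤ) - 1 := by omega
        rw [e] at h
        exact h
    · intro h
      by_cases h0 : g = 0
      · left; left
        rw [h0]
        rfl
      · by_cases h1 : N + 1 ≤ g
        · left; right
          exact Nat.ble_eq_true_of_le h1
        · right
          have e : ((g - 1 : ℕ) : ℤ) = (g : ℤ) - 1 := by omega
          rw [e]
          exact h (by omega) (by omega)
  · constructor
    · rintro (h | h) h1 h2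
      · have := Nat.le_of_ble_eq_true h
        omega
      · exact h
    · intro h
      by_cases h1 : N ≤ g
      · left
        exact Nat.ble_eq_true_of_le h1
      · right
        exact h (by omega) (by omega)

/-- all events inside the window with half-length P and centre in [lo, hi): codes 4 g + y -/
def evl (X N P lo hi : ℕ) : List ℕ :=
  (List.range N).flatMap fun s =>
    if Nat.ble (s + (2 * P - 1)) N && Nat.ble lo (s + P - 1) && Nat.ble (s + P) hi then
      ((List.range (P - 1)).flatMap fun b =>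
        (if potF X N P s b then [4 * (s + b) + dg X (s + b + P - 1)] else []) ++
        (if potT X N P s (b + 1) then [4 * (s + (b + 1) + P) + dg X (s + (b + 1))] else []))
    else []

theorem mem_evl {X N P lo hi : ℕ} (hP : 2 ≤ P) {z : ℕ} :
    z ∈ evl X N P lo hi ↔ ∃ (τ : Bool) (s : ℕ) (g : ℕ) (y : Fin 4), z = 4 * g + y ∧ lo ≤ s + P - 1 ∧ s + P ≤ hi ∧
      EvIn (uX X) N τ P ((s : ℤ) + P - 1) (g : ℤ) y := by
  unfold evl
  rw [List.mem_flatMap]
  constructor
  · rintro ⟨s, hs, h⟩
    split_ifs at h with hc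
    · simp only [Bool.and_eq_true] at hc
      obtain ⟨⟨c1, c2⟩, c3⟩ := hc
      have c1 := Nat.le_of_ble_eq_true c1
      have c2 := Nat.le_of_ble_eq_true c2
      have c3 := Nat.le_of_ble_eq_true c3
      rw [List.mem_flatMap] at h
      obtain ⟨b, hb, h⟩ := h
      rw [List.mem_range] at hb hs
      rw [List.mem_append] at h
      rcases h with h | h
      · split_ifs at h with hp
        · rw [List.mem_singleton] at h
          refine ⟨false, s, s + b, ⟨dg X (s + b + P - 1), Nat.mod_lt _ (by norm_num)⟩, h, c2, c3, by omega, by omega, ?_, ?_⟩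
          · have h2 := (potF_iff X N P s b (by omega)).1 hp
            unfold Pot at h2 ⊢
            simp only [Bool.false_eq_true, if_false] at h2 ⊢
            obtain ⟨d1, d2, d3, d4⟩ := h2
            refine ⟨by push_cast; omega, by push_cast; omega, ?_, ?_⟩
            · intro i a1 a2 a3 a4
              exact d3 i (by omega) (by push_cast at a2; omega) (by omega) (by push_cast at a2; omega)
            · intro i a1 a2 a3 a4
              exact d4 i (by push_cast at a1; omega) (by omega) (by push_cast at a1; omega) (by omega)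
          · unfold hinge
            simp only [Bool.false_eq_true, if_false]
            apply Fin.ext
            have e : (((s + b : ℕ) : ℤ) + P - 1) = ((s + b + P - 1 : ℕ) : ℤ) := by omega
            rw [e, uX_nat]
        · exact absurd h (by simp)
      · split_ifs at h with hp
        · rw [List.mem_singleton] at h
          refine ⟨true, s, s + (b + 1) + P, ⟨dg X (s + (b + 1)), Nat.mod_lt _ (by norm_num)⟩, h, c2, c3, by omega, by omega, ?_, ?_⟩
          · have h2 := (potT_iff X N P s (b + 1) (by omega) (by omega)).1 hp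
            unfold Pot at h2 ⊢
            simp only [if_true] at h2 ⊢
            obtain ⟨d1, d2, d3, d4⟩ := h2
            refine ⟨by push_cast; omega, by push_cast; omega, ?_, ?_⟩
            · intro i a1 a2 a3 a4
              exact d3 i (by omega) (by push_cast at a2 ⊢; omega) (by omega) (by push_cast at a2; omega)
            · intro i a1 a2 a3 a4
              exact d4 i (by push_cast at a1 ⊢; omega) (by omega) (by push_cast at a1; omega) (by omega)
          · unfold hinge
            simp only [if_true]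
            apply Fin.ext
            have e : (((s + (b + 1) + P : ℕ) : ℤ) - P) = ((s + (b + 1) : ℕ) : ℤ) := by push_cast; omega
            rw [e, uX_nat]
        · exact absurd h (by simp)
    · exact absurd h (by simp)
  · rintro ⟨τ, s, g, y, hz, h1, h2, h3, h4, h5, h6⟩
    refine ⟨s, List.mem_range.2 (by omega), ?_⟩
    rw [if_pos (by
      simp only [Bool.and_eq_true]
      exact ⟨⟨Nat.ble_eq_true_of_le (by omega), Nat.ble_eq_true_of_le h1⟩, Nat.ble_eq_true_of_le h2⟩)]
    rw [List.mem_flatMap]
    cases τ with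
    | false =>
      unfold Pot at h5
      simp only [Bool.false_eq_true, if_false] at h5
      obtain ⟨d1, d2, d3, d4⟩ := h5
      refine ⟨g - s, List.mem_range.2 (by omega), ?_⟩
      rw [List.mem_append]
      left
      have e0 : (s : ℤ) + ((g - s : ℕ) : ℤ) = g := by omega
      rw [if_pos ((potF_iff X N P s (g - s) (by omega)).2 (by
        unfold Pot
        simp only [Bool.false_eq_true, if_false]
        rw [e0]
        refine ⟨d1, d2, ?_, ?_⟩
        · intro i a1 a2 a3 a4
          exact d3 i a1 a2 (by omega) (by omega)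
        · intro i a1 a2 a3 a4
          exact d4 i a1 a2 (by omega) (by omega)))]
      rw [List.mem_singleton, hz]
      have e1 : s + (g - s) = g := by omega
      rw [e1]
      unfold hinge at h6
      simp only [Bool.false_eq_true, if_false] at h6
      have e2 : ((g : ℤ) + P - 1) = ((g + P - 1 : ℕ) : ℤ) := by omega
      rw [e2] at h6
      rw [← h6, uX_nat]
    | true =>
      unfold Pot at h5
      simp only [if_true] at h5
      obtain ⟨d1, d2, d3, d4⟩ := h5
      refine ⟨g - P - s - 1, List.mem_range.2 (by omega), ?_⟩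
      rw [List.mem_append]
      right
      have e1 : s + (g - P - s - 1 + 1) = g - P := by omega
      have e0 : (s : ℤ) + ((g - P - s - 1 + 1 : ℕ) : ℤ) + P = g := by omega
      rw [if_pos ((potT_iff X N P s (g - P - s - 1 + 1) (by omega) (by omega)).2 (by
        unfold Pot
        simp only [if_true]
        rw [e0]
        refine ⟨d1, d2, ?_, ?_⟩
        · intro i a1 a2 a3 a4
          exact d3 i a1 a2 (by omega) (by omega)
        · intro i a1 a2 a3 a4
          exact d4 i a1 a2 (by omega) (by omega)))]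
      rw [List.mem_singleton, hz, e1]
      unfold hinge at h6
      simp only [if_true] at h6
      have e2 : ((g : ℤ) - P) = ((g - P : ℕ) : ℤ) := by omega
      rw [e2] at h6
      rw [← h6, uX_nat]
      have e3 : g - P + P = g := by omega
      rw [e3]

def memb (z : ℕ) (l : List ℕ) : Bool := l.any (Nat.beq z)

theorem memb_iff (z : ℕ) (l : List ℕ) : memb z l = true ↔ z ∈ l := by
  unfold memb
  rw [List.any_eq_true]
  constructor
  · rintro ⟨y, hy, h⟩
    rw [Nat.eq_of_beq_eq_true h]
    exact hy
  · intro h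
    exact ⟨z, h, Nat.beq_refl z⟩

/-- no smaller event with the pair z -/
def nol (X N P z : ℕ) : Bool := (List.range P).all fun P' => Nat.ble P' 1 || !(memb z (evl X N P' 0 N))

theorem EvIn.two {u : ℤ → Fin 4} {N : ℕ} {τ : Bool} {P : ℕ} {c g : ℤ} {y : Fin 4} (h : EvIn u N τ P c g y) :
    2 ≤ P ∧ P - 1 ≤ c ∧ 0 ≤ g ∧ g ≤ N := by
  obtain ⟨h1, h2, h3, h4⟩ := h
  cases τ with
  | false =>
    unfold Pot at h3
    simp only [Bool.false_eq_true, if_false] at h3
    omega
  | true =>
    unfold Pot at h3
    simp only [if_true] at h3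
    omega

theorem nol_of {X N P g : ℕ} {τ : Bool} {y : Fin 4} (h : NoLess (uX X) N τ P (g : ℤ) y) :
    nol X N P (4 * g + y) = true := by
  unfold nol
  rw [List.all_eq_true]
  intro P' hP'
  rw [List.mem_range] at hP'
  rw [Bool.or_eq_true]
  by_cases h1 : P' ≤ 1
  · left
    exact Nat.ble_eq_true_of_le h1
  · right
    rw [Bool.not_eq_true', ← Bool.not_eq_true]
    intro h2
    rw [memb_iff, mem_evl (by omega)] at h2
    obtain ⟨τ', s, g', y', hz, -, -, he⟩ := h2
    have hy := y.2
    have hy' := y'.2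
    have hg : g' = g := by omega
    have hyy : y' = y := Fin.ext (by omega)
    rw [hg, hyy] at he
    exact h τ' P' _ (Or.inl hP') he

/-- the pairs of the events in the block -/
def Tl (X N A t q : ℕ) : List ℕ :=
  (List.range q).flatMap fun P => if Nat.ble 2 P then
    (evl X N P A (A + t)).filter (fun z => vnt X N (z / 4) (z % 4) && nol X N P z) else []

def Tn (X N A t q : ℕ) : List ℕ := (List.range (4 * N + 4)).filter fun z => memb z (Tl X N A t q)

def dec (z : ℕ) : ℤ × Fin 4 := ((z / 4 : ℕ), ⟨z % 4, Nat.mod_lt _ (by norm_num)⟩)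

/-- the set T -/
def TS (X N A t q : ℕ) : Finset (ℤ × Fin 4) := (Tn X N A t q).toFinset.image dec

theorem TS_card (X N A t q : ℕ) : (TS X N A t q).card ≤ (Tn X N A t q).length :=
  Finset.card_image_le.trans (List.toFinset_card_le _)

theorem dec_mk (g : ℕ) (y : Fin 4) : dec (4 * g + y) = ((g : ℤ), y) := by
  have hy := y.2
  unfold dec
  rw [Prod.mk.injEq]
  refine ⟨by push_cast; omega, Fin.ext ?_⟩
  show (4 * g + (y : ℕ)) % 4 = y
  omega

theorem mem_TS {X N A t q g : ℕ} {y : Fin 4} (h : ((g : ℤ), y) ∈ TS X N A t q) :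
    memb (4 * g + y) (Tl X N A t q) = true := by
  unfold TS at h
  rw [Finset.mem_image] at h
  obtain ⟨z, hz, he⟩ := h
  rw [List.mem_toFinset] at hz
  unfold Tn at hz
  rw [List.mem_filter] at hz
  unfold dec at he
  rw [Prod.mk.injEq] at he
  have h2 := congrArg (fun x : Fin 4 => (x : ℕ)) he.2
  simp only at h2
  have h1 : z / 4 = g := by exact_mod_cast he.1
  have : 4 * g + (y : ℕ) = z := by omega
  rw [this]
  exact hz.2

theorem covT (X N A t q : ℕ) : CovT (uX X) N A t q (TS X N A t q) := by
  intro τ P c g y hP h1 h2 he hv hn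
  obtain ⟨a1, a2, a3, a4⟩ := he.two
  obtain ⟨g, rfl⟩ := Int.eq_ofNat_of_zero_le a3
  obtain ⟨s, hs⟩ := Int.eq_ofNat_of_zero_le he.1
  have hc : c = (s : ℤ) + P - 1 := by omega
  have he2 := he.2.1
  have hy := y.2
  have hz : 4 * g + (y : ℕ) ∈ Tl X N A t q := by
    unfold Tl
    rw [List.mem_flatMap]
    refine ⟨P, List.mem_range.2 hP, ?_⟩
    rw [if_pos (Nat.ble_eq_true_of_le a1), List.mem_filter]
    have e1 : (4 * g + (y : ℕ)) / 4 = g := by omega
    have e2 : (4 * g + (y : ℕ)) % 4 = y := by omega
    constructor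
    · rw [mem_evl a1]
      refine ⟨τ, s, g, y, rfl, by omega, by omega, ?_⟩
      rw [← hc]
      exact he
    · rw [e1, e2, Bool.and_eq_true]
      exact ⟨(vnt_iff X N g y).2 hv, nol_of hn⟩
  unfold TS
  rw [Finset.mem_image]
  refine ⟨4 * g + y, ?_, dec_mk g y⟩
  rw [List.mem_toFinset]
  unfold Tn
  rw [List.mem_filter]
  exact ⟨List.mem_range.2 (by omega), (memb_iff _ _).2 hz⟩

def opn (X N P h g : ℕ) (T : List ℕ) : Bool :=
  Nat.ble N h || Nat.ble (N + 1) g || (vnt X N g (dg X h) && !(memb (4 * g + dg X h) T) && nol X N P (4 * g + dg X h))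

def flF (X N A t P : ℕ) (T : List ℕ) : Bool :=
  (List.range N).any fun s => Nat.ble A (s + P - 1) && Nat.ble (s + P) (A + t) && Nat.ble (N + 1) (s + (2 * P - 1)) &&
    (List.range (P - 1)).any fun b => potF X N P s b && opn X N P (s + b + P - 1) (s + b) T

def flT (X N A t P : ℕ) (T : List ℕ) : Bool :=
  (List.range N).any fun s => Nat.ble A (s + P - 1) && Nat.ble (s + P) (A + t) && Nat.ble (N + 1) (s + (2 * P - 1)) &&
    (List.range (P - 1)).any fun b => potT X N P s (b + 1) && opn X N P (s + (b + 1)) (s + (b + 1) + P) T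

def FF (X N A t q : ℕ) (T : List ℕ) : List ℕ := (List.range q).filter fun P => flF X N A t P T
def FT (X N A t q : ℕ) (T : List ℕ) : List ℕ := (List.range q).filter fun P => flT X N A t P T

def FS (X N A t q : ℕ) : Finset (Bool × ℕ) :=
  (FF X N A t q (Tl X N A t q)).toFinset.image (fun P => (false, P)) ∪
  (FT X N A t q (Tl X N A t q)).toFinset.image (fun P => (true, P))

theorem FS_card (X N A t q : ℕ) : (FS X N A t q).card ≤ (FF X N A t q (Tl X N A t q)).length +
    (FT X N A t q (Tl X N A t q)).length := by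
  unfold FS
  refine (Finset.card_union_le _ _).trans (Nat.add_le_add ?_ ?_)
  · exact Finset.card_image_le.trans (List.toFinset_card_le _)
  · exact Finset.card_image_le.trans (List.toFinset_card_le _)

theorem opn_of {X N A t q P h g : ℕ} {τ : Bool} (hh : hinge τ P (g : ℤ) = (h : ℤ))
    (ho : Open (uX X) N (TS X N A t q) τ P (g : ℤ)) : opn X N P h g (Tl X N A t q) = true := by
  unfold opn
  rw [Bool.or_eq_true, Bool.or_eq_true]
  by_cases h1 : N ≤ h
  · left; left
    exact Nat.ble_eq_true_of_le h1
  · by_cases h2 : N + 1 ≤ g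
    · left; right
      exact Nat.ble_eq_true_of_le h2
    · right
      unfold Open at ho
      rw [hh] at ho
      obtain ⟨o1, o2, o3⟩ := ho (by omega) (by omega) (by omega) (by omega)
      have e : dg X h = ((uX X (h : ℤ) : Fin 4) : ℕ) := (uX_nat X h).symm
      rw [e, Bool.and_eq_true, Bool.and_eq_true]
      refine ⟨⟨(vnt_iff _ _ _ _).2 o1, ?_⟩, nol_of o3⟩
      rw [Bool.not_eq_true', ← Bool.not_eq_true]
      intro hm
      apply o2
      unfold TS
      rw [Finset.mem_image]
      have hy := (uX X (h : ℤ)).2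
      refine ⟨4 * g + ((uX X (h : ℤ) : Fin 4) : ℕ), ?_, dec_mk g _⟩
      rw [List.mem_toFinset]
      unfold Tn
      rw [List.mem_filter]
      exact ⟨List.mem_range.2 (by omega), hm⟩

theorem covR (X N A t q : ℕ) (hAt : A + t ≤ N) : CovR (uX X) N A t q (TS X N A t q) (FS X N A t q) := by
  intro τ P c g hP h1 h2 h3 h4 hp ho
  obtain ⟨s, hs⟩ := Int.eq_ofNat_of_zero_le h3
  have hc : c = (s : ℤ) + P - 1 := by omega
  unfold FS
  rw [Finset.mem_union]
  cases τ with
  | false =>
    left
    rw [Finset.mem_image]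
    refine ⟨P, ?_, rfl⟩
    rw [List.mem_toFinset]
    unfold FF
    rw [List.mem_filter]
    refine ⟨List.mem_range.2 hP, ?_⟩
    have hp2 := hp
    unfold Pot at hp2
    simp only [Bool.false_eq_true, if_false] at hp2
    obtain ⟨d1, d2, -, -⟩ := hp2
    obtain ⟨b, hb⟩ := Int.eq_ofNat_of_zero_le (show 0 ≤ g - s by omega)
    have hg : g = (s : ℤ) + b := by omega
    unfold flF
    rw [List.any_eq_true]
    refine ⟨s, List.mem_range.2 (by omega), ?_⟩
    simp only [Bool.and_eq_true]
    refine ⟨⟨⟨Nat.ble_eq_true_of_le (by omega), Nat.ble_eq_true_of_le (by omega)⟩,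
      Nat.ble_eq_true_of_le (by omega)⟩, ?_⟩
    rw [List.any_eq_true]
    refine ⟨b, List.mem_range.2 (by omega), ?_⟩
    rw [Bool.and_eq_true]
    constructor
    · rw [potF_iff X N P s b (by omega), ← hc, ← hg]
      exact hp
    · refine opn_of (τ := false) ?_ ?_
      · unfold hinge
        simp only [Bool.false_eq_true, if_false]
        push_cast
        omega
      · have e : ((s + b : ℕ) : ℤ) = g := by push_cast; omega
        rw [e]
        exact ho
  | true =>
    right
    rw [Finset.mem_image]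
    refine ⟨P, ?_, rfl⟩
    rw [List.mem_toFinset]
    unfold FT
    rw [List.mem_filter]
    refine ⟨List.mem_range.2 hP, ?_⟩
    have hp2 := hp
    unfold Pot at hp2
    simp only [if_true] at hp2
    obtain ⟨d1, d2, -, -⟩ := hp2
    obtain ⟨b, hb⟩ := Int.eq_ofNat_of_zero_le (show 0 ≤ g - P - s - 1 by omega)
    have hg : g = (s : ℤ) + ((b + 1 : ℕ) : ℤ) + P := by push_cast; omega
    unfold flT
    rw [List.any_eq_true]
    refine ⟨s, List.mem_range.2 (by omega), ?_⟩
    simp only [Bool.and_eq_true]
    refine ⟨⟨⟨Nat.ble_eq_true_of_le (by omega), Nat.ble_eq_true_of_le (by omega)⟩,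
      Nat.ble_eq_true_of_le (by omega)⟩, ?_⟩
    rw [List.any_eq_true]
    refine ⟨b, List.mem_range.2 (by omega), ?_⟩
    rw [Bool.and_eq_true]
    constructor
    · rw [potT_iff X N P s (b + 1) (by omega) (by omega), ← hc, ← hg]
      exact hp
    · refine opn_of (τ := true) ?_ ?_
      · unfold hinge
        simp only [if_true]
        push_cast
        omega
      · have e : ((s + (b + 1) + P : ℕ) : ℤ) = g := by push_cast; push_cast at hg; omega
        rw [e]
        exact ho

/-- the start test -/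
def stOK (x X N t : ℕ) : Bool := Nat.ble 1 t && Nat.ble (x + t) N &&
  Nat.ble (1000 * ((Tn X N x t (x + t + 1)).length + ((FF X N x t (x + t + 1) (Tl X N x t (x + t + 1))).length +
    (FT X N x t (x + t + 1) (Tl X N x t (x + t + 1))).length))) (1760 * t)

/-- the test for the whole word -/
def whOK (x X N : ℕ) : Bool := Nat.ble (1000 * (Tn X N x (N - x) (N - x + 1)).length) (1760 * (N - x) + 3999)

/-- the word ends with a square -/
def sqE (X N : ℕ) : Bool := (List.range (N / 2)).any fun p => (List.range (p + 1)).all fun i =>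
  Nat.beq (dg X (N - 2 * (p + 1) + i)) (dg X (N - 2 * (p + 1) + i + (p + 1)))

def tree (x : ℕ) : ℕ → ℕ → ℕ → Bool
  | 0, _, _ => false
  | f + 1, X, N => ((List.range 4).any fun i => stOK x X N (N - x - i)) ||
      (whOK x X N && (List.range 4).all fun c => sqE (X + c * 4 ^ N) (N + 1) || tree x f (X + c * 4 ^ N) (N + 1))

theorem dg_low {X c N i : ℕ} (h : i < N) : dg (X + c * 4 ^ N) i = dg X i := by
  unfold dg
  have e : c * 4 ^ N = 4 ^ i * (4 * (c * 4 ^ (N - i - 1))) := by
    have : 4 ^ N = 4 ^ i * (4 * 4 ^ (N - i - 1)) := by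
      rw [← pow_succ', ← pow_add]
      congr 1
      omega
    rw [this]
    ring
  rw [e, Nat.add_mul_div_left _ _ (by positivity), Nat.add_mul_mod_self_left]

theorem dg_top {X c N : ℕ} (hX : X < 4 ^ N) (hc : c < 4) : dg (X + c * 4 ^ N) N = c := by
  unfold dg
  rw [Nat.add_mul_div_right _ _ (by positivity), Nat.div_eq_of_lt hX, zero_add, Nat.mod_eq_of_lt hc]

theorem tree_sound (x : ℕ) (a : ℕ → ℕ) (ha : ∀ p, a p ≤ 1000) (S : ℕ → ℕ → Prop) (Bt : ℕ → ℕ → ℕ) (v : ℤ → Fin 4)
    (n : ℕ) (hv : SqfOn v n) (φ : Fin 4 → Fin 4) (hφ : Function.Injective φ) : ∀ (f X N : ℕ), tree x f X N = true →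
    x < N → N ≤ n → X < 4 ^ N → (∀ i : ℕ, i < N → dg X i = ((φ (v (i : ℤ)) : Fin 4) : ℕ)) →
    Good a 1000 1760 3999 S Bt v n x := by
  intro f
  induction f with
  | zero => intro X N h; simp [tree] at h
  | succ f ih =>
    intro X N h hx hN hX hw
    have hview : View v 0 N φ (uX X) := by
      refine ⟨hφ, fun i h1 h2 => ?_⟩
      obtain ⟨i, rfl⟩ := Int.eq_ofNat_of_zero_le h1
      apply Fin.ext
      rw [uX_nat, hw i (by omega), zero_add]
    rw [tree, Bool.or_eq_true] at h
    rcases h with h | h
    · rw [List.any_eq_true] at h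
      obtain ⟨i, -, h⟩ := h
      unfold stOK at h
      simp only [Bool.and_eq_true] at h
      obtain ⟨⟨h1, h2⟩, h3⟩ := h
      have h1 := Nat.le_of_ble_eq_true h1
      have h2 := Nat.le_of_ble_eq_true h2
      have h3 := Nat.le_of_ble_eq_true h3
      obtain ⟨t, ht⟩ : ∃ t, t = N - x - i := ⟨_, rfl⟩
      rw [← ht] at h1 h2 h3
      refine Good.start N t φ (uX X) (TS X N x t (x + t + 1)) (FS X N x t (x + t + 1)) hN h1 h2 hview
        (covT X N x t _) (covR X N x t _ h2) ?_
      have h4 := TS_card X N x t (x + t + 1)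
      have h5 := FS_card X N x t (x + t + 1)
      have h6 : ∑ f ∈ FS X N x t (x + t + 1), a f.2 ≤ 1000 * (FS X N x t (x + t + 1)).card := by
        rw [mul_comm, ← smul_eq_mul]
        exact Finset.sum_le_card_nsmul _ _ _ (fun f _ => ha f.2)
      omega
    · rw [Bool.and_eq_true] at h
      obtain ⟨h1, h2⟩ := h
      rcases Nat.lt_or_ge N n with hlt | hge
      · rw [List.all_eq_true] at h2
        have hc := (φ (v (N : ℤ))).2
        have h3 := h2 (φ (v (N : ℤ)) : ℕ) (List.mem_range.2 hc)
        obtain ⟨c, hc'⟩ : ∃ c, c = ((φ (v (N : ℤ)) : Fin 4) : ℕ) := ⟨_, rfl⟩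
        rw [← hc'] at h3 hc
        have hw' : ∀ i : ℕ, i < N + 1 → dg (X + c * 4 ^ N) i = ((φ (v (i : ℤ)) : Fin 4) : ℕ) := by
          intro i hi
          rcases Nat.lt_or_ge i N with hi2 | hi2
          · rw [dg_low hi2]
            exact hw i hi2
          · have : i = N := by omega
            rw [this, dg_top hX hc, hc']
        rw [Bool.or_eq_true] at h3
        rcases h3 with h3 | h3
        · exfalso
          unfold sqE at h3
          rw [List.any_eq_true] at h3
          obtain ⟨p, hp, h4⟩ := h3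
          rw [List.mem_range] at hp
          rw [List.all_eq_true] at h4
          obtain ⟨j, hj, h5⟩ := hv ((N + 1 - 2 * (p + 1) : ℕ) : ℤ) (p + 1) (by omega) (by omega) (by push_cast; omega)
          apply h5
          have h6 := Nat.eq_of_beq_eq_true (h4 j (List.mem_range.2 hj))
          rw [hw' _ (by omega), hw' _ (by omega)] at h6
          have h7 := hφ (Fin.ext h6)
          have e1 : ((N + 1 - 2 * (p + 1) + j : ℕ) : ℤ) = ((N + 1 - 2 * (p + 1) : ℕ) : ℤ) + (j : ℤ) := by push_cast; ring
          have e2 : ((N + 1 - 2 * (p + 1) + j + (p + 1) : ℕ) : ℤ) =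
              ((N + 1 - 2 * (p + 1) : ℕ) : ℤ) + (j : ℤ) + ((p + 1 : ℕ) : ℤ) := by push_cast; ring
          rw [e1, e2] at h7
          exact h7
        · refine ih (X + c * 4 ^ N) (N + 1) h3 (by omega) (by omega) ?_ hw'
          rw [pow_succ]
          have h8 := Nat.mul_le_mul_right (4 ^ N) (show c ≤ 3 by omega)
          generalize 4 ^ N = Y at *
          generalize c * Y = Z at *
          omega
      · have hNn : N = n := by omega
        subst hNn
        unfold whOK at h1
        have h1 := Nat.le_of_ble_eq_true h1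
        refine Good.whole (N - x) φ (uX X) (TS X N x (N - x) (N - x + 1)) (by omega) hview (covT X N x (N - x) _) ?_
        have h4 := TS_card X N x (N - x) (N - x + 1)
        omega

/-- the codes of the four roots -/
def rcs : List ℕ := [0 + 1 * 4 + 0 * 16 + 2 * 64, 0 + 1 * 4 + 2 * 16 + 0 * 64, 0 + 1 * 4 + 2 * 16 + 1 * 64,
  0 + 1 * 4 + 2 * 16 + 3 * 64]

def chkSt (x f : ℕ) : Bool := rcs.all fun X => tree x f X 4

set_option maxRecDepth 20000 in
theorem chk0 : chkSt 0 2 = true := by decide +kernel
set_option maxRecDepth 20000 in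
theorem chk1 : chkSt 1 2 = true := by decide +kernel
set_option maxRecDepth 20000 in
theorem chk2 : chkSt 2 6 = true := by decide +kernel
set_option maxRecDepth 20000 in
theorem chk3 : chkSt 3 11 = true := by decide +kernel

theorem rcs_of {v : ℤ → Fin 4} {φ : Fin 4 → Fin 4} (h : (((φ (v (((0 : ℕ)) : ℤ)) : Fin 4) : ℕ), ((φ (v ((((0 : ℕ)) : ℤ) + 1)) : Fin 4) : ℕ), ((φ (v ((((0 : ℕ)) : ℤ) + 2)) : Fin 4) : ℕ),
        ((φ (v ((((0 : ℕ)) : ℤ) + 3)) : Fin 4) : ℕ)) ∈ roots) :
    ∃ X ∈ rcs, X < 4 ^ 4 ∧ ∀ i : ℕ, i < 4 → dg X i = ((φ (v (i : ℤ)) : Fin 4) : ℕ) := by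
  have key : ∀ a b c d X : ℕ, (((φ (v (((0 : ℕ)) : ℤ)) : Fin 4) : ℕ), ((φ (v ((((0 : ℕ)) : ℤ) + 1)) : Fin 4) : ℕ), ((φ (v ((((0 : ℕ)) : ℤ) + 2)) : Fin 4) : ℕ),
        ((φ (v ((((0 : ℕ)) : ℤ) + 3)) : Fin 4) : ℕ)) = (a, b, c, d) → (dg X 0 = a ∧ dg X 1 = b ∧ dg X 2 = c ∧ dg X 3 = d) →
      ∀ i : ℕ, i < 4 → dg X i = ((φ (v (i : ℤ)) : Fin 4) : ℕ) := by
    intro a b c d X he hX i hi
    simp only [Prod.mk.injEq] at he
    obtain ⟨e1, e2, e3, e4⟩ := he
    obtain ⟨f1, f2, f3, f4⟩ := hX
    have hcases : i = 0 ∨ i = 1 ∨ i = 2 ∨ i = 3 := by omega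
    rcases hcases with rfl | rfl | rfl | rfl
    · rw [f1, ← e1]
    · rw [f2, ← e2]
      norm_num
    · rw [f3, ← e3]
      norm_num
    · rw [f4, ← e4]
      norm_num
  simp only [roots, List.mem_cons, List.not_mem_nil, or_false] at h
  rcases h with h | h | h | h
  · exact ⟨0 + 1 * 4 + 0 * 16 + 2 * 64, by decide, by norm_num, key _ _ _ _ _ h (by decide)⟩
  · exact ⟨0 + 1 * 4 + 2 * 16 + 0 * 64, by decide, by norm_num, key _ _ _ _ _ h (by decide)⟩
  · exact ⟨0 + 1 * 4 + 2 * 16 + 1 * 64, by decide, by norm_num, key _ _ _ _ _ h (by decide)⟩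
  · exact ⟨0 + 1 * 4 + 2 * 16 + 3 * 64, by decide, by norm_num, key _ _ _ _ _ h (by decide)⟩

/-- POSITIONS x ≤ 3 -/
theorem good_start (a : ℕ → ℕ) (ha : ∀ p, a p ≤ 1000) (S : ℕ → ℕ → Prop) (Bt : ℕ → ℕ → ℕ) (v : ℤ → Fin 4)
    (n : ℕ) (hv : SqfOn v n) (x : ℕ) (hx : x < n) (hx3 : x ≤ 3) : Good a 1000 1760 3999 S Bt v n x := by
  rcases Nat.lt_or_ge n 4 with hn | hn
  · -- short words
    refine Good.whole (n - x) id v (if n = 3 then {((0 : ℤ), v 1), ((3 : ℤ), v 1)} else ∅) (by omega)
      ⟨Function.injective_id, fun i h1 h2 => by simp⟩ ?_ ?_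
    · intro τ P c g y hP h1 h2 he hv hn'
      have h2P : 2 ≤ P := by
        cases τ with
        | false =>
          have h3 := he.2.2.1
          unfold Pot at h3
          simp only [Bool.false_eq_true, if_false] at h3
          omega
        | true =>
          have h3 := he.2.2.1
          unfold Pot at h3
          simp only [if_true] at h3
          omega
      have hin1 := he.1
      have hin2 := he.2.1
      have hn3 : n = 3 := by omega
      have hP2 : P = 2 := by omega
      have hc : c = 1 := by omega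
      subst hP2
      subst hc
      rw [if_pos hn3]
      obtain ⟨h5, h6⟩ := he.2.2
      cases τ with
      | false =>
        unfold Pot at h5
        simp only [Bool.false_eq_true, if_false] at h5
        have hg : g = 0 := by omega
        subst hg
        unfold hinge at h6
        simp at h6
        rw [← h6]
        simp
      | true =>
        unfold Pot at h5
        simp only [if_true] at h5
        have hg : g = 3 := by omega
        subst hg
        unfold hinge at h6
        simp at h6
        rw [← h6]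
        simp
    · split_ifs with h
      · have : ({((0 : ℤ), v 1), ((3 : ℤ), v 1)} : Finset (ℤ × Fin 4)).card ≤ 2 := Finset.card_le_two
        omega
      · simp
  · obtain ⟨φ, hφ, hroot⟩ := root_window v n hv 0 (by omega)
    obtain ⟨X, hX, hX2, hX3⟩ := rcs_of hroot
    have hall : ∃ f, tree x f X 4 = true := by
      have hcases : x = 0 ∨ x = 1 ∨ x = 2 ∨ x = 3 := by omega
      rcases hcases with rfl | rfl | rfl | rfl
      · exact ⟨2, List.all_eq_true.1 chk0 X hX⟩
      · exact ⟨2, List.all_eq_true.1 chk1 X hX⟩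
      · exact ⟨6, List.all_eq_true.1 chk2 X hX⟩
      · exact ⟨11, List.all_eq_true.1 chk3 X hX⟩
    obtain ⟨f, hf⟩ := hall
    exact tree_sound x a ha S Bt v n hv φ hφ f X 4 hf (by omega) hn hX2 hX3

end Pool.Agent.SQF4
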