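import Mathlib
import Pool.Agent.SQF4.Asm
import Pool.Agent.SQF4.Desc
import Pool.Agent.SQF4.Start
import Pool.Agent.SQF4.AFin
import Pool.Agent.SQF4.Tab

/-!
TOP: no square-free word over four letters is extremal, from
hroot: the tree (engine): the windows reading 0102, 0120, 0121, 0123 with the block starting at 4 are good;
H2: the table B(q, t) (branch and bound).
-/

set_option autoImplicit false

namespace Pool.Agent.SQF4

open Pool.Agent.SQF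

theorem top (S : ℕ → ℕ → Prop) (Bt : ℕ → ℕ → ℕ)
    (hroot : ∀ u : ℤ → Fin 4,
      (((u 0 : Fin 4) : ℕ), ((u 1 : Fin 4) : ℕ), ((u 2 : Fin 4) : ℕ), ((u 3 : Fin 4) : ℕ)) ∈ roots →
      GoodW aw 1000 1760 3999 S Bt 4 4 u)
    (H2 : ∀ (W : ℤ → Fin 4 ⊕ ℤ), Sqf W → ∀ (Z : Finset (ℤ × (Fin 4 ⊕ ℤ))) (τ : ℤ × (Fin 4 ⊕ ℤ) → Bool)
      (P : ℤ × (Fin 4 ⊕ ℤ) → ℕ) (c : ℤ × (Fin 4 ⊕ ℤ) → ℤ), Wit W Z τ P c →
      ∀ (x : ℤ) (t q : ℕ), t + 1 ≤ q → S q t → ∑ z ∈ (blk Z c x t).filter (fun z => q ≤ P z), aw (P z) ≤ Bt q t)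
    (w : List (Fin 4)) (hw : ∀ x u y : List (Fin 4), u ≠ [] → w ≠ x ++ u ++ u ++ y) :
    ∃ p s : List (Fin 4), ∃ a : Fin 4, w = p ++ s ∧
      ∀ x u y : List (Fin 4), u ≠ [] → p ++ a :: s ≠ x ++ u ++ u ++ y := by
  refine no_extremal 1000 1760 240 (by norm_num) (by norm_num) aw aw_le S Bt ?_ H2 ?_ w hw
  · intro v n hv x hx
    have e : 4 * 1000 - 1 = 3999 := by norm_num
    rw [e]
    rcases Nat.lt_or_ge x 4 with h | h
    · exact good_start aw aw_le S Bt v n hv x hx (by omega)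
    · exact good_of_roots hroot v n hv x h hx
  · intro W n hW hF Z τ P c hwit
    exact H3_area hW hF hwit

end Pool.Agent.SQF4
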