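import Mathlib
import Pool.Agent.SQF4.Top
import Pool.Agent.SQF4.Seed
import Pool.Agent.SQF4.BTab
import Pool.Agent.SQB.H2

/-!
FIN2: the statement from the tree alone (hseed); the table is proved (SQB.H2_tab).
-/

set_option autoImplicit false

namespace Pool.Agent.SQF4

open Pool.Agent.SQF Pool.Agent.SQB

theorem fin2 (hseed : Eng.AllS SP Bt 4 4 Eng.seed)
    (w : List (Fin 4)) (hw : ∀ x u y : List (Fin 4), u ≠ [] → w ≠ x ++ u ++ u ++ y) :
    ∃ p s : List (Fin 4), ∃ a : Fin 4, w = p ++ s ∧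
      ∀ x u y : List (Fin 4), u ≠ [] → p ++ a :: s ≠ x ++ u ++ u ++ y :=
  top SP Bt (fun u hu => Eng.hroot_of_seed hseed u hu)
    (fun _ hW _ _ _ _ hwit x t q htq hS => H2_tab hW hwit x t q htq hS) w hw

end Pool.Agent.SQF4
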