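import Pool.Agent.SQF4.Ker.F
import Pool.Agent.SQF4.Ker.C

/-!
HS: all the rows of the seed state are good.
-/

set_option autoImplicit false

namespace Pool.Agent.SQF4

theorem hseed : Eng.AllS SP Bt 4 4 Eng.seed :=
  Ker.seed_ok Ker.oA Ker.oB Ker.o0 Ker.o1 Ker.o2 Ker.o3 Ker.o4 Ker.o5 Ker.o6 Ker.o7

end Pool.Agent.SQF4
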