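import Mathlib.Util.CompileInductive

/-!
ENGINE, definitions (bit-sliced processing of N rows at once).

A packed vector V : Nat with stride N has the bit (a, r) = V.testBit (a * N + r), a = position, r = row (r < N).
All functions use the raw functions Nat.land, Nat.lor, Nat.xor, Nat.shiftLeft, Nat.shiftRight, which the kernel evaluates
by GMP.
-/

set_option autoImplicit false

namespace Pool.Agent.SQF4.Eng

/-- the bit (a, r) of the packed vector V with stride N -/
def bt (N V a r : Nat) : Bool := V.testBit (a * N + r)

/-- k * N ones: the full vector on the positions [0, k) -/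
def onesv (N k : Nat) : Nat := Nat.sub (Nat.pow 2 (Nat.mul k N)) 1

/-- x and not g -/
def andn (x g : Nat) : Nat := Nat.xor x (Nat.land x g)

/-- block of position j, as an N-bit number (m1 = onesv N 1) -/
def blk (N m1 V j : Nat) : Nat := Nat.land m1 (Nat.shiftRight V (Nat.mul j N))

/-- mismatch vector of shift s, window length n: bit a = (a + s < n and the letters at a and a + s differ) -/
def xvec (N n H L s : Nat) : Nat :=
  Nat.land (Nat.lor (Nat.xor H (Nat.shiftRight H (Nat.mul s N))) (Nat.xor L (Nat.shiftRight L (Nat.mul s N))))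
    (onesv N (Nat.sub n s))

/-- the mismatch vectors of the shifts s, s+1, ..., s+k-1 -/
def xvecs (N n H L : Nat) : Nat → Nat → List Nat
  | 0, _ => []
  | k + 1, s => xvec N n H L s :: xvecs N n H L k (Nat.succ s)

/-- the four letter vectors (letter 2 * high + low) -/
def letv (N n H L : Nat) : List Nat :=
  [Nat.xor (onesv N n) (Nat.lor H L), andn L H, andn H L, Nat.land H L]

/-- x, x >> N, x >> 2N, ... (k terms) -/
def shs (N : Nat) : Nat → Nat → List Nat
  | 0, _ => []
  | k + 1, x => x :: shs N k (Nat.shiftRight x N)

/-- exclusive prefix ORs: [a, a|x0, a|x0|x1, ...], same length -/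
def pors : List Nat → Nat → List Nat
  | [], _ => []
  | x :: xs, a => a :: pors xs (Nat.lor a x)

/-- inclusive prefix ORs: [a|x0, a|x0|x1, ...] -/
def pori : List Nat → Nat → List Nat
  | [], _ => []
  | x :: xs, a => Nat.lor a x :: pori xs (Nat.lor a x)

/-- inclusive suffix ORs -/
def sors : List Nat → List Nat
  | [] => []
  | x :: xs => match sors xs with
    | [] => [x]
    | s :: ss => Nat.lor x s :: s :: ss

/-- [f x0 y0, f x1 y1, ...] -/
def zip2 (f : Nat → Nat → Nat) : List Nat → List Nat → List Nat
  | [], _ => []
  | _ :: _, [] => []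
  | x :: xs, y :: ys => f x y :: zip2 f xs ys

/-- o0 | o1 << N | o2 << 2N | ... -/
def horner (N : Nat) : List Nat → Nat
  | [] => 0
  | o :: os => Nat.lor o (Nat.shiftLeft (horner N os) N)

/-- the valid breaks for type false: element b (b = 0, .., P-2) is the vector over the starts S in [0, k) -/
def okF (N P k x y : Nat) : List Nat :=
  (zip2 Nat.lor (pors (shs N P x) 0) (sors (shs N (Nat.sub P 1) y))).map (andn (onesv N k))

/-- the valid breaks for type true: element i is b = i + 1 (b = 1, .., P-1) -/
def okT (N P k x y : Nat) : List Nat :=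
  (zip2 Nat.lor (pori (shs N (Nat.sub P 1) y) 0)
    (List.append (sors (shs N (Nat.sub P 1) (Nat.shiftRight x N))).tail [0])).map (andn (onesv N k))

/-- G := G or the events of type false; EF = vector over the gap, the letter is at the position g + P - 1 -/
def updF (N P EF : Nat) : List Nat → List Nat → List Nat
  | s :: ss, g :: gs => Nat.lor g (Nat.land EF (Nat.shiftRight s (Nat.mul (Nat.sub P 1) N))) :: updF N P EF ss gs
  | _, _ => []

/-- G := G or the events of type true; ET = vector over the hinge h, the gap is h + P -/
def updT (N P ET : Nat) : List Nat → List Nat → List Nat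
  | s :: ss, g :: gs => Nat.lor g (Nat.shiftLeft (Nat.land ET s) (Nat.mul P N)) :: updT N P ET ss gs
  | _, _ => []

/-- initial G: the trivial pairs (gap g, letter of g or of g - 1) -/
def g0 (N : Nat) (ls : List Nat) : List Nat := ls.map (fun s => Nat.lor s (Nat.shiftLeft s N))

/-- number of the starts S for the events of half-length P inside the window -/
def ks0 (n P : Nat) : Nat := Nat.sub (Nat.add n 2) (Nat.mul 2 P)

/-- G after the events of type false and half-length P -/
def gF (N n P x y : Nat) (ls G : List Nat) : List Nat := updF N P (horner N (okF N P (ks0 n P) x y)) ls G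

/-- G after the events of type true and half-length P -/
def gT (N n P x y : Nat) (ls G : List Nat) : List Nat :=
  updT N P (Nat.shiftLeft (horner N (okT N P (ks0 n P) x y)) N) ls G

/-- the list of the pairs (G before the type false, G before the type true) for P, P+1, ...; m entries, then the final
G twice -/
def gTab (N n : Nat) (ls : List Nat) : Nat → Nat → List Nat → List Nat → List (List Nat × List Nat)
  | 0, _, _, G => [(G, G)]
  | _ + 1, _, [], G => [(G, G)]
  | _ + 1, _, [_], G => [(G, G)]
  | m + 1, P, x :: y :: xs, G =>
    (G, gF N n P x y ls G) :: gTab N n ls m (Nat.succ P) (y :: xs) (gT N n P x y ls (gF N n P x y ls G))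

/-- drop vector over the gap for type false -/
def dropF (N P : Nat) : List Nat → List Nat → Nat
  | s :: ss, g :: gs => Nat.lor (Nat.land g (Nat.shiftRight s (Nat.mul (Nat.sub P 1) N))) (dropF N P ss gs)
  | _, _ => 0

/-- drop vector over the hinge for type true -/
def dropT (N P : Nat) : List Nat → List Nat → Nat
  | s :: ss, g :: gs => Nat.lor (Nat.land (Nat.shiftRight g (Nat.mul P N)) s) (dropT N P ss gs)
  | _, _ => 0

/-- V as a vector over c' where the position is A + c' - (P - 1) -/
def align (N A P V : Nat) : Nat :=
  match Nat.ble (Nat.sub P 1) A with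
  | true => Nat.shiftRight V (Nat.mul (Nat.sub A (Nat.sub P 1)) N)
  | false => Nat.shiftLeft V (Nat.mul (Nat.sub (Nat.sub P 1) A) N)

/-- the binary digits of L below the leading one, highest first -/
def dig : Nat → Nat → List Bool → List Bool
  | 0, _, acc => acc
  | k + 1, L, acc => match Nat.ble L 1 with
    | true => acc
    | false => dig k (Nat.div L 2) (Nat.beq (Nat.mod L 2) 1 :: acc)

/-- scan of segments: P, Q, Z belong to the segments of length m of the sequences p, q, z (see segZ_spec); every digit
doubles the length (and adds one) -/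
def seg (N p q z : Nat) (bs : List Bool) : Nat → Nat → Nat → Nat → Nat :=
  List.rec (motive := fun _ => Nat → Nat → Nat → Nat → Nat) (fun _ _ _ Z => Z)
    (fun b _ ih m P Q Z => Bool.rec (motive := fun _ => Nat)
      (ih (Nat.mul 2 m) (Nat.lor P (Nat.shiftRight P (Nat.mul m N)))
        (Nat.lor Q (Nat.shiftRight Q (Nat.mul m N)))
        (Nat.land (Nat.lor Z (Nat.shiftRight Q (Nat.mul m N))) (Nat.lor P (Nat.shiftRight Z (Nat.mul m N)))))
      (ih (Nat.succ (Nat.mul 2 m))
        (Nat.lor p (Nat.shiftRight (Nat.lor P (Nat.shiftRight P (Nat.mul m N))) N))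
        (Nat.lor q (Nat.shiftRight (Nat.lor Q (Nat.shiftRight Q (Nat.mul m N))) N))
        (Nat.land (Nat.lor z (Nat.shiftRight (Nat.lor Q (Nat.shiftRight Q (Nat.mul m N))) N))
          (Nat.lor p (Nat.shiftRight
            (Nat.land (Nat.lor Z (Nat.shiftRight Q (Nat.mul m N))) (Nat.lor P (Nat.shiftRight Z (Nat.mul m N)))) N))))
      b) bs

/-- bit c is false iff for some b < L: no bit of p at c + j (j < b), no bit of z at c + b, no bit of q at c + j
(b < j < L) -/
def segZ (N L p q z : Nat) : Nat := seg N p q z (dig L L []) 1 p q z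

/-- potentials of type false with half-length P: vector over c' in [0, w), centre A + c' -/
def wF (N A w P x y d : Nat) : Nat :=
  andn (onesv N w) (segZ N (Nat.sub P 1) (align N A P x) (align N A P y) (Nat.lor (align N A P y) (align N A P d)))

/-- potentials of type true -/
def wT (N A w P x y d : Nat) : Nat :=
  andn (onesv N w) (Nat.lor (align N A P y) (segZ N (Nat.sub P 1) (Nat.shiftRight (align N A P y) N)
    (Nat.shiftRight (align N A P x) N) (Nat.shiftRight (align N A P d) N)))

/-- minimum and maximum by subtraction (fast in the kernel) -/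
def mn (a b : Nat) : Nat := Nat.sub a (Nat.sub a b)

def mx (a b : Nat) : Nat := Nat.add a (Nat.sub b a)

/-- number of positions of the vectors W for the half-length P -/
def wlen (n A tw P : Nat) : Nat := mx tw (Nat.sub (Nat.sub (Nat.succ n) P) A)

/-- the list of the pairs (W of type false, W of type true) for P, P+1, ... (m entries) -/
def wTab (N n A tw : Nat) (ls : List Nat) : Nat → Nat → List Nat → List (List Nat × List Nat) → List (Nat × Nat)
  | 0, _, _, _ => []
  | _ + 1, _, [], _ => []
  | _ + 1, _, [_], _ => []
  | _ + 1, _, _ :: _ :: _, [] => []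
  | m + 1, P, x :: y :: xs, G :: Gs =>
    (wF N A (wlen n A tw P) P x y (dropF N P ls G.1), wT N A (wlen n A tw P) P x y (dropT N P ls G.2)) ::
    wTab N n A tw ls m (Nat.succ P) (y :: xs) (match Gs with
      | [] => [G]
      | _ :: _ => Gs)

/-- a number g with k ≤ 2^g -/
def lgc (k : Nat) : Nat := match Nat.ble k 4 with
  | true => 2
  | false => match Nat.ble k 16 with
    | true => 4
    | false => match Nat.ble k 64 with
      | true => 6
      | false => match Nat.ble k 256 with
        | true => 8
        | false => k

/-- position 0 of the result is the OR of the positions [0, 2^j) -/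
def foldv (N : Nat) (j : Nat) : Nat → Nat :=
  Nat.rec (motive := fun _ => Nat → Nat) (fun V => V) (fun j ih V =>
    ih (Nat.lor (Nat.land V (onesv N (Nat.pow 2 j))) (Nat.shiftRight V (Nat.mul (Nat.pow 2 j) N)))) j

/-- OR of W over the positions lo, ..., lo + k - 1, as an N-bit number -/
def anyb (N m1 W lo k : Nat) : Nat :=
  match k with
  | 0 => 0
  | k + 1 => Nat.land m1 (foldv N (lgc (Nat.succ k)) (Nat.land (Nat.shiftRight W (Nat.mul lo N)) (onesv N (Nat.succ k))))

/-- first boundary: centres below it are left-crossing only -/
def lo1 (n A t P : Nat) : Nat := mn t (Nat.sub (mn (Nat.sub P 1) (Nat.sub (Nat.succ n) P)) A)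

/-- second boundary: centres from here on are right-crossing only -/
def lo2 (n A t P : Nat) : Nat := mn t (Nat.sub (mx (Nat.sub P 1) (Nat.sub (Nat.succ n) P)) A)

/-- planes of a counter (lowest bit first) plus a bit -/
def inc (cs : List Nat) : Nat → List Nat :=
  List.rec (motive := fun _ => Nat → List Nat)
    (fun f => match Nat.beq f 0 with
      | true => []
      | false => [f])
    (fun c _ ih f => Nat.xor c f :: ih (Nat.land c f)) cs

theorem inc_nil (f : Nat) : inc [] f = match Nat.beq f 0 with
      | true => []
      | false => [f] := rfl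

theorem inc_cons (c : Nat) (cs : List Nat) (f : Nat) : inc (c :: cs) f = Nat.xor c f :: inc cs (Nat.land c f) := rfl

/-- planes of a counter plus two bits -/
def inc2 (cs : List Nat) (f g : Nat) : List Nat :=
  List.rec (motive := fun _ => List Nat) [Nat.xor f g, Nat.land f g]
    (fun c cs _ => Nat.xor (Nat.xor c f) g :: inc cs (Nat.lor (Nat.land f g) (Nat.land c (Nat.lor f g)))) cs

/-- sum of two plane lists and a carry -/
def addv (as : List Nat) : List Nat → Nat → List Nat :=
  List.rec (motive := fun _ => List Nat → Nat → List Nat) (fun bs c => inc bs c)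
    (fun a as ih bs c => List.rec (motive := fun _ => List Nat) (inc (a :: as) c)
      (fun b bs _ => Nat.xor (Nat.xor a b) c :: ih bs (Nat.lor (Nat.land a b) (Nat.land c (Nat.lor a b)))) bs) as

/-- starts of the runs of consecutive centres of the events inside the window -/
def rise (N n A P W : Nat) : Nat :=
  andn (andn (Nat.land W (onesv N (Nat.sub (Nat.sub (Nat.succ n) P) A))) (onesv N (Nat.sub (Nat.sub P 1) A)))
    (Nat.shiftLeft (andn W (onesv N (Nat.sub (Nat.sub P 1) A))) N)

/-- planes (packed over c') of the number of rises -/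
def riseP (N n A : Nat) : Nat → List (Nat × Nat) → Nat → List Nat → List Nat
  | 0, _, _, pl => pl
  | _ + 1, [], _, pl => pl
  | m + 1, w :: ws, P, pl => riseP N n A m ws (Nat.succ P) (inc2 pl (rise N n A P w.1) (rise N n A P w.2))

/-- position 0 of the result is the sum over the positions [0, 2^j) -/
def foldp (N : Nat) : Nat → List Nat → List Nat
  | 0, pl => pl
  | j + 1, pl => foldp N j (addv (pl.map (Nat.land (onesv N (Nat.pow 2 j))))
      (pl.map (fun p => Nat.shiftRight p (Nat.mul (Nat.pow 2 j) N))) 0)

/-- sum of the planes over the positions [0, t) -/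
def cntR (N m1 : Nat) (pl : List Nat) (t : Nat) : List Nat :=
  (foldp N (lgc t) (pl.map (Nat.land (onesv N t)))).map (Nat.land m1)

/-- rows whose counter is at most K (acc: rows for which the lower part is at most the lower part of K) -/
def leK (M : Nat) : List Nat → Nat → Nat → Nat
  | [], K, acc => match Nat.beq K 0 with
    | true => acc
    | false => M
  | c :: cs, K, acc => leK M cs (Nat.div K 2) (match Nat.beq (Nat.mod K 2) 0 with
    | true => Nat.land (Nat.xor M c) acc
    | false => Nat.lor (Nat.xor M c) acc)

/-- flags of half-length P, class left -/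
def addL (N m1 n A t P : Nat) (w : Nat × Nat) (cnt : List Nat) : List Nat :=
  match lo1 n A t P with
  | 0 => cnt
  | k + 1 => inc2 cnt (anyb N m1 w.1 0 (Nat.succ k)) (anyb N m1 w.2 0 (Nat.succ k))

/-- flags of half-length P, class right -/
def addR (N m1 n A t P : Nat) (w : Nat × Nat) (cnt : List Nat) : List Nat :=
  match Nat.sub t (lo2 n A t P) with
  | 0 => cnt
  | k + 1 => inc2 cnt (anyb N m1 w.1 (lo2 n A t P) (Nat.succ k)) (anyb N m1 w.2 (lo2 n A t P) (Nat.succ k))

/-- flags of half-length P, crossing both ends (empty if 2 P ≤ n + 1) -/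
def addB (N m1 n A t P : Nat) (w : Nat × Nat) (cnt : List Nat) : List Nat :=
  match Nat.ble (Nat.mul 2 P) (Nat.succ n) with
  | true => cnt
  | false => match Nat.sub (lo2 n A t P) (lo1 n A t P) with
    | 0 => cnt
    | k + 1 => inc2 cnt (anyb N m1 w.1 (lo1 n A t P) (Nat.succ k)) (anyb N m1 w.2 (lo1 n A t P) (Nat.succ k))

/-- cut test. ks: the entry for P is 0 (no comparison) or K + 1 (closed if the sum over the half-lengths ≤ P is ≤ K) -/
def cutLoop (N m1 n A t : Nat) : List Nat → Nat → List (Nat × Nat) → List Nat → Nat → Nat
  | [], _, _, _, acc => acc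
  | _ :: _, _, [], _, acc => acc
  | k :: ks, P, w :: ws, cnt, acc =>
    cutLoop N m1 n A t ks (Nat.succ P) ws (addB N m1 n A t P w (addR N m1 n A t P w (addL N m1 n A t P w cnt)))
      (match k with
      | 0 => acc
      | K + 1 => Nat.lor acc (leK m1 (addB N m1 n A t P w (addR N m1 n A t P w (addL N m1 n A t P w cnt))) K m1))

/-- left flags only, half-lengths P, P+1, ... (m of them) -/
def endLoop (N m1 n A t : Nat) : Nat → Nat → List (Nat × Nat) → List Nat → List Nat
  | 0, _, _, cnt => cnt
  | _ + 1, _, [], cnt => cnt
  | m + 1, P, w :: ws, cnt => endLoop N m1 n A t m (Nat.succ P) ws (addL N m1 n A t P w cnt)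

/-- right flags only -/
def staLoop (N m1 n A t : Nat) : Nat → Nat → List (Nat × Nat) → List Nat → List Nat
  | 0, _, _, cnt => cnt
  | _ + 1, _, [], cnt => cnt
  | m + 1, P, w :: ws, cnt => staLoop N m1 n A t m (Nat.succ P) ws (addR N m1 n A t P w cnt)

end Pool.Agent.SQF4.Eng
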