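import Pool.Agent.SQF4.E1

/-!
ENGINE, definitions, part 2: tests of a level, growth, compaction, run.
-/

set_option autoImplicit false

namespace Pool.Agent.SQF4.Eng

/-- data of a level shared by all tests: N rows, window length n, block start A, mismatch vectors X_1, X_2, ...,
letter vectors, table W for P = 2, 3, ..., planes of the rises -/
structure Lev where
  N : Nat
  n : Nat
  A : Nat
  m1 : Nat
  xs : List Nat
  ls : List Nat
  ws : List (Nat × Nat)
  pl : List Nat

/-- tw: the vectors W reach at least up to the position tw; half-lengths up to pm + 1 -/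
def mkLev (N n A tw pm H L : Nat) : Lev :=
  let xs := xvecs N n H L (Nat.succ pm) 1
  let ls := letv N n H L
  let h := Nat.sub (Nat.div (Nat.succ n) 2) 1
  let ws := wTab N n A tw ls pm 2 xs (gTab N n ls (Nat.min h 7) 2 xs (g0 N ls))
  ⟨N, n, A, onesv N 1, xs, ls, ws, riseP N n A h ws 2 []⟩

/-- rows closed by the cut t with the comparison list ks -/
def cutT (v : Lev) (t : Nat) (ks : List Nat) : Nat :=
  cutLoop v.N v.m1 v.n v.A t ks 2 v.ws (cntR v.N v.m1 v.pl t) 0

/-- rows satisfying the end condition with the bound K -/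
def endT (v : Lev) (t K : Nat) : Nat :=
  leK v.m1 (endLoop v.N v.m1 v.n v.A t (Nat.sub (Nat.sub v.n v.A) 1) 2 v.ws (cntR v.N v.m1 v.pl (Nat.sub v.n v.A)))
    K v.m1

/-- rows satisfying the start condition for the block [A, A+t) with the bound K -/
def staT (v : Lev) (t K : Nat) : Nat :=
  leK v.m1 (staLoop v.N v.m1 v.n v.A t (Nat.sub (Nat.add v.A t) 1) 2 v.ws (cntR v.N v.m1 v.pl t)) K v.m1

/-- blocks of the packed vector: k entries of N bits -/
def unpk (N m1 : Nat) : Nat → Nat → List Nat
  | 0, _ => []
  | k + 1, x => Nat.land x m1 :: unpk N m1 k (Nat.shiftRight x N)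

/-- OR of the first k positions (no truncation) -/
def anyv (N : Nat) : Nat → Nat → Nat
  | 0, _ => 0
  | k + 1, x => Nat.lor x (anyv N k (Nat.shiftRight x N))

/-- rows for which the new letter l on the right completes a square; m half-lengths s, s+1, ... with vectors xs -/
def forbR (N n m1 l : Nat) : Nat → Nat → List Nat → Nat
  | 0, _, _ => 0
  | _ + 1, _, [] => 0
  | m + 1, s, x :: xs =>
    Nat.lor (Nat.land (andn m1 (anyv N (Nat.sub s 1) (Nat.shiftRight x (Nat.mul (Nat.sub (Nat.succ n) (Nat.mul 2 s)) N))))
      (Nat.shiftRight l (Nat.mul (Nat.sub n s) N)))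
      (forbR N n m1 l m (Nat.succ s) xs)

/-- the same for the new letter on the left -/
def forbL (N n m1 l : Nat) : Nat → Nat → List Nat → Nat
  | 0, _, _ => 0
  | _ + 1, _, [] => 0
  | m + 1, s, x :: xs =>
    Nat.lor (Nat.land (andn m1 (anyv N (Nat.sub s 1) x)) (Nat.shiftRight l (Nat.mul (Nat.sub s 1) N)))
      (forbL N n m1 l m (Nat.succ s) xs)

/-- live mask of the four children blocks (N rows each): open rows without a square -/
def liveR (v : Lev) (op : Nat) : Nat :=
  horner v.N (v.ls.map (fun l => andn op (forbR v.N v.n v.m1 l (Nat.div (Nat.succ v.n) 2) 1 v.xs)))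

def liveL (v : Lev) (op : Nat) : Nat :=
  horner v.N (v.ls.map (fun l => andn op (forbL v.N v.n v.m1 l (Nat.div (Nat.succ v.n) 2) 1 v.xs)))

/-- 1 + 2^N + 2^(2N) + 2^(3N) -/
def rep4 (N : Nat) : Nat := Nat.add 1 (Nat.add (Nat.pow 2 N) (Nat.add (Nat.pow 2 (Nat.mul 2 N)) (Nat.pow 2 (Nat.mul 3 N))))

/-- a packed vector with N rows, every row repeated four times: 4N rows; list of the n positions -/
def quad (N m1 n x : Nat) : List Nat := (unpk N m1 n x).map (fun c => Nat.mul c (rep4 N))

/-- high bit of the new letter: rows [2N, 4N) -/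
def newH (N : Nat) : Nat := Nat.sub (Nat.pow 2 (Nat.mul 4 N)) (Nat.pow 2 (Nat.mul 2 N))

/-- low bit of the new letter: rows [N, 2N) and [3N, 4N) -/
def newLo (N m1 : Nat) : Nat := Nat.lor (Nat.shiftLeft m1 N) (Nat.shiftLeft m1 (Nat.mul 3 N))

/-- repeat the mask x (width s) over 2^j positions -/
def repm : Nat → Nat → Nat → Nat
  | 0, _, x => x
  | j + 1, s, x => repm j (Nat.mul 2 s) (Nat.lor x (Nat.shiftLeft x s))

/-- parity prefix: xor of the bits below and including, width < 2^j -/
def parp : Nat → Nat → Nat → Nat
  | 0, _, x => x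
  | j + 1, s, x => parp j (Nat.mul 2 s) (Nat.xor x (Nat.shiftLeft x s))

/-- state during the compaction: live mask, auxiliary mask, packed H and L -/
structure Cst where
  live : Nat
  zm : Nat
  H : Nat
  L : Nat
  ok : Bool

/-- one stage: the live rows in mv move down by s. w = number of parity steps, j = number of repetition steps,
N = stride -/
def cstep (w j N s : Nat) (c : Cst) : Cst :=
  let mp := Nat.land (onesv N 1) (parp w 1 c.zm)
  let lm := Nat.land c.live mp
  let lst := andn c.live mp
  let lm' := Nat.shiftRight lm s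
  let LM := repm j N lm
  let LS := repm j N lst
  ⟨Nat.lor lm' lst, andn c.zm mp,
    Nat.lor (Nat.shiftRight (Nat.land c.H LM) s) (Nat.land c.H LS),
    Nat.lor (Nat.shiftRight (Nat.land c.L LM) s) (Nat.land c.L LS),
    and c.ok (and (Nat.beq (Nat.land lm' lst) 0) (Nat.beq (Nat.shiftLeft lm' s) lm))⟩

def csteps (w j N : Nat) : Nat → Nat → Cst → Cst
  | 0, _, c => c
  | k + 1, s, c => csteps w j N k (Nat.mul 2 s) (cstep w j N s c)

/-- compaction of N rows (packed H, L with n positions), k stages -/
def compact (N n live H L : Nat) : Cst :=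
  csteps (Nat.succ (Nat.log2 N)) (Nat.succ (Nat.log2 n)) N (Nat.succ (Nat.log2 N)) 1
    ⟨live, Nat.land (onesv N 1) (Nat.shiftLeft (andn (onesv N 1) live) 1), H, L, true⟩

/-- restride from N to N' rows (n positions) -/
def restr (N n N' x : Nat) : Nat := horner N' ((unpk N (onesv N 1) n x).map (Nat.land (onesv N' 1)))

/-- growth on the right: children packed with stride 4N and n+1 positions, compacted -/
def growR (v : Lev) (H L op : Nat) : Cst :=
  compact (Nat.mul 4 v.N) (Nat.succ v.n) (liveR v op)
    (horner (Nat.mul 4 v.N) (List.append (quad v.N v.m1 v.n H) [newH v.N]))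
    (horner (Nat.mul 4 v.N) (List.append (quad v.N v.m1 v.n L) [newLo v.N v.m1]))

def growL (v : Lev) (H L op : Nat) : Cst :=
  compact (Nat.mul 4 v.N) (Nat.succ v.n) (liveL v op)
    (horner (Nat.mul 4 v.N) (newH v.N :: quad v.N v.m1 v.n H))
    (horner (Nat.mul 4 v.N) (newLo v.N v.m1 :: quad v.N v.m1 v.n L))

/-- parameters of a level: block start A; tw, pm (see mkLev); cuts (t, ks); end test (t, K); start tests (t, K) (used
only when the side is left); side = true: growth on the right; N' = number of rows of the next level -/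
structure Par where
  A : Nat
  tw : Nat
  pm : Nat
  cuts : List (Nat × List Nat)
  te : Nat
  Ke : Nat
  stas : List (Nat × Nat)
  side : Bool

/-- rows closed by one of the cuts -/
def cutsT (v : Lev) : List (Nat × List Nat) → Nat
  | [] => 0
  | c :: cs => Nat.lor (cutT v c.1 c.2) (cutsT v cs)

/-- rows satisfying one of the start conditions -/
def stasT (v : Lev) : List (Nat × Nat) → Nat
  | [] => 0
  | c :: cs => Nat.lor (staT v c.1 c.2) (stasT v cs)

/-- forces the evaluation of a natural number in the kernel -/
def force {α : Type} (x : Nat) (f : Nat → α) : α :=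
  match x with
  | 0 => f 0
  | k + 1 => f (k + 1)

/-- one level: the compacted children and whether all checks hold -/
def level (p : Par) (N n H L : Nat) : Cst × Bool :=
  let v := mkLev N n p.A p.tw p.pm H L
  force (cutsT v p.cuts) fun C =>
    match p.side with
    | true => (growR v H L (andn v.m1 C), Nat.beq (Nat.lor C (endT v p.te p.Ke)) v.m1)
    | false => (growL v H L (andn v.m1 C), Nat.beq (Nat.lor C (stasT v p.stas)) v.m1)

/-- the run; hs: numbers of rows of the next levels; f: the test of the last state (N, H, L) -/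
def run (f : Nat → Nat → Nat → Bool) : List Par → List Nat → Nat → Nat → Nat → Nat → Bool
  | [], _, N, _, H, L => f N H L
  | _ :: _, [], N, _, _, _ => Nat.beq N 0
  | p :: ps, N' :: hs, N, n, H, L =>
    match Nat.beq N 0 with
    | true => true
    | false =>
      let r := level p N n H L
      and r.2 (and r.1.ok (and (Nat.beq (Nat.shiftRight r.1.live N') 0)
        (force (restr (Nat.mul 4 N) (Nat.succ n) N' r.1.H) fun H' =>
          force (restr (Nat.mul 4 N) (Nat.succ n) N' r.1.L) fun L' => run f ps hs N' (Nat.succ n) H' L')))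

/-- no row is left -/
def fNone (N _ _ : Nat) : Bool := Nat.beq N 0

/-- a state: number of rows, high bits, low bits -/
structure Sta where
  N : Nat
  H : Nat
  L : Nat

/-- the packed vectors x (N1 rows) and y (N2 rows) side by side, n positions -/
def cat (N1 N2 n x y : Nat) : Nat :=
  horner (Nat.add N1 N2) (zip2 (fun c d => Nat.lor c (Nat.shiftLeft d N1)) (unpk N1 (onesv N1 1) n x)
    (unpk N2 (onesv N2 1) n y))

/-- the rows of the accumulator (N, H, L) and of all states of the list, as one state given to k -/
def catAll {α : Type} (n : Nat) (k : Sta → α) : List Sta → Nat → Nat → Nat → α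
  | [], N, H, L => k ⟨N, H, L⟩
  | s :: ss, N, H, L =>
    force (cat N s.N n H s.H) fun H' => force (cat N s.N n L s.L) fun L' =>
      force (Nat.add N s.N) fun N' => catAll n k ss N' H' L'

/-- the final state is s -/
def fIs (s : Sta) (N H L : Nat) : Bool := and (Nat.beq N s.N) (and (Nat.beq H s.H) (Nat.beq L s.L))

/-- the final state is the catenation of the states ss (n positions) -/
def fCat (n : Nat) (ss : List Sta) (N H L : Nat) : Bool := catAll n (fun s => fIs ⟨N, H, L⟩ s.N s.H s.L) ss 0 0 0

/-- the rows have no bits at the positions ≥ n -/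
def cleanB (n : Nat) (s : Sta) : Bool :=
  and (Nat.beq (Nat.shiftRight s.H (Nat.mul n s.N)) 0) (Nat.beq (Nat.shiftRight s.L (Nat.mul n s.N)) 0)

/-- the run from the state s (n positions) with a final test -/
def runS (f : Nat → Nat → Nat → Bool) (ps : List Par) (hs : List Nat) (n : Nat) (s : Sta) : Bool :=
  run f ps hs s.N n s.H s.L

end Pool.Agent.SQF4.Eng
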