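import Mathlib
import Pool.Agent.SQF4.Top
import Pool.Agent.SQF4.Seed
import Pool.Agent.SQF4.BTab
import Pool.Agent.SQB.GL

/-!
FIN: the statement from the two finite computations:
hL, hc: the levels of the branch and bound (table of the weights of blocks);
hseed: the tree from the seed state.
-/

set_option autoImplicit false

namespace Pool.Agent.SQF4

open Pool.Agent.SQF Pool.Agent.SQB

theorem fin (L : List (ℕ × ℕ × ℕ)) (hL : ∀ l ∈ L, ∀ β : ℕ, β / 16 = l.2.1 - 16 →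
      ∃ β₀ n : ℕ, lev wlB l.1 l.2.2 β₀ n = true ∧ β₀ ≤ β ∧ β < β₀ + n) (hc : cov L = true)
    (hseed : Eng.AllS SP Bt 4 4 Eng.seed)
    (w : List (Fin 4)) (hw : ∀ x u y : List (Fin 4), u ≠ [] → w ≠ x ++ u ++ u ++ y) :
    ∃ p s : List (Fin 4), ∃ a : Fin 4, w = p ++ s ∧
      ∀ x u y : List (Fin 4), u ≠ [] → p ++ a :: s ≠ x ++ u ++ u ++ y :=
  top SP Bt (fun u hu => Eng.hroot_of_seed hseed u hu)
    (fun _ hW _ _ _ _ hwit x t q htq hS => H2_of_list L hL hc hW hwit x t q htq hS) w hw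

end Pool.Agent.SQF4
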