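import Pool.Agent.SQF4.S13

/-!
BOOLEAN CHECKS of the parameters: Sb, Bt: table of B(q, t). Everything is a finite conjunction; induction on the lists.
ksB j: the list of comparisons from the index j on.
-/

set_option autoImplicit false

namespace Pool.Agent.SQF4.Eng

/-- the comparisons of the cut t -/
def ksB (Sb : ℕ → ℕ → Bool) (Bt : ℕ → ℕ → ℕ) (t : ℕ) : List ℕ → ℕ → Bool
  | [], _ => true
  | k :: ks, j => (match k with
    | 0 => true
    | K + 1 => (decide (t ≤ j + 2) || decide (41 ≤ j)) && Sb (max (j + 3) (t + 1)) t &&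
        decide (1000 * K + Bt (max (j + 3) (t + 1)) t ≤ 1760 * t)) && ksB Sb Bt t ks (j + 1)

def parB (Sb : ℕ → ℕ → Bool) (Bt : ℕ → ℕ → ℕ) (n : ℕ) (p : Par) : Bool :=
  decide ((n + 1) / 2 ≤ p.pm + 1) && decide (p.A ≤ n) &&
  p.cuts.all (fun c => decide (1 ≤ c.1) && decide (p.A + c.1 ≤ n) && decide (c.1 ≤ p.tw) && ksB Sb Bt c.1 c.2 0) &&
  (match p.side with
  | true => decide (p.te ≤ p.tw) && decide (n ≤ 2 * (p.A + p.te) + 1) &&
      decide (1000 * p.Ke ≤ 1760 * (n - p.A) + 3999) && (decide (42 ≤ p.pm) || decide (n - p.A ≤ p.pm + 1))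
  | false => p.stas.all (fun c => decide (1 ≤ c.1) && decide (p.A + c.1 ≤ n) && decide (c.1 ≤ p.tw) &&
      decide (p.A + c.1 ≤ p.pm + 1) && decide (1000 * c.2 ≤ 1760 * c.1)))

def parsB (Sb : ℕ → ℕ → Bool) (Bt : ℕ → ℕ → ℕ) : ℕ → ℕ → List Par → ℕ → Bool
  | _, A, [], A' => A == A'
  | n, A, p :: ps, A' => (A == p.A) && parB Sb Bt n p && parsB Sb Bt (n + 1) (if p.side then p.A else p.A + 1) ps A'

theorem ksB_sound {Sb : ℕ → ℕ → Bool} {S : ℕ → ℕ → Prop} {Bt : ℕ → ℕ → ℕ} (hS : ∀ q t, Sb q t = true → S q t)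
    (t : ℕ) (ks : List ℕ) (j : ℕ) (h : ksB Sb Bt t ks j = true) : ∀ i K, i < ks.length → ks.getD i 0 = K + 1 →
      (t ≤ j + i + 2 ∨ 41 ≤ j + i) ∧ S (max (j + i + 3) (t + 1)) t ∧
        1000 * K + Bt (max (j + i + 3) (t + 1)) t ≤ 1760 * t := by
  induction ks generalizing j with
  | nil =>
    intro i K hi
    exact absurd hi (Nat.not_lt_zero i)
  | cons k ks ih =>
    intro i K hi hK
    have h2 : ksB Sb Bt t ks (j + 1) = true := by
      cases k with
      | zero =>
        rw [ksB, Bool.and_eq_true] at h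
        exact h.2
      | succ k =>
        rw [ksB, Bool.and_eq_true] at h
        exact h.2
    cases i with
    | zero =>
      rw [List.getD_cons_zero] at hK
      rw [hK, ksB, Bool.and_eq_true] at h
      have h1 := h.1
      simp only [Bool.and_eq_true, Bool.or_eq_true, decide_eq_true_eq] at h1
      exact ⟨h1.1.1, hS _ _ h1.1.2, h1.2⟩
    | succ i =>
      rw [List.getD_cons_succ] at hK
      have h3 := ih (j + 1) h2 i K (Nat.lt_of_succ_lt_succ hi) hK
      rwa [show j + 1 + i = j + (i + 1) by omega] at h3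

theorem parB_sound {Sb : ℕ → ℕ → Bool} {S : ℕ → ℕ → Prop} {Bt : ℕ → ℕ → ℕ} (hS : ∀ q t, Sb q t = true → S q t)
    (n : ℕ) (p : Par) (h : parB Sb Bt n p = true) : ParOK S Bt n p := by
  obtain ⟨A, tw, pm, cuts, te, Ke, stas, side⟩ := p
  rw [parB] at h
  simp only [Bool.and_eq_true, decide_eq_true_eq] at h
  obtain ⟨⟨⟨h1, h2⟩, h3⟩, h4⟩ := h
  rw [List.all_eq_true] at h3
  refine ⟨h1, h2, ?_, ?_, ?_⟩
  · intro c hc
    have h5 := h3 c hc
    simp only [Bool.and_eq_true, decide_eq_true_eq] at h5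
    refine ⟨h5.1.1.1, h5.1.1.2, h5.1.2, fun j K hj hK => ?_⟩
    have h6 := ksB_sound hS c.1 c.2 0 h5.2 j K hj hK
    rwa [Nat.zero_add] at h6
  · intro hs
    cases side with
    | false => exact absurd hs Bool.false_ne_true
    | true =>
      simp only [Bool.and_eq_true, Bool.or_eq_true, decide_eq_true_eq] at h4
      exact ⟨h4.1.1.1, h4.1.1.2, h4.1.2, h4.2⟩
  · intro hs c hc
    cases side with
    | true => exact absurd hs.symm Bool.false_ne_true
    | false =>
      have h5 := (List.all_eq_true.1 h4) c hc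
      simp only [Bool.and_eq_true, decide_eq_true_eq] at h5
      exact ⟨h5.1.1.1.1, h5.1.1.1.2, h5.1.1.2, h5.1.2, h5.2⟩

theorem parsB_sound {Sb : ℕ → ℕ → Bool} {S : ℕ → ℕ → Prop} {Bt : ℕ → ℕ → ℕ} (hS : ∀ q t, Sb q t = true → S q t)
    (ps : List Par) : ∀ (n A A' : ℕ), parsB Sb Bt n A ps A' = true → ParsOK S Bt n A ps A' := by
  induction ps with
  | nil =>
    intro n A A' h
    rw [parsB, beq_iff_eq] at h
    rw [h]
    exact ParsOK.nil n A'
  | cons p ps ih =>
    intro n A A' h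
    rw [parsB, Bool.and_eq_true, Bool.and_eq_true, beq_iff_eq] at h
    rw [h.1.1]
    exact ParsOK.cons n p ps A' (parB_sound hS n p h.1.2) (ih _ _ _ h.2)

end Pool.Agent.SQF4.Eng
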