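import Mathlib
import Pool.Agent.SQF4.E2

/-!
Bits of the packed vectors: basic lemmas.
-/

set_option autoImplicit false

namespace Pool.Agent.SQF4.Eng

variable {N r : ℕ}

theorem bt_zero (a : ℕ) : bt N 0 a r = false := by
  unfold bt
  exact Nat.zero_testBit _

theorem bt_land (x y a : ℕ) : bt N (Nat.land x y) a r = (bt N x a r && bt N y a r) := by
  unfold bt
  exact Nat.testBit_land x y _

theorem bt_lor (x y a : ℕ) : bt N (Nat.lor x y) a r = (bt N x a r || bt N y a r) := by
  unfold bt
  exact Nat.testBit_lor x y _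

theorem bt_xor (x y a : ℕ) : bt N (Nat.xor x y) a r = (bt N x a r ^^ bt N y a r) := by
  unfold bt
  exact Nat.testBit_xor x y _

theorem bt_andn (x g a : ℕ) : bt N (andn x g) a r = (bt N x a r && !bt N g a r) := by
  unfold andn
  rw [bt_xor, bt_land]
  cases bt N x a r <;> cases bt N g a r <;> rfl

theorem bt_shr (V k a : ℕ) : bt N (Nat.shiftRight V (Nat.mul k N)) a r = bt N V (a + k) r := by
  unfold bt
  have h := Nat.testBit_shiftRight (i := k * N) (j := a * N + r) V
  have e : k * N + (a * N + r) = (a + k) * N + r := by ring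
  rw [e] at h
  exact h

theorem bt_shr1 (V a : ℕ) : bt N (Nat.shiftRight V N) a r = bt N V (a + 1) r := by
  have h := bt_shr (N := N) (r := r) V 1 a
  have e : Nat.mul 1 N = N := Nat.one_mul N
  rwa [e] at h

theorem bt_shl (hr : r < N) (V k a : ℕ) :
    bt N (Nat.shiftLeft V (Nat.mul k N)) a r = (decide (k ≤ a) && bt N V (a - k) r) := by
  unfold bt
  have h := Nat.testBit_shiftLeft (i := k * N) (j := a * N + r) V
  by_cases hk : k ≤ a
  · have e : a * N + r - k * N = (a - k) * N + r := by
      obtain ⟨d, rfl⟩ := Nat.exists_eq_add_of_le hk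
      rw [Nat.add_sub_cancel_left, add_mul]
      omega
    have h2 : k * N ≤ a * N + r := le_trans (Nat.mul_le_mul_right N hk) (Nat.le_add_right _ _)
    rw [e] at h
    simp only [ge_iff_le, h2, decide_true, Bool.true_and] at h
    simp only [hk, decide_true, Bool.true_and]
    exact h
  · have h2 : ¬ (k * N ≤ a * N + r) := by
      intro h3
      have h4 : (a + 1) * N ≤ k * N := Nat.mul_le_mul_right N (by omega)
      rw [add_mul, one_mul] at h4
      omega
    simp only [ge_iff_le, h2, decide_false, Bool.false_and] at h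
    simp only [hk, decide_false, Bool.false_and]
    exact h

theorem bt_shl1 (hr : r < N) (V a : ℕ) :
    bt N (Nat.shiftLeft V N) a r = (decide (1 ≤ a) && bt N V (a - 1) r) := by
  have h := bt_shl hr V 1 a
  have e : Nat.mul 1 N = N := Nat.one_mul N
  rwa [e] at h

theorem bt_onesv (hr : r < N) (k a : ℕ) : bt N (onesv N k) a r = decide (a < k) := by
  unfold bt onesv
  have h := Nat.testBit_two_pow_sub_one (k * N) (a * N + r)
  have e : decide (a * N + r < k * N) = decide (a < k) := by
    rw [decide_eq_decide]
    constructor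
    · intro h1
      by_contra h2
      have : k * N ≤ a * N := Nat.mul_le_mul_right N (by omega)
      omega
    · intro h1
      have : (a + 1) * N ≤ k * N := Nat.mul_le_mul_right N h1
      rw [add_mul, one_mul] at this
      omega
  rw [e] at h
  exact h

/-- position 0 of a vector = bit r of the number -/
theorem bt_pos0 (x : ℕ) : bt N x 0 r = x.testBit r := by
  unfold bt
  rw [Nat.zero_mul, Nat.zero_add]

theorem bt_blk (hr : r < N) (V j : ℕ) : bt N (blk N (onesv N 1) V j) 0 r = bt N V j r := by
  unfold blk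
  rw [bt_land, bt_onesv hr, bt_shr, Nat.zero_add]
  simp

theorem testBit_blk (hr : r < N) (V j : ℕ) : (blk N (onesv N 1) V j).testBit r = bt N V j r := by
  rw [← bt_pos0 (N := N), bt_blk hr]

/-- blocks are N-bit numbers -/
theorem blk_lt (N V j : ℕ) : blk N (onesv N 1) V j < 2 ^ N := by
  unfold blk onesv
  have h := Nat.and_le_left (n := 2 ^ (1 * N) - 1) (m := V >>> (j * N))
  have h2 : 0 < 2 ^ N := Nat.two_pow_pos N
  rw [one_mul] at h
  have h3 : Nat.land (Nat.sub (Nat.pow 2 (Nat.mul 1 N)) 1) (Nat.shiftRight V (Nat.mul j N)) ≤ 2 ^ N - 1 := by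
    have e : Nat.mul 1 N = N := Nat.one_mul N
    rw [e]
    exact h
  omega

theorem testBit_onesv (hr : r < N) : (onesv N 1).testBit r = true := by
  rw [← bt_pos0 (N := N), bt_onesv hr]
  rfl

/-- a number below 2^N has only the position 0 -/
theorem bt_of_lt {x : ℕ} (hx : x < 2 ^ N) (a : ℕ) : bt N x a r = (decide (a = 0) && x.testBit r) := by
  rcases Nat.eq_zero_or_pos a with rfl | ha
  · rw [bt_pos0]
    simp
  · have h : x.testBit (a * N + r) = false := by
      apply Nat.testBit_lt_two_pow
      refine lt_of_lt_of_le hx (Nat.pow_le_pow_right (by norm_num) ?_)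
      calc N = 1 * N := (Nat.one_mul N).symm
        _ ≤ a * N := Nat.mul_le_mul_right N ha
        _ ≤ a * N + r := Nat.le_add_right _ _
    unfold bt
    rw [h]
    have : ¬ (a = 0) := by omega
    simp [this]

end Pool.Agent.SQF4.Eng
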