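import Pool.Agent.SQF4.Sem

/-!
MISMATCH VECTORS AND LETTER VECTORS. Unfold xvec, letv; use bt_land, bt_lor, bt_xor, bt_shr, bt_onesv (S1), code_inj;
uZ N H L r (a : ℤ) = uN N H L r a by Int.toNat_natCast (and for (a : ℤ) + s write it as ((a + s : ℕ) : ℤ)).
-/

set_option autoImplicit false

namespace Pool.Agent.SQF4.Eng

variable {N r : ℕ}

theorem uZ_nat (N H L r a : ℕ) : uZ N H L r (a : ℤ) = uN N H L r a := by
  unfold uZ
  rw [Int.toNat_natCast]

theorem xvec_spec (hr : r < N) (n H L s : ℕ) : XS N n (uZ N H L r) r s (xvec N n H L s) := by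
  intro a
  have e : ((a : ℤ) + (s : ℤ)) = ((a + s : ℕ) : ℤ) := by
    rw [Nat.cast_add]
  rw [e, uZ_nat, uZ_nat]
  unfold xvec
  rw [bt_land, bt_lor, bt_xor, bt_xor, bt_shr, bt_shr, bt_onesv hr]
  have h1 : a < Nat.sub n s ↔ a + s < n := by
    have : Nat.sub n s = n - s := rfl
    rw [this]
    omega
  unfold uN
  by_cases h2 : a + s < n
  · have h3 : decide (a < Nat.sub n s) = true := decide_eq_true (h1.2 h2)
    rw [h3]
    cases bt N H a r <;> cases bt N H (a + s) r <;> cases bt N L a r <;> cases bt N L (a + s) r <;>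
      simp [h2, code]
  · have h3 : decide (a < Nat.sub n s) = false := decide_eq_false (fun h => h2 (h1.1 h))
    rw [h3]
    simp [h2]

theorem xvecs_len (N n H L k s : ℕ) : (xvecs N n H L k s).length = k := by
  induction k generalizing s with
  | zero => rfl
  | succ k ih =>
    show (xvec N n H L s :: xvecs N n H L k (Nat.succ s)).length = k + 1
    rw [List.length_cons, ih]

theorem xvecs_getD (N n H L k s j : ℕ) (hj : j < k) : (xvecs N n H L k s).getD j 0 = xvec N n H L (s + j) := by
  induction k generalizing s j with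
  | zero => exact absurd hj (Nat.not_lt_zero _)
  | succ k ih =>
    show (xvec N n H L s :: xvecs N n H L k (Nat.succ s)).getD j 0 = xvec N n H L (s + j)
    cases j with
    | zero => rfl
    | succ j =>
      rw [List.getD_cons_succ, ih (Nat.succ s) j (Nat.lt_of_succ_lt_succ hj)]
      have e : Nat.succ s + j = s + (j + 1) := by omega
      rw [e]

theorem letv_spec (hr : r < N) (n H L : ℕ) (hH : Clean N n H r) (hL : Clean N n L r) :
    LS N n (uZ N H L r) r (letv N n H L) := by
  refine ⟨rfl, ?_⟩
  intro l a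
  rw [uZ_nat]
  unfold uN
  have e0 : (letv N n H L).getD ((0 : Fin 4) : ℕ) 0 = Nat.xor (onesv N n) (Nat.lor H L) := rfl
  have e1 : (letv N n H L).getD ((1 : Fin 4) : ℕ) 0 = andn L H := rfl
  have e2 : (letv N n H L).getD ((2 : Fin 4) : ℕ) 0 = andn H L := rfl
  have e3 : (letv N n H L).getD ((3 : Fin 4) : ℕ) 0 = Nat.land H L := rfl
  have key : ∀ l : Fin 4, l = 0 ∨ l = 1 ∨ l = 2 ∨ l = 3 := by decide
  by_cases ha : a < n
  · have hd : decide (a < n) = true := decide_eq_true ha
    rcases key l with rfl | rfl | rfl | rfl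
    · rw [e0, bt_xor, bt_lor, bt_onesv hr, hd]
      cases bt N H a r <;> cases bt N L a r <;> simp [ha, code]
    · rw [e1, bt_andn]
      cases bt N H a r <;> cases bt N L a r <;> simp [ha, code]
    · rw [e2, bt_andn]
      cases bt N H a r <;> cases bt N L a r <;> simp [ha, code]
    · rw [e3, bt_land]
      cases bt N H a r <;> cases bt N L a r <;> simp [ha, code]
  · have hd : decide (a < n) = false := decide_eq_false ha
    have h1 := hH a (Nat.le_of_not_lt ha)
    have h2 := hL a (Nat.le_of_not_lt ha)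
    rcases key l with rfl | rfl | rfl | rfl
    · rw [e0, bt_xor, bt_lor, bt_onesv hr, hd, h1, h2]
      simp [ha]
    · rw [e1, bt_andn, h1, h2]
      simp [ha]
    · rw [e2, bt_andn, h1, h2]
      simp [ha]
    · rw [e3, bt_land, h1, h2]
      simp [ha]

end Pool.Agent.SQF4.Eng
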