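import Pool.Agent.SQF4.S3L
import Pool.Agent.SQF4.S2
import Pool.Agent.SQF4.E2

/-!
GROWTH: the four children of every row. Row q * N + r of the packed vectors with stride 4 N is the child q of the row r.
quad: c * rep4 N for an N-bit number c repeats c four times (bits q * N + r, disjoint summands: use Nat.testBit of a sum of
shifted numbers, or show c * rep4 N = c ||| c <<< N ||| c <<< 2N ||| c <<< 3N by Nat.two_pow_add_eq_or_of_lt).
horner_spec (S3L) with stride 4 N: the entries have bits only at the position 0. newH N = 2^(4N) - 2^(2N) has exactly the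
bits [2N, 4N); newLo: bits [N, 2N) and [3N, 4N).
-/

set_option autoImplicit false

namespace Pool.Agent.SQF4.Eng

variable {N r : ℕ}

theorem unpk_len (N m1 k x : ℕ) : (unpk N m1 k x).length = k := by

  induction k generalizing x with
  | zero => rfl
  | succ k ih =>
    show (Nat.land x m1 :: unpk N m1 k (Nat.shiftRight x N)).length = k + 1
    rw [List.length_cons, ih]

theorem unpk_bit (hr : r < N) (k x a : ℕ) (ha : a < k) :
    ((unpk N (onesv N 1) k x).getD a 0).testBit r = bt N x a r := by

  induction a generalizing k x with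
  | zero =>
    obtain ⟨k', rfl⟩ : ∃ k', k = k' + 1 := ⟨k - 1, by omega⟩
    show (Nat.land x (onesv N 1)).testBit r = bt N x 0 r
    rw [← bt_pos0 (N := N), bt_land, bt_onesv hr]
    simp
  | succ a ih =>
    obtain ⟨k', rfl⟩ : ∃ k', k = k' + 1 := ⟨k - 1, by omega⟩
    show ((Nat.land x (onesv N 1) :: unpk N (onesv N 1) k' (Nat.shiftRight x N)).getD (a + 1) 0).testBit r = _
    rw [List.getD_cons_succ, ih k' (Nat.shiftRight x N) (by omega), bt_shr1]

theorem unpk_lt (k x a : ℕ) : (unpk N (onesv N 1) k x).getD a 0 < 2 ^ N := by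

  induction a generalizing k x with
  | zero =>
    cases k with
    | zero => exact Nat.two_pow_pos N
    | succ k' =>
      show Nat.land x (onesv N 1) < 2 ^ N
      have h := Nat.and_le_right (n := x) (m := onesv N 1)
      have h2 : Nat.land x (onesv N 1) ≤ onesv N 1 := h
      have h3 : onesv N 1 = 2 ^ N - 1 := by
        unfold onesv
        have e : Nat.mul 1 N = N := Nat.one_mul N
        rw [e]
        rfl
      have h4 : 0 < 2 ^ N := Nat.two_pow_pos N
      omega
  | succ a ih =>
    cases k with
    | zero => exact Nat.two_pow_pos N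
    | succ k' =>
      show (Nat.land x (onesv N 1) :: unpk N (onesv N 1) k' (Nat.shiftRight x N)).getD (a + 1) 0 < 2 ^ N
      rw [List.getD_cons_succ]
      exact ih k' _

theorem anyv_bit (k x : ℕ) : (anyv N k x).testBit r = true ↔ ∃ j, j < k ∧ bt N x j r = true := by

  induction k generalizing x with
  | zero =>
    show (0 : ℕ).testBit r = true ↔ _
    simp
  | succ k ih =>
    show (Nat.lor x (anyv N k (Nat.shiftRight x N))).testBit r = true ↔ _
    have e : (Nat.lor x (anyv N k (Nat.shiftRight x N))).testBit r =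
        (x.testBit r || (anyv N k (Nat.shiftRight x N)).testBit r) := Nat.testBit_lor _ _ _
    rw [e, Bool.or_eq_true, ih]
    constructor
    · rintro (h | ⟨j, hj, h⟩)
      · exact ⟨0, by omega, by rw [bt_pos0]; exact h⟩
      · rw [bt_shr1] at h
        exact ⟨j + 1, by omega, h⟩
    · rintro ⟨j, hj, h⟩
      cases j with
      | zero =>
        left
        rw [bt_pos0] at h
        exact h
      | succ j =>
        right
        refine ⟨j, by omega, ?_⟩
        rw [bt_shr1]
        exact h

/-- horner of a list of numbers with at most N bits -/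
theorem horner_get (hr : r < N) (l : List ℕ) (hl : ∀ x ∈ l, x < 2 ^ N) (a : ℕ) :
    bt N (horner N l) a r = (l.getD a 0).testBit r := by

  induction l generalizing a with
  | nil =>
    show bt N 0 a r = _
    rw [bt_zero]
    simp
  | cons o os ih =>
    show bt N (Nat.lor o (Nat.shiftLeft (horner N os) N)) a r = _
    rw [bt_lor, bt_shl1 hr, bt_of_lt (hl o (List.mem_cons_self))]
    cases a with
    | zero =>
      rw [List.getD_cons_zero]
      simp
    | succ a =>
      rw [List.getD_cons_succ]
      have e : a + 1 - 1 = a := by omega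
      rw [e, ih (fun x hx => hl x (List.mem_cons_of_mem _ hx)) a]
      simp

/-- 1 + X + ... + X^(k-1), X = 2^N, by recursion -/
private def geo (N : ℕ) : ℕ → ℕ
  | 0 => 0
  | k + 1 => 2 ^ N * geo N k + 1

private theorem geo_bit {N r : ℕ} (hr : r < N) (c : ℕ) (hc : c < 2 ^ N) : ∀ (k q : ℕ), q < k →
    (c * geo N k).testBit (q * N + r) = c.testBit r := by
  intro k
  induction k with
  | zero => intro q hq; omega
  | succ k ih =>
    intro q hq
    have e : c * geo N (k + 1) = 2 ^ N * (c * geo N k) + c := by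
      show c * (2 ^ N * geo N k + 1) = _
      ring
    rw [e, Nat.testBit_two_pow_mul_add _ hc]
    cases q with
    | zero =>
      rw [if_pos (by omega), Nat.zero_mul, Nat.zero_add]
    | succ q =>
      have h1 : (q + 1) * N + r = N + (q * N + r) := by ring
      rw [h1, if_neg (by omega), Nat.add_sub_cancel_left]
      exact ih q (by omega)

private theorem geo_lt {N : ℕ} (c : ℕ) (hc : c < 2 ^ N) : ∀ k : ℕ, c * geo N k < 2 ^ (k * N) := by
  intro k
  induction k with
  | zero =>
    show c * 0 < 2 ^ (0 * N)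
    simp
  | succ k ih =>
    have e : c * geo N (k + 1) = 2 ^ N * (c * geo N k) + c := by
      show c * (2 ^ N * geo N k + 1) = _
      ring
    rw [e]
    have e2 : 2 ^ ((k + 1) * N) = 2 ^ N * 2 ^ (k * N) := by
      rw [← pow_add]
      congr 1
      ring
    rw [e2]
    calc 2 ^ N * (c * geo N k) + c < 2 ^ N * (c * geo N k) + 2 ^ N := by omega
      _ = 2 ^ N * (c * geo N k + 1) := by ring
      _ ≤ 2 ^ N * 2 ^ (k * N) := Nat.mul_le_mul_left _ ih

private theorem rep4_geo (N : ℕ) : rep4 N = geo N 4 := by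
  show 1 + (2 ^ N + (2 ^ (2 * N) + 2 ^ (3 * N))) = 2 ^ N * (2 ^ N * (2 ^ N * (2 ^ N * 0 + 1) + 1) + 1) + 1
  have e2 : 2 ^ (2 * N) = 2 ^ N * 2 ^ N := by
    rw [← pow_add]
    congr 1
    ring
  have e3 : 2 ^ (3 * N) = 2 ^ N * 2 ^ N * 2 ^ N := by
    rw [← pow_add, ← pow_add]
    congr 1
    ring
  rw [e2, e3]
  ring

theorem rep4_bit (c q : ℕ) (hc : c < 2 ^ N) (hr : r < N) (hq : q < 4) :
    (c * rep4 N).testBit (q * N + r) = c.testBit r := by

  rw [rep4_geo]
  exact geo_bit hr c hc 4 q hq

theorem rep4_lt (c : ℕ) (hc : c < 2 ^ N) : c * rep4 N < 2 ^ (4 * N) := by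

  rw [rep4_geo]
  exact geo_lt c hc 4

private theorem newH_eq (N : ℕ) : newH N = 2 ^ (2 * N) * (2 ^ (2 * N) - 1) := by
  show 2 ^ (4 * N) - 2 ^ (2 * N) = _
  have e : 2 ^ (4 * N) = 2 ^ (2 * N) * 2 ^ (2 * N) := by
    rw [← pow_add]
    congr 1
    ring
  rw [e, Nat.mul_sub, Nat.mul_one]

theorem newH_bit (q : ℕ) (hr : r < N) (hq : q < 4) : (newH N).testBit (q * N + r) = decide (2 ≤ q) := by

  rw [newH_eq, Nat.testBit_two_pow_mul, Nat.testBit_two_pow_sub_one]
  have hq4 : (q + 1) * N ≤ 4 * N := Nat.mul_le_mul_right N hq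
  rw [add_mul, one_mul] at hq4
  by_cases h2 : 2 ≤ q
  · have h3 : 2 * N ≤ q * N := Nat.mul_le_mul_right N h2
    have e1 : decide (q * N + r ≥ 2 * N) = true := decide_eq_true (by omega)
    have e2 : decide (q * N + r - 2 * N < 2 * N) = true := decide_eq_true (by omega)
    have e3 : decide (2 ≤ q) = true := decide_eq_true h2
    rw [e1, e2, e3]
    rfl
  · have h3 : (q + 1) * N ≤ 2 * N := Nat.mul_le_mul_right N (by omega)
    rw [add_mul, one_mul] at h3
    have e1 : decide (q * N + r ≥ 2 * N) = false := decide_eq_false (by omega)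
    have e3 : decide (2 ≤ q) = false := decide_eq_false h2
    rw [e1, e3]
    rfl

theorem newH_lt (N : ℕ) : newH N < 2 ^ (4 * N) := by

  rw [newH_eq]
  have e : 2 ^ (4 * N) = 2 ^ (2 * N) * 2 ^ (2 * N) := by
    rw [← pow_add]
    congr 1
    ring
  rw [e]
  have h : 0 < 2 ^ (2 * N) := Nat.two_pow_pos _
  exact Nat.mul_lt_mul_of_pos_left (by omega) h

theorem newLo_bit (q : ℕ) (hr : r < N) (hq : q < 4) :
    (newLo N (onesv N 1)).testBit (q * N + r) = decide (q = 1 ∨ q = 3) := by

  have e : (newLo N (onesv N 1)).testBit (q * N + r) = bt N (newLo N (onesv N 1)) q r := rfl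
  rw [e]
  unfold newLo
  rw [bt_lor, bt_shl1 hr, bt_shl hr, bt_onesv hr, bt_onesv hr]
  have hc : q = 0 ∨ q = 1 ∨ q = 2 ∨ q = 3 := by omega
  rcases hc with rfl | rfl | rfl | rfl <;> rfl

theorem newLo_lt (N : ℕ) : newLo N (onesv N 1) < 2 ^ (4 * N) := by

  have h1 : onesv N 1 < 2 ^ N := by
    unfold onesv
    have e : Nat.mul 1 N = N := Nat.one_mul N
    rw [e]
    have h4 : 0 < 2 ^ N := Nat.two_pow_pos N
    show 2 ^ N - 1 < 2 ^ N
    omega
  have key : ∀ k : ℕ, k ≤ 3 → Nat.shiftLeft (onesv N 1) (k * N) < 2 ^ (4 * N) := by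
    intro k hk
    have e : Nat.shiftLeft (onesv N 1) (k * N) = onesv N 1 * 2 ^ (k * N) := Nat.shiftLeft_eq _ _
    rw [e]
    calc onesv N 1 * 2 ^ (k * N) < 2 ^ N * 2 ^ (k * N) := Nat.mul_lt_mul_of_pos_right h1 (Nat.two_pow_pos _)
      _ = 2 ^ ((k + 1) * N) := by
        rw [← pow_add]
        congr 1
        ring
      _ ≤ 2 ^ (4 * N) := Nat.pow_le_pow_right (by norm_num) (Nat.mul_le_mul_right N (by omega))
  have h2 := key 1 (by norm_num)
  rw [one_mul] at h2
  have h3 := key 3 (by norm_num)
  unfold newLo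
  exact Nat.or_lt_two_pow h2 h3

private theorem quad_len (N m1 n x : ℕ) : (quad N m1 n x).length = n := by
  unfold quad
  rw [List.length_map, unpk_len]

private theorem quad_lt {n x : ℕ} : ∀ y ∈ quad N (onesv N 1) n x, y < 2 ^ (4 * N) := by
  intro y hy
  unfold quad at hy
  rw [List.mem_map] at hy
  obtain ⟨c, hc, rfl⟩ := hy
  apply rep4_lt
  obtain ⟨i, hi, hi2⟩ := List.getElem_of_mem hc
  have h := unpk_lt (N := N) n x i
  rw [List.getD_eq_getElem _ _ hi, hi2] at h
  exact h

private theorem quad_get (hr : r < N) {n x a q : ℕ} (hq : q < 4) (ha : a < n) :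
    ((quad N (onesv N 1) n x).getD a 0).testBit (q * N + r) = bt N x a r := by
  unfold quad
  have hlen : a < ((unpk N (onesv N 1) n x).map (fun c => Nat.mul c (rep4 N))).length := by
    rw [List.length_map, unpk_len]
    exact ha
  rw [List.getD_eq_getElem _ _ hlen, List.getElem_map]
  have hlen2 : a < (unpk N (onesv N 1) n x).length := by
    rw [unpk_len]
    exact ha
  have h1 := unpk_lt (N := N) n x a
  have h2 := unpk_bit hr n x a ha
  rw [List.getD_eq_getElem _ _ hlen2] at h1 h2
  rw [← h2]
  exact rep4_bit _ q h1 hr hq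

/-- the packed vectors of the children, growth on the right (x = H, w = newH N; x = L, w = newLo N m1) -/
theorem quadR_bit (hr : r < N) (n x w a q : ℕ) (hq : q < 4) (hw : w < 2 ^ (4 * N)) (ha : a ≤ n) :
    bt (4 * N) (horner (4 * N) (List.append (quad N (onesv N 1) n x) [w])) a (q * N + r) =
      if a < n then bt N x a r else w.testBit (q * N + r) := by

  have hq4 : (q + 1) * N ≤ 4 * N := Nat.mul_le_mul_right N hq
  rw [add_mul, one_mul] at hq4
  rw [horner_get (N := 4 * N) (r := q * N + r) (by omega)]
  · have e : List.append (quad N (onesv N 1) n x) [w] = quad N (onesv N 1) n x ++ [w] := rfl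
    rw [e]
    split_ifs with h
    · rw [List.getD_append _ _ _ _ (by rw [quad_len]; exact h)]
      exact quad_get hr hq h
    · have ha2 : a = n := by omega
      rw [List.getD_append_right _ _ _ _ (by rw [quad_len]; omega), quad_len, ha2, Nat.sub_self]
      rfl
  · intro y hy
    have e : List.append (quad N (onesv N 1) n x) [w] = quad N (onesv N 1) n x ++ [w] := rfl
    rw [e, List.mem_append] at hy
    rcases hy with hy | hy
    · exact quad_lt y hy
    · rw [List.mem_singleton] at hy
      rw [hy]
      exact hw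

theorem quadL_bit (hr : r < N) (n x w a q : ℕ) (hq : q < 4) (hw : w < 2 ^ (4 * N)) (ha : a ≤ n) :
    bt (4 * N) (horner (4 * N) (w :: quad N (onesv N 1) n x)) a (q * N + r) =
      if a = 0 then w.testBit (q * N + r) else bt N x (a - 1) r := by

  have hq4 : (q + 1) * N ≤ 4 * N := Nat.mul_le_mul_right N hq
  rw [add_mul, one_mul] at hq4
  rw [horner_get (N := 4 * N) (r := q * N + r) (by omega)]
  · cases a with
    | zero =>
      rw [List.getD_cons_zero, if_pos rfl]
    | succ a =>
      rw [List.getD_cons_succ, if_neg (by omega), Nat.add_sub_cancel]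
      exact quad_get hr hq (by omega)
  · intro y hy
    rw [List.mem_cons] at hy
    rcases hy with hy | hy
    · rw [hy]
      exact hw
    · exact quad_lt y hy

/-- a forbidden letter on the right gives a square -/
theorem forbR_sound (hr : r < N) {n l : ℕ} {u : ℤ → Fin 4} {q : Fin 4}
    (hl : ∀ a : ℕ, bt N l a r = true → u a = q) (m s : ℕ) (hs : 1 ≤ s) (hm : 2 * (s + m) ≤ n + 3) (xs : List ℕ)
    (hxs : ∀ j, j < xs.length → XS N n u r (s + j) (xs.getD j 0))
    (h : (forbR N n (onesv N 1) l m s xs).testBit r = true) :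
    ∃ p : ℕ, 1 ≤ p ∧ 2 * p ≤ n + 1 ∧ (∀ i : ℕ, n + 1 ≤ i + 2 * p → i + p < n → u (i : ℤ) = u ((i : ℤ) + p)) ∧
      u ((n : ℤ) - p) = q := by

  induction m generalizing s xs with
  | zero =>
    have e : forbR N n (onesv N 1) l 0 s xs = 0 := rfl
    rw [e] at h
    simp at h
  | succ m ih =>
    cases xs with
    | nil =>
      have e : forbR N n (onesv N 1) l (m + 1) s [] = 0 := rfl
      rw [e] at h
      simp at h
    | cons x xs =>
      have e : forbR N n (onesv N 1) l (m + 1) s (x :: xs) =
        Nat.lor (Nat.land (andn (onesv N 1) (anyv N (Nat.sub s 1)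
          (Nat.shiftRight x (Nat.mul (Nat.sub (Nat.succ n) (Nat.mul 2 s)) N))))
          (Nat.shiftRight l (Nat.mul (Nat.sub n s) N))) (forbR N n (onesv N 1) l m (Nat.succ s) xs) := rfl
      rw [e, ← bt_pos0 (N := N), bt_lor, Bool.or_eq_true] at h
      rcases h with h | h
      · rw [bt_land, bt_andn, bt_shr, bt_pos0, bt_pos0, Bool.and_eq_true, Bool.and_eq_true] at h
        obtain ⟨⟨-, h1⟩, h2⟩ := h
        rw [Nat.zero_add] at h2
        have hs2 : 2 * s ≤ n + 1 := by omega
        have e1 : Nat.sub n s = n - s := rfl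
        rw [e1] at h2
        refine ⟨s, hs, hs2, ?_, ?_⟩
        · intro i hi1 hi2
          by_contra hne
          have h3 : (anyv N (Nat.sub s 1) (Nat.shiftRight x (Nat.mul (Nat.sub (Nat.succ n) (Nat.mul 2 s)) N))).testBit r
              = true := by
            rw [anyv_bit]
            have e2 : Nat.sub s 1 = s - 1 := rfl
            have e3 : Nat.sub (Nat.succ n) (Nat.mul 2 s) = n + 1 - 2 * s := rfl
            refine ⟨i - (n + 1 - 2 * s), by rw [e2]; omega, ?_⟩
            rw [bt_shr, e3]
            have e4 : i - (n + 1 - 2 * s) + (n + 1 - 2 * s) = i := by omega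
            rw [e4]
            have h4 := hxs 0 (by simp)
            rw [List.getD_cons_zero, Nat.add_zero] at h4
            exact (h4 i).2 ⟨hi2, hne⟩
          rw [h3] at h1
          simp at h1
        · have h3 := hl _ h2
          have e2 : ((n - s : ℕ) : ℤ) = (n : ℤ) - s := by omega
          rw [e2] at h3
          exact h3
      · rw [bt_pos0] at h
        refine ih (Nat.succ s) (by omega) (by omega) xs (fun j hj => ?_) h
        have h4 := hxs (j + 1) (by simp; omega)
        rw [List.getD_cons_succ] at h4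
        have e2 : Nat.succ s + j = s + (j + 1) := by omega
        rw [e2]
        exact h4

/-- a forbidden letter on the left gives a square -/
theorem forbL_sound (hr : r < N) {n l : ℕ} {u : ℤ → Fin 4} {q : Fin 4}
    (hl : ∀ a : ℕ, bt N l a r = true → u a = q) (m s : ℕ) (hs : 1 ≤ s) (hm : 2 * (s + m) ≤ n + 3) (xs : List ℕ)
    (hxs : ∀ j, j < xs.length → XS N n u r (s + j) (xs.getD j 0))
    (h : (forbL N n (onesv N 1) l m s xs).testBit r = true) :
    ∃ p : ℕ, 1 ≤ p ∧ 2 * p ≤ n + 1 ∧ (∀ i : ℕ, i + 1 < p → u (i : ℤ) = u ((i : ℤ) + p)) ∧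
      u ((p : ℤ) - 1) = q := by

  induction m generalizing s xs with
  | zero =>
    have e : forbL N n (onesv N 1) l 0 s xs = 0 := rfl
    rw [e] at h
    simp at h
  | succ m ih =>
    cases xs with
    | nil =>
      have e : forbL N n (onesv N 1) l (m + 1) s [] = 0 := rfl
      rw [e] at h
      simp at h
    | cons x xs =>
      have e : forbL N n (onesv N 1) l (m + 1) s (x :: xs) =
        Nat.lor (Nat.land (andn (onesv N 1) (anyv N (Nat.sub s 1) x))
          (Nat.shiftRight l (Nat.mul (Nat.sub s 1) N))) (forbL N n (onesv N 1) l m (Nat.succ s) xs) := rfl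
      rw [e, ← bt_pos0 (N := N), bt_lor, Bool.or_eq_true] at h
      rcases h with h | h
      · rw [bt_land, bt_andn, bt_shr, bt_pos0, bt_pos0, Bool.and_eq_true, Bool.and_eq_true] at h
        obtain ⟨⟨-, h1⟩, h2⟩ := h
        rw [Nat.zero_add] at h2
        have hs2 : 2 * s ≤ n + 1 := by omega
        have e1 : Nat.sub s 1 = s - 1 := rfl
        rw [e1] at h2
        refine ⟨s, hs, hs2, ?_, ?_⟩
        · intro i hi1
          by_contra hne
          have h3 : (anyv N (Nat.sub s 1) x).testBit r = true := by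
            rw [anyv_bit]
            have e2 : Nat.sub s 1 = s - 1 := rfl
            refine ⟨i, by rw [e2]; omega, ?_⟩
            have h4 := hxs 0 (by simp)
            rw [List.getD_cons_zero, Nat.add_zero] at h4
            exact (h4 i).2 ⟨by omega, hne⟩
          rw [h3] at h1
          simp at h1
        · have h3 := hl _ h2
          have e2 : ((s - 1 : ℕ) : ℤ) = (s : ℤ) - 1 := by omega
          rw [e2] at h3
          exact h3
      · rw [bt_pos0] at h
        refine ih (Nat.succ s) (by omega) (by omega) xs (fun j hj => ?_) h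
        have h4 := hxs (j + 1) (by simp; omega)
        rw [List.getD_cons_succ] at h4
        have e2 : Nat.succ s + j = s + (j + 1) := by omega
        rw [e2]
        exact h4

end Pool.Agent.SQF4.Eng
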