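import Pool.Agent.SQF4.S10

/-!
COMPACTION. cstep w j N s: the live rows selected by the mask mp = onesv N 1 &&& parp w 1 zm (its meaning does not
matter) move down by s rows. Invariant: live has no bits ≥ N. lm = live & mp, lst = live & not mp, lm' = lm >> s;
c.ok contains lm' & lst = 0 and lm' << s = lm (no bit of lm below s). repm j N x (x < 2^N) has the bit (a, r) = bit r of x
for a < 2^j. So for a row ρ < N with bit ρ of lm': new H (a, ρ) = (H & LM) (a, ρ + s) [index a N + ρ + s; if ρ + s ≥ N then the
mask bit (a + 1, ρ + s - N) is 0 because lm has no bits below s] = H (a, ρ + s); for bit ρ of lst: the moved part is 0 at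
(a, ρ) because lm' has no bit ρ, so new H (a, ρ) = H (a, ρ). The row contents for a < 2^j are kept.
restr: unpk into N-bit blocks, cut every block to N' bits, horner with stride N'.
-/

set_option autoImplicit false

namespace Pool.Agent.SQF4.Eng

variable {N r : ℕ}

private theorem repm_aux (hr : r < N) (X : Bool) : ∀ (j k y : ℕ), (∀ a, bt N y a r = (decide (a < k) && X)) →
    ∀ a, bt N (repm j (k * N) y) a r = (decide (a < 2 ^ j * k) && X) := by
  intro j
  induction j with
  | zero =>
    intro k y hy a
    show bt N y a r = _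
    rw [hy a, pow_zero, one_mul]
  | succ j ih =>
    intro k y hy a
    have e : repm (j + 1) (k * N) y = repm j ((2 * k) * N) (Nat.lor y (Nat.shiftLeft y (k * N))) := by
      have e1 : (2 * k) * N = 2 * (k * N) := by ring
      rw [e1]
      rfl
    rw [e]
    have h := ih (2 * k) (Nat.lor y (Nat.shiftLeft y (k * N))) (fun a => by
      have h2 := bt_shl hr y k a
      have h3 : bt N (Nat.shiftLeft y (k * N)) a r = (decide (k ≤ a) && bt N y (a - k) r) := h2
      rw [bt_lor, hy a, h3, hy (a - k)]
      cases X
      · simp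
      · simp only [Bool.and_true]
        by_cases c1 : a < k
        · have c2 : a < 2 * k := by omega
          simp [c1, c2]
        · by_cases c2 : a < 2 * k
          · have c3 : k ≤ a := by omega
            have c4 : a - k < k := by omega
            simp [c2, c3, c4]
          · have c4 : ¬ (a - k < k) := by omega
            simp [c1, c2, c4]) a
    rw [h]
    have e2 : 2 ^ j * (2 * k) = 2 ^ (j + 1) * k := by ring
    rw [e2]

/-- bits of the repeated mask -/
theorem repm_bit (hr : r < N) (j x a : ℕ) (hx : x < 2 ^ N) :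
    bt N (repm j N x) a r = (decide (a < 2 ^ j) && x.testBit r) := by
  have h := repm_aux hr (x.testBit r) j 1 x (fun a => by
    rw [bt_of_lt hx]
    congr 1
    rw [decide_eq_decide]
    omega) a
  rw [one_mul, mul_one] at h
  exact h

private theorem tb_land (x y i : ℕ) : (Nat.land x y).testBit i = (x.testBit i && y.testBit i) := Nat.testBit_land x y i
private theorem tb_lor (x y i : ℕ) : (Nat.lor x y).testBit i = (x.testBit i || y.testBit i) := Nat.testBit_lor x y i
private theorem tb_shr (x k i : ℕ) : (Nat.shiftRight x k).testBit i = x.testBit (k + i) := Nat.testBit_shiftRight x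
private theorem tb_shl (x k i : ℕ) : (Nat.shiftLeft x k).testBit i = (decide (k ≤ i) && x.testBit (i - k)) := by
  have h := Nat.testBit_shiftLeft (i := k) (j := i) x
  exact h

private theorem tb_andn (x y i : ℕ) : (andn x y).testBit i = (x.testBit i && !y.testBit i) := by
  have h := bt_andn (N := 1) (r := 0) x y i
  unfold bt at h
  rw [Nat.mul_one, Nat.add_zero] at h
  exact h

private theorem lt_of_bits {x : ℕ} (h : ∀ i, N ≤ i → x.testBit i = false) : x < 2 ^ N := by
  apply Nat.lt_pow_two_of_testBit
  exact h

/-- contents of a row after moving -/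
private theorem move_aux {s j live lm lst V : ℕ} (hlm : lm < 2 ^ N) (hlst : lst < 2 ^ N)
    (h0 : Nat.land (Nat.shiftRight lm s) lst = 0) (h1 : Nat.shiftLeft (Nat.shiftRight lm s) s = lm)
    (hl : ∀ i, live = i → True) :
    (∀ r, r < N → lm.testBit r = true → s ≤ r ∧ (Nat.shiftRight lm s).testBit (r - s) = true ∧ ∀ a, a < 2 ^ j →
      bt N (Nat.lor (Nat.shiftRight (Nat.land V (repm j N lm)) s) (Nat.land V (repm j N lst))) a (r - s) = bt N V a r) ∧
    (∀ r, r < N → lst.testBit r = true → ∀ a, a < 2 ^ j →
      bt N (Nat.lor (Nat.shiftRight (Nat.land V (repm j N lm)) s) (Nat.land V (repm j N lst))) a r = bt N V a r) := by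
  have hmin : ∀ r, lm.testBit r = true → s ≤ r ∧ (Nat.shiftRight lm s).testBit (r - s) = true := by
    intro r hr
    rw [← h1, tb_shl, Bool.and_eq_true, decide_eq_true_eq] at hr
    exact hr
  have hcol : ∀ r, (Nat.shiftRight lm s).testBit r = true → lst.testBit r = false := by
    intro r hr
    have h2 : (Nat.land (Nat.shiftRight lm s) lst).testBit r = false := by
      rw [h0]
      exact Nat.zero_testBit r
    rw [tb_land, hr] at h2
    simpa using h2
  constructor
  · intro r hr hm
    obtain ⟨hs, hm2⟩ := hmin r hm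
    refine ⟨hs, hm2, fun a ha => ?_⟩
    have h3 := hcol _ hm2
    rw [bt_lor]
    have e1 : bt N (Nat.shiftRight (Nat.land V (repm j N lm)) s) a (r - s) = bt N (Nat.land V (repm j N lm)) a r := by
      unfold bt
      rw [tb_shr]
      congr 1
      omega
    rw [e1, bt_land, bt_land, repm_bit hr _ _ _ hlm, repm_bit (by omega) _ _ _ hlst, hm, h3]
    simp [ha]
  · intro r hr hst a ha
    rw [bt_lor, bt_land, repm_bit hr _ _ _ hlst, hst]
    have e1 : bt N (Nat.shiftRight (Nat.land V (repm j N lm)) s) a r = false := by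
      have hN : 0 < N := by omega
      have e2 : s + (a * N + r) = (a + (r + s) / N) * N + (r + s) % N := by
        have := Nat.div_add_mod (r + s) N
        rw [add_mul]
        rw [mul_comm N] at this
        omega
      have e3 : bt N (Nat.shiftRight (Nat.land V (repm j N lm)) s) a r =
          bt N (Nat.land V (repm j N lm)) (a + (r + s) / N) ((r + s) % N) := by
        unfold bt
        rw [tb_shr, e2]
      rw [e3, bt_land, repm_bit (Nat.mod_lt _ hN) _ _ _ hlm]
      have h4 : lm.testBit ((r + s) % N) = false := by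
        by_contra hne
        have h5 : lm.testBit ((r + s) % N) = true := by
          cases h6 : lm.testBit ((r + s) % N)
          · exact absurd h6 hne
          · rfl
        obtain ⟨h7, h8⟩ := hmin _ h5
        rcases Nat.lt_or_ge (r + s) N with h9 | h9
        · rw [Nat.mod_eq_of_lt h9] at h8
          have e4 : r + s - s = r := by omega
          rw [e4] at h8
          have := hcol _ h8
          rw [hst] at this
          exact absurd this (by simp)
        · have h10 : (r + s) % N ≤ r + s - N := by
            have h11 : (r + s) % N = (r + s - N) % N := by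
              conv_lhs => rw [show r + s = r + s - N + N by omega]
              rw [Nat.add_mod_right]
            rw [h11]
            exact Nat.mod_le _ _
          omega
      rw [h4]
      simp
    rw [e1]
    simp [ha]

/-- one stage -/
theorem cstep_sound (w j s : ℕ) (c : Cst) (hlive : c.live < 2 ^ N) (hok : (cstep w j N s c).ok = true) :
    c.ok = true ∧ (cstep w j N s c).live < 2 ^ N ∧
    ∀ r, r < N → c.live.testBit r = true → ∃ r', r' < N ∧ (cstep w j N s c).live.testBit r' = true ∧
      ∀ a, a < 2 ^ j → bt N (cstep w j N s c).H a r' = bt N c.H a r ∧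
        bt N (cstep w j N s c).L a r' = bt N c.L a r := by
  obtain ⟨mp, hmp⟩ : ∃ mp, mp = Nat.land (onesv N 1) (parp w 1 c.zm) := ⟨_, rfl⟩
  have ec : cstep w j N s c = ⟨Nat.lor (Nat.shiftRight (Nat.land c.live mp) s) (andn c.live mp), andn c.zm mp,
      Nat.lor (Nat.shiftRight (Nat.land c.H (repm j N (Nat.land c.live mp))) s)
        (Nat.land c.H (repm j N (andn c.live mp))),
      Nat.lor (Nat.shiftRight (Nat.land c.L (repm j N (Nat.land c.live mp))) s)
        (Nat.land c.L (repm j N (andn c.live mp))),
      and c.ok (and (Nat.beq (Nat.land (Nat.shiftRight (Nat.land c.live mp) s) (andn c.live mp)) 0)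
        (Nat.beq (Nat.shiftLeft (Nat.shiftRight (Nat.land c.live mp) s) s) (Nat.land c.live mp)))⟩ := by
    rw [hmp]
    rfl
  rw [ec] at hok ⊢
  simp only [Bool.and_eq_true] at hok
  obtain ⟨h1, h2, h3⟩ := hok
  have h2 := Nat.eq_of_beq_eq_true h2
  have h3 := Nat.eq_of_beq_eq_true h3
  have hlm : Nat.land c.live mp < 2 ^ N := lt_of_le_of_lt (Nat.and_le_left) hlive
  have hlst : andn c.live mp < 2 ^ N := by
    apply lt_of_bits
    intro i hi
    rw [tb_andn, Nat.testBit_lt_two_pow (lt_of_lt_of_le hlive (Nat.pow_le_pow_right (by norm_num) hi))]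
    rfl
  have hshr : Nat.shiftRight (Nat.land c.live mp) s < 2 ^ N := by
    apply lt_of_bits
    intro i hi
    rw [tb_shr, Nat.testBit_lt_two_pow (lt_of_lt_of_le hlm (Nat.pow_le_pow_right (by norm_num) (by omega)))]
  refine ⟨h1, Nat.or_lt_two_pow hshr hlst, ?_⟩
  obtain ⟨mH1, mH2⟩ := move_aux (j := j) (live := 0) (V := c.H) hlm hlst h2 h3 (fun _ _ => trivial)
  obtain ⟨mL1, mL2⟩ := move_aux (j := j) (live := 0) (V := c.L) hlm hlst h2 h3 (fun _ _ => trivial)
  intro r hr hliver
  cases hm : mp.testBit r with
  | true =>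
    have h4 : (Nat.land c.live mp).testBit r = true := by rw [tb_land, hliver, hm]; rfl
    obtain ⟨hs, h5, h6⟩ := mH1 r hr h4
    obtain ⟨-, -, h7⟩ := mL1 r hr h4
    refine ⟨r - s, by omega, ?_, fun a ha => ⟨h6 a ha, h7 a ha⟩⟩
    show (Nat.lor (Nat.shiftRight (Nat.land c.live mp) s) (andn c.live mp)).testBit (r - s) = true
    rw [tb_lor, h5]
    rfl
  | false =>
    have h4 : (andn c.live mp).testBit r = true := by rw [tb_andn, hliver, hm]; rfl
    refine ⟨r, hr, ?_, fun a ha => ⟨mH2 r hr h4 a ha, mL2 r hr h4 a ha⟩⟩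
    show (Nat.lor (Nat.shiftRight (Nat.land c.live mp) s) (andn c.live mp)).testBit r = true
    rw [tb_lor, h4]
    simp

theorem csteps_sound (w j k : ℕ) : ∀ (s : ℕ) (c : Cst), c.live < 2 ^ N → (csteps w j N k s c).ok = true →
    c.ok = true ∧ (csteps w j N k s c).live < 2 ^ N ∧
    ∀ r, r < N → c.live.testBit r = true → ∃ r', r' < N ∧ (csteps w j N k s c).live.testBit r' = true ∧
      ∀ a, a < 2 ^ j → bt N (csteps w j N k s c).H a r' = bt N c.H a r ∧
        bt N (csteps w j N k s c).L a r' = bt N c.L a r := by
  induction k with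
  | zero =>
    intro s c hl hok
    exact ⟨hok, hl, fun r hr h => ⟨r, hr, h, fun a _ => ⟨rfl, rfl⟩⟩⟩
  | succ k ih =>
    intro s c hl hok
    have e : csteps w j N (k + 1) s c = csteps w j N k (Nat.mul 2 s) (cstep w j N s c) := rfl
    rw [e] at hok ⊢
    have hl2 : (cstep w j N s c).ok = true → (cstep w j N s c).live < 2 ^ N :=
      fun h => (cstep_sound w j s c hl h).2.1
    -- live stays below 2^N in any case
    have hl3 : (cstep w j N s c).live < 2 ^ N := by
      have e2 : (cstep w j N s c).live = Nat.lor (Nat.shiftRight (Nat.land c.live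
          (Nat.land (onesv N 1) (parp w 1 c.zm))) s) (andn c.live (Nat.land (onesv N 1) (parp w 1 c.zm))) := rfl
      rw [e2]
      apply lt_of_bits
      intro i hi
      have hb : ∀ i, N ≤ i → c.live.testBit i = false := fun i hi =>
        Nat.testBit_lt_two_pow (lt_of_lt_of_le hl (Nat.pow_le_pow_right (by norm_num) hi))
      rw [tb_lor, tb_shr, tb_andn, tb_land, hb i hi, hb (s + i) (by omega)]
      rfl
    obtain ⟨h1, h2, h3⟩ := ih (Nat.mul 2 s) (cstep w j N s c) hl3 hok
    obtain ⟨g1, g2, g3⟩ := cstep_sound w j s c hl h1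
    refine ⟨g1, h2, fun r hr h => ?_⟩
    obtain ⟨r1, a1, a2, a3⟩ := g3 r hr h
    obtain ⟨r2, b1, b2, b3⟩ := h3 r1 a1 a2
    refine ⟨r2, b1, b2, fun a ha => ?_⟩
    exact ⟨(b3 a ha).1.trans (a3 a ha).1, (b3 a ha).2.trans (a3 a ha).2⟩

theorem compact_sound (n live H L : ℕ) (hlive : live < 2 ^ N) (hok : (compact N n live H L).ok = true) :
    ∀ r, r < N → live.testBit r = true → ∃ r', r' < N ∧ (compact N n live H L).live.testBit r' = true ∧
      ∀ a, a < n → bt N (compact N n live H L).H a r' = bt N H a r ∧
        bt N (compact N n live H L).L a r' = bt N L a r := by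
  intro r hr h
  have e : compact N n live H L = csteps (Nat.succ (Nat.log2 N)) (Nat.succ (Nat.log2 n)) N (Nat.succ (Nat.log2 N)) 1
    ⟨live, Nat.land (onesv N 1) (Nat.shiftLeft (andn (onesv N 1) live) 1), H, L, true⟩ := rfl
  rw [e] at hok ⊢
  obtain ⟨-, -, h3⟩ := csteps_sound _ _ _ _ _ (by exact hlive) hok
  obtain ⟨r', a1, a2, a3⟩ := h3 r hr h
  refine ⟨r', a1, a2, fun a ha => ?_⟩
  exact a3 a (lt_trans ha Nat.lt_log2_self)

theorem restr_bit {N' : ℕ} (n x a : ℕ) (hr : r < N) (hr' : r < N') :
    bt N' (restr N n N' x) a r = (decide (a < n) && bt N x a r) := by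
  unfold restr
  rw [horner_get hr']
  · rcases Nat.lt_or_ge a n with ha | ha
    · have hlen : a < ((unpk N (onesv N 1) n x).map (Nat.land (onesv N' 1))).length := by
        rw [List.length_map, unpk_len]
        exact ha
      have hlen2 : a < (unpk N (onesv N 1) n x).length := by
        rw [unpk_len]
        exact ha
      rw [List.getD_eq_getElem _ _ hlen, List.getElem_map, tb_land, testBit_onesv hr']
      have h2 := unpk_bit hr n x a ha
      rw [List.getD_eq_getElem _ _ hlen2] at h2
      rw [h2]
      simp [ha]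
    · rw [List.getD_eq_default _ _ (by rw [List.length_map, unpk_len]; exact ha)]
      have : ¬ (a < n) := by omega
      simp [this]
  · intro y hy
    rw [List.mem_map] at hy
    obtain ⟨z, -, rfl⟩ := hy
    have h := Nat.and_le_left (n := onesv N' 1) (m := z)
    have h2 : onesv N' 1 < 2 ^ N' := by
      unfold onesv
      have e : Nat.mul 1 N' = N' := Nat.one_mul N'
      rw [e]
      have h4 : 0 < 2 ^ N' := Nat.two_pow_pos N'
      show 2 ^ N' - 1 < 2 ^ N'
      omega
    exact lt_of_le_of_lt h h2

/-- rows beyond N are empty -/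
theorem restr_clean {N' : ℕ} (n x a : ℕ) (hr' : r < N') (ha : n ≤ a) : bt N' (restr N n N' x) a r = false := by
  unfold restr
  rw [horner_get hr']
  · rw [List.getD_eq_default _ _ (by rw [List.length_map, unpk_len]; exact ha)]
    exact Nat.zero_testBit r
  · intro y hy
    rw [List.mem_map] at hy
    obtain ⟨z, -, rfl⟩ := hy
    have h := Nat.and_le_left (n := onesv N' 1) (m := z)
    have h2 : onesv N' 1 < 2 ^ N' := by
      unfold onesv
      have e : Nat.mul 1 N' = N' := Nat.one_mul N'
      rw [e]
      have h4 : 0 < 2 ^ N' := Nat.two_pow_pos N'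
      show 2 ^ N' - 1 < 2 ^ N'
      omega
    exact lt_of_le_of_lt h h2

/-- compaction and restriding together -/
theorem pack_sound {N' : ℕ} (n live H L : ℕ) (hlive : live < 2 ^ N) (hok : (compact N n live H L).ok = true)
    (hN' : Nat.shiftRight (compact N n live H L).live N' = 0) :
    ∀ r, r < N → live.testBit r = true → ∃ r', r' < N' ∧
      ∀ a, a < n → bt N' (restr N n N' (compact N n live H L).H) a r' = bt N H a r ∧
        bt N' (restr N n N' (compact N n live H L).L) a r' = bt N L a r := by
  intro r hr h
  obtain ⟨r', a1, a2, a3⟩ := compact_sound n live H L hlive hok r hr h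
  have hr' : r' < N' := by
    by_contra hc
    have h1 : (Nat.shiftRight (compact N n live H L).live N').testBit (r' - N') = true := by
      rw [tb_shr]
      have e : N' + (r' - N') = r' := by omega
      rw [e]
      exact a2
    rw [hN', Nat.zero_testBit] at h1
    exact absurd h1 (by simp)
  refine ⟨r', hr', fun a ha => ?_⟩
  rw [restr_bit n _ a a1 hr', restr_bit n _ a a1 hr', (a3 a ha).1, (a3 a ha).2]
  simp [ha]

end Pool.Agent.SQF4.Eng
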