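import Pool.Agent.SQF4.S12A
import Pool.Agent.SQF4.S10
import Pool.Agent.SQF4.S11

/-!
SOUNDNESS OF A LEVEL.
level_sound: if the row u is not square-free, GoodW holds trivially (the window of a square-free word is square-free). If the
bit r of C is set: goodW_cut. Otherwise the bit r of op = m1 & not C is set. side = true: goodW_right; EndOK from the test
(bit r of C or endT is set); for an extension u' take q = u' n; the bit q * N + r of liveR is set, because otherwise
forbR_sound gives a square of u' (letters: newH, newLo, quadR_bit with H and L, code); pack_sound gives the row r' of the next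
level with the same contents; hnext and goodW_congr. side = false: the same with goodW_left.
-/

set_option autoImplicit false

namespace Pool.Agent.SQF4.Eng

variable {S : ℕ → ℕ → Prop} {Bt : ℕ → ℕ → ℕ} {N n H L : ℕ}

private theorem horner_ge {r : ℕ} (hr : r < N) (l : List ℕ) (a : ℕ) (ha : a < l.length)
    (h : (l.getD a 0).testBit r = true) : bt N (horner N l) a r = true := by
  induction l generalizing a with
  | nil => exact absurd ha (Nat.not_lt_zero _)
  | cons o os ih =>
    show bt N (Nat.lor o (Nat.shiftLeft (horner N os) N)) a r = true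
    rw [bt_lor, bt_shl1 hr]
    cases a with
    | zero =>
      rw [List.getD_cons_zero] at h
      rw [bt_pos0, h]
      rfl
    | succ a =>
      rw [List.getD_cons_succ] at h
      have h2 := ih a (by simpa using ha) h
      have e : a + 1 - 1 = a := by omega
      rw [e, h2]
      simp

private theorem s12_andn (x y i : ℕ) : (andn x y).testBit i = (x.testBit i && !y.testBit i) := by
  have h := bt_andn (N := 1) (r := 0) x y i
  unfold bt at h
  rw [Nat.mul_one, Nat.add_zero] at h
  exact h

private theorem s12_andn_lt {k x y : ℕ} (h : x < 2 ^ k) : andn x y < 2 ^ k := by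
  apply Nat.lt_pow_two_of_testBit
  intro i hi
  rw [s12_andn, Nat.testBit_lt_two_pow (lt_of_lt_of_le h (Nat.pow_le_pow_right (by norm_num) hi))]
  rfl

private theorem s12_onesv_lt (N : ℕ) : onesv N 1 < 2 ^ N := by
  unfold onesv
  have e : Nat.mul 1 N = N := Nat.one_mul N
  rw [e]
  have h4 : 0 < 2 ^ N := Nat.two_pow_pos N
  show 2 ^ N - 1 < 2 ^ N
  omega

private theorem horner_lt (l : List ℕ) (hl : ∀ x ∈ l, x < 2 ^ N) : horner N l < 2 ^ (l.length * N) := by
  induction l with
  | nil =>
    show 0 < _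
    exact Nat.two_pow_pos _
  | cons o os ih =>
    show Nat.lor o (Nat.shiftLeft (horner N os) N) < _
    have h1 := ih (fun x hx => hl x (List.mem_cons_of_mem _ hx))
    have h2 : o < 2 ^ ((o :: os).length * N) := by
      refine lt_of_lt_of_le (hl o (List.mem_cons_self)) (Nat.pow_le_pow_right (by norm_num) ?_)
      rw [List.length_cons, add_mul, one_mul]
      exact Nat.le_add_left _ _
    have h3 : Nat.shiftLeft (horner N os) N < 2 ^ ((o :: os).length * N) := by
      have e : Nat.shiftLeft (horner N os) N = horner N os * 2 ^ N := Nat.shiftLeft_eq _ _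
      have e2 : 2 ^ ((o :: os).length * N) = 2 ^ (os.length * N) * 2 ^ N := by
        rw [← pow_add, List.length_cons, add_mul, one_mul]
      rw [e, e2]
      exact Nat.mul_lt_mul_of_pos_right h1 (Nat.two_pow_pos _)
    exact Nat.or_lt_two_pow h2 h3

private theorem xs_ok {r : ℕ} (hr : r < N) (k j : ℕ) (hj : j < (xvecs N n H L k 1).length) :
    XS N n (uZ N H L r) r (1 + j) ((xvecs N n H L k 1).getD j 0) := by
  rw [xvecs_len] at hj
  rw [xvecs_getD _ _ _ _ _ _ _ hj]
  exact xvec_spec hr n H L (1 + j)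

private theorem map_getD (f : ℕ → ℕ) (l : List ℕ) (a : ℕ) (ha : a < l.length) :
    (l.map f).getD a 0 = f (l.getD a 0) := by
  rw [List.getD_eq_getElem _ _ (by rw [List.length_map]; exact ha), List.getElem_map,
    List.getD_eq_getElem _ _ ha]

/-- the right child q of an open row is live unless it contains a square -/
theorem liveR_bit {A tw pm op : ℕ} {r : ℕ} (hr : r < N) (hH : Clean N n H r) (hL : Clean N n L r) (q : Fin 4)
    (ho : op.testBit r = true) {u' : ℤ → Fin 4} (hu : ∀ i : ℤ, 0 ≤ i → i < n → u' i = uZ N H L r i)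
    (hq : u' n = q) (hsq : SqfOn u' (n + 1)) :
    (liveR (mkLev N n A tw pm H L) op).testBit ((q : ℕ) * N + r) = true := by
  have hLS := letv_spec hr n H L hH hL
  have hql : (q : ℕ) < (letv N n H L).length := by
    rw [hLS.1]
    exact q.2
  have e : liveR (mkLev N n A tw pm H L) op = horner N ((letv N n H L).map
    (fun l => andn op (forbR N n (onesv N 1) l (Nat.div (Nat.succ n) 2) 1 (xvecs N n H L (Nat.succ pm) 1)))) := rfl
  rw [e]
  apply horner_ge hr _ _ (by rw [List.length_map]; exact hql)
  rw [map_getD _ _ _ hql, s12_andn, ho, Bool.true_and, Bool.not_eq_true', ← Bool.not_eq_true]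
  intro hf
  have e2 : Nat.div (Nat.succ n) 2 = (n + 1) / 2 := rfl
  rw [e2] at hf
  obtain ⟨p, p1, p2, p3, p4⟩ := forbR_sound hr (q := q) (u := uZ N H L r)
    (fun a ha => ((hLS.2 q a).1 ha).2) ((n + 1) / 2) 1 (le_refl _) (by omega) _ (xs_ok hr _) hf
  obtain ⟨i, hi, hne⟩ := hsq (((n + 1 - 2 * p : ℕ)) : ℤ) p (by omega) (by omega) (by push_cast; omega)
  apply hne
  have e3 : (((n + 1 - 2 * p : ℕ)) : ℤ) + (i : ℤ) = ((n + 1 - 2 * p + i : ℕ) : ℤ) := by push_cast; ring
  rw [e3]
  rcases Nat.lt_or_ge (n + 1 - 2 * p + i + p) n with h1 | h1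
  · rw [hu _ (by omega) (by omega), hu _ (by omega) (by omega)]
    exact p3 _ (by omega) h1
  · have e4 : ((n + 1 - 2 * p + i : ℕ) : ℤ) + (p : ℤ) = (n : ℤ) := by omega
    have e5 : ((n + 1 - 2 * p + i : ℕ) : ℤ) = (n : ℤ) - p := by omega
    rw [e4, hq, e5, hu _ (by omega) (by omega)]
    exact p4

theorem liveL_bit {A tw pm op : ℕ} {r : ℕ} (hr : r < N) (hH : Clean N n H r) (hL : Clean N n L r) (q : Fin 4)
    (ho : op.testBit r = true) {u' : ℤ → Fin 4} (hu : ∀ i : ℤ, 0 ≤ i → i < n → u' (i + 1) = uZ N H L r i)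
    (hq : u' 0 = q) (hsq : SqfOn u' (n + 1)) :
    (liveL (mkLev N n A tw pm H L) op).testBit ((q : ℕ) * N + r) = true := by
  have hLS := letv_spec hr n H L hH hL
  have hql : (q : ℕ) < (letv N n H L).length := by
    rw [hLS.1]
    exact q.2
  have e : liveL (mkLev N n A tw pm H L) op = horner N ((letv N n H L).map
    (fun l => andn op (forbL N n (onesv N 1) l (Nat.div (Nat.succ n) 2) 1 (xvecs N n H L (Nat.succ pm) 1)))) := rfl
  rw [e]
  apply horner_ge hr _ _ (by rw [List.length_map]; exact hql)
  rw [map_getD _ _ _ hql, s12_andn, ho, Bool.true_and, Bool.not_eq_true', ← Bool.not_eq_true]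
  intro hf
  have e2 : Nat.div (Nat.succ n) 2 = (n + 1) / 2 := rfl
  rw [e2] at hf
  obtain ⟨p, p1, p2, p3, p4⟩ := forbL_sound hr (q := q) (u := uZ N H L r)
    (fun a ha => ((hLS.2 q a).1 ha).2) ((n + 1) / 2) 1 (le_refl _) (by omega) _ (xs_ok hr _) hf
  obtain ⟨i, hi, hne⟩ := hsq 0 p (by omega) (by omega) (by push_cast; omega)
  apply hne
  rw [zero_add]
  cases i with
  | zero =>
    have e4 : ((0 : ℕ) : ℤ) + (p : ℤ) = ((p : ℤ) - 1) + 1 := by push_cast; ring
    rw [e4, hu _ (by omega) (by omega), p4]
    exact hq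
  | succ i =>
    have e4 : ((i + 1 : ℕ) : ℤ) + (p : ℤ) = ((i : ℤ) + p) + 1 := by push_cast; ring
    have e5 : ((i + 1 : ℕ) : ℤ) = (i : ℤ) + 1 := by push_cast; ring
    rw [e4, e5, hu _ (by omega) (by omega), hu _ (by omega) (by omega)]
    exact p3 i (by omega)

theorem liveR_lt (A tw pm op : ℕ) (hop : op < 2 ^ N) :
    liveR (mkLev N n A tw pm H L) op < 2 ^ (4 * N) := by
  have e : liveR (mkLev N n A tw pm H L) op = horner N ((letv N n H L).map
    (fun l => andn op (forbR N n (onesv N 1) l (Nat.div (Nat.succ n) 2) 1 (xvecs N n H L (Nat.succ pm) 1)))) := rfl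
  rw [e]
  have h := horner_lt (N := N) ((letv N n H L).map
    (fun l => andn op (forbR N n (onesv N 1) l (Nat.div (Nat.succ n) 2) 1 (xvecs N n H L (Nat.succ pm) 1))))
    (fun x hx => by
      rw [List.mem_map] at hx
      obtain ⟨l, -, rfl⟩ := hx
      exact s12_andn_lt hop)
  have e2 : ((letv N n H L).map
    (fun l => andn op (forbR N n (onesv N 1) l (Nat.div (Nat.succ n) 2) 1 (xvecs N n H L (Nat.succ pm) 1)))).length = 4 := by
    rw [List.length_map]
    rfl
  rw [e2] at h
  exact h

theorem liveL_lt (A tw pm op : ℕ) (hop : op < 2 ^ N) :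
    liveL (mkLev N n A tw pm H L) op < 2 ^ (4 * N) := by
  have e : liveL (mkLev N n A tw pm H L) op = horner N ((letv N n H L).map
    (fun l => andn op (forbL N n (onesv N 1) l (Nat.div (Nat.succ n) 2) 1 (xvecs N n H L (Nat.succ pm) 1)))) := rfl
  rw [e]
  have h := horner_lt (N := N) ((letv N n H L).map
    (fun l => andn op (forbL N n (onesv N 1) l (Nat.div (Nat.succ n) 2) 1 (xvecs N n H L (Nat.succ pm) 1))))
    (fun x hx => by
      rw [List.mem_map] at hx
      obtain ⟨l, -, rfl⟩ := hx
      exact s12_andn_lt hop)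
  have e2 : ((letv N n H L).map
    (fun l => andn op (forbL N n (onesv N 1) l (Nat.div (Nat.succ n) 2) 1 (xvecs N n H L (Nat.succ pm) 1)))).length = 4 := by
    rw [List.length_map]
    rfl
  rw [e2] at h
  exact h

private theorem level_true {p : Par} (hs : p.side = true) : level p N n H L =
    (growR (mkLev N n p.A p.tw p.pm H L) H L (andn (onesv N 1) (cutsT (mkLev N n p.A p.tw p.pm H L) p.cuts)),
      Nat.beq (Nat.lor (cutsT (mkLev N n p.A p.tw p.pm H L) p.cuts) (endT (mkLev N n p.A p.tw p.pm H L) p.te p.Ke))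
        (onesv N 1)) := by
  unfold level
  rw [force_eq, hs]
  rfl

private theorem level_false {p : Par} (hs : p.side = false) : level p N n H L =
    (growL (mkLev N n p.A p.tw p.pm H L) H L (andn (onesv N 1) (cutsT (mkLev N n p.A p.tw p.pm H L) p.cuts)),
      Nat.beq (Nat.lor (cutsT (mkLev N n p.A p.tw p.pm H L) p.cuts) (stasT (mkLev N n p.A p.tw p.pm H L) p.stas))
        (onesv N 1)) := by
  unfold level
  rw [force_eq, hs]
  rfl

private theorem code_q (q : Fin 4) : code (decide (2 ≤ (q : ℕ))) (decide ((q : ℕ) = 1 ∨ (q : ℕ) = 3)) = q := by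
  revert q
  decide

/-- one level -/
theorem level_sound {p : Par} (hp : ParOK S Bt n p) (hH : CleanA N n H) (hL : CleanA N n L)
    (h2 : (level p N n H L).2 = true) (hok : (level p N n H L).1.ok = true) {N' : ℕ}
    (hN' : Nat.shiftRight (level p N n H L).1.live N' = 0)
    (hnext : AllW S Bt (if p.side then p.A else p.A + 1) N' (n + 1)
      (restr (4 * N) (n + 1) N' (level p N n H L).1.H) (restr (4 * N) (n + 1) N' (level p N n H L).1.L)) :
    AllW S Bt p.A N n H L := by
  intro r hr
  by_cases hu : SqfOn (uZ N H L r) n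
  swap
  · exact goodW_of_not_sqf hu
  cases hC : (cutsT (mkLev N n p.A p.tw p.pm H L) p.cuts).testBit r with
  | true => exact goodW_cut (cut_ok hp hr (hH r hr) (hL r hr) hu hC)
  | false =>
    obtain ⟨op, hop⟩ : ∃ op, op = andn (onesv N 1) (cutsT (mkLev N n p.A p.tw p.pm H L) p.cuts) := ⟨_, rfl⟩
    have ho : op.testBit r = true := by
      rw [hop, s12_andn, testBit_onesv hr, hC]
      rfl
    have hop2 : op < 2 ^ N := by
      rw [hop]
      exact s12_andn_lt (s12_onesv_lt N)
    cases hs : p.side with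
    | true =>
      rw [level_true hs, ← hop] at h2 hok hN' hnext
      simp only at h2 hok hN' hnext
      rw [hs, if_pos rfl] at hnext
      have h3 := Nat.eq_of_beq_eq_true h2
      have h4 : (endT (mkLev N n p.A p.tw p.pm H L) p.te p.Ke).testBit r = true := by
        have h5 : (Nat.lor (cutsT (mkLev N n p.A p.tw p.pm H L) p.cuts)
            (endT (mkLev N n p.A p.tw p.pm H L) p.te p.Ke)).testBit r = true := by
          rw [h3]
          exact testBit_onesv hr
        have h6 : (Nat.lor (cutsT (mkLev N n p.A p.tw p.pm H L) p.cuts)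
            (endT (mkLev N n p.A p.tw p.pm H L) p.te p.Ke)).testBit r =
            ((cutsT (mkLev N n p.A p.tw p.pm H L) p.cuts).testBit r ||
            (endT (mkLev N n p.A p.tw p.pm H L) p.te p.Ke).testBit r) := Nat.testBit_lor _ _ _
        rw [h6, hC, Bool.false_or] at h5
        exact h5
      refine goodW_right (fun _ _ => end_ok hp hs hr (hH r hr) (hL r hr) hu h4) (fun u' hu' hsq' => ?_)
      obtain ⟨q, hq⟩ : ∃ q : Fin 4, u' (n : ℤ) = q := ⟨_, rfl⟩
      have hq4 : ((q : ℕ) + 1) * N ≤ 4 * N := Nat.mul_le_mul_right N q.2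
      rw [add_mul, one_mul] at hq4
      have hb := liveR_bit (A := p.A) (tw := p.tw) (pm := p.pm) hr (hH r hr) (hL r hr) q ho hu' hq hsq'
      obtain ⟨r', hr', hcont⟩ := pack_sound (N := 4 * N) (N' := N') (n + 1) _ _ _
        (liveR_lt (n := n) (H := H) (L := L) p.A p.tw p.pm op hop2) hok hN' ((q : ℕ) * N + r) (by omega) hb
      refine goodW_congr (hnext r' hr') (fun i hi0 hi1 => ?_)
      obtain ⟨a, rfl⟩ := Int.eq_ofNat_of_zero_le hi0
      have ha : a < n + 1 := by omega
      obtain ⟨c1, c2⟩ := hcont a ha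
      rw [uZ_nat]
      unfold uN
      have d1 := quadR_bit hr n H (newH N) a (q : ℕ) q.2 (newH_lt N) (by omega)
      have d2 := quadR_bit hr n L (newLo N (onesv N 1)) a (q : ℕ) q.2 (newLo_lt N) (by omega)
      have c1' := c1.trans d1
      have c2' := c2.trans d2
      refine Eq.trans ?_ (congrArg₂ code c1'.symm c2'.symm)
      by_cases han : a < n
      · rw [if_pos han, if_pos han, hu' _ (by omega) (by omega), uZ_nat]
        rfl
      · rw [if_neg han, if_neg han, newH_bit _ hr q.2, newLo_bit _ hr q.2, code_q]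
        have : a = n := by omega
        rw [this]
        exact hq
    | false =>
      rw [level_false hs, ← hop] at h2 hok hN' hnext
      simp only at h2 hok hN' hnext
      rw [hs, if_neg (by simp)] at hnext
      have h3 := Nat.eq_of_beq_eq_true h2
      have h4 : (stasT (mkLev N n p.A p.tw p.pm H L) p.stas).testBit r = true := by
        have h5 : (Nat.lor (cutsT (mkLev N n p.A p.tw p.pm H L) p.cuts)
            (stasT (mkLev N n p.A p.tw p.pm H L) p.stas)).testBit r = true := by
          rw [h3]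
          exact testBit_onesv hr
        have h6 : (Nat.lor (cutsT (mkLev N n p.A p.tw p.pm H L) p.cuts)
            (stasT (mkLev N n p.A p.tw p.pm H L) p.stas)).testBit r =
            ((cutsT (mkLev N n p.A p.tw p.pm H L) p.cuts).testBit r ||
            (stasT (mkLev N n p.A p.tw p.pm H L) p.stas).testBit r) := Nat.testBit_lor _ _ _
        rw [h6, hC, Bool.false_or] at h5
        exact h5
      refine goodW_left (fun _ => start_ok hp hs hr (hH r hr) (hL r hr) hu h4) (fun u' hu' hsq' => ?_)
      obtain ⟨q, hq⟩ : ∃ q : Fin 4, u' 0 = q := ⟨_, rfl⟩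
      have hq4 : ((q : ℕ) + 1) * N ≤ 4 * N := Nat.mul_le_mul_right N q.2
      rw [add_mul, one_mul] at hq4
      have hb := liveL_bit (A := p.A) (tw := p.tw) (pm := p.pm) hr (hH r hr) (hL r hr) q ho hu' hq hsq'
      obtain ⟨r', hr', hcont⟩ := pack_sound (N := 4 * N) (N' := N') (n + 1) _ _ _
        (liveL_lt (n := n) (H := H) (L := L) p.A p.tw p.pm op hop2) hok hN' ((q : ℕ) * N + r) (by omega) hb
      refine goodW_congr (hnext r' hr') (fun i hi0 hi1 => ?_)
      obtain ⟨a, rfl⟩ := Int.eq_ofNat_of_zero_le hi0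
      have ha : a < n + 1 := by omega
      obtain ⟨c1, c2⟩ := hcont a ha
      rw [uZ_nat]
      unfold uN
      have d1 := quadL_bit hr n H (newH N) a (q : ℕ) q.2 (newH_lt N) (by omega)
      have d2 := quadL_bit hr n L (newLo N (onesv N 1)) a (q : ℕ) q.2 (newLo_lt N) (by omega)
      have c1' := c1.trans d1
      have c2' := c2.trans d2
      refine Eq.trans ?_ (congrArg₂ code c1'.symm c2'.symm)
      by_cases ha0 : a = 0
      · rw [if_pos ha0, if_pos ha0, newH_bit _ hr q.2, newLo_bit _ hr q.2, code_q, ha0]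
        exact hq
      · rw [if_neg ha0, if_neg ha0]
        have e1 : ((a : ℕ) : ℤ) = (((a - 1 : ℕ)) : ℤ) + 1 := by omega
        rw [e1, hu' _ (by omega) (by omega), uZ_nat]
        rfl

end Pool.Agent.SQF4.Eng
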