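import Pool.Agent.SQF4.S9
import Pool.Agent.SQF4.Desc
import Pool.Agent.SQF4.Tab

/-!
SOUNDNESS OF A LEVEL, part A: the three tests give CutOK, EndOK, StartOK (Desc). Weights aw (Tab): aw ≤ 1000, aw P = 0 for P ≥ 44.
cut_ok: a bit of cutsT comes from one of the cuts; cut_sound; Open implies OpenX (NoLess is the negation of Less), CovX gives
CovT, CovF gives CovR / CovL / CovB; the sum is ≤ 1000 * K + Bt ≤ 1760 t. end_ok: FL of end_sound; the members with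
P ≥ pm + 2 ≥ 44 have weight 0 (or do not exist when n - A + 1 ≤ pm + 2). start_ok the same.
-/

set_option autoImplicit false

namespace Pool.Agent.SQF4.Eng

variable {S : ℕ → ℕ → Prop} {Bt : ℕ → ℕ → ℕ}

/-- conditions on the parameters of a level with window length n -/
structure ParOK (S : ℕ → ℕ → Prop) (Bt : ℕ → ℕ → ℕ) (n : ℕ) (p : Par) : Prop where
  hpm : (n + 1) / 2 ≤ p.pm + 1
  hA : p.A ≤ n
  cuts : ∀ c ∈ p.cuts, 1 ≤ c.1 ∧ p.A + c.1 ≤ n ∧ c.1 ≤ p.tw ∧ ∀ j K, j < c.2.length → c.2.getD j 0 = K + 1 →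
    (c.1 ≤ j + 2 ∨ 41 ≤ j) ∧ S (max (j + 3) (c.1 + 1)) c.1 ∧
      1000 * K + Bt (max (j + 3) (c.1 + 1)) c.1 ≤ 1760 * c.1
  fin : p.side = true → p.te ≤ p.tw ∧ n ≤ 2 * (p.A + p.te) + 1 ∧ 1000 * p.Ke ≤ 1760 * (n - p.A) + 3999 ∧
    (42 ≤ p.pm ∨ n - p.A ≤ p.pm + 1)
  sta : p.side = false → ∀ c ∈ p.stas, 1 ≤ c.1 ∧ p.A + c.1 ≤ n ∧ c.1 ≤ p.tw ∧ p.A + c.1 ≤ p.pm + 1 ∧
    1000 * c.2 ≤ 1760 * c.1

/-- all rows of the state are good -/
def AllW (S : ℕ → ℕ → Prop) (Bt : ℕ → ℕ → ℕ) (A N n H L : ℕ) : Prop :=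
  ∀ r, r < N → GoodW aw 1000 1760 3999 S Bt n A (uZ N H L r)

/-- no bits at the positions ≥ n -/
def CleanA (N n V : ℕ) : Prop := ∀ r, r < N → Clean N n V r

variable {N n H L : ℕ}

theorem force_eq {α : Type} (x : ℕ) (f : ℕ → α) : force x f = f x := by
  cases x <;> rfl

theorem goodW_of_not_sqf {A : ℕ} {u : ℤ → Fin 4} (h : ¬ SqfOn u n) : GoodW aw 1000 1760 3999 S Bt n A u := by
  intro v nn φ lo hv hn _ hw
  exfalso
  apply h
  intro s p hp hs hsp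
  obtain ⟨i, hi, hne⟩ := sqfOn_view hv hw.inj lo n hn s p hp hs hsp
  refine ⟨i, hi, ?_⟩
  rw [hw.eq _ (by omega) (by omega), hw.eq _ (by omega) (by omega)]
  exact hne

private theorem openX_of {u : ℤ → Fin 4} {T : Finset (ℤ × Fin 4)} {τ : Bool} {P : ℕ} {g : ℤ}
    (h : Open u n T τ P g) : OpenX u n τ P g := by
  intro h1 h2 h3 h4
  obtain ⟨a1, -, a3⟩ := h h1 h2 h3 h4
  refine ⟨a1, ?_⟩
  rintro ⟨τ', P', c', b1, b2⟩
  exact a3 τ' P' c' b1 b2

private theorem covT_of {u : ℤ → Fin 4} {A t q : ℕ} {T : Finset (ℤ × Fin 4)} (h : CovX u n A t q T) :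
    CovT u n A t q T := by
  intro τ P c g y h1 h2 h3 h4 h5 h6
  refine h τ P c g y h1 h2 h3 h4 h5 ?_
  rintro ⟨τ', P', c', b1, b2⟩
  exact h6 τ' P' c' b1 b2

private theorem sum_aw_le (F : Finset (Bool × ℕ)) : ∑ f ∈ F, aw f.2 ≤ 1000 * F.card := by
  calc ∑ f ∈ F, aw f.2 ≤ ∑ _f ∈ F, 1000 := Finset.sum_le_sum fun f _ => aw_le f.2
    _ = 1000 * F.card := by rw [Finset.sum_const, smul_eq_mul, mul_comm]

private theorem cutsT_mem (v : Lev) {r : ℕ} : ∀ cs : List (ℕ × List ℕ), (cutsT v cs).testBit r = true →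
    ∃ c ∈ cs, (cutT v c.1 c.2).testBit r = true := by
  intro cs
  induction cs with
  | nil =>
    intro h
    have e : cutsT v [] = 0 := rfl
    rw [e, Nat.zero_testBit] at h
    exact absurd h (by simp)
  | cons c cs ih =>
    intro h
    have e : cutsT v (c :: cs) = Nat.lor (cutT v c.1 c.2) (cutsT v cs) := rfl
    have e2 : (Nat.lor (cutT v c.1 c.2) (cutsT v cs)).testBit r =
      ((cutT v c.1 c.2).testBit r || (cutsT v cs).testBit r) := Nat.testBit_lor _ _ _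
    rw [e, e2, Bool.or_eq_true] at h
    rcases h with h | h
    · exact ⟨c, List.mem_cons_self, h⟩
    · obtain ⟨d, h1, h2⟩ := ih h
      exact ⟨d, List.mem_cons_of_mem _ h1, h2⟩

private theorem stasT_mem (v : Lev) {r : ℕ} : ∀ cs : List (ℕ × ℕ), (stasT v cs).testBit r = true →
    ∃ c ∈ cs, (staT v c.1 c.2).testBit r = true := by
  intro cs
  induction cs with
  | nil =>
    intro h
    have e : stasT v [] = 0 := rfl
    rw [e, Nat.zero_testBit] at h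
    exact absurd h (by simp)
  | cons c cs ih =>
    intro h
    have e : stasT v (c :: cs) = Nat.lor (staT v c.1 c.2) (stasT v cs) := rfl
    have e2 : (Nat.lor (staT v c.1 c.2) (stasT v cs)).testBit r =
      ((staT v c.1 c.2).testBit r || (stasT v cs).testBit r) := Nat.testBit_lor _ _ _
    rw [e, e2, Bool.or_eq_true] at h
    rcases h with h | h
    · exact ⟨c, List.mem_cons_self, h⟩
    · obtain ⟨d, h1, h2⟩ := ih h
      exact ⟨d, List.mem_cons_of_mem _ h1, h2⟩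

private theorem covF_ext {u : ℤ → Fin 4} {A t q q' : ℕ} {C : ℕ → ℤ → Prop} {F : Finset (Bool × ℕ)}
    (h : CovF u n A t q C F) : CovF u n A t q' C (F ∪ (Finset.univ : Finset Bool) ×ˢ Finset.Ico q q') := by
  intro τ P c g hP a1 a2 hp hpot ho
  rcases Nat.lt_or_ge P q with h1 | h1
  · exact Finset.mem_union_left _ (h τ P c g h1 a1 a2 hp hpot ho)
  · exact Finset.mem_union_right _ (Finset.mem_product.2 ⟨Finset.mem_univ _, Finset.mem_Ico.2 ⟨h1, hP⟩⟩)

private theorem sum_ext {F : Finset (Bool × ℕ)} {j t : ℕ} (h : t ≤ j + 2 ∨ 41 ≤ j) :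
    ∑ f ∈ F ∪ (Finset.univ : Finset Bool) ×ˢ Finset.Ico (j + 3) (max (j + 3) (t + 1)), aw f.2 ≤ 1000 * F.card := by
  have h2 : ∑ f ∈ (Finset.univ : Finset Bool) ×ˢ Finset.Ico (j + 3) (max (j + 3) (t + 1)), aw f.2 = 0 := by
    apply Finset.sum_eq_zero
    intro f hf
    have h3 := Finset.mem_Ico.1 (Finset.mem_product.1 hf).2
    rcases h with h | h
    · exfalso
      omega
    · exact aw_zero (by omega)
  have h3 : ∑ f ∈ F ∪ (Finset.univ : Finset Bool) ×ˢ Finset.Ico (j + 3) (max (j + 3) (t + 1)), aw f.2 ≤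
      ∑ f ∈ F, aw f.2 + ∑ f ∈ (Finset.univ : Finset Bool) ×ˢ Finset.Ico (j + 3) (max (j + 3) (t + 1)), aw f.2 := by
    have h4 := Finset.sum_union_inter (s₁ := F)
      (s₂ := (Finset.univ : Finset Bool) ×ˢ Finset.Ico (j + 3) (max (j + 3) (t + 1))) (f := fun f => aw f.2)
    omega
  have h5 := sum_aw_le F
  omega

theorem cut_ok {p : Par} (hp : ParOK S Bt n p) {r : ℕ} (hr : r < N) (hH : Clean N n H r) (hL : Clean N n L r)
    (hu : SqfOn (uZ N H L r) n)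
    (h : (cutsT (mkLev N n p.A p.tw p.pm H L) p.cuts).testBit r = true) :
    CutOK aw 1000 1760 S Bt n p.A (uZ N H L r) := by
  obtain ⟨c, hc, hb⟩ := cutsT_mem _ _ h
  obtain ⟨h1, h2, h3, h4⟩ := hp.cuts c hc
  obtain ⟨j, K, T, FR, FL, FB, hj, hK, hs, hT, hR, hL', hB⟩ :=
    cut_sound hr p.tw p.pm H L hH hL hu hp.hpm c.1 h2 h3 c.2 hb
  obtain ⟨h5, h6, h7⟩ := h4 j K hj hK
  have hR' := covF_ext (q' := max (j + 3) (c.1 + 1)) hR
  have hL'' := covF_ext (q' := max (j + 3) (c.1 + 1)) hL'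
  have hB' := covF_ext (q' := max (j + 3) (c.1 + 1)) hB
  refine ⟨c.1, max (j + 3) (c.1 + 1), T,
    FR ∪ (Finset.univ : Finset Bool) ×ˢ Finset.Ico (j + 3) (max (j + 3) (c.1 + 1)),
    FL ∪ (Finset.univ : Finset Bool) ×ˢ Finset.Ico (j + 3) (max (j + 3) (c.1 + 1)),
    FB ∪ (Finset.univ : Finset Bool) ×ˢ Finset.Ico (j + 3) (max (j + 3) (c.1 + 1)),
    h1, h2, le_max_right _ _, h6, ⟨covT_of (hT _), ?_, ?_, ?_⟩, ?_⟩
  · intro τ P x g a1 a2 a3 a4 a5 a6 a7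
    exact hR' τ P x g a1 a2 a3 ⟨a4, a5⟩ a6 (openX_of a7)
  · intro τ P x g a1 a2 a3 a4 a5 a6 a7
    exact hL'' τ P x g a1 a2 a3 ⟨a4, a5⟩ a6 (openX_of a7)
  · intro τ P x g a1 a2 a3 a4 a5 a6 a7
    exact hB' τ P x g a1 a2 a3 ⟨a4, a5⟩ a6 (openX_of a7)
  · have e1 := sum_ext (F := FR) h5
    have e2 := sum_ext (F := FL) h5
    have e3 := sum_ext (F := FB) h5
    omega

theorem end_ok {p : Par} (hp : ParOK S Bt n p) (hs : p.side = true) {r : ℕ} (hr : r < N) (hH : Clean N n H r)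
    (hL : Clean N n L r) (hu : SqfOn (uZ N H L r) n)
    (h : (endT (mkLev N n p.A p.tw p.pm H L) p.te p.Ke).testBit r = true) :
    EndOK aw 1000 1760 3999 n p.A (uZ N H L r) := by
  classical
  obtain ⟨h1, h2, h3, h4⟩ := hp.fin hs
  obtain ⟨T, FL, hc, hT, hF⟩ := end_sound hr p.tw p.pm H L hH hL hu hp.hpm hp.hA p.te p.Ke h1 h2 h
  refine ⟨T, FL.filter (fun f => f.2 < n - p.A + 1), covT_of hT, ?_, ?_⟩
  · intro τ P x g a1 a2 a3 a4 a5 a6 a7
    exact Finset.mem_filter.2 ⟨hF τ P x g a1 a2 a3 ⟨a4, a5⟩ a6 (openX_of a7), a1⟩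
  · have e1 : ∑ f ∈ FL.filter (fun f => f.2 < n - p.A + 1), aw f.2 ≤
        ∑ f ∈ FL.filter (fun f => f.2 < p.pm + 2), aw f.2 := by
      rcases h4 with h4 | h4
      · calc ∑ f ∈ FL.filter (fun f => f.2 < n - p.A + 1), aw f.2 ≤ ∑ f ∈ FL, aw f.2 :=
              Finset.sum_le_sum_of_subset (Finset.filter_subset _ _)
          _ = ∑ f ∈ FL.filter (fun f => f.2 < p.pm + 2), aw f.2 := by
            symm
            apply Finset.sum_subset (Finset.filter_subset _ _)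
            intro f hf hf2
            rw [Finset.mem_filter, not_and] at hf2
            have := hf2 hf
            exact aw_zero (by omega)
      · apply Finset.sum_le_sum_of_subset
        intro f hf
        rw [Finset.mem_filter] at hf ⊢
        exact ⟨hf.1, by omega⟩
    have e2 := sum_aw_le (FL.filter (fun f => f.2 < p.pm + 2))
    omega

theorem start_ok {p : Par} (hp : ParOK S Bt n p) (hs : p.side = false) {r : ℕ} (hr : r < N) (hH : Clean N n H r)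
    (hL : Clean N n L r) (hu : SqfOn (uZ N H L r) n)
    (h : (stasT (mkLev N n p.A p.tw p.pm H L) p.stas).testBit r = true) :
    StartOK aw 1000 1760 n p.A (uZ N H L r) := by
  obtain ⟨c, hc, hb⟩ := stasT_mem _ _ h
  obtain ⟨h1, h2, h3, h4, h5⟩ := hp.sta hs c hc
  obtain ⟨T, FR, hs', hT, hR⟩ := sta_sound hr p.tw p.pm H L hH hL hu hp.hpm c.1 c.2 h2 h3 h4 hb
  refine ⟨c.1, T, FR, h1, h2, covT_of hT, ?_, ?_⟩
  · intro τ P x g a1 a2 a3 a4 a5 a6 a7
    exact hR τ P x g a1 a2 a3 ⟨a4, a5⟩ a6 (openX_of a7)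
  · have e1 := sum_aw_le FR
    omega

end Pool.Agent.SQF4.Eng
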