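import Pool.Agent.SQF4.S12

/-!
RUNS. ParsOK: the parameters of consecutive levels fit together. run_sound: induction on ps with level_sound and
restr_clean (S11); force_eq. cat: the rows of x, then the rows of y. catAll_sound: induction on the list.
-/

set_option autoImplicit false

namespace Pool.Agent.SQF4.Eng

variable {S : ℕ → ℕ → Prop} {Bt : ℕ → ℕ → ℕ} {N n H L : ℕ}

/-- the parameters ps are good for the window lengths n, n + 1, ... and lead from the block start A to A' -/
inductive ParsOK (S : ℕ → ℕ → Prop) (Bt : ℕ → ℕ → ℕ) : ℕ → ℕ → List Par → ℕ → Prop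
  | nil (n A : ℕ) : ParsOK S Bt n A [] A
  | cons (n : ℕ) (p : Par) (ps : List Par) (A' : ℕ) (h : ParOK S Bt n p)
      (hs : ParsOK S Bt (n + 1) (if p.side then p.A else p.A + 1) ps A') : ParsOK S Bt n p.A (p :: ps) A'

private theorem zip2_mem {f : ℕ → ℕ → ℕ} {l m : List ℕ} {x : ℕ} (h : x ∈ zip2 f l m) :
    ∃ b, b < l.length ∧ b < m.length ∧ x = f (l.getD b 0) (m.getD b 0) := by
  obtain ⟨i, hi, rfl⟩ := List.mem_iff_getElem.1 h
  have h1 := zip2_len f l m
  have h2 : i < l.length := by omega
  have h3 : i < m.length := by omega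
  refine ⟨i, h2, h3, ?_⟩
  rw [← zip2_getD f l m i h2 h3, List.getD_eq_getElem _ _ hi]

private theorem s13_lor (x y i : ℕ) : (Nat.lor x y).testBit i = (x.testBit i || y.testBit i) :=
  Nat.testBit_lor x y i

private theorem s13_shl (x k i : ℕ) :
    (Nat.shiftLeft x k).testBit i = (decide (k ≤ i) && x.testBit (i - k)) := by
  have h := Nat.testBit_shiftLeft (i := k) (j := i) x
  exact h

private theorem s13_shr (x k i : ℕ) : (Nat.shiftRight x k).testBit i = x.testBit (k + i) :=
  Nat.testBit_shiftRight x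

private theorem cat_lt {N1 N2 x y z : ℕ} (h : z ∈ zip2 (fun c d => Nat.lor c (Nat.shiftLeft d N1))
    (unpk N1 (onesv N1 1) n x) (unpk N2 (onesv N2 1) n y)) : z < 2 ^ (N1 + N2) := by
  obtain ⟨b, -, -, rfl⟩ := zip2_mem h
  have h1 := unpk_lt (N := N1) n x b
  have h2 := unpk_lt (N := N2) n y b
  refine Nat.or_lt_two_pow ?_ ?_
  · exact lt_of_lt_of_le h1 (Nat.pow_le_pow_right (by norm_num) (by omega))
  · show (unpk N2 (onesv N2 1) n y).getD b 0 <<< N1 < 2 ^ (N1 + N2)
    rw [Nat.shiftLeft_eq, pow_add, Nat.mul_comm (2 ^ N1)]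
    exact Nat.mul_lt_mul_of_pos_right h2 (Nat.two_pow_pos N1)

private theorem fIs_eq {s : Sta} (h : fIs s N H L = true) : N = s.N ∧ H = s.H ∧ L = s.L := by
  have h' : and (Nat.beq N s.N) (and (Nat.beq H s.H) (Nat.beq L s.L)) = true := h
  rw [Bool.and_eq_true, Bool.and_eq_true] at h'
  exact ⟨Nat.eq_of_beq_eq_true h'.1, Nat.eq_of_beq_eq_true h'.2.1, Nat.eq_of_beq_eq_true h'.2.2⟩

/-- a run with the final test f -/
theorem run_sound (f : ℕ → ℕ → ℕ → Bool) (A' : ℕ) : ∀ (ps : List Par) (hs : List ℕ) (N n A H L : ℕ),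
    ParsOK S Bt n A ps A' → CleanA N n H → CleanA N n L →
    (∀ N1 H1 L1 : ℕ, f N1 H1 L1 = true → CleanA N1 (n + ps.length) H1 → CleanA N1 (n + ps.length) L1 →
      AllW S Bt A' N1 (n + ps.length) H1 L1) →
    run f ps hs N n H L = true → AllW S Bt A N n H L := by
  intro ps
  induction ps with
  | nil =>
    intro hs N n A H L hp hH hL hf hr
    cases hp
    exact hf N H L hr hH hL
  | cons p ps ih =>
    intro hs N n A H L hp hH hL hf hr
    cases hp with
    | cons _ _ _ _ hpar hps =>
      cases hs with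
      | nil =>
        have h0 : N = 0 := Nat.eq_of_beq_eq_true hr
        intro r hrN
        omega
      | cons N' hs =>
        cases hb : Nat.beq N 0 with
        | true =>
          have h0 : N = 0 := Nat.eq_of_beq_eq_true hb
          intro r hrN
          omega
        | false =>
          have e : run f (p :: ps) (N' :: hs) N n H L =
              and (level p N n H L).2 (and (level p N n H L).1.ok
                (and (Nat.beq (Nat.shiftRight (level p N n H L).1.live N') 0)
                (force (restr (Nat.mul 4 N) (Nat.succ n) N' (level p N n H L).1.H) fun H' =>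
                  force (restr (Nat.mul 4 N) (Nat.succ n) N' (level p N n H L).1.L) fun L' =>
                    run f ps hs N' (Nat.succ n) H' L'))) := by
            conv_lhs => unfold run
            rw [hb]
          rw [e, Bool.and_eq_true, Bool.and_eq_true, Bool.and_eq_true, force_eq, force_eq] at hr
          obtain ⟨h2, hok, hN', hrest⟩ := hr
          refine level_sound hpar hH hL h2 hok (Nat.eq_of_beq_eq_true hN') ?_
          refine ih hs N' (n + 1) _ _ _ hps ?_ ?_ ?_ hrest
          · intro r hr a ha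
            exact restr_clean (n + 1) _ a hr ha
          · intro r hr a ha
            exact restr_clean (n + 1) _ a hr ha
          · intro N1 H1 L1 h1 c1 c2
            have el : n + 1 + ps.length = n + (p :: ps).length := by
              rw [List.length_cons]
              omega
            rw [el] at c1 c2 ⊢
            exact hf N1 H1 L1 h1 c1 c2

/-- all rows of the state s are good -/
def AllS (S : ℕ → ℕ → Prop) (Bt : ℕ → ℕ → ℕ) (n A : ℕ) (s : Sta) : Prop := AllW S Bt A s.N n s.H s.L

def CleanS (n : ℕ) (s : Sta) : Prop := CleanA s.N n s.H ∧ CleanA s.N n s.L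

theorem cleanB_sound {s : Sta} (h : cleanB n s = true) : CleanS n s := by
  have h' : and (Nat.beq (Nat.shiftRight s.H (Nat.mul n s.N)) 0)
      (Nat.beq (Nat.shiftRight s.L (Nat.mul n s.N)) 0) = true := h
  rw [Bool.and_eq_true] at h'
  have key : ∀ V : ℕ, Nat.shiftRight V (Nat.mul n s.N) = 0 → CleanA s.N n V := by
    intro V hV r hr a ha
    unfold bt
    have h1 : Nat.mul n s.N ≤ a * s.N + r := by
      have : n * s.N ≤ a * s.N := Nat.mul_le_mul_right _ ha
      show n * s.N ≤ a * s.N + r
      omega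
    have h2 := s13_shr V (Nat.mul n s.N) (a * s.N + r - Nat.mul n s.N)
    rw [hV, Nat.zero_testBit, Nat.add_sub_cancel' h1] at h2
    exact h2.symm
  exact ⟨key _ (Nat.eq_of_beq_eq_true h'.1), key _ (Nat.eq_of_beq_eq_true h'.2)⟩

/-- a complete run -/
theorem runS_none {ps : List Par} {hs : List ℕ} {n A A' : ℕ} {s : Sta} (hp : ParsOK S Bt n A ps A')
    (hc : CleanS n s) (h : runS fNone ps hs n s = true) : AllS S Bt n A s := by
  refine run_sound fNone A' ps hs s.N n A s.H s.L hp hc.1 hc.2 ?_ h
  intro N1 H1 L1 h1 _ _ r hr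
  have h0 : N1 = 0 := Nat.eq_of_beq_eq_true h1
  omega

/-- a run that ends in the state t -/
theorem runS_is {ps : List Par} {hs : List ℕ} {n A A' : ℕ} {s t : Sta} (hp : ParsOK S Bt n A ps A')
    (hc : CleanS n s) (ht : AllS S Bt (n + ps.length) A' t) (h : runS (fIs t) ps hs n s = true) :
    AllS S Bt n A s := by
  refine run_sound (fIs t) A' ps hs s.N n A s.H s.L hp hc.1 hc.2 ?_ h
  intro N1 H1 L1 h1 _ _
  obtain ⟨e1, e2, e3⟩ := fIs_eq h1
  rw [e1, e2, e3]
  exact ht

theorem cat_bit1 {N1 N2 r : ℕ} (hr : r < N1) (x y a : ℕ) :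
    bt (N1 + N2) (cat N1 N2 n x y) a r = (decide (a < n) && bt N1 x a r) := by
  have e : cat N1 N2 n x y = horner (N1 + N2) (zip2 (fun c d => Nat.lor c (Nat.shiftLeft d N1))
    (unpk N1 (onesv N1 1) n x) (unpk N2 (onesv N2 1) n y)) := rfl
  rw [e, horner_get (by omega) _ (fun z hz => cat_lt hz)]
  rcases Nat.lt_or_ge a n with ha | ha
  · rw [zip2_getD _ _ _ _ (by rw [unpk_len]; exact ha) (by rw [unpk_len]; exact ha), s13_lor, s13_shl,
      unpk_bit hr n x a ha]
    have h1 : ¬ N1 ≤ r := by omega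
    simp [ha, h1]
  · rw [List.getD_eq_default _ _ (by rw [zip2_len, unpk_len, unpk_len]; omega)]
    have h1 : ¬ a < n := by omega
    simp [h1]

theorem cat_bit2 {N1 N2 r : ℕ} (hr : r < N2) (x y a : ℕ) :
    bt (N1 + N2) (cat N1 N2 n x y) a (N1 + r) = (decide (a < n) && bt N2 y a r) := by
  have e : cat N1 N2 n x y = horner (N1 + N2) (zip2 (fun c d => Nat.lor c (Nat.shiftLeft d N1))
    (unpk N1 (onesv N1 1) n x) (unpk N2 (onesv N2 1) n y)) := rfl
  rw [e, horner_get (by omega) _ (fun z hz => cat_lt hz)]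
  rcases Nat.lt_or_ge a n with ha | ha
  · have h2 : ((unpk N1 (onesv N1 1) n x).getD a 0).testBit (N1 + r) = false :=
      Nat.testBit_lt_two_pow (lt_of_lt_of_le (unpk_lt n x a)
        (Nat.pow_le_pow_right (by norm_num) (by omega)))
    have h3 : N1 + r - N1 = r := by omega
    rw [zip2_getD _ _ _ _ (by rw [unpk_len]; exact ha) (by rw [unpk_len]; exact ha), s13_lor, s13_shl,
      h2, h3, unpk_bit hr n y a ha]
    simp [ha]
  · rw [List.getD_eq_default _ _ (by rw [zip2_len, unpk_len, unpk_len]; omega)]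
    have h1 : ¬ a < n := by omega
    simp [h1]

private theorem cat_clean {N1 N2 : ℕ} (x y : ℕ) : CleanA (N1 + N2) n (cat N1 N2 n x y) := by
  intro r hr a ha
  have h0 : ¬ a < n := by omega
  rcases Nat.lt_or_ge r N1 with h1 | h1
  · rw [cat_bit1 h1]
    simp [h0]
  · obtain ⟨r', rfl⟩ : ∃ r', r = N1 + r' := ⟨r - N1, by omega⟩
    rw [cat_bit2 (by omega)]
    simp [h0]

private theorem cat_uZ1 {N1 N2 r : ℕ} (hr : r < N1) (H1 H2 L1 L2 : ℕ) (i : ℤ) (h0 : 0 ≤ i) (hi : i < n) :
    uZ (N1 + N2) (cat N1 N2 n H1 H2) (cat N1 N2 n L1 L2) r i = uZ N1 H1 L1 r i := by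
  have h1 : i.toNat < n := by omega
  unfold uZ uN
  rw [cat_bit1 hr, cat_bit1 hr]
  simp [h1]

private theorem cat_uZ2 {N1 N2 r : ℕ} (hr : r < N2) (H1 H2 L1 L2 : ℕ) (i : ℤ) (h0 : 0 ≤ i) (hi : i < n) :
    uZ (N1 + N2) (cat N1 N2 n H1 H2) (cat N1 N2 n L1 L2) (N1 + r) i = uZ N2 H2 L2 r i := by
  have h1 : i.toNat < n := by omega
  unfold uZ uN
  rw [cat_bit2 hr, cat_bit2 hr]
  simp [h1]

/-- the rows of a catenation: k sees a state t whose rows include all rows of the states of the list -/
theorem catAll_sound {n A : ℕ} (k : Sta → Bool) : ∀ (ss : List Sta) (N H L : ℕ),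
    catAll n k ss N H L = true → (∀ t : Sta, k t = true → CleanS n t → AllS S Bt n A t) →
    CleanA N n H → CleanA N n L → (∀ s ∈ ss, AllS S Bt n A s) ∧ AllW S Bt A N n H L := by
  intro ss
  induction ss with
  | nil =>
    intro N H L h hk hH hL
    exact ⟨fun s hs => absurd hs List.not_mem_nil, hk ⟨N, H, L⟩ h ⟨hH, hL⟩⟩
  | cons s ss ih =>
    intro N H L h hk hH hL
    have h' : catAll n k ss (N + s.N) (cat N s.N n H s.H) (cat N s.N n L s.L) = true := by
      have e : catAll n k (s :: ss) N H L = force (cat N s.N n H s.H) fun H' =>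
          force (cat N s.N n L s.L) fun L' => force (Nat.add N s.N) fun N' => catAll n k ss N' H' L' := rfl
      rw [e, force_eq, force_eq, force_eq] at h
      exact h
    obtain ⟨h1, h2⟩ := ih _ _ _ h' hk (cat_clean _ _) (cat_clean _ _)
    refine ⟨?_, ?_⟩
    · intro s' hs'
      rcases List.mem_cons.1 hs' with rfl | hs'
      · intro r hr
        exact goodW_congr (h2 (N + r) (by omega)) (fun i h3 h4 => (cat_uZ2 hr _ _ _ _ i h3 h4).symm)
      · exact h1 s' hs'
    · intro r hr
      exact goodW_congr (h2 r (by omega)) (fun i h3 h4 => (cat_uZ1 hr _ _ _ _ i h3 h4).symm)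

/-- a deep chunk: all states of the list are good if the run from the catenation is complete -/
theorem deep_sound {ps : List Par} {hs : List ℕ} {n A A' : ℕ} {ss : List Sta} (hp : ParsOK S Bt n A ps A')
    (h : catAll n (fun t => runS fNone ps hs n t) ss 0 0 0 = true) : ∀ s ∈ ss, AllS S Bt n A s := by
  refine (catAll_sound (S := S) (Bt := Bt) (A := A) _ ss 0 0 0 h
    (fun t h1 hc => runS_none hp hc h1) ?_ ?_).1
  · intro r hr
    omega
  · intro r hr
    omega

/-- the catenation of the list is the state t: used from good states ss to the good state t -/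
theorem catAll_good {n A : ℕ} (t : Sta) : ∀ (ss : List Sta) (N H L : ℕ),
    catAll n (fun s => fIs t s.N s.H s.L) ss N H L = true → (∀ s ∈ ss, AllS S Bt n A s) →
    AllW S Bt A N n H L → AllS S Bt n A t := by
  intro ss
  induction ss with
  | nil =>
    intro N H L h _ hW
    obtain ⟨e1, e2, e3⟩ := fIs_eq (s := t) (N := N) (H := H) (L := L) h
    show AllW S Bt A t.N n t.H t.L
    rw [← e1, ← e2, ← e3]
    exact hW
  | cons s ss ih =>
    intro N H L h hs hW
    have h' : catAll n (fun s => fIs t s.N s.H s.L) ss (N + s.N) (cat N s.N n H s.H)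
        (cat N s.N n L s.L) = true := by
      have e : catAll n (fun s => fIs t s.N s.H s.L) (s :: ss) N H L =
          force (cat N s.N n H s.H) fun H' =>
          force (cat N s.N n L s.L) fun L' => force (Nat.add N s.N) fun N' =>
            catAll n (fun s => fIs t s.N s.H s.L) ss N' H' L' := rfl
      rw [e, force_eq, force_eq, force_eq] at h
      exact h
    refine ih _ _ _ h' (fun s' hs' => hs s' (List.mem_cons_of_mem _ hs')) ?_
    intro r hr
    rcases Nat.lt_or_ge r N with h1 | h1
    · exact goodW_congr (hW r h1) (fun i h3 h4 => cat_uZ1 h1 _ _ _ _ i h3 h4)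
    · obtain ⟨r', rfl⟩ : ∃ r', r = N + r' := ⟨r - N, by omega⟩
      have hr' : r' < s.N := by omega
      exact goodW_congr (hs s List.mem_cons_self r' hr') (fun i h3 h4 => cat_uZ2 hr' _ _ _ _ i h3 h4)

/-- a run that ends in the catenation of the states ss -/
theorem runS_cat {ps : List Par} {hs : List ℕ} {n A A' : ℕ} {s : Sta} {ss : List Sta} (hp : ParsOK S Bt n A ps A')
    (hc : CleanS n s) (ht : ∀ t ∈ ss, AllS S Bt (n + ps.length) A' t)
    (h : runS (fCat (n + ps.length) ss) ps hs n s = true) : AllS S Bt n A s := by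
  refine run_sound (fCat (n + ps.length) ss) A' ps hs s.N n A s.H s.L hp hc.1 hc.2 ?_ h
  intro N1 H1 L1 h1 _ _
  refine catAll_good (S := S) (Bt := Bt) (A := A') ⟨N1, H1, L1⟩ ss 0 0 0 h1 ht ?_
  intro r hr
  omega

end Pool.Agent.SQF4.Eng
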