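import Pool.Agent.SQF4.S3L

/-!
EVENTS INSIDE THE WINDOW. For P ≥ 2 let x = X_{P-1}, y = X_P (XS of Sem). Element b of okF is the vector over the starts S:
S + 2 P ≤ n + 1, no mismatch of x at S + i for i < b, no mismatch of y at S + i for b ≤ i < P - 1; this is
EvIn u n false P (S + P - 1) (S + b) (letter at S + b + P - 1); all positions involved are < n, so XS turns (no mismatch)
into equality. Element i of okT is b = i + 1: no mismatch of y at S + j for j < b, no mismatch of x at S + j for
b < j ≤ P - 1, i.e. EvIn u n true P (S + P - 1) (S + b + P) (letter at S + b). The lemmas on lists are in S3L, on bits in S1.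
-/

set_option autoImplicit false

namespace Pool.Agent.SQF4.Eng

variable {N r n P x y : ℕ} {u : ℤ → Fin 4}

private theorem nsub : Nat.sub P 1 = P - 1 := rfl

private theorem ks0_eq : ks0 n P = n + 2 - 2 * P := rfl

private theorem app_eq (l : List ℕ) : List.append l [0] = l ++ [0] := rfl

private theorem map_getD (f : ℕ → ℕ) (l : List ℕ) (b : ℕ) (h : b < l.length) :
    (l.map f).getD b 0 = f (l.getD b 0) := by
  rw [List.getD_eq_getElem _ _ (by rw [List.length_map]; exact h), List.getD_eq_getElem _ _ h,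
    List.getElem_map]

private theorem app_getD (l : List ℕ) (i : ℕ) : (l ++ [0]).getD i 0 = l.getD i 0 := by
  induction l generalizing i with
  | nil => cases i <;> rfl
  | cons a l ih =>
    cases i with
    | zero => rfl
    | succ i => exact ih i

private theorem tail_app (l : List ℕ) (i : ℕ) : (l.tail ++ [0]).getD i 0 = l.getD (i + 1) 0 := by
  rw [app_getD]
  cases l with
  | nil => rfl
  | cons a l => rfl

private theorem bool_three {a b c : Bool} : (a && !(b || c)) = true ↔
    a = true ∧ ¬ b = true ∧ ¬ c = true := by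
  cases a <;> cases b <;> cases c <;> simp

theorem okF_len (N k x y : ℕ) (hP : 2 ≤ P) : (okF N P k x y).length = P - 1 := by
  unfold okF
  rw [List.length_map, zip2_len, pors_len, sors_len, shs_len, shs_len, nsub]
  omega

theorem okT_len (N k x y : ℕ) (hP : 2 ≤ P) : (okT N P k x y).length = P - 1 := by
  unfold okT
  rw [List.length_map, zip2_len, pori_len, shs_len, nsub, app_eq, List.length_append,
    List.length_tail, sors_len, shs_len]
  simp only [List.length_cons, List.length_nil]
  omega

theorem okF_spec (hr : r < N) (hP : 2 ≤ P) (hx : XS N n u r (P - 1) x) (hy : XS N n u r P y) (b S : ℕ)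
    (hb : b + 1 < P) : bt N ((okF N P (ks0 n P) x y).getD b 0) S r = true ↔
      EvIn u n false P ((S : ℤ) + P - 1) ((S : ℤ) + b) (u ((S : ℤ) + b + P - 1)) := by
  have hbit : bt N ((okF N P (ks0 n P) x y).getD b 0) S r = true ↔
      S + 2 * P ≤ n + 1 ∧ (∀ i, i < b → bt N x (S + i) r = false) ∧
      ∀ i, b ≤ i → i < P - 1 → bt N y (S + i) r = false := by
    unfold okF
    have l1 : b < (zip2 Nat.lor (pors (shs N P x) 0) (sors (shs N (Nat.sub P 1) y))).length := by
      rw [zip2_len, pors_len, sors_len, shs_len, shs_len, nsub]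
      omega
    rw [map_getD _ _ _ l1, bt_andn, bt_onesv hr, zip2_getD _ _ _ _ (by
      rw [pors_len, shs_len]; omega) (by rw [sors_len, shs_len, nsub]; omega), bt_lor]
    have h1 : bt N ((pors (shs N P x) 0).getD b 0) S r = true ↔
        ∃ i, i < b ∧ bt N x (S + i) r = true := by
      rw [pors_bit _ _ _ _ (by rw [shs_len]; omega), bt_zero]
      constructor
      · rintro (h | ⟨i, hi, h⟩)
        · exact absurd h (by simp)
        · rw [shs_bit _ _ _ _ (by omega)] at h
          exact ⟨i, hi, h⟩
      · rintro ⟨i, hi, h⟩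
        refine Or.inr ⟨i, hi, ?_⟩
        rw [shs_bit _ _ _ _ (by omega)]
        exact h
    have h2 : bt N ((sors (shs N (Nat.sub P 1) y)).getD b 0) S r = true ↔
        ∃ i, b ≤ i ∧ i < P - 1 ∧ bt N y (S + i) r = true := by
      rw [sors_bit _ _ _ (by rw [shs_len, nsub]; omega), shs_len, nsub]
      constructor
      · rintro ⟨i, h3, h4, h⟩
        rw [shs_bit _ _ _ _ h4] at h
        exact ⟨i, h3, h4, h⟩
      · rintro ⟨i, h3, h4, h⟩
        refine ⟨i, h3, h4, ?_⟩
        rw [shs_bit _ _ _ _ h4]
        exact h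
    have h3 : (decide (S < ks0 n P)) = true ↔ S + 2 * P ≤ n + 1 := by
      rw [decide_eq_true_iff, ks0_eq]
      omega
    rw [bool_three, h3, h1, h2]
    constructor
    · rintro ⟨k1, k2, k3⟩
      refine ⟨k1, fun i hi => ?_, fun i hi hi' => ?_⟩
      · by_contra k
        exact k2 ⟨i, hi, by simpa using k⟩
      · by_contra k
        exact k3 ⟨i, hi, hi', by simpa using k⟩
    · rintro ⟨k1, k2, k3⟩
      refine ⟨k1, ?_, ?_⟩
      · rintro ⟨i, hi, h⟩
        rw [k2 i hi] at h
        exact absurd h (by simp)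
      · rintro ⟨i, hi, hi', h⟩
        rw [k3 i hi hi'] at h
        exact absurd h (by simp)
  rw [hbit]
  have hP1 : ((P - 1 : ℕ) : ℤ) = (P : ℤ) - 1 := by
    rw [Nat.cast_sub (by omega)]
    rfl
  have xeq : ∀ j, S + 2 * P ≤ n + 1 → j ≤ P - 1 →
      (bt N x (S + j) r = false ↔ u ((S : ℤ) + j) = u ((S : ℤ) + j + P - 1)) := by
    intro j h1 h2
    have h3 := hx (S + j)
    rw [hP1, Nat.cast_add, ← add_sub_assoc] at h3
    constructor
    · intro h4
      by_contra h5
      rw [h3.2 ⟨by omega, h5⟩] at h4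
      exact absurd h4 (by simp)
    · intro h4
      by_contra h5
      exact (h3.1 (by simpa using h5)).2 h4
  have yeq : ∀ j, S + 2 * P ≤ n + 1 → j < P - 1 →
      (bt N y (S + j) r = false ↔ u ((S : ℤ) + j) = u ((S : ℤ) + j + P)) := by
    intro j h1 h2
    have h3 := hy (S + j)
    rw [Nat.cast_add] at h3
    constructor
    · intro h4
      by_contra h5
      rw [h3.2 ⟨by omega, h5⟩] at h4
      exact absurd h4 (by simp)
    · intro h4
      by_contra h5
      exact (h3.1 (by simpa using h5)).2 h4
  constructor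
  · rintro ⟨h1, h2, h3⟩
    refine ⟨by omega, by omega, ⟨by omega, by omega, ?_, ?_⟩, rfl⟩
    · intro i hi1 hi2 _ _
      obtain ⟨j, hj⟩ := Int.eq_ofNat_of_zero_le (by omega : 0 ≤ i - S)
      have hij : i = (S : ℤ) + j := by omega
      rw [hij]
      exact (xeq j h1 (by omega)).1 (h2 j (by omega))
    · intro i hi1 hi2 _ _
      obtain ⟨j, hj⟩ := Int.eq_ofNat_of_zero_le (by omega : 0 ≤ i - S)
      have hij : i = (S : ℤ) + j := by omega
      rw [hij]
      exact (yeq j h1 (by omega)).1 (h3 j (by omega) (by omega))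
  · rintro ⟨-, h1, ⟨-, -, h2, h3⟩, -⟩
    have h1' : S + 2 * P ≤ n + 1 := by omega
    refine ⟨h1', fun j hj => ?_, fun j hj hj' => ?_⟩
    · rw [xeq j h1' (by omega)]
      exact h2 _ (by omega) (by omega) (by omega) (by omega)
    · rw [yeq j h1' hj']
      exact h3 _ (by omega) (by omega) (by omega) (by omega)

theorem okT_spec (hr : r < N) (hP : 2 ≤ P) (hx : XS N n u r (P - 1) x) (hy : XS N n u r P y) (i S : ℕ)
    (hi : i + 1 < P) : bt N ((okT N P (ks0 n P) x y).getD i 0) S r = true ↔
      EvIn u n true P ((S : ℤ) + P - 1) ((S : ℤ) + i + 1 + P) (u ((S : ℤ) + i + 1)) := by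
  have hbit : bt N ((okT N P (ks0 n P) x y).getD i 0) S r = true ↔
      S + 2 * P ≤ n + 1 ∧ (∀ j, j ≤ i → bt N y (S + j) r = false) ∧
      ∀ j, i + 2 ≤ j → j ≤ P - 1 → bt N x (S + j) r = false := by
    unfold okT
    have l2 : i < (List.append (sors (shs N (Nat.sub P 1) (Nat.shiftRight x N))).tail [0]).length := by
      rw [app_eq, List.length_append, List.length_tail, sors_len, shs_len, nsub]
      simp only [List.length_cons, List.length_nil]
      omega
    have l1 : i < (zip2 Nat.lor (pori (shs N (Nat.sub P 1) y) 0)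
        (List.append (sors (shs N (Nat.sub P 1) (Nat.shiftRight x N))).tail [0])).length := by
      rw [zip2_len]
      refine lt_min ?_ l2
      rw [pori_len, shs_len, nsub]
      omega
    rw [map_getD _ _ _ l1, bt_andn, bt_onesv hr, zip2_getD _ _ _ _ (by
      rw [pori_len, shs_len, nsub]; omega) l2, bt_lor, app_eq, tail_app]
    have h1 : bt N ((pori (shs N (Nat.sub P 1) y) 0).getD i 0) S r = true ↔
        ∃ j, j ≤ i ∧ bt N y (S + j) r = true := by
      rw [pori_bit _ _ _ _ (by rw [shs_len, nsub]; omega), bt_zero]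
      constructor
      · rintro (h | ⟨j, hj, h⟩)
        · exact absurd h (by simp)
        · rw [shs_bit _ _ _ _ (by rw [nsub]; omega)] at h
          exact ⟨j, hj, h⟩
      · rintro ⟨j, hj, h⟩
        refine Or.inr ⟨j, hj, ?_⟩
        rw [shs_bit _ _ _ _ (by rw [nsub]; omega)]
        exact h
    have h2 : bt N ((sors (shs N (Nat.sub P 1) (Nat.shiftRight x N))).getD (i + 1) 0) S r = true ↔
        ∃ j, i + 2 ≤ j ∧ j ≤ P - 1 ∧ bt N x (S + j) r = true := by
      by_cases hlt : i + 1 < P - 1
      · rw [sors_bit _ _ _ (by rw [shs_len, nsub]; omega), shs_len, nsub]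
        constructor
        · rintro ⟨j, h3, h4, h⟩
          rw [shs_bit _ _ _ _ h4, bt_shr1] at h
          exact ⟨j + 1, by omega, by omega, h⟩
        · rintro ⟨j, h3, h4, h⟩
          refine ⟨j - 1, by omega, by omega, ?_⟩
          rw [shs_bit _ _ _ _ (by omega), bt_shr1]
          have e : S + (j - 1) + 1 = S + j := by omega
          rw [e]
          exact h
      · have h5 : (sors (shs N (Nat.sub P 1) (Nat.shiftRight x N))).getD (i + 1) 0 = 0 := by
          apply List.getD_eq_default
          rw [sors_len, shs_len, nsub]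
          omega
        rw [h5, bt_zero]
        constructor
        · intro h
          exact absurd h (by simp)
        · rintro ⟨j, h3, h4, -⟩
          omega
    have h3 : (decide (S < ks0 n P)) = true ↔ S + 2 * P ≤ n + 1 := by
      rw [decide_eq_true_iff, ks0_eq]
      omega
    rw [bool_three, h3, h1, h2]
    constructor
    · rintro ⟨k1, k2, k3⟩
      refine ⟨k1, fun i hi => ?_, fun i hi hi' => ?_⟩
      · by_contra k
        exact k2 ⟨i, hi, by simpa using k⟩
      · by_contra k
        exact k3 ⟨i, hi, hi', by simpa using k⟩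
    · rintro ⟨k1, k2, k3⟩
      refine ⟨k1, ?_, ?_⟩
      · rintro ⟨i, hi, h⟩
        rw [k2 i hi] at h
        exact absurd h (by simp)
      · rintro ⟨i, hi, hi', h⟩
        rw [k3 i hi hi'] at h
        exact absurd h (by simp)
  rw [hbit]
  have hP1 : ((P - 1 : ℕ) : ℤ) = (P : ℤ) - 1 := by
    rw [Nat.cast_sub (by omega)]
    rfl
  have xeq : ∀ j, S + 2 * P ≤ n + 1 → j ≤ P - 1 →
      (bt N x (S + j) r = false ↔ u ((S : ℤ) + j) = u ((S : ℤ) + j + P - 1)) := by
    intro j h1 h2
    have h3 := hx (S + j)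
    rw [hP1, Nat.cast_add, ← add_sub_assoc] at h3
    constructor
    · intro h4
      by_contra h5
      rw [h3.2 ⟨by omega, h5⟩] at h4
      exact absurd h4 (by simp)
    · intro h4
      by_contra h5
      exact (h3.1 (by simpa using h5)).2 h4
  have yeq : ∀ j, S + 2 * P ≤ n + 1 → j < P - 1 →
      (bt N y (S + j) r = false ↔ u ((S : ℤ) + j) = u ((S : ℤ) + j + P)) := by
    intro j h1 h2
    have h3 := hy (S + j)
    rw [Nat.cast_add] at h3
    constructor
    · intro h4
      by_contra h5
      rw [h3.2 ⟨by omega, h5⟩] at h4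
      exact absurd h4 (by simp)
    · intro h4
      by_contra h5
      exact (h3.1 (by simpa using h5)).2 h4
  have hh : hinge true P ((S : ℤ) + i + 1 + P) = (S : ℤ) + i + 1 := by
    show (S : ℤ) + i + 1 + P - P = (S : ℤ) + i + 1
    ring
  constructor
  · rintro ⟨h1, h2, h3⟩
    refine ⟨by omega, by omega, ⟨by omega, by omega, ?_, ?_⟩, by rw [hh]⟩
    · intro a ha1 ha2 _ _
      obtain ⟨j, hj⟩ := Int.eq_ofNat_of_zero_le (by omega : 0 ≤ a - S)
      have hij : a = (S : ℤ) + j := by omega
      rw [hij]
      exact (yeq j h1 (by omega)).1 (h2 j (by omega))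
    · intro a ha1 ha2 _ _
      obtain ⟨j, hj⟩ := Int.eq_ofNat_of_zero_le (by omega : 0 ≤ a - S)
      have hij : a = (S : ℤ) + j := by omega
      rw [hij]
      exact (xeq j h1 (by omega)).1 (h3 j (by omega) (by omega))
  · rintro ⟨-, h1, ⟨-, -, h2, h3⟩, -⟩
    have h1' : S + 2 * P ≤ n + 1 := by omega
    refine ⟨h1', fun j hj => ?_, fun j hj hj' => ?_⟩
    · rw [yeq j h1' (by omega)]
      exact h2 _ (by omega) (by omega) (by omega) (by omega)
    · rw [xeq j h1' hj']
      exact h3 _ (by omega) (by omega) (by omega) (by omega)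

end Pool.Agent.SQF4.Eng
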