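import Pool.Agent.SQF4.Sem

/-!
LISTS OF PACKED VECTORS. (shs N k x).getD i 0 has the bit (S, r) = bit (S + i, r) of x (bt_shr1 of S1, induction); pors /
pori / sors are prefix and suffix ORs (induction); zip2 is pointwise; horner: o0 | o1 << N | ... (bt_lor, bt_shl1).
-/

set_option autoImplicit false

namespace Pool.Agent.SQF4.Eng

variable {N r : ℕ}

theorem shs_len (N k x : ℕ) : (shs N k x).length = k := by
  induction k generalizing x with
  | zero => rfl
  | succ k ih =>
    show (shs N k (Nat.shiftRight x N)).length + 1 = k + 1
    rw [ih]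

theorem shs_bit (k x i a : ℕ) (hi : i < k) : bt N ((shs N k x).getD i 0) a r = bt N x (a + i) r := by
  induction k generalizing x i with
  | zero => omega
  | succ k ih =>
    cases i with
    | zero => rfl
    | succ i =>
      show bt N ((shs N k (Nat.shiftRight x N)).getD i 0) a r = _
      rw [ih (Nat.shiftRight x N) i (by omega), bt_shr1, Nat.add_assoc]

theorem pors_len (l : List ℕ) (a : ℕ) : (pors l a).length = l.length := by
  induction l generalizing a with
  | nil => rfl
  | cons x xs ih =>
    show (pors xs (Nat.lor a x)).length + 1 = xs.length + 1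
    rw [ih]

/-- bit of the exclusive prefix OR -/
theorem pors_bit (l : List ℕ) (c b a : ℕ) (hb : b < l.length) :
    bt N ((pors l c).getD b 0) a r = true ↔ bt N c a r = true ∨ ∃ i, i < b ∧ bt N (l.getD i 0) a r = true := by
  induction l generalizing c b with
  | nil => exact absurd hb (Nat.not_lt_zero _)
  | cons x xs ih =>
    cases b with
    | zero =>
      show bt N c a r = true ↔ _
      constructor
      · exact Or.inl
      · rintro (h | ⟨i, hi, _⟩)
        · exact h
        · exact absurd hi (Nat.not_lt_zero _)
    | succ b =>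
      show bt N ((pors xs (Nat.lor c x)).getD b 0) a r = true ↔ _
      rw [ih (Nat.lor c x) b (Nat.lt_of_succ_lt_succ hb), bt_lor, Bool.or_eq_true]
      constructor
      · rintro ((h | h) | ⟨i, hi, h⟩)
        · exact Or.inl h
        · exact Or.inr ⟨0, Nat.succ_pos b, h⟩
        · exact Or.inr ⟨i + 1, Nat.succ_lt_succ hi, h⟩
      · rintro (h | ⟨i, hi, h⟩)
        · exact Or.inl (Or.inl h)
        · cases i with
          | zero => exact Or.inl (Or.inr h)
          | succ i => exact Or.inr ⟨i, Nat.lt_of_succ_lt_succ hi, h⟩

theorem pori_len (l : List ℕ) (a : ℕ) : (pori l a).length = l.length := by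
  induction l generalizing a with
  | nil => rfl
  | cons x xs ih =>
    show (pori xs (Nat.lor a x)).length + 1 = xs.length + 1
    rw [ih]

theorem pori_bit (l : List ℕ) (c b a : ℕ) (hb : b < l.length) :
    bt N ((pori l c).getD b 0) a r = true ↔ bt N c a r = true ∨ ∃ i, i ≤ b ∧ bt N (l.getD i 0) a r = true := by
  induction l generalizing c b with
  | nil => exact absurd hb (Nat.not_lt_zero _)
  | cons x xs ih =>
    cases b with
    | zero =>
      show bt N (Nat.lor c x) a r = true ↔ _
      rw [bt_lor, Bool.or_eq_true]
      constructor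
      · rintro (h | h)
        · exact Or.inl h
        · exact Or.inr ⟨0, Nat.le_refl 0, h⟩
      · rintro (h | ⟨i, hi, h⟩)
        · exact Or.inl h
        · rw [Nat.le_zero] at hi
          subst hi
          exact Or.inr h
    | succ b =>
      show bt N ((pori xs (Nat.lor c x)).getD b 0) a r = true ↔ _
      rw [ih (Nat.lor c x) b (Nat.lt_of_succ_lt_succ hb), bt_lor, Bool.or_eq_true]
      constructor
      · rintro ((h | h) | ⟨i, hi, h⟩)
        · exact Or.inl h
        · exact Or.inr ⟨0, Nat.zero_le _, h⟩
        · exact Or.inr ⟨i + 1, Nat.succ_le_succ hi, h⟩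
      · rintro (h | ⟨i, hi, h⟩)
        · exact Or.inl (Or.inl h)
        · cases i with
          | zero => exact Or.inl (Or.inr h)
          | succ i => exact Or.inr ⟨i, Nat.le_of_succ_le_succ hi, h⟩

theorem sors_len (l : List ℕ) : (sors l).length = l.length := by
  induction l with
  | nil => rfl
  | cons x xs ih =>
    unfold sors
    rcases h : sors xs with _ | ⟨s, ss⟩
    · rw [h] at ih
      show 0 + 1 = xs.length + 1
      rw [← ih]
      rfl
    · rw [h] at ih
      show (s :: ss).length + 1 = xs.length + 1
      rw [ih]

theorem sors_bit (l : List ℕ) (b a : ℕ) (hb : b < l.length) :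
    bt N ((sors l).getD b 0) a r = true ↔ ∃ i, b ≤ i ∧ i < l.length ∧ bt N (l.getD i 0) a r = true := by
  induction l generalizing b with
  | nil => exact absurd hb (Nat.not_lt_zero _)
  | cons x xs ih =>
    have hlen := sors_len xs
    unfold sors
    rcases h : sors xs with _ | ⟨s, ss⟩
    · rw [h] at hlen
      have hxs : xs = [] := List.eq_nil_of_length_eq_zero hlen.symm
      subst hxs
      have hb0 : b = 0 := by
        have : b < 1 := hb
        omega
      subst hb0
      show bt N x a r = true ↔ _
      constructor
      · intro h1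
        exact ⟨0, Nat.le_refl 0, Nat.succ_pos 0, h1⟩
      · rintro ⟨i, _, hi, h1⟩
        have hi0 : i = 0 := by
          have : i < 1 := hi
          omega
        subst hi0
        exact h1
    · rw [h] at ih hlen
      cases b with
      | zero =>
        show bt N (Nat.lor x s) a r = true ↔ _
        have hpos : 0 < xs.length := by
          rw [← hlen]
          exact Nat.succ_pos _
        have h0 := ih 0 hpos
        have h0' : bt N s a r = true ↔ ∃ i, 0 ≤ i ∧ i < xs.length ∧ bt N (xs.getD i 0) a r = true := h0
        rw [bt_lor, Bool.or_eq_true, h0']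
        constructor
        · rintro (h1 | ⟨i, _, hi, h1⟩)
          · exact ⟨0, Nat.le_refl 0, Nat.succ_pos _, h1⟩
          · exact ⟨i + 1, Nat.zero_le _, Nat.succ_lt_succ hi, h1⟩
        · rintro ⟨i, _, hi, h1⟩
          cases i with
          | zero => exact Or.inl h1
          | succ i => exact Or.inr ⟨i, Nat.zero_le _, Nat.lt_of_succ_lt_succ hi, h1⟩
      | succ b =>
        have h0 := ih b (Nat.lt_of_succ_lt_succ hb)
        show bt N ((s :: ss).getD b 0) a r = true ↔ _
        rw [h0]
        constructor
        · rintro ⟨i, h1, hi, h2⟩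
          exact ⟨i + 1, Nat.succ_le_succ h1, Nat.succ_lt_succ hi, h2⟩
        · rintro ⟨i, h1, hi, h2⟩
          cases i with
          | zero => exact absurd h1 (Nat.not_succ_le_zero _)
          | succ i => exact ⟨i, Nat.le_of_succ_le_succ h1, Nat.lt_of_succ_lt_succ hi, h2⟩

theorem zip2_len (f : ℕ → ℕ → ℕ) (l m : List ℕ) : (zip2 f l m).length = min l.length m.length := by
  induction l generalizing m with
  | nil =>
    show 0 = min 0 m.length
    rw [Nat.zero_min]
  | cons x xs ih =>
    cases m with
    | nil =>
      show 0 = min _ 0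
      rw [Nat.min_zero]
    | cons y ys =>
      show (zip2 f xs ys).length + 1 = min (xs.length + 1) (ys.length + 1)
      rw [ih, Nat.add_min_add_right]

theorem zip2_getD (f : ℕ → ℕ → ℕ) (l m : List ℕ) (b : ℕ) (h1 : b < l.length) (h2 : b < m.length) :
    (zip2 f l m).getD b 0 = f (l.getD b 0) (m.getD b 0) := by
  induction l generalizing m b with
  | nil => exact absurd h1 (Nat.not_lt_zero _)
  | cons x xs ih =>
    cases m with
    | nil => exact absurd h2 (Nat.not_lt_zero _)
    | cons y ys =>
      cases b with
      | zero => rfl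
      | succ b =>
        show (zip2 f xs ys).getD b 0 = f (xs.getD b 0) (ys.getD b 0)
        exact ih ys b (Nat.lt_of_succ_lt_succ h1) (Nat.lt_of_succ_lt_succ h2)

theorem horner_spec (hr : r < N) (l : List ℕ) (g : ℕ) : bt N (horner N l) g r = true ↔
    ∃ b, b ≤ g ∧ b < l.length ∧ bt N (l.getD b 0) (g - b) r = true := by
  induction l generalizing g with
  | nil =>
    show bt N 0 g r = true ↔ _
    rw [bt_zero]
    constructor
    · intro h
      exact absurd h Bool.false_ne_true
    · rintro ⟨b, _, hb, _⟩
      exact absurd hb (Nat.not_lt_zero _)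
  | cons o os ih =>
    show bt N (Nat.lor o (Nat.shiftLeft (horner N os) N)) g r = true ↔ _
    rw [bt_lor, bt_shl1 hr, Bool.or_eq_true, Bool.and_eq_true, decide_eq_true_eq, ih]
    constructor
    · rintro (h | ⟨h0, b, h1, h2, h3⟩)
      · exact ⟨0, Nat.zero_le _, Nat.succ_pos _, h⟩
      · refine ⟨b + 1, by omega, Nat.succ_lt_succ h2, ?_⟩
        show bt N (os.getD b 0) (g - (b + 1)) r = true
        have e : g - (b + 1) = g - 1 - b := by omega
        rw [e]
        exact h3
    · rintro ⟨b, h1, h2, h3⟩
      cases b with
      | zero => exact Or.inl h3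
      | succ b =>
        right
        refine ⟨by omega, b, by omega, Nat.lt_of_succ_lt_succ h2, ?_⟩
        have e : g - 1 - b = g - (b + 1) := by omega
        rw [e]
        exact h3

end Pool.Agent.SQF4.Eng
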