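import Pool.Agent.SQF4.S4A
import Pool.Agent.SQF4.S3

/-!
THE TABLE G, updates. updF adds for every gap g the letter at g + P - 1 if there is an event of type false with half-length
P (horner_spec + okF_spec: bit g of horner (okF ..) means an event EvIn u n false P c g (u (g + P - 1)) for some c); updT
adds for every hinge h with an event of type true the letter of h at the gap h + P.
-/

set_option autoImplicit false

namespace Pool.Agent.SQF4.Eng

variable {N r n P x y : ℕ} {u : ℤ → Fin 4} {ls G : List ℕ}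

/-- the four-element lists -/
private theorem four4 (l : List ℕ) (h : l.length = 4) : ∃ a b c d : ℕ, l = [a, b, c, d] := by
  match l, h with
  | [a, b, c, d], _ => exact ⟨a, b, c, d, rfl⟩

private theorem updF_len (EF : ℕ) (hls : ls.length = 4) (hG : G.length = 4) : (updF N P EF ls G).length = 4 := by
  obtain ⟨a, b, c, d, rfl⟩ := four4 ls hls
  obtain ⟨a', b', c', d', rfl⟩ := four4 G hG
  rfl

private theorem updT_len (ET : ℕ) (hls : ls.length = 4) (hG : G.length = 4) : (updT N P ET ls G).length = 4 := by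
  obtain ⟨a, b, c, d, rfl⟩ := four4 ls hls
  obtain ⟨a', b', c', d', rfl⟩ := four4 G hG
  rfl

private theorem updF_bit (EF : ℕ) (hls : ls.length = 4) (hG : G.length = 4) (l : Fin 4) (g : ℕ)
    (hb : bt N ((updF N P EF ls G).getD l 0) g r = true) :
    bt N (G.getD l 0) g r = true ∨ (bt N EF g r = true ∧ bt N (ls.getD l 0) (g + (P - 1)) r = true) := by
  obtain ⟨a, b, c, d, rfl⟩ := four4 ls hls
  obtain ⟨a', b', c', d', rfl⟩ := four4 G hG
  have key : ∀ s t : ℕ, bt N (Nat.lor t (Nat.land EF (Nat.shiftRight s (Nat.mul (Nat.sub P 1) N)))) g r = true →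
      bt N t g r = true ∨ (bt N EF g r = true ∧ bt N s (g + (P - 1)) r = true) := by
    intro s t h
    rw [bt_lor, bt_land, bt_shr, Bool.or_eq_true, Bool.and_eq_true] at h
    exact h
  match l with
  | 0 => exact key a a' hb
  | 1 => exact key b b' hb
  | 2 => exact key c c' hb
  | 3 => exact key d d' hb

private theorem updT_bit (hr : r < N) (ET : ℕ) (hls : ls.length = 4) (hG : G.length = 4) (l : Fin 4) (g : ℕ)
    (hb : bt N ((updT N P ET ls G).getD l 0) g r = true) :
    bt N (G.getD l 0) g r = true ∨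
      (P ≤ g ∧ bt N ET (g - P) r = true ∧ bt N (ls.getD l 0) (g - P) r = true) := by
  obtain ⟨a, b, c, d, rfl⟩ := four4 ls hls
  obtain ⟨a', b', c', d', rfl⟩ := four4 G hG
  have key : ∀ s t : ℕ, bt N (Nat.lor t (Nat.shiftLeft (Nat.land ET s) (Nat.mul P N))) g r = true →
      bt N t g r = true ∨ (P ≤ g ∧ bt N ET (g - P) r = true ∧ bt N s (g - P) r = true) := by
    intro s t h
    rw [bt_lor, bt_shl hr, bt_land, Bool.or_eq_true, Bool.and_eq_true, Bool.and_eq_true,
      decide_eq_true_eq] at h
    exact h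
  match l with
  | 0 => exact key a a' hb
  | 1 => exact key b b' hb
  | 2 => exact key c c' hb
  | 3 => exact key d d' hb

private theorem GS_next (h : GS N n u r true P G) : GS N n u r false (P + 1) G := by
  refine ⟨h.1, fun l g hb => ?_⟩
  rcases h.2 l g hb with h1 | ⟨τ', P', c', hlt, hev⟩
  · exact Or.inl h1
  · refine Or.inr ⟨τ', P', c', Or.inl ?_, hev⟩
    rcases hlt with hlt | ⟨h2, _, _⟩
    · omega
    · omega

theorem gF_spec (hr : r < N) (hP : 2 ≤ P) (hx : XS N n u r (P - 1) x) (hy : XS N n u r P y) (hls : LS N n u r ls)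
    (hG : GS N n u r false P G) : GS N n u r true P (gF N n P x y ls G) := by
  refine ⟨updF_len _ hls.1 hG.1, fun l g hb => ?_⟩
  rcases updF_bit _ hls.1 hG.1 l g hb with h | ⟨h1, h2⟩
  · exact (GS_true_of_false hG).2 l g h
  · obtain ⟨b, hbg, hbl, hbb⟩ := (horner_spec hr _ g).1 h1
    rw [okF_len N (ks0 n P) x y hP] at hbl
    have hev := (okF_spec hr hP hx hy b (g - b) (by omega)).1 hbb
    obtain ⟨_, h4⟩ := (hls.2 l _).1 h2
    have e1 : ((g - b : ℕ) : ℤ) + b = (g : ℤ) := by omega
    have e2 : ((g + (P - 1) : ℕ) : ℤ) = (g : ℤ) + P - 1 := by omega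
    rw [e1] at hev
    rw [e2] at h4
    rw [h4] at hev
    exact Or.inr ⟨false, P, _, Or.inr ⟨rfl, rfl, rfl⟩, hev⟩

theorem gT_spec (hr : r < N) (hP : 2 ≤ P) (hx : XS N n u r (P - 1) x) (hy : XS N n u r P y) (hls : LS N n u r ls)
    (hG : GS N n u r true P G) : GS N n u r false (P + 1) (gT N n P x y ls G) := by
  refine ⟨updT_len _ hls.1 hG.1, fun l g hb => ?_⟩
  rcases updT_bit hr _ hls.1 hG.1 l g hb with h | ⟨hPg, h1, h2⟩
  · exact (GS_next hG).2 l g h
  · rw [bt_shl1 hr, Bool.and_eq_true, decide_eq_true_eq] at h1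
    obtain ⟨h0, h1⟩ := h1
    obtain ⟨b, hbg, hbl, hbb⟩ := (horner_spec hr _ _).1 h1
    rw [okT_len N (ks0 n P) x y hP] at hbl
    have hev := (okT_spec hr hP hx hy b (g - P - 1 - b) (by omega)).1 hbb
    obtain ⟨_, h4⟩ := (hls.2 l _).1 h2
    have e1 : ((g - P - 1 - b : ℕ) : ℤ) + b + 1 = ((g - P : ℕ) : ℤ) := by omega
    have e2 : ((g - P : ℕ) : ℤ) + P = (g : ℤ) := by omega
    rw [e1, e2, h4] at hev
    exact Or.inr ⟨true, P, _, Or.inl (Nat.lt_succ_self P), hev⟩

/-- the table: entry j is good for P + j. xs.getD j 0 is the mismatch vector of the shift P - 1 + j -/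
theorem gTab_spec (hr : r < N) (hls : LS N n u r ls) (m : ℕ) (P : ℕ) (hP : 2 ≤ P) (xs : List ℕ)
    (hxs : ∀ j, j < xs.length → XS N n u r (P - 1 + j) (xs.getD j 0)) (G : List ℕ) (hG : GS N n u r false P G) :
    gTab N n ls m P xs G ≠ [] ∧ ∀ j, j < (gTab N n ls m P xs G).length →
      GS N n u r false (P + j) ((gTab N n ls m P xs G).getD j ([], [])).1 ∧
      GS N n u r true (P + j) ((gTab N n ls m P xs G).getD j ([], [])).2 := by
  have base : ([(G, G)] : List (List ℕ × List ℕ)) ≠ [] ∧ ∀ j, j < ([(G, G)] : List (List ℕ × List ℕ)).length →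
      GS N n u r false (P + j) (([(G, G)] : List (List ℕ × List ℕ)).getD j ([], [])).1 ∧
      GS N n u r true (P + j) (([(G, G)] : List (List ℕ × List ℕ)).getD j ([], [])).2 := by
    refine ⟨List.cons_ne_nil _ _, fun j hj => ?_⟩
    have hj0 : j = 0 := by
      have : j < 1 := hj
      omega
    subst hj0
    exact ⟨hG, GS_true_of_false hG⟩
  induction m generalizing P xs G with
  | zero =>
    exact base
  | succ m ih =>
    rcases xs with _ | ⟨x, _ | ⟨y, xs⟩⟩
    · exact base
    · exact base
    · have hx : XS N n u r (P - 1) x := by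
        have := hxs 0 (Nat.succ_pos _)
        exact this
      have hy : XS N n u r P y := by
        have h1 := hxs 1 (Nat.succ_lt_succ (Nat.succ_pos _))
        have e : P - 1 + 1 = P := by omega
        rw [e] at h1
        exact h1
      have hF := gF_spec hr hP hx hy hls hG
      have hT := gT_spec hr hP hx hy hls hF
      have hxs' : ∀ j, j < (y :: xs).length → XS N n u r (P + 1 - 1 + j) ((y :: xs).getD j 0) := by
        intro j hj
        have h1 := hxs (j + 1) (Nat.succ_lt_succ hj)
        have e : P - 1 + (j + 1) = P + 1 - 1 + j := by omega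
        rw [e] at h1
        exact h1
      have IH := ih (P + 1) (by omega) (y :: xs) hxs' (gT N n P x y ls (gF N n P x y ls G)) hT (by
        refine ⟨List.cons_ne_nil _ _, fun j hj => ?_⟩
        have hj0 : j = 0 := by
          have : j < 1 := hj
          omega
        subst hj0
        exact ⟨hT, GS_true_of_false hT⟩)
      refine ⟨List.cons_ne_nil _ _, fun j hj => ?_⟩
      cases j with
      | zero => exact ⟨hG, hF⟩
      | succ j =>
        have h1 := IH.2 j (Nat.lt_of_succ_lt_succ hj)
        have e : P + 1 + j = P + (j + 1) := by omega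
        rw [e] at h1
        exact h1

end Pool.Agent.SQF4.Eng
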