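import Pool.Agent.SQF4.S3L

/-!
THE TABLE G, elementary part, and the drop vectors. GS u r τ P G (Sem): the bits of the four vectors G are trivial pairs or
pairs with an event lexicographically smaller than (P, τ). g0: letter of g or of g - 1 at the gap g (bt_lor, bt_shl1).
dropF: bit g is set iff for some letter l the bit (l, g) of G is set and u (g + P - 1) = l (zip over four letters: ls and G
have length 4, so destruct the lists); dropT: bit h is set iff bit (l, h + P) of G is set and u h = l. By GS such a pair is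
trivial or has a smaller event, so OpenX fails.
-/

set_option autoImplicit false

namespace Pool.Agent.SQF4.Eng

variable {N r n P x y : ℕ} {u : ℤ → Fin 4} {ls G : List ℕ}

theorem GS_true_of_false (h : GS N n u r false P G) : GS N n u r true P G := by
  refine ⟨h.1, fun l g hb => ?_⟩
  rcases h.2 l g hb with h1 | ⟨τ', P', c', hlt, hev⟩
  · exact Or.inl h1
  · refine Or.inr ⟨τ', P', c', ?_, hev⟩
    rcases hlt with hlt | ⟨_, _, h3⟩
    · exact Or.inl hlt
    · exact absurd h3 (by decide)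

theorem GS_mono {P' : ℕ} (h : GS N n u r false P G) (hPP : P ≤ P') : GS N n u r false P' G := by
  refine ⟨h.1, fun l g hb => ?_⟩
  rcases h.2 l g hb with h1 | ⟨τ', P₁, c', hlt, hev⟩
  · exact Or.inl h1
  · refine Or.inr ⟨τ', P₁, c', ?_, hev⟩
    rcases hlt with hlt | ⟨_, _, h3⟩
    · exact Or.inl (lt_of_lt_of_le hlt hPP)
    · exact absurd h3 (by decide)

private theorem getD_map_lt (f : ℕ → ℕ) (l : List ℕ) (i : ℕ) (hi : i < l.length) :
    (l.map f).getD i 0 = f (l.getD i 0) := by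
  rw [List.getD_eq_getElem _ _ (by rw [List.length_map]; exact hi), List.getElem_map,
    List.getD_eq_getElem _ _ hi]

theorem g0_spec (hr : r < N) (hls : LS N n u r ls) : GS N n u r false 2 (g0 N ls) := by
  obtain ⟨hlen, hl⟩ := hls
  refine ⟨by unfold g0; rw [List.length_map]; exact hlen, fun l g hb => Or.inl ?_⟩
  unfold g0 at hb
  rw [getD_map_lt _ _ _ (by rw [hlen]; exact l.2), bt_lor, bt_shl1 hr, Bool.or_eq_true, Bool.and_eq_true,
    decide_eq_true_eq] at hb
  rintro ⟨hv1, hv2⟩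
  rcases hb with hb | ⟨hg, hb⟩
  · obtain ⟨h1, h2⟩ := (hl l g).1 hb
    exact hv2 (by omega) (by exact_mod_cast h1) h2
  · obtain ⟨h1, h2⟩ := (hl l (g - 1)).1 hb
    have e : ((g - 1 : ℕ) : ℤ) = (g : ℤ) - 1 := by omega
    rw [e] at h2
    exact hv1 (by omega) (by omega) h2

/-- the four-element lists -/
private theorem four (l : List ℕ) (h : l.length = 4) : ∃ a b c d : ℕ, l = [a, b, c, d] := by
  match l, h with
  | [a, b, c, d], _ => exact ⟨a, b, c, d, rfl⟩

private theorem dropF_bit (hls : ls.length = 4) (hG : G.length = 4) (g : ℕ) (hb : bt N (dropF N P ls G) g r = true) :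
    ∃ l : Fin 4, bt N (G.getD l 0) g r = true ∧ bt N (ls.getD l 0) (g + (P - 1)) r = true := by
  obtain ⟨a, b, c, d, rfl⟩ := four ls hls
  obtain ⟨a', b', c', d', rfl⟩ := four G hG
  simp only [dropF] at hb
  rw [bt_lor, bt_lor, bt_lor, bt_lor, bt_zero, bt_land, bt_land, bt_land, bt_land, bt_shr, bt_shr, bt_shr, bt_shr,
    Bool.or_false, Bool.or_eq_true, Bool.or_eq_true, Bool.or_eq_true, Bool.and_eq_true, Bool.and_eq_true,
    Bool.and_eq_true, Bool.and_eq_true] at hb
  rcases hb with h | h | h | h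
  · exact ⟨0, h.1, h.2⟩
  · exact ⟨1, h.1, h.2⟩
  · exact ⟨2, h.1, h.2⟩
  · exact ⟨3, h.1, h.2⟩

private theorem dropT_bit (hls : ls.length = 4) (hG : G.length = 4) (g : ℕ) (hb : bt N (dropT N P ls G) g r = true) :
    ∃ l : Fin 4, bt N (G.getD l 0) (g + P) r = true ∧ bt N (ls.getD l 0) g r = true := by
  obtain ⟨a, b, c, d, rfl⟩ := four ls hls
  obtain ⟨a', b', c', d', rfl⟩ := four G hG
  simp only [dropT] at hb
  rw [bt_lor, bt_lor, bt_lor, bt_lor, bt_zero, bt_land, bt_land, bt_land, bt_land, bt_shr, bt_shr, bt_shr, bt_shr,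
    Bool.or_false, Bool.or_eq_true, Bool.or_eq_true, Bool.or_eq_true, Bool.and_eq_true, Bool.and_eq_true,
    Bool.and_eq_true, Bool.and_eq_true] at hb
  rcases hb with h | h | h | h
  · exact ⟨0, h.1, h.2⟩
  · exact ⟨1, h.1, h.2⟩
  · exact ⟨2, h.1, h.2⟩
  · exact ⟨3, h.1, h.2⟩

/-- the gap of a smaller event is in the window -/
private theorem gap_le {τ : Bool} {g : ℤ} {l : Fin 4} (h : ¬ VisNT u n g l ∨ Less u n τ P g l) : g ≤ n := by
  rcases h with h | ⟨τ', P', c', _, h1, h2, ⟨hpot, _⟩⟩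
  · by_contra hg
    refine h ⟨fun _ h4 => absurd h4 hg, fun _ h4 => ?_⟩
    exact absurd h4.le hg
  · unfold Pot at hpot
    cases τ' with
    | true =>
      rw [if_pos rfl] at hpot
      obtain ⟨_, h4, _, _⟩ := hpot
      linarith
    | false =>
      rw [if_neg (by decide)] at hpot
      obtain ⟨_, h4, _, _⟩ := hpot
      have h5 : (0 : ℤ) ≤ (P' : ℤ) := Int.natCast_nonneg _
      linarith

/-- drop vectors -/
theorem dropF_spec (hr : r < N) (hP : 2 ≤ P) (hls : LS N n u r ls) (hG : GS N n u r false P G) :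
    DF N n u r P (dropF N P ls G) := by
  intro g hb
  obtain ⟨l, hg1, hs1⟩ := dropF_bit hls.1 hG.1 g hb
  obtain ⟨h1, h2⟩ := (hls.2 l _).1 hs1
  have h3 := hG.2 l g hg1
  have e : ((g + (P - 1) : ℕ) : ℤ) = (g : ℤ) + P - 1 := by omega
  rw [e] at h2
  refine ⟨by omega, by omega, fun ho => ?_⟩
  have eh : hinge false P (g : ℤ) = (g : ℤ) + P - 1 := by
    unfold hinge
    rw [if_neg (by decide)]
  unfold OpenX at ho
  rw [eh, h2] at ho
  obtain ⟨hv, hl⟩ := ho (by omega) (by omega) (by omega) (by omega)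
  rcases h3 with h3 | h3
  · exact h3 hv
  · exact hl h3

theorem dropT_spec (hr : r < N) (hP : 2 ≤ P) (hls : LS N n u r ls) (hG : GS N n u r true P G) :
    DT N n u r P (dropT N P ls G) := by
  intro h hb
  obtain ⟨l, hg1, hs1⟩ := dropT_bit hls.1 hG.1 h hb
  obtain ⟨h1, h2⟩ := (hls.2 l _).1 hs1
  have h3 := hG.2 l (h + P) hg1
  have e : ((h + P : ℕ) : ℤ) = (h : ℤ) + P := by push_cast; ring
  rw [e] at h3
  have h4 : (h : ℤ) + P ≤ n := gap_le h3
  refine ⟨h1, by omega, fun ho => ?_⟩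
  have eh : hinge true P ((h : ℤ) + P) = (h : ℤ) := by
    unfold hinge
    rw [if_pos rfl]
    ring
  unfold OpenX at ho
  rw [eh, h2] at ho
  obtain ⟨hv, hl⟩ := ho (by omega) (by omega) (by omega) h4
  rcases h3 with h3 | h3
  · exact h3 hv
  · exact hl h3

end Pool.Agent.SQF4.Eng
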