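import Pool.Agent.SQF4.Sem

/-!
THE SCAN. align: bit c' of align N A P V = bit (A + c' - (P - 1)) of V if P - 1 ≤ A + c', else false; so for fixed c' the
aligned vectors shifted i times by N give the bits of x, y, d at the position S + i, S = A + c' - P + 1 (false if S + i < 0).
segZ (doubling): a triple (P, Q, Z) belongs to the length m (SegI) if bit c of P is false iff p has no bit at c, .., c + m - 1,
the same for Q and q, and bit c of Z is false iff there is a break b < m with no bit of p at c + j (j < b), no bit of z at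
c + b, no bit of q at c + j (b < j < m). Two segments of lengths m, m' are joined by SegI.comb; the digit list of L gives
the length L (dig_spec).
-/

set_option autoImplicit false

namespace Pool.Agent.SQF4.Eng

variable {N r n P x y d : ℕ} {u : ℤ → Fin 4}

theorem align_spec (hr : r < N) (A P V c : ℕ) :
    bt N (align N A P V) c r = (decide (P - 1 ≤ A + c) && bt N V (A + c - (P - 1)) r) := by
  have e1 : Nat.sub P 1 = P - 1 := rfl
  unfold align
  rw [e1]
  split
  · next h =>
    have h1 : P - 1 ≤ A := Nat.le_of_ble_eq_true h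
    have e2 : Nat.sub A (P - 1) = A - (P - 1) := rfl
    rw [e2, bt_shr]
    have h2 : P - 1 ≤ A + c := by omega
    have e3 : c + (A - (P - 1)) = A + c - (P - 1) := by omega
    simp only [h2, decide_true, Bool.true_and, e3]
  · next h =>
    have h1 : ¬ (P - 1 ≤ A) := by
      intro h2
      rw [Nat.ble_eq_true_of_le h2] at h
      exact Bool.noConfusion h
    have e2 : Nat.sub (P - 1) A = P - 1 - A := rfl
    rw [e2, bt_shl hr]
    by_cases h2 : P - 1 - A ≤ c
    · have h3 : P - 1 ≤ A + c := by omega
      have e3 : c - (P - 1 - A) = A + c - (P - 1) := by omega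
      simp only [h2, h3, decide_true, Bool.true_and, e3]
    · have h3 : ¬ (P - 1 ≤ A + c) := by omega
      simp only [h2, h3, decide_false, Bool.false_and]

/-- number with leading one and the digits bs -/
def digv (m : ℕ) (bs : List Bool) : ℕ := bs.foldl (fun m b => 2 * m + b.toNat) m

theorem digv_cons (m : ℕ) (b : Bool) (bs : List Bool) : digv m (b :: bs) = digv (2 * m + b.toNat) bs := rfl

theorem dig_spec (k L : ℕ) (acc : List Bool) (h1 : 1 ≤ L) (h2 : L ≤ 2 ^ k) :
    digv 1 (dig k L acc) = digv L acc := by
  induction k generalizing L acc with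
  | zero =>
    have h3 : L = 1 := by
      have : (2 : ℕ) ^ 0 = 1 := rfl
      omega
    subst h3
    rfl
  | succ k ih =>
    have e : dig (k + 1) L acc = match Nat.ble L 1 with
      | true => acc
      | false => dig k (Nat.div L 2) (Nat.beq (Nat.mod L 2) 1 :: acc) := rfl
    rw [e]
    by_cases h3 : L ≤ 1
    · rw [Nat.ble_eq_true_of_le h3]
      have h4 : L = 1 := by omega
      subst h4
      rfl
    · have h4 : Nat.ble L 1 = false := by
        cases h5 : Nat.ble L 1 with
        | false => rfl
        | true => exact absurd (Nat.le_of_ble_eq_true h5) h3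
      rw [h4]
      have e2 : Nat.div L 2 = L / 2 := rfl
      have e3 : Nat.mod L 2 = L % 2 := rfl
      have h5 : (2 : ℕ) ^ (k + 1) = 2 * 2 ^ k := by ring
      have h6 := ih (L / 2) (Nat.beq (L % 2) 1 :: acc) (by omega) (by omega)
      show digv 1 (dig k (Nat.div L 2) (Nat.beq (Nat.mod L 2) 1 :: acc)) = digv L acc
      rw [e2, e3, h6, digv_cons]
      have h7 : 2 * (L / 2) + (Nat.beq (L % 2) 1).toNat = L := by
        rcases Nat.mod_two_eq_zero_or_one L with h8 | h8
        · rw [h8]
          have : (Nat.beq 0 1).toNat = 0 := rfl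
          omega
        · rw [h8]
          have : (Nat.beq 1 1).toNat = 1 := rfl
          omega
      rw [h7]

/-- P, Q, Z belong to the segments of length m of the sequences p, q, z -/
def SegI (N r p q z m P Q Z : ℕ) : Prop :=
  (∀ c, bt N P c r = false ↔ ∀ j, j < m → bt N p (c + j) r = false) ∧
  (∀ c, bt N Q c r = false ↔ ∀ j, j < m → bt N q (c + j) r = false) ∧
  (∀ c, bt N Z c r = false ↔ ∃ b, b < m ∧ (∀ j, j < b → bt N p (c + j) r = false) ∧ bt N z (c + b) r = false ∧
    ∀ j, b < j → j < m → bt N q (c + j) r = false)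

theorem SegI.one (p q z : ℕ) : SegI N r p q z 1 p q z := by
  refine ⟨fun c => ⟨fun h j hj => ?_, fun h => h 0 (by omega)⟩, fun c => ⟨fun h j hj => ?_, fun h => h 0 (by omega)⟩,
    fun c => ⟨fun h => ⟨0, by omega, fun j hj => absurd hj (Nat.not_lt_zero j), h, fun j h1 h2 => by omega⟩, ?_⟩⟩
  · have e : j = 0 := by omega
    subst e
    exact h
  · have e : j = 0 := by omega
    subst e
    exact h
  · rintro ⟨b, hb, -, h, -⟩
    have e : b = 0 := by omega
    subst e
    exact h

theorem SegI.comb {p q z m m' P Q Z P' Q' Z' : ℕ} (h : SegI N r p q z m P Q Z) (h' : SegI N r p q z m' P' Q' Z') :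
    SegI N r p q z (m + m') (Nat.lor P (Nat.shiftRight P' (Nat.mul m N))) (Nat.lor Q (Nat.shiftRight Q' (Nat.mul m N)))
      (Nat.land (Nat.lor Z (Nat.shiftRight Q' (Nat.mul m N))) (Nat.lor P (Nat.shiftRight Z' (Nat.mul m N)))) := by
  obtain ⟨hP, hQ, hZ⟩ := h
  obtain ⟨hP', hQ', hZ'⟩ := h'
  have key : ∀ (f : ℕ → Bool) (c : ℕ), ((∀ j, j < m → f (c + j) = false) ∧ ∀ j, j < m' → f (c + m + j) = false) ↔
      ∀ j, j < m + m' → f (c + j) = false := by
    intro f c
    constructor
    · rintro ⟨h1, h2⟩ j hj
      by_cases h3 : j < m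
      · exact h1 j h3
      · have h4 := h2 (j - m) (by omega)
        have e : c + m + (j - m) = c + j := by omega
        rw [e] at h4
        exact h4
    · intro h1
      refine ⟨fun j hj => h1 j (by omega), fun j hj => ?_⟩
      have h2 := h1 (m + j) (by omega)
      rw [← Nat.add_assoc] at h2
      exact h2
  refine ⟨fun c => ?_, fun c => ?_, fun c => ?_⟩
  · rw [bt_lor, bt_shr, Bool.or_eq_false_iff, hP, hP']
    exact key (fun a => bt N p a r) c
  · rw [bt_lor, bt_shr, Bool.or_eq_false_iff, hQ, hQ']
    exact key (fun a => bt N q a r) c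
  · rw [bt_land, bt_lor, bt_lor, bt_shr, bt_shr, Bool.and_eq_false_iff, Bool.or_eq_false_iff, Bool.or_eq_false_iff,
      hZ, hQ', hP, hZ']
    constructor
    · rintro (⟨⟨b, hb, h1, h2, h3⟩, h4⟩ | ⟨h1, b, hb, h2, h3, h4⟩)
      · refine ⟨b, by omega, h1, h2, fun j hj1 hj2 => ?_⟩
        by_cases h5 : j < m
        · exact h3 j hj1 h5
        · have h6 := h4 (j - m) (by omega)
          have e : c + m + (j - m) = c + j := by omega
          rw [e] at h6
          exact h6
      · refine ⟨m + b, by omega, fun j hj => ?_, ?_, fun j hj1 hj2 => ?_⟩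
        · by_cases h5 : j < m
          · exact h1 j h5
          · have h6 := h2 (j - m) (by omega)
            have e : c + m + (j - m) = c + j := by omega
            rw [e] at h6
            exact h6
        · rw [← Nat.add_assoc]
          exact h3
        · have h6 := h4 (j - m) (by omega) (by omega)
          have e : c + m + (j - m) = c + j := by omega
          rw [e] at h6
          exact h6
    · rintro ⟨b, hb, h1, h2, h3⟩
      by_cases h5 : b < m
      · refine Or.inl ⟨⟨b, h5, h1, h2, fun j hj1 hj2 => h3 j hj1 (by omega)⟩, fun j hj => ?_⟩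
        have h6 := h3 (m + j) (by omega) (by omega)
        rw [← Nat.add_assoc] at h6
        exact h6
      · refine Or.inr ⟨fun j hj => h1 j (by omega), b - m, by omega, fun j hj => ?_, ?_, fun j hj1 hj2 => ?_⟩
        · have h6 := h1 (m + j) (by omega)
          rw [← Nat.add_assoc] at h6
          exact h6
        · have e : c + m + (b - m) = c + b := by omega
          rw [e]
          exact h2
        · have h6 := h3 (m + j) (by omega) (by omega)
          rw [← Nat.add_assoc] at h6
          exact h6

theorem seg_spec (p q z : ℕ) (bs : List Bool) (m P Q Z : ℕ) (h : SegI N r p q z m P Q Z) :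
    ∃ P' Q', SegI N r p q z (digv m bs) P' Q' (seg N p q z bs m P Q Z) := by
  induction bs generalizing m P Q Z with
  | nil => exact ⟨P, Q, h⟩
  | cons b bs ih =>
    have h2 := h.comb h
    have e2 : m + m = 2 * m := by ring
    rw [e2] at h2
    cases b with
    | false => exact ih _ _ _ _ h2
    | true =>
      have h3 := (SegI.one (N := N) (r := r) p q z).comb h2
      have e3 : Nat.mul 1 N = N := Nat.one_mul N
      have e4 : 1 + 2 * m = 2 * m + 1 := Nat.add_comm _ _
      rw [e3, e4] at h3
      exact ih _ _ _ _ h3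

/-- the scan: there is a break b < L -/
theorem segZ_spec (L : ℕ) (hL : 1 ≤ L) (p q z c : ℕ) : bt N (segZ N L p q z) c r = false ↔
    ∃ b, b < L ∧ (∀ j, j < b → bt N p (c + j) r = false) ∧ bt N z (c + b) r = false ∧
      ∀ j, b < j → j < L → bt N q (c + j) r = false := by
  obtain ⟨P', Q', h⟩ := seg_spec (N := N) (r := r) p q z (dig L L []) 1 p q z (SegI.one p q z)
  have e : digv 1 (dig L L []) = L := dig_spec L L [] hL Nat.lt_two_pow_self.le
  rw [e] at h
  exact h.2.2 c

end Pool.Agent.SQF4.Eng
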