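import Pool.Agent.SQF4.S2
import Pool.Agent.SQF4.S4
import Pool.Agent.SQF4.S5

/-!
THE VECTORS W. wF / wT: bit c' (centre A + c') is set iff c' < w and the scan segZ has the bit false (S5, segZ_spec: there is
a break b < P - 1; for type true moreover the bit of y at c' is false). Put S = A + c' - (P - 1) (an integer, maybe negative); the
aligned vectors have at c' + j the bit of the position S + j (false if S + j < 0).
WC (completeness): given Pot u 0 n τ P (A + c') g and OpenX, type false: take b = g - S, 0 ≤ b < P - 1; a bit of x at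
S + j ≥ 0 would mean S + j + P - 1 < n and u (S + j) ≠ u (S + j + P - 1) by XS, excluded by Pot for j < b; same for y; a bit of
d at g would contradict OpenX by DF. Type true: hinge h = g - P = S + b with 1 ≤ b ≤ P - 1; the break of segZ is b - 1 and the
vectors are shifted by one more step; the position 0 of y is or-ed.
WI: P ≤ A + c' + 1 means S ≥ 0; A + c' + P ≤ n means that all positions involved are < n, so no bit = equality; the event is
at g = S + b (type false) or S + b + P (type true), y = u of the hinge.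
-/

set_option autoImplicit false

namespace Pool.Agent.SQF4.Eng

variable {N r n A w P x y d : ℕ} {u : ℤ → Fin 4}

private theorem subP : Nat.sub P 1 = P - 1 := rfl

/-- no bit of the aligned vector if the comparison holds -/
private theorem al_false (hr : r < N) (hP : 2 ≤ P) {s V : ℕ} (hV : XS N n u r s V) (c : ℕ)
    (h : ∀ a : ℕ, (a : ℤ) = (A : ℤ) + c - P + 1 → a + s < n → u (a : ℤ) = u ((a : ℤ) + s)) :
    bt N (align N A P V) c r = false := by
  rw [align_spec hr]
  by_contra hb
  rw [Bool.not_eq_false, Bool.and_eq_true, decide_eq_true_eq] at hb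
  obtain ⟨h1, h2⟩ := hb
  obtain ⟨h3, h4⟩ := (hV _).1 h2
  exact h4 (h _ (by omega) h3)

/-- a visible position without a bit: the comparison holds -/
private theorem al_eq (hr : r < N) (hP : 2 ≤ P) {s V : ℕ} (hV : XS N n u r s V) (c : ℕ)
    (hb : bt N (align N A P V) c r = false) (h1 : P ≤ A + c + 1) (h2 : A + c + s < n + (P - 1)) :
    u ((A : ℤ) + c - P + 1) = u ((A : ℤ) + c - P + 1 + s) := by
  rw [align_spec hr] at hb
  have e : ((A + c - (P - 1) : ℕ) : ℤ) = (A : ℤ) + c - P + 1 := by omega
  by_contra h3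
  have h4 := (hV (A + c - (P - 1))).2 ⟨by omega, by rw [e]; exact h3⟩
  rw [h4, Bool.and_true, decide_eq_false_iff_not] at hb
  exact hb (by omega)

/-- all four properties of the pair (W of type false, W of type true) -/
def WOK (N n A w : ℕ) (u : ℤ → Fin 4) (r P : ℕ) (p : ℕ × ℕ) : Prop :=
  WC N n A w u r false P p.1 ∧ WI N n A w u r false P p.1 ∧ WC N n A w u r true P p.2 ∧ WI N n A w u r true P p.2

theorem wF_WC (hr : r < N) (hP : 2 ≤ P) (hx : XS N n u r (P - 1) x) (hy : XS N n u r P y) (hd : DF N n u r P d) :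
    WC N n A w u r false P (wF N A w P x y d) := by
  intro c' g hc hpot ho
  have hP1 : ((P - 1 : ℕ) : ℤ) = (P : ℤ) - 1 := by omega
  have hloop : bt N (segZ N (Nat.sub P 1) (align N A P x) (align N A P y)
      (Nat.lor (align N A P y) (align N A P d))) c' r = false := by
    rw [segZ_spec _ (by rw [subP]; omega), subP]
    unfold Pot at hpot
    rw [if_neg (by decide)] at hpot
    obtain ⟨h1, h2, h3, h4⟩ := hpot
    obtain ⟨b, hb⟩ := Int.eq_ofNat_of_zero_le (by omega : 0 ≤ g - ((A : ℤ) + c' - P + 1))
    have hyb : ∀ j, b ≤ j → j < P - 1 → bt N (align N A P y) (c' + j) r = false := by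
      intro j hj1 hj2
      refine al_false hr hP hy _ (fun a ha hlt => ?_)
      push_cast at ha
      exact h4 a (by omega) (by omega) (by omega) (by omega)
    refine ⟨b, by omega, fun j hj => ?_, ?_, fun j hj1 hj2 => hyb j (by omega) hj2⟩
    · refine al_false hr hP hx _ (fun a ha hlt => ?_)
      push_cast at ha
      have h5 := h3 a (by omega) (by omega) (by omega) (by omega)
      rw [h5, hP1]
      congr 1
      ring
    · rw [bt_lor, hyb b le_rfl (by omega), Bool.false_or, align_spec hr]
      by_contra hbb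
      rw [Bool.not_eq_false, Bool.and_eq_true, decide_eq_true_eq] at hbb
      obtain ⟨h5, h6⟩ := hbb
      obtain ⟨-, -, h7⟩ := hd _ h6
      have e : ((A + (c' + b) - (P - 1) : ℕ) : ℤ) = g := by omega
      rw [e] at h7
      exact h7 ho
  unfold wF
  rw [bt_andn, bt_onesv hr, hloop, decide_eq_true hc]
  rfl

theorem wF_WI (hr : r < N) (hP : 2 ≤ P) (hx : XS N n u r (P - 1) x) (hy : XS N n u r P y) :
    WI N n A w u r false P (wF N A w P x y d) := by
  intro c' hc hl hrr hb
  have hP1 : ((P - 1 : ℕ) : ℤ) = (P : ℤ) - 1 := by omega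
  unfold wF at hb
  rw [bt_andn, bt_onesv hr, decide_eq_true hc, Bool.true_and, Bool.not_eq_true',
    segZ_spec _ (by rw [subP]; omega), subP] at hb
  obtain ⟨b, hb, h1, h0, h2⟩ := hb
  rw [bt_lor, Bool.or_eq_false_iff] at h0
  have hyb : ∀ j, b ≤ j → j < P - 1 → bt N (align N A P y) (c' + j) r = false := by
    intro j hj1 hj2
    rcases hj1.eq_or_lt with h3 | h3
    · rw [← h3]
      exact h0.1
    · exact h2 j h3 hj2
  · refine ⟨(A : ℤ) + c' - P + 1 + b, _, by omega, by omega, ?_, rfl⟩
    unfold Pot
    rw [if_neg (by decide)]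
    refine ⟨by omega, by omega, fun i hi1 hi2 _ _ => ?_, fun i hi1 hi2 _ _ => ?_⟩
    · obtain ⟨j, hj⟩ := Int.eq_ofNat_of_zero_le (by omega : 0 ≤ i - ((A : ℤ) + c' - P + 1))
      have h3 := al_eq hr hP hx (c' + j) (h1 j (by omega)) (by omega) (by omega)
      push_cast at h3
      have e1 : (A : ℤ) + (c' + j) - P + 1 = i := by omega
      have e2 : (A : ℤ) + (c' + j) - P + 1 + ((P - 1 : ℕ) : ℤ) = i + P - 1 := by omega
      rw [e2, e1] at h3
      exact h3
    · obtain ⟨j, hj⟩ := Int.eq_ofNat_of_zero_le (by omega : 0 ≤ i - ((A : ℤ) + c' - P + 1))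
      have h3 := al_eq hr hP hy (c' + j) (hyb j (by omega) (by omega)) (by omega) (by omega)
      push_cast at h3
      have e1 : (A : ℤ) + (c' + j) - P + 1 = i := by omega
      rw [e1] at h3
      exact h3

theorem wT_WC (hr : r < N) (hP : 2 ≤ P) (hx : XS N n u r (P - 1) x) (hy : XS N n u r P y) (hd : DT N n u r P d) :
    WC N n A w u r true P (wT N A w P x y d) := by
  intro c' g hc hpot ho
  have hP1 : ((P - 1 : ℕ) : ℤ) = (P : ℤ) - 1 := by omega
  have hloop : bt N (Nat.lor (align N A P y) (segZ N (Nat.sub P 1) (Nat.shiftRight (align N A P y) N)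
      (Nat.shiftRight (align N A P x) N) (Nat.shiftRight (align N A P d) N))) c' r = false := by
    rw [bt_lor, Bool.or_eq_false_iff, segZ_spec _ (by rw [subP]; omega), subP]
    unfold Pot at hpot
    rw [if_pos rfl] at hpot
    obtain ⟨h1, h2, h3, h4⟩ := hpot
    obtain ⟨b, hb⟩ := Int.eq_ofNat_of_zero_le (by omega : 0 ≤ g - P - ((A : ℤ) + c' - P + 1) - 1)
    refine ⟨?_, b, by omega, fun j hj => ?_, ?_, fun j hj1 hj2 => ?_⟩
    · refine al_false hr hP hy _ (fun a ha hlt => ?_)
      exact h3 a (by omega) (by omega) (by omega) (by omega)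
    · rw [bt_shr1]
      refine al_false hr hP hy _ (fun a ha hlt => ?_)
      push_cast at ha
      exact h3 a (by omega) (by omega) (by omega) (by omega)
    · rw [bt_shr1, align_spec hr]
      by_contra hbb
      rw [Bool.not_eq_false, Bool.and_eq_true, decide_eq_true_eq] at hbb
      obtain ⟨h5, h6⟩ := hbb
      obtain ⟨-, -, h7⟩ := hd _ h6
      have e : ((A + (c' + b + 1) - (P - 1) : ℕ) : ℤ) + P = g := by omega
      rw [e] at h7
      exact h7 ho
    · rw [bt_shr1]
      refine al_false hr hP hx _ (fun a ha hlt => ?_)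
      push_cast at ha
      have h5 := h4 a (by omega) (by omega) (by omega) (by omega)
      rw [h5, hP1]
      congr 1
      ring
  unfold wT
  rw [bt_andn, bt_onesv hr, hloop, decide_eq_true hc]
  rfl

theorem wT_WI (hr : r < N) (hP : 2 ≤ P) (hx : XS N n u r (P - 1) x) (hy : XS N n u r P y) :
    WI N n A w u r true P (wT N A w P x y d) := by
  intro c' hc hl hrr hb
  have hP1 : ((P - 1 : ℕ) : ℤ) = (P : ℤ) - 1 := by omega
  unfold wT at hb
  rw [bt_andn, bt_onesv hr, decide_eq_true hc, Bool.true_and, Bool.not_eq_true', bt_lor, Bool.or_eq_false_iff,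
    segZ_spec _ (by rw [subP]; omega), subP] at hb
  obtain ⟨h0, b, hb, h1, -, h2⟩ := hb
  · refine ⟨(A : ℤ) + c' - P + 1 + b + 1 + P, _, by omega, by omega, ?_, rfl⟩
    unfold Pot
    rw [if_pos rfl]
    refine ⟨by omega, by omega, fun i hi1 hi2 _ _ => ?_, fun i hi1 hi2 _ _ => ?_⟩
    · obtain ⟨j, hj⟩ := Int.eq_ofNat_of_zero_le (by omega : 0 ≤ i - ((A : ℤ) + c' - P + 1))
      have hbit : bt N (align N A P y) (c' + j) r = false := by
        cases j with
        | zero => exact h0
        | succ j =>
          have h3 := h1 j (by omega)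
          rw [bt_shr1] at h3
          exact h3
      have h3 := al_eq hr hP hy (c' + j) hbit (by omega) (by omega)
      push_cast at h3
      have e1 : (A : ℤ) + (c' + j) - P + 1 = i := by omega
      rw [e1] at h3
      exact h3
    · obtain ⟨j, hj⟩ := Int.eq_ofNat_of_zero_le (by omega : 0 ≤ i - ((A : ℤ) + c' - P + 1) - 1)
      have hbit : bt N (align N A P x) (c' + j + 1) r = false := by
        have h3 := h2 j (by omega) (by omega)
        rw [bt_shr1] at h3
        exact h3
      have h3 := al_eq hr hP hx (c' + j + 1) hbit (by omega) (by omega)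
      push_cast at h3
      have e1 : (A : ℤ) + (c' + j + 1) - P + 1 = i := by omega
      have e2 : (A : ℤ) + (c' + j + 1) - P + 1 + ((P - 1 : ℕ) : ℤ) = i + P - 1 := by omega
      rw [e2, e1] at h3
      exact h3

theorem GS_mono_true {G : List ℕ} {P' : ℕ} (h : GS N n u r true P G) (hPP : P ≤ P') : GS N n u r true P' G := by
  refine ⟨h.1, fun l g hb => ?_⟩
  rcases h.2 l g hb with h1 | ⟨τ', P₁, c', hlt, hev⟩
  · exact Or.inl h1
  · refine Or.inr ⟨τ', P₁, c', ?_, hev⟩
    rcases hlt with hlt | ⟨h2, h3, _⟩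
    · exact Or.inl (lt_of_lt_of_le hlt hPP)
    · rcases hPP.eq_or_lt with h4 | h4
      · exact Or.inr ⟨h2.trans h4, h3, rfl⟩
      · exact Or.inl (by omega)

/-- the table W; the last entry of Gs is kept (GS_mono, GS_mono_true) when Gs is exhausted -/
theorem wTab_spec {ls : List ℕ} (hr : r < N) (hls : LS N n u r ls) (tw m : ℕ) (P : ℕ) (hP : 2 ≤ P) (xs : List ℕ)
    (hlen : m + 1 ≤ xs.length) (hxs : ∀ j, j < xs.length → XS N n u r (P - 1 + j) (xs.getD j 0))
    (Gs : List (List ℕ × List ℕ)) (hne : Gs ≠ []) (hG : ∀ j, j < Gs.length →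
      GS N n u r false (P + j) (Gs.getD j ([], [])).1 ∧ GS N n u r true (P + j) (Gs.getD j ([], [])).2) :
    (wTab N n A tw ls m P xs Gs).length = m ∧ ∀ j, j < m →
      WOK N n A (wlen n A tw (P + j)) u r (P + j) ((wTab N n A tw ls m P xs Gs).getD j (0, 0)) := by
  induction m generalizing P xs Gs with
  | zero =>
    have e : wTab N n A tw ls 0 P xs Gs = [] := by
      unfold wTab
      rfl
    refine ⟨by rw [e]; rfl, fun j hj => absurd hj (Nat.not_lt_zero j)⟩
  | succ m ih =>
    rcases xs with _ | ⟨x, _ | ⟨y, xs⟩⟩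
    · exact absurd hlen (by simp)
    · exact absurd hlen (by simp)
    · rcases Gs with _ | ⟨G, Gs⟩
      · exact absurd rfl hne
      · have hx : XS N n u r (P - 1) x := hxs 0 (Nat.succ_pos _)
        have hy : XS N n u r P y := by
          have h1 := hxs 1 (Nat.succ_lt_succ (Nat.succ_pos _))
          have e : P - 1 + 1 = P := by omega
          rw [e] at h1
          exact h1
        have hG0 : GS N n u r false P G.1 ∧ GS N n u r true P G.2 := hG 0 (Nat.succ_pos _)
        have hxs' : ∀ j, j < (y :: xs).length → XS N n u r (P + 1 - 1 + j) ((y :: xs).getD j 0) := by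
          intro j hj
          have h1 := hxs (j + 1) (Nat.succ_lt_succ hj)
          have e : P - 1 + (j + 1) = P + 1 - 1 + j := by omega
          rw [e] at h1
          exact h1
        obtain ⟨Gs', e, hne', hG'⟩ : ∃ Gs' : List (List ℕ × List ℕ), wTab N n A tw ls (m + 1) P (x :: y :: xs) (G :: Gs) =
            (wF N A (wlen n A tw P) P x y (dropF N P ls G.1), wT N A (wlen n A tw P) P x y (dropT N P ls G.2)) ::
            wTab N n A tw ls m (P + 1) (y :: xs) Gs' ∧ Gs' ≠ [] ∧ ∀ j, j < Gs'.length →
              GS N n u r false (P + 1 + j) (Gs'.getD j ([], [])).1 ∧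
              GS N n u r true (P + 1 + j) (Gs'.getD j ([], [])).2 := by
          cases Gs with
          | nil =>
            refine ⟨[G], rfl, List.cons_ne_nil _ _, fun j hj => ?_⟩
            have hj0 : j = 0 := by
              have : j < 1 := hj
              omega
            subst hj0
            exact ⟨GS_mono hG0.1 (by omega), GS_mono_true hG0.2 (by omega)⟩
          | cons G' Gs =>
            refine ⟨G' :: Gs, rfl, List.cons_ne_nil _ _, fun j hj => ?_⟩
            have h1 := hG (j + 1) (Nat.succ_lt_succ hj)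
            have e : P + 1 + j = P + (j + 1) := by omega
            rw [e]
            exact h1
        have IH := ih (P + 1) (by omega) (y :: xs) (by simpa using hlen) hxs' Gs' hne' hG'
        rw [e]
        refine ⟨by rw [List.length_cons, IH.1], fun j hj => ?_⟩
        cases j with
        | zero =>
          exact ⟨wF_WC hr hP hx hy (dropF_spec hr hP hls hG0.1), wF_WI hr hP hx hy,
            wT_WC hr hP hx hy (dropT_spec hr hP hls hG0.2), wT_WI hr hP hx hy⟩
        | succ j =>
          have h1 := IH.2 j (Nat.lt_of_succ_lt_succ hj)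
          have e : P + 1 + j = P + (j + 1) := by omega
          rw [e] at h1
          exact h1

/-- the table of the level (xvec_spec, letv_spec, g0_spec, gTab_spec) -/
theorem mkLev_ws (hr : r < N) (tw pm H L : ℕ) (hH : Clean N n H r) (hL : Clean N n L r) :
    (mkLev N n A tw pm H L).ws.length = pm ∧ ∀ j, j < pm →
      WOK N n A (wlen n A tw (j + 2)) (uZ N H L r) r (j + 2) ((mkLev N n A tw pm H L).ws.getD j (0, 0)) := by
  have hls := letv_spec hr n H L hH hL
  have hlen : (xvecs N n H L (Nat.succ pm) 1).length = pm + 1 := xvecs_len N n H L _ 1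
  have hxs : ∀ j, j < (xvecs N n H L (Nat.succ pm) 1).length →
      XS N n (uZ N H L r) r (2 - 1 + j) ((xvecs N n H L (Nat.succ pm) 1).getD j 0) := by
    intro j hj
    rw [hlen] at hj
    rw [xvecs_getD N n H L _ 1 j hj]
    exact xvec_spec hr n H L (1 + j)
  have hg := gTab_spec hr hls (Nat.min (Nat.sub (Nat.div (Nat.succ n) 2) 1) 7) 2 le_rfl _ hxs _ (g0_spec hr hls)
  have h := wTab_spec (A := A) hr hls tw pm 2 le_rfl _ (by rw [hlen]) hxs _ hg.1 hg.2
  have e : (mkLev N n A tw pm H L).ws = wTab N n A tw (letv N n H L) pm 2 (xvecs N n H L (Nat.succ pm) 1)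
      (gTab N n (letv N n H L) (Nat.min (Nat.sub (Nat.div (Nat.succ n) 2) 1) 7) 2 (xvecs N n H L (Nat.succ pm) 1)
        (g0 N (letv N n H L))) := rfl
  rw [e]
  refine ⟨h.1, fun j hj => ?_⟩
  have h1 := h.2 j hj
  have e2 : 2 + j = j + 2 := Nat.add_comm 2 j
  rw [e2] at h1
  exact h1

end Pool.Agent.SQF4.Eng
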