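import Pool.Agent.SQF4.Sem

/-!
COUNTERS. cval N cs a r = value of the counter with the planes cs (lowest bit first) at the position a of the row r.
Single-position counters (N-bit numbers) are read at the position 0: bt N x 0 r = x.testBit r (bt_pos0).
inc: ripple carry with f; the shortcut for f = 0 is exact. addv: full adder. leK: comparison with K, lowest bit first;
acc = rows for which (lower part of the counter) ≤ (lower part of K).
-/

set_option autoImplicit false

namespace Pool.Agent.SQF4.Eng

variable {N r : ℕ}

private theorem beq0_iff (a : ℕ) : Nat.beq a 0 = false ↔ a ≠ 0 := by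
  cases a with
  | zero => exact ⟨fun h => absurd h (by decide), fun h => absurd rfl h⟩
  | succ k => exact ⟨fun _ => Nat.succ_ne_zero k, fun _ => rfl⟩

theorem cval_inc (cs : List ℕ) (f a : ℕ) : cval N (inc cs f) a r = cval N cs a r + (bt N f a r).toNat := by
  induction cs generalizing f with
  | nil =>
    rw [inc_nil]
    by_cases hf : f = 0
    · subst hf
      have e : Nat.beq 0 0 = true := rfl
      simp only [e, cval, bt_zero, Bool.toNat_false, Nat.add_zero]
    · have e : Nat.beq f 0 = false := by
        rw [beq0_iff]
        exact hf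
      simp only [e, cval]
      omega
  | cons c cs ih =>
    rw [inc_cons]
    simp only [cval, ih, bt_xor, bt_land]
    cases bt N c a r <;> cases bt N f a r <;> simp <;> omega

theorem cval_inc2 (cs : List ℕ) (f g a : ℕ) :
    cval N (inc2 cs f g) a r = cval N cs a r + (bt N f a r).toNat + (bt N g a r).toNat := by
  cases cs with
  | nil =>
    have e : inc2 [] f g = [Nat.xor f g, Nat.land f g] := rfl
    rw [e]
    simp only [cval, bt_xor, bt_land]
    cases bt N f a r <;> cases bt N g a r <;> simp
  | cons c cs =>
    have e : inc2 (c :: cs) f g = Nat.xor (Nat.xor c f) g ::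
      inc cs (Nat.lor (Nat.land f g) (Nat.land c (Nat.lor f g))) := rfl
    rw [e]
    simp only [cval, cval_inc, bt_xor, bt_land, bt_lor]
    cases bt N c a r <;> cases bt N f a r <;> cases bt N g a r <;> simp <;> omega
theorem cval_addv (as bs : List ℕ) (c a : ℕ) :
    cval N (addv as bs c) a r = cval N as a r + cval N bs a r + (bt N c a r).toNat := by
  induction as generalizing bs c with
  | nil =>
    have e : addv [] bs c = inc bs c := rfl
    rw [e, cval_inc]
    simp only [cval]
    omega
  | cons x xs ih =>
    cases bs with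
    | nil =>
      have e : addv (x :: xs) [] c = inc (x :: xs) c := rfl
      rw [e, cval_inc]
      simp only [cval]
      omega
    | cons y ys =>
      have e : addv (x :: xs) (y :: ys) c = Nat.xor (Nat.xor x y) c ::
        addv xs ys (Nat.lor (Nat.land x y) (Nat.land c (Nat.lor x y))) := rfl
      rw [e]
      simp only [cval, ih, bt_xor, bt_land, bt_lor]
      cases bt N x a r <;> cases bt N y a r <;> cases bt N c a r <;> simp <;> omega

theorem cval_map_blk (hr : r < N) (pl : List ℕ) (j : ℕ) :
    cval N (pl.map (fun p => blk N (onesv N 1) p j)) 0 r = cval N pl j r := by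
  induction pl with
  | nil => rfl
  | cons p pl ih =>
    simp only [List.map_cons, cval, ih, bt_blk hr]

theorem lgc_le (k : ℕ) : k ≤ 2 ^ lgc k := by
  unfold lgc
  split
  · next h => exact Nat.le_of_ble_eq_true h
  · split
    · next h => exact Nat.le_of_ble_eq_true h
    · split
      · next h => exact Nat.le_of_ble_eq_true h
      · split
        · next h => exact Nat.le_of_ble_eq_true h
        · exact Nat.lt_two_pow_self.le

theorem cval_map_ones (hr : r < N) (m : ℕ) (pl : List ℕ) (a : ℕ) :
    cval N (pl.map (Nat.land (onesv N m))) a r = if a < m then cval N pl a r else 0 := by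
  induction pl with
  | nil => simp [cval]
  | cons p pl ih =>
    simp only [List.map_cons, cval, ih, bt_land, bt_onesv hr]
    by_cases h : a < m
    · simp [h]
    · simp [h]

theorem cval_map_shr (k : ℕ) (pl : List ℕ) (a : ℕ) :
    cval N (pl.map (fun p => Nat.shiftRight p (Nat.mul k N))) a r = cval N pl (a + k) r := by
  induction pl with
  | nil => rfl
  | cons p pl ih => simp only [List.map_cons, cval, ih, bt_shr]

theorem foldp_spec (hr : r < N) (j : ℕ) : ∀ pl : List ℕ,
    cval N (foldp N j pl) 0 r = ∑ i ∈ Finset.range (2 ^ j), cval N pl i r := by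
  induction j with
  | zero =>
    intro pl
    have e : foldp N 0 pl = pl := rfl
    rw [e]
    simp
  | succ j ih =>
    intro pl
    have e : foldp N (j + 1) pl = foldp N j (addv (pl.map (Nat.land (onesv N (2 ^ j))))
      (pl.map (fun p => Nat.shiftRight p (Nat.mul (2 ^ j) N))) 0) := rfl
    rw [e, ih]
    have e2 : 2 ^ (j + 1) = 2 ^ j + 2 ^ j := by
      rw [pow_succ]
      omega
    rw [e2, Finset.sum_range_add, ← Finset.sum_add_distrib]
    refine Finset.sum_congr rfl fun i hi => ?_
    have hi' : i < 2 ^ j := Finset.mem_range.1 hi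
    rw [cval_addv, cval_map_ones hr, cval_map_shr, bt_zero, if_pos hi', Nat.add_comm i (2 ^ j)]
    simp

theorem cval_cntR (hr : r < N) (pl : List ℕ) (t : ℕ) :
    cval N (cntR N (onesv N 1) pl t) 0 r = ∑ j ∈ Finset.range t, cval N pl j r := by
  have e : cntR N (onesv N 1) pl t = (foldp N (lgc t) (pl.map (Nat.land (onesv N t)))).map
    (Nat.land (onesv N 1)) := rfl
  rw [e, cval_map_ones hr, if_pos Nat.zero_lt_one, foldp_spec hr]
  obtain ⟨d, hd⟩ := Nat.exists_eq_add_of_le (lgc_le t)
  rw [hd, Finset.sum_range_add]
  have h1 : ∑ x ∈ Finset.range t, cval N (pl.map (Nat.land (onesv N t))) x r = ∑ j ∈ Finset.range t, cval N pl j r := by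
    refine Finset.sum_congr rfl fun i hi => ?_
    rw [cval_map_ones hr, if_pos (Finset.mem_range.1 hi)]
  have h2 : ∑ x ∈ Finset.range d, cval N (pl.map (Nat.land (onesv N t))) (t + x) r = 0 := by
    refine Finset.sum_eq_zero fun i _ => ?_
    rw [cval_map_ones hr, if_neg (by omega)]
  rw [h1, h2, Nat.add_zero]

theorem leK_spec (M : ℕ) (hM : M.testBit r = true) (cs : List ℕ) (K acc : ℕ) :
    (leK M cs K acc).testBit r = true ↔ cval N cs 0 r < K ∨ (cval N cs 0 r = K ∧ acc.testBit r = true) := by
  induction cs generalizing K acc with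
  | nil =>
    unfold leK
    by_cases hK : K = 0
    · subst hK
      have e : Nat.beq 0 0 = true := rfl
      simp [e, cval]
    · have e : Nat.beq K 0 = false := by
        rw [beq0_iff]
        exact hK
      simp only [e, cval, hM, true_iff]
      left
      omega
  | cons c cs ih =>
    have e1 : leK M (c :: cs) K acc = leK M cs (Nat.div K 2) (match Nat.beq (Nat.mod K 2) 0 with
      | true => Nat.land (Nat.xor M c) acc
      | false => Nat.lor (Nat.xor M c) acc) := rfl
    have hdiv : Nat.div K 2 = K / 2 := rfl
    have hmod : Nat.mod K 2 = K % 2 := rfl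
    have hkk : K = 2 * (K / 2) + K % 2 := (Nat.div_add_mod K 2).symm
    have hcv : cval N (c :: cs) 0 r = (c.testBit r).toNat + 2 * cval N cs 0 r := by
      simp only [cval, bt_pos0]
    rw [e1, ih, hcv, hdiv]
    have hmx : (Nat.xor M c).testBit r = !c.testBit r := by
      have h := Nat.testBit_xor M c r
      rw [hM] at h
      have h2 : (Nat.xor M c).testBit r = (true ^^ c.testBit r) := h
      rw [h2]
      cases c.testBit r <;> rfl
    by_cases hm : K % 2 = 0
    · have e : Nat.beq (Nat.mod K 2) 0 = true := by
        rw [hmod, hm]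
        rfl
      have hacc : (Nat.land (Nat.xor M c) acc).testBit r = (!c.testBit r && acc.testBit r) := by
        have h := Nat.testBit_land (Nat.xor M c) acc r
        rw [hmx] at h
        exact h
      simp only [e, hacc]
      cases hc : c.testBit r <;> cases ha : acc.testBit r <;> simp <;> omega
    · have e : Nat.beq (Nat.mod K 2) 0 = false := by
        rw [beq0_iff, hmod]
        exact hm
      have hacc : (Nat.lor (Nat.xor M c) acc).testBit r = (!c.testBit r || acc.testBit r) := by
        have h := Nat.testBit_lor (Nat.xor M c) acc r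
        rw [hmx] at h
        exact h
      simp only [e, hacc]
      cases hc : c.testBit r <;> cases ha : acc.testBit r <;> simp <;> omega

theorem foldv_spec (hr : r < N) (j : ℕ) : ∀ V : ℕ,
    bt N (foldv N j V) 0 r = true ↔ ∃ i, i < 2 ^ j ∧ bt N V i r = true := by
  induction j with
  | zero =>
    intro V
    have e : foldv N 0 V = V := rfl
    rw [e]
    constructor
    · intro h
      exact ⟨0, by norm_num, h⟩
    · rintro ⟨i, hi, h⟩
      have : i = 0 := by
        simp at hi
        exact hi
      rw [this] at h
      exact h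
  | succ j ih =>
    intro V
    have e : foldv N (j + 1) V = foldv N j (Nat.lor (Nat.land V (onesv N (2 ^ j)))
      (Nat.shiftRight V (Nat.mul (2 ^ j) N))) := rfl
    have e2 : 2 ^ (j + 1) = 2 ^ j + 2 ^ j := by
      rw [pow_succ]
      omega
    rw [e, ih, e2]
    constructor
    · rintro ⟨i, hi, h⟩
      rw [bt_lor, bt_land, bt_onesv hr, bt_shr] at h
      rcases Bool.or_eq_true_iff.1 h with h1 | h1
      · exact ⟨i, by omega, (Bool.and_eq_true_iff.1 h1).1⟩
      · exact ⟨i + 2 ^ j, by omega, h1⟩
    · rintro ⟨i, hi, h⟩
      rcases Nat.lt_or_ge i (2 ^ j) with h1 | h1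
      · refine ⟨i, h1, ?_⟩
        rw [bt_lor, bt_land, bt_onesv hr, h, decide_eq_true h1]
        rfl
      · refine ⟨i - 2 ^ j, by omega, ?_⟩
        have e3 : i - 2 ^ j + 2 ^ j = i := by omega
        rw [bt_lor, bt_shr, e3, h, Bool.or_true]

theorem anyb_spec (hr : r < N) (W lo k : ℕ) :
    (bt N (anyb N (onesv N 1) W lo k) 0 r).toNat = anyN N W lo k r := by
  classical
  cases k with
  | zero =>
    have e : anyb N (onesv N 1) W lo 0 = 0 := rfl
    unfold anyN
    rw [e, bt_zero, if_neg]
    · rfl
    · rintro ⟨j, h1, h2, _⟩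
      omega
  | succ k =>
    have e : anyb N (onesv N 1) W lo (k + 1) = Nat.land (onesv N 1) (foldv N (lgc (k + 1))
      (Nat.land (Nat.shiftRight W (Nat.mul lo N)) (onesv N (k + 1)))) := rfl
    have key : bt N (anyb N (onesv N 1) W lo (k + 1)) 0 r = true ↔
        ∃ j, lo ≤ j ∧ j < lo + (k + 1) ∧ bt N W j r = true := by
      rw [e, bt_land, bt_onesv hr, decide_eq_true Nat.zero_lt_one, Bool.true_and, foldv_spec hr]
      constructor
      · rintro ⟨i, _, h⟩
        rw [bt_land, bt_shr, bt_onesv hr] at h
        obtain ⟨h1, h2⟩ := Bool.and_eq_true_iff.1 h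
        have h3 := of_decide_eq_true h2
        exact ⟨i + lo, by omega, by omega, h1⟩
      · rintro ⟨j, h1, h2, h3⟩
        refine ⟨j - lo, lt_of_lt_of_le (by omega) (lgc_le (k + 1)), ?_⟩
        have e3 : j - lo + lo = j := by omega
        rw [bt_land, bt_shr, bt_onesv hr, e3, h3, Bool.true_and]
        exact decide_eq_true (by omega)
    unfold anyN
    by_cases h : ∃ j, lo ≤ j ∧ j < lo + (k + 1) ∧ bt N W j r = true
    · rw [if_pos h, key.2 h]
      rfl
    · rw [if_neg h]
      cases hb : bt N (anyb N (onesv N 1) W lo (k + 1)) 0 r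
      · rfl
      · exact absurd (key.1 hb) h

theorem anyN_z0 (W lo : ℕ) : anyN N W lo 0 r = 0 := by
  unfold anyN
  rw [if_neg]
  rintro ⟨j, h1, h2, _⟩
  omega

theorem cval_addL (hr : r < N) (n A t P : ℕ) (w : ℕ × ℕ) (cnt : List ℕ) :
    cval N (addL N (onesv N 1) n A t P w cnt) 0 r =
      cval N cnt 0 r + (anyN N w.1 0 (lo1 n A t P) r + anyN N w.2 0 (lo1 n A t P) r) := by
  unfold addL
  split
  · next h => rw [h, anyN_z0, anyN_z0, Nat.add_zero]
  · next k h => rw [h, cval_inc2, anyb_spec hr, anyb_spec hr, Nat.add_assoc]

theorem cval_addR (hr : r < N) (n A t P : ℕ) (w : ℕ × ℕ) (cnt : List ℕ) :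
    cval N (addR N (onesv N 1) n A t P w cnt) 0 r =
      cval N cnt 0 r + (anyN N w.1 (lo2 n A t P) (t - lo2 n A t P) r + anyN N w.2 (lo2 n A t P) (t - lo2 n A t P) r) := by
  unfold addR
  split
  · next h =>
    have h' : t - lo2 n A t P = 0 := h
    rw [h', anyN_z0, anyN_z0, Nat.add_zero]
  · next k h =>
    have h' : t - lo2 n A t P = k + 1 := h
    rw [h', cval_inc2, anyb_spec hr, anyb_spec hr, Nat.add_assoc]

theorem cval_addB (hr : r < N) (n A t P : ℕ) (w : ℕ × ℕ) (cnt : List ℕ) :
    cval N (addB N (onesv N 1) n A t P w cnt) 0 r =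
      cval N cnt 0 r + (if 2 * P ≤ n + 1 then 0 else
        anyN N w.1 (lo1 n A t P) (lo2 n A t P - lo1 n A t P) r +
        anyN N w.2 (lo1 n A t P) (lo2 n A t P - lo1 n A t P) r) := by
  unfold addB
  by_cases h : 2 * P ≤ n + 1
  · have e : Nat.ble (Nat.mul 2 P) (Nat.succ n) = true := Nat.ble_eq_true_of_le h
    rw [if_pos h]
    simp only [e, Nat.add_zero]
  · have e : Nat.ble (Nat.mul 2 P) (Nat.succ n) = false := by
      cases hb : Nat.ble (Nat.mul 2 P) (Nat.succ n)
      · rfl
      · exact absurd (Nat.le_of_ble_eq_true hb) h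
    rw [if_neg h]
    simp only [e]
    split
    · next h2 =>
      have h' : lo2 n A t P - lo1 n A t P = 0 := h2
      rw [h', anyN_z0, anyN_z0, Nat.add_zero]
    · next k h2 =>
      have h' : lo2 n A t P - lo1 n A t P = k + 1 := h2
      rw [h', cval_inc2, anyb_spec hr, anyb_spec hr, Nat.add_assoc]

/-- the flags of the half-length P: left, right, both -/
noncomputable def flL (N n A t P : ℕ) (w : ℕ × ℕ) (r : ℕ) : ℕ := anyN N w.1 0 (lo1 n A t P) r + anyN N w.2 0 (lo1 n A t P) r

noncomputable def flR (N n A t P : ℕ) (w : ℕ × ℕ) (r : ℕ) : ℕ :=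
  anyN N w.1 (lo2 n A t P) (t - lo2 n A t P) r + anyN N w.2 (lo2 n A t P) (t - lo2 n A t P) r

noncomputable def flB (N n A t P : ℕ) (w : ℕ × ℕ) (r : ℕ) : ℕ := if 2 * P ≤ n + 1 then 0 else
  anyN N w.1 (lo1 n A t P) (lo2 n A t P - lo1 n A t P) r + anyN N w.2 (lo1 n A t P) (lo2 n A t P - lo1 n A t P) r

theorem endLoop_val (hr : r < N) (n A t m : ℕ) : ∀ (P : ℕ) (ws : List (ℕ × ℕ)) (cnt : List ℕ),
    cval N (endLoop N (onesv N 1) n A t m P ws cnt) 0 r =
      cval N cnt 0 r + ∑ i ∈ Finset.range (min m ws.length), flL N n A t (P + i) (ws.getD i (0, 0)) r := by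
  induction m with
  | zero =>
    intro P ws cnt
    simp [endLoop]
  | succ m ih =>
    intro P ws cnt
    cases ws with
    | nil => simp [endLoop]
    | cons w ws =>
      have e : endLoop N (onesv N 1) n A t (m + 1) P (w :: ws) cnt =
          endLoop N (onesv N 1) n A t m (Nat.succ P) ws (addL N (onesv N 1) n A t P w cnt) := rfl
      rw [e, ih, cval_addL hr]
      have e2 : min (m + 1) (w :: ws).length = min m ws.length + 1 := by
        rw [List.length_cons]
        omega
      rw [e2, Finset.sum_range_succ']
      have e3 : ∀ i, flL N n A t (P + (i + 1)) ((w :: ws).getD (i + 1) (0, 0)) r =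
          flL N n A t (Nat.succ P + i) (ws.getD i (0, 0)) r := by
        intro i
        rw [List.getD_cons_succ]
        congr 1
        omega
      simp only [e3, List.getD_cons_zero, Nat.add_zero]
      unfold flL
      omega

theorem staLoop_val (hr : r < N) (n A t m : ℕ) : ∀ (P : ℕ) (ws : List (ℕ × ℕ)) (cnt : List ℕ),
    cval N (staLoop N (onesv N 1) n A t m P ws cnt) 0 r =
      cval N cnt 0 r + ∑ i ∈ Finset.range (min m ws.length), flR N n A t (P + i) (ws.getD i (0, 0)) r := by
  induction m with
  | zero =>
    intro P ws cnt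
    simp [staLoop]
  | succ m ih =>
    intro P ws cnt
    cases ws with
    | nil => simp [staLoop]
    | cons w ws =>
      have e : staLoop N (onesv N 1) n A t (m + 1) P (w :: ws) cnt =
          staLoop N (onesv N 1) n A t m (Nat.succ P) ws (addR N (onesv N 1) n A t P w cnt) := rfl
      rw [e, ih, cval_addR hr]
      have e2 : min (m + 1) (w :: ws).length = min m ws.length + 1 := by
        rw [List.length_cons]
        omega
      rw [e2, Finset.sum_range_succ']
      have e3 : ∀ i, flR N n A t (P + (i + 1)) ((w :: ws).getD (i + 1) (0, 0)) r =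
          flR N n A t (Nat.succ P + i) (ws.getD i (0, 0)) r := by
        intro i
        rw [List.getD_cons_succ]
        congr 1
        omega
      simp only [e3, List.getD_cons_zero, Nat.add_zero]
      unfold flR
      omega

/-- the cut loop: a set bit means that some comparison was successful -/
theorem cutLoop_spec (hr : r < N) (n A t : ℕ) (ks : List ℕ) : ∀ (P : ℕ) (ws : List (ℕ × ℕ)) (cnt : List ℕ) (acc : ℕ),
    (cutLoop N (onesv N 1) n A t ks P ws cnt acc).testBit r = true → acc.testBit r = true ∨
      ∃ j K, j < ks.length ∧ j < ws.length ∧ ks.getD j 0 = K + 1 ∧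
        cval N cnt 0 r + ∑ i ∈ Finset.range (j + 1), (flL N n A t (P + i) (ws.getD i (0, 0)) r +
          flR N n A t (P + i) (ws.getD i (0, 0)) r + flB N n A t (P + i) (ws.getD i (0, 0)) r) ≤ K := by
  induction ks with
  | nil =>
    intro P ws cnt acc h
    left
    have e : cutLoop N (onesv N 1) n A t [] P ws cnt acc = acc := by
      cases ws <;> rfl
    rw [e] at h
    exact h
  | cons k ks ih =>
    intro P ws cnt acc h
    cases ws with
    | nil =>
      left
      exact h
    | cons w ws =>
      have hsum : ∀ j, cval N (addB N (onesv N 1) n A t P w (addR N (onesv N 1) n A t P w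
          (addL N (onesv N 1) n A t P w cnt))) 0 r +
          ∑ i ∈ Finset.range j, (flL N n A t (Nat.succ P + i) (ws.getD i (0, 0)) r +
            flR N n A t (Nat.succ P + i) (ws.getD i (0, 0)) r + flB N n A t (Nat.succ P + i) (ws.getD i (0, 0)) r) =
          cval N cnt 0 r + ∑ i ∈ Finset.range (j + 1), (flL N n A t (P + i) ((w :: ws).getD i (0, 0)) r +
            flR N n A t (P + i) ((w :: ws).getD i (0, 0)) r + flB N n A t (P + i) ((w :: ws).getD i (0, 0)) r) := by
        intro j
        rw [Finset.sum_range_succ']
        have e3 : ∀ i, P + (i + 1) = Nat.succ P + i := by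
          intro i
          omega
        simp only [List.getD_cons_succ, e3, List.getD_cons_zero, Nat.add_zero]
        rw [cval_addB hr, cval_addR hr, cval_addL hr]
        unfold flL flR flB
        omega
      cases k with
      | zero =>
        have e : cutLoop N (onesv N 1) n A t (0 :: ks) P (w :: ws) cnt acc =
            cutLoop N (onesv N 1) n A t ks (Nat.succ P) ws (addB N (onesv N 1) n A t P w
              (addR N (onesv N 1) n A t P w (addL N (onesv N 1) n A t P w cnt))) acc := rfl
        rw [e] at h
        rcases ih _ _ _ _ h with h1 | ⟨j, K, h1, h2, h3, h4⟩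
        · left
          exact h1
        · right
          refine ⟨j + 1, K, by simpa using h1, by simpa using h2, ?_, ?_⟩
          · rw [List.getD_cons_succ]
            exact h3
          · rw [← hsum]
            exact h4
      | succ K0 =>
        have e : cutLoop N (onesv N 1) n A t ((K0 + 1) :: ks) P (w :: ws) cnt acc =
            cutLoop N (onesv N 1) n A t ks (Nat.succ P) ws (addB N (onesv N 1) n A t P w
              (addR N (onesv N 1) n A t P w (addL N (onesv N 1) n A t P w cnt)))
              (Nat.lor acc (leK (onesv N 1) (addB N (onesv N 1) n A t P w (addR N (onesv N 1) n A t P w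
                (addL N (onesv N 1) n A t P w cnt))) K0 (onesv N 1))) := rfl
        rw [e] at h
        rcases ih _ _ _ _ h with h1 | ⟨j, K, h1, h2, h3, h4⟩
        · have h2 : (acc.testBit r || (leK (onesv N 1) (addB N (onesv N 1) n A t P w (addR N (onesv N 1) n A t P w
                (addL N (onesv N 1) n A t P w cnt))) K0 (onesv N 1)).testBit r) = true := by
            have h5 := Nat.testBit_lor acc (leK (onesv N 1) (addB N (onesv N 1) n A t P w (addR N (onesv N 1) n A t P w
                (addL N (onesv N 1) n A t P w cnt))) K0 (onesv N 1)) r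
            rw [← h5]
            exact h1
          rw [Bool.or_eq_true] at h2
          rcases h2 with h2 | h2
          · left
            exact h2
          · right
            rw [leK_spec (N := N) (onesv N 1) (testBit_onesv hr)] at h2
            refine ⟨0, K0, by simp, by simp, by simp, ?_⟩
            rw [← hsum 0]
            simp only [Finset.range_zero, Finset.sum_empty, Nat.add_zero]
            omega
        · right
          refine ⟨j + 1, K, by simpa using h1, by simpa using h2, ?_, ?_⟩
          · rw [List.getD_cons_succ]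
            exact h3
          · rw [← hsum]
            exact h4

end Pool.Agent.SQF4.Eng
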