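import Mathlib
import Pool.Agent.SQF4.Ind

/-!
Events inside a square-free WINDOW: neighbouring centres give the same pair.
-/

set_option autoImplicit false

namespace Pool.Agent.SQF4

open Pool.Agent.SQF

variable {γ : Type*}

/-- the window extended by fresh letters -/
def Wx (u : ℤ → γ) (N : ℕ) : ℤ → γ ⊕ ℤ := fun i => if 0 ≤ i ∧ i < N then Sum.inl (u i) else Sum.inr i

theorem Wx_in {u : ℤ → γ} {N : ℕ} {i : ℤ} (h0 : 0 ≤ i) (h1 : i < N) : Wx u N i = Sum.inl (u i) := by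
  unfold Wx
  rw [if_pos ⟨h0, h1⟩]

theorem Wx_out {u : ℤ → γ} {N : ℕ} {i : ℤ} (h : ¬ (0 ≤ i ∧ i < N)) : Wx u N i = Sum.inr i := by
  unfold Wx
  rw [if_neg h]

theorem Wx_ne {u : ℤ → γ} {N : ℕ} {i j : ℤ} (h : ¬ (0 ≤ i ∧ i < N)) (hij : i ≠ j) : Wx u N i ≠ Wx u N j := by
  rw [Wx_out h]
  by_cases hj : 0 ≤ j ∧ j < N
  · rw [Wx_in hj.1 hj.2]
    simp
  · rw [Wx_out hj]
    simpa using hij

theorem Wx_sqf {u : ℤ → γ} {N : ℕ} (hu : SqfOn u N) : Sqf (Wx u N) := by
  intro s p hp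
  by_cases h0 : 0 ≤ s
  · by_cases h1 : s + 2 * p ≤ N
    · obtain ⟨i, hi, hne⟩ := hu s p hp h0 h1
      refine ⟨i, hi, ?_⟩
      rw [Wx_in (by omega) (by omega), Wx_in (by omega) (by omega)]
      intro h
      exact hne (Sum.inl_injective h)
    · refine ⟨p - 1, by omega, ?_⟩
      exact (Wx_ne (i := s + ((p - 1 : ℕ) : ℤ) + p) (by omega) (by omega)).symm
  · refine ⟨0, hp, ?_⟩
    exact Wx_ne (by push_cast; omega) (by push_cast; omega)

theorem Wx_pot {u : ℤ → γ} {N : ℕ} {lo hi : ℤ} (h0 : 0 ≤ lo) (h1 : hi ≤ N) {τ : Bool} {P : ℕ} {c g : ℤ}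
    (h : Pot u lo hi τ P c g) : Pot (Wx u N) lo hi τ P c g := by
  unfold Pot at h ⊢
  split_ifs at h ⊢ with hτ
  · obtain ⟨a1, a2, a3, a4⟩ := h
    refine ⟨a1, a2, fun i b1 b2 b3 b4 => ?_, fun i b1 b2 b3 b4 => ?_⟩
    · rw [Wx_in (by omega) (by omega), Wx_in (by omega) (by omega), a3 i b1 b2 b3 b4]
    · rw [Wx_in (by omega) (by omega), Wx_in (by omega) (by omega), a4 i b1 b2 b3 b4]
  · obtain ⟨a1, a2, a3, a4⟩ := h
    refine ⟨a1, a2, fun i b1 b2 b3 b4 => ?_, fun i b1 b2 b3 b4 => ?_⟩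
    · rw [Wx_in (by omega) (by omega), Wx_in (by omega) (by omega), a3 i b1 b2 b3 b4]
    · rw [Wx_in (by omega) (by omega), Wx_in (by omega) (by omega), a4 i b1 b2 b3 b4]

/-- an event inside the window is an event of the extension -/
theorem Wx_ev {u : ℤ → γ} {N : ℕ} {τ : Bool} {P : ℕ} {c g : ℤ} {y : γ} (h : EvIn u N τ P c g y) :
    EvAt (Wx u N) τ P c g (Sum.inl y) := by
  obtain ⟨h0, h1, h2, h3⟩ := h
  refine ⟨Wx_pot h0 h1 h2, ?_⟩
  have hin : 0 ≤ hinge τ P g ∧ hinge τ P g < N := by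
    unfold Pot at h2
    unfold hinge
    split_ifs at h2 ⊢ with hτ
    · obtain ⟨a1, a2, -, -⟩ := h2
      omega
    · obtain ⟨a1, a2, -, -⟩ := h2
      omega
  rw [Wx_in hin.1 hin.2, h3]

/-- same type, same half-length, centres at distance at most P - 2: the same pair -/
theorem win_same {u : ℤ → γ} {N : ℕ} (hu : SqfOn u N) {τ : Bool} {P : ℕ} {c c' g g' : ℤ} {y y' : γ}
    (h : EvIn u N τ P c g y) (h' : EvIn u N τ P c' g' y') (h1 : c - c' ≤ P - 2) (h2 : c' - c ≤ P - 2) :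
    g = g' ∧ y = y' := by
  obtain ⟨e1, e2⟩ := same_pair (Wx_sqf hu) (Wx_ev h) (Wx_ev h') h1 h2
  exact ⟨e1, Sum.inl_injective e2⟩

theorem EvIn.two_le {u : ℤ → γ} {N : ℕ} {τ : Bool} {P : ℕ} {c g : ℤ} {y : γ} (h : EvIn u N τ P c g y) : 2 ≤ P :=
  (Wx_ev h).two_le

/-- two events of half-length 2 with neighbouring centres do not exist -/
theorem win_two {u : ℤ → γ} {N : ℕ} (hu : SqfOn u N) {τ : Bool} {c g g' : ℤ} {y y' : γ}
    (h : EvIn u N τ 2 c g y) (h' : EvIn u N τ 2 (c + 1) g' y') : False := by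
  have key : ∀ (c g : ℤ) (y : γ), EvIn u N τ 2 c g y → u (c - 1) = u (c + 1) := by
    intro c g y h
    obtain ⟨h0, h1, h2, -⟩ := h
    unfold Pot at h2
    split_ifs at h2 with hτ
    · obtain ⟨a1, a2, a3, -⟩ := h2
      have h3 := a3 (c - 1) (by push_cast; omega) (by push_cast; omega) (by push_cast; omega) (by push_cast; omega)
      rw [h3]
      congr 1
      push_cast
      ring
    · obtain ⟨a1, a2, -, a4⟩ := h2
      have h3 := a4 (c - 1) (by push_cast at a1 a2 ⊢; omega) (by omega) (by push_cast; omega) (by push_cast; omega)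
      rw [h3]
      congr 1
      push_cast
      ring
  have e1 := key c g y h
  have e2 := key (c + 1) g' y' h'
  obtain ⟨h0, h1, -⟩ := h
  obtain ⟨h0', h1', -⟩ := h'
  push_cast at h0 h1 h0' h1'
  obtain ⟨i, hi, hne⟩ := hu (c - 1) 2 (by norm_num) (by omega) (by push_cast; omega)
  apply hne
  have hi2 : i = 0 ∨ i = 1 := by omega
  rcases hi2 with rfl | rfl
  · have a1 : c - 1 + ((0 : ℕ) : ℤ) = c - 1 := by push_cast; ring
    have a2 : c - 1 + ((0 : ℕ) : ℤ) + ((2 : ℕ) : ℤ) = c + 1 := by push_cast; ring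
    rw [a2, a1]
    exact e1
  · have a1 : c - 1 + ((1 : ℕ) : ℤ) = c + 1 - 1 := by push_cast; ring
    have a2 : c - 1 + ((1 : ℕ) : ℤ) + ((2 : ℕ) : ℤ) = c + 1 + 1 := by push_cast; ring
    rw [a2, a1]
    exact e2

/-- neighbouring centres: the same pair -/
theorem win_adj {u : ℤ → γ} {N : ℕ} (hu : SqfOn u N) {τ : Bool} {P : ℕ} {c g g' : ℤ} {y y' : γ}
    (h : EvIn u N τ P c g y) (h' : EvIn u N τ P (c + 1) g' y') : g = g' ∧ y = y' := by
  have h2 := h.two_le
  rcases Nat.lt_or_ge P 3 with h3 | h3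
  · have : P = 2 := by omega
    subst this
    exact absurd (win_two hu h h') (by simp)
  · exact win_same hu h h' (by omega) (by omega)

/-- the pairs of the events with centres in an interval [c, c + d] all of which are centres of events are the same -/
theorem win_run {u : ℤ → γ} {N : ℕ} (hu : SqfOn u N) {τ : Bool} {P : ℕ} (d : ℕ) : ∀ {c g g' : ℤ} {y y' : γ},
    (∀ i : ℤ, c ≤ i → i ≤ c + d → ∃ g1 y1, EvIn u N τ P i g1 y1) →
    EvIn u N τ P c g y → EvIn u N τ P (c + d) g' y' → g = g' ∧ y = y' := by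
  induction d with
  | zero =>
    intro c g g' y y' hall h h'
    have e : c + ((0 : ℕ) : ℤ) = c := by simp
    rw [e] at h'
    have h2 := h.two_le
    exact win_same hu h h' (by omega) (by omega)
  | succ d ih =>
    intro c g g' y y' hall h h'
    obtain ⟨g1, y1, h1⟩ := hall (c + d) (by omega) (by push_cast; omega)
    obtain ⟨e1, e2⟩ := ih (fun i a b => hall i a (by push_cast; omega)) h h1
    have e : c + ((d + 1 : ℕ) : ℤ) = c + d + 1 := by push_cast; ring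
    rw [e] at h'
    obtain ⟨e3, e4⟩ := win_adj hu h1 h'
    exact ⟨e1.trans e3, e2.trans e4⟩

end Pool.Agent.SQF4
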