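import Pool.Agent.SQF4.Sem
import Pool.Agent.SQF4.Win

/-!
RISES. rise N n A P W has the bit c' iff c' is inside (P - 1 - A ≤ c' < n + 1 - P - A, i.e. the square with the centre A + c'
lies in the window), W has the bit c', and not (c' ≥ 1, c' - 1 inside on the left side and W has the bit c' - 1).
rise_card: every pair of T has an event (τ, P, c, g, y) with c = A + c', so W has the bit c' (WC; an event inside the window
is a Pot u 0 n). Go down from c' while the bits of W are set and the position is inside: reach a rise c'' ≤ c' (Nat.find or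
strong induction) such that all positions of [c'', c'] carry bits, hence events (WI), and by win_run the event at c'' has
the same pair. So T injects into the set of rises in [0, t) (the pair is determined by the rise: win_same with equal
centres), and numN counts them.
-/

set_option autoImplicit false

namespace Pool.Agent.SQF4.Eng

variable {N r n A P : ℕ} {u : ℤ → Fin 4}

theorem rise_bit (hr : r < N) (W c : ℕ) : bt N (rise N n A P W) c r = true ↔
    (P - 1 - A ≤ c ∧ c < n + 1 - P - A ∧ bt N W c r = true ∧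
      ¬ (1 ≤ c ∧ P - 1 - A ≤ c - 1 ∧ bt N W (c - 1) r = true)) := by
  have e1 : Nat.sub (Nat.sub (Nat.succ n) P) A = n + 1 - P - A := rfl
  have e2 : Nat.sub (Nat.sub P 1) A = P - 1 - A := rfl
  unfold rise
  rw [bt_andn, bt_andn, bt_land, bt_onesv hr, bt_onesv hr, bt_shl1 hr, bt_andn, bt_onesv hr, e1, e2]
  have key : ∀ b1 b2 b3 b4 b5 b6 : Bool,
      ((b5 && b3 && !b1 && !(b4 && (b6 && !b2))) = true ↔
        (b1 = false ∧ b3 = true ∧ b5 = true ∧ ¬ (b4 = true ∧ b2 = false ∧ b6 = true))) := by
    decide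
  rw [key, decide_eq_false_iff_not, decide_eq_false_iff_not, decide_eq_true_iff,
    decide_eq_true_iff, not_lt, not_lt]

theorem Pot_of_full {τ : Bool} {c g : ℤ} (h : Pot u (c - P + 1) (c + P) τ P c g) (lo hi : ℤ) :
    Pot u lo hi τ P c g := by
  unfold Pot at h ⊢
  split_ifs at h ⊢ with hτ
  · obtain ⟨a1, a2, a3, a4⟩ := h
    exact ⟨a1, a2, fun i b1 b2 _ _ => a3 i b1 b2 (by omega) (by omega),
      fun i b1 b2 _ _ => a4 i b1 b2 (by omega) (by omega)⟩
  · obtain ⟨a1, a2, a3, a4⟩ := h
    exact ⟨a1, a2, fun i b1 b2 _ _ => a3 i b1 b2 (by omega) (by omega),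
      fun i b1 b2 _ _ => a4 i b1 b2 (by omega) (by omega)⟩

theorem rise_card (hr : r < N) (hu : SqfOn u n) {w V t : ℕ} {τ : Bool} (hC : WC N n A w u r τ P V)
    (hI : WI N n A w u r τ P V) (hw : n + 1 - P - A ≤ w) (T : Finset (ℤ × Fin 4))
    (hT : ∀ p ∈ T, ∃ c : ℤ, (A : ℤ) ≤ c ∧ c < A + t ∧ EvIn u n τ P c p.1 p.2 ∧ OpenX u n τ P p.1) :
    T.card ≤ numN N (rise N n A P V) t r := by
  classical
  have key : ∀ p ∈ T, ∃ j : ℕ, j < t ∧ bt N (rise N n A P V) j r = true ∧
      EvIn u n τ P ((A : ℤ) + j) p.1 p.2 := by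
    intro p hp
    obtain ⟨c, hc1, hc2, hev, hop⟩ := hT p hp
    obtain ⟨c', hc'⟩ := Int.eq_ofNat_of_zero_le (by omega : 0 ≤ c - A)
    have hcc : c = (A : ℤ) + c' := by omega
    subst hcc
    have h0 := hev.1
    have h1 := hev.2.1
    have hin : P - 1 - A ≤ c' := by omega
    have hin2 : c' < n + 1 - P - A := by omega
    have hbit : bt N V c' r = true := hC c' p.1 (by omega) (Pot_of_full hev.2.2.1 _ _) hop
    have hex : ∃ j, P - 1 - A ≤ j ∧ j ≤ c' ∧ ∀ i, j ≤ i → i ≤ c' → bt N V i r = true := by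
      refine ⟨c', hin, le_rfl, fun i h2 h3 => ?_⟩
      have : i = c' := by omega
      rw [this]
      exact hbit
    have hj := Nat.find_spec hex
    have hmin := fun m (hm : m < Nat.find hex) => Nat.find_min hex hm
    generalize Nat.find hex = j at hj hmin
    obtain ⟨hj1, hj2, hj3⟩ := hj
    refine ⟨j, by omega, ?_, ?_⟩
    · rw [rise_bit hr]
      refine ⟨hj1, by omega, hj3 j le_rfl hj2, ?_⟩
      rintro ⟨k1, k2, k3⟩
      refine hmin (j - 1) (by omega) ⟨k2, by omega, fun i h2 h3 => ?_⟩
      by_cases hi : i = j - 1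
      · rw [hi]
        exact k3
      · exact hj3 i (by omega) h3
    · have hall : ∀ i : ℤ, (A : ℤ) + j ≤ i → i ≤ (A : ℤ) + j + ((c' - j : ℕ) : ℤ) →
          ∃ g1 y1, EvIn u n τ P i g1 y1 := by
        intro i h2 h3
        obtain ⟨i', hi'⟩ := Int.eq_ofNat_of_zero_le (by omega : 0 ≤ i - A)
        have hii : i = (A : ℤ) + i' := by omega
        subst hii
        exact hI i' (by omega) (by omega) (by omega) (hj3 i' (by omega) (by omega))
      obtain ⟨g1, y1, h5⟩ := hall ((A : ℤ) + j) le_rfl (by omega)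
      have e : (A : ℤ) + j + ((c' - j : ℕ) : ℤ) = (A : ℤ) + c' := by omega
      obtain ⟨e1, e2⟩ := win_run hu (c' - j) hall h5 (by rw [e]; exact hev)
      rw [← e1, ← e2]
      exact h5
  choose! F hF using key
  have hcard : T.card ≤ ((Finset.range t).filter
      (fun j => bt N (rise N n A P V) j r = true)).card := by
    refine Finset.card_le_card_of_injOn F (fun p hp => ?_) ?_
    · have h := hF p hp
      exact Finset.mem_coe.2 (Finset.mem_filter.2 ⟨Finset.mem_range.2 h.1, h.2.1⟩)
    · intro p hp q hq hpq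
      have h1 := (hF p hp).2.2
      have h2 := (hF q hq).2.2
      rw [← hpq] at h2
      have h3 := h1.two_le
      obtain ⟨e1, e2⟩ := win_same hu h1 h2 (by omega) (by omega)
      exact Prod.ext e1 e2
  refine hcard.trans (le_of_eq ?_)
  unfold numN
  rw [Finset.card_filter]
  refine Finset.sum_congr rfl fun j _ => ?_
  cases bt N (rise N n A P V) j r <;> rfl

end Pool.Agent.SQF4.Eng
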