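import Pool.Agent.SQF4.S9B

/-!
TESTS. Tset u n A t: the pairs of the events inside the window with centre in the block, nontrivial and without a smaller
event. Fset: the flags (τ, P) with 2 ≤ P < q whose entry of the table W has a bit at a position c' in a range.

cut_sound: let u = uZ N H L r, w = the table of mkLev (mkLev_ws gives TabOK). T = Tset u n A t. FL = Fset with the range
[0, lo1 n A t P), FR = Fset with [lo2 n A t P, t), FB = Fset with [lo1, lo2) but only for 2 P > n + 1 (filter; for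
2 P ≤ n + 1 a centre c < P - 1 satisfies c + P ≤ n, so there is nothing crossing both ends). By cutLoop_spec there are j, K with
value + sum of the flags of the half-lengths 2, ..., j + 2 ≤ K; value = cval of cntR = sum of cval pl (cval_cntR) ≥ Tset
card. Centres: c = A + c'; left only: c' < min (P - 1) (n + 1 - P) - A; both: c' between; right only: c' ≥ max .. - A.
end_sound: FL = Fset for P < min (n - A + 1) (pm + 2) together with all (τ, P), pm + 2 ≤ P < n - A + 1; a left-crossing centre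
satisfies c ≤ P - 2 and c ≤ n - P, so 2 c ≤ n - 2, hence c' < te by hte2. The loop has min (n - A - 1) pm entries.
-/

set_option autoImplicit false

namespace Pool.Agent.SQF4.Eng

variable {N r n A : ℕ} {u : ℤ → Fin 4}

private theorem tab_ok (hr : r < N) (tw pm H L : ℕ) (hH : Clean N n H r) (hL : Clean N n L r) :
    TabOK N n A tw pm (uZ N H L r) r (mkLev N n A tw pm H L).ws := mkLev_ws hr tw pm H L hH hL

/-- Tset is complete -/
private theorem covX_Tset (t q : ℕ) : CovX u n A t q (Tset u n A t) := by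
  classical
  intro τ P c g y _ h1 h2 hE hv hl
  have hE' := hE
  obtain ⟨h3, h4, h5, -⟩ := hE'
  have h6 := hE.two_le
  have hg : 0 ≤ g ∧ g ≤ (n : ℤ) := by
    unfold Pot at h5
    split_ifs at h5 with hτ
    · have a1 := h5.1
      have a2 := h5.2.1
      omega
    · have a1 := h5.1
      have a2 := h5.2.1
      omega
  unfold Tset
  exact Finset.mem_filter.2 ⟨Finset.mem_product.2 ⟨Finset.mem_Icc.2 hg, Finset.mem_univ _⟩,
    τ, P, c, h1, h2, hE, hv, hl⟩

/-- the counter of the rises bounds the number of pairs -/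
private theorem T_le (hr : r < N) (tw pm H L : ℕ) (hH : Clean N n H r) (hL : Clean N n L r)
    (hu : SqfOn (uZ N H L r) n) (hpm : (n + 1) / 2 ≤ pm + 1) (t : ℕ) :
    (Tset (uZ N H L r) n A t).card ≤
      cval N (cntR N (onesv N 1) (mkLev N n A tw pm H L).pl t) 0 r := by
  rw [cval_cntR hr]
  exact Tset_card hr hu (tab_ok hr tw pm H L hH hL) hpm t

private theorem tw_le (n A tw P : ℕ) : tw ≤ wlen n A tw P := Nat.le_add_right _ _

private theorem mn_eq (a b : ℕ) : mn a b = min a b := by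
  have e : mn a b = a - (a - b) := rfl
  rw [e]
  omega

private theorem mx_eq (a b : ℕ) : mx a b = max a b := by
  have e : mx a b = a + (b - a) := rfl
  rw [e]
  omega

private theorem lo1_eq (n A t P : ℕ) : lo1 n A t P = min t (min (P - 1) (n + 1 - P) - A) := by
  unfold lo1
  rw [mn_eq, mn_eq]
  rfl

private theorem lo2_eq (n A t P : ℕ) : lo2 n A t P = min t (max (P - 1) (n + 1 - P) - A) := by
  unfold lo2
  rw [mn_eq, mx_eq]
  rfl

/-- centres of the block as natural numbers -/
private theorem ctr {t : ℕ} {c : ℤ} (h1 : (A : ℤ) ≤ c) (h2 : c < A + t) :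
    ∃ c' : ℕ, c = (A : ℤ) + c' ∧ c' < t := by
  obtain ⟨k, hk⟩ := Int.eq_ofNat_of_zero_le (by omega : 0 ≤ c - A)
  exact ⟨k, by omega, by omega⟩

private theorem covR_Fset {tw pm : ℕ} {ws : List (ℕ × ℕ)} (hw : TabOK N n A tw pm u r ws) {q q' t : ℕ}
    (hq : q ≤ pm + 2) (hq' : q' ≤ q ∨ q' < 2) (htw : t ≤ tw) :
    CovF u n A t q' (fun P c => 0 ≤ c - P + 1 ∧ (n : ℤ) < c + P)
      (Fset N r ws q (lo2 n A t) (fun P => t - lo2 n A t P)) := by
  intro τ P c g hP h1 h2 hp hpot ho
  obtain ⟨c', rfl, hc⟩ := ctr h1 h2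
  have hP2 : 2 ≤ P := by
    unfold Pot at hpot
    split_ifs at hpot with hτ
    · have a1 := hpot.1
      have a2 := hpot.2.1
      omega
    · have a1 := hpot.1
      have a2 := hpot.2.1
      omega
  have hPq : P < q := by omega
  obtain ⟨p1, p2⟩ := hp
  have hlo : lo2 n A t P ≤ c' := by
    rw [lo2_eq]
    omega
  have hlt : lo2 n A t P ≤ t := by
    rw [lo2_eq]
    omega
  exact mem_Fset hw hq hPq (lt_of_lt_of_le hc (htw.trans (tw_le n A tw P))) hpot ho hlo (by
    change c' < lo2 n A t P + (t - lo2 n A t P)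
    omega)

private theorem covL_Fset {tw pm : ℕ} {ws : List (ℕ × ℕ)} (hw : TabOK N n A tw pm u r ws) {q q' t te : ℕ}
    (hq : q ≤ pm + 2) (hq' : q' ≤ q ∨ q' < 2) (htw : te ≤ tw)
    (hte : ∀ (P c' : ℕ), (A : ℤ) + c' - P + 1 < 0 → (A : ℤ) + c' + P ≤ (n : ℤ) → c' < t → c' < te) :
    CovF u n A t q' (fun P c => c - P + 1 < 0 ∧ c + P ≤ (n : ℤ))
      (Fset N r ws q (fun _ => 0) (fun P => lo1 n A te P)) := by
  intro τ P c g hP h1 h2 hp hpot ho
  obtain ⟨c', rfl, hc⟩ := ctr h1 h2
  have hP2 : 2 ≤ P := by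
    unfold Pot at hpot
    split_ifs at hpot with hτ
    · have a1 := hpot.1
      have a2 := hpot.2.1
      omega
    · have a1 := hpot.1
      have a2 := hpot.2.1
      omega
  have hPq : P < q := by omega
  obtain ⟨p1, p2⟩ := hp
  have hce : c' < te := hte P c' p1 p2 hc
  have hlo : c' < lo1 n A te P := by
    rw [lo1_eq]
    omega
  exact mem_Fset hw hq hPq (lt_of_lt_of_le hce (htw.trans (tw_le n A tw P))) hpot ho (Nat.zero_le _) (by
    change c' < 0 + lo1 n A te P
    omega)

private theorem covB_Fset {tw pm : ℕ} {ws : List (ℕ × ℕ)} (hw : TabOK N n A tw pm u r ws) {q t : ℕ}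
    (hq : q ≤ pm + 2) (htw : t ≤ tw) :
    CovF u n A t q (fun P c => c - P + 1 < 0 ∧ (n : ℤ) < c + P)
      (Fset N r ws q (lo1 n A t) (fun P => if 2 * P ≤ n + 1 then 0 else lo2 n A t P - lo1 n A t P)) := by
  intro τ P c g hP h1 h2 hp hpot ho
  obtain ⟨c', rfl, hc⟩ := ctr h1 h2
  obtain ⟨p1, p2⟩ := hp
  have h2P : ¬ 2 * P ≤ n + 1 := by omega
  have hlo : lo1 n A t P ≤ c' := by
    rw [lo1_eq]
    omega
  have hlt : c' < lo2 n A t P := by
    rw [lo2_eq]
    omega
  exact mem_Fset hw hq hP (lt_of_lt_of_le hc (htw.trans (tw_le n A tw P))) hpot ho hlo (by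
    change c' < lo1 n A t P + (if 2 * P ≤ n + 1 then 0 else lo2 n A t P - lo1 n A t P)
    rw [if_neg h2P]
    omega)

private theorem anyN_zero (W lo : ℕ) : anyN N W lo 0 r = 0 := by
  classical
  unfold anyN
  rw [if_neg]
  rintro ⟨j, h1, h2, _⟩
  omega

private theorem le_of_leK (hr : r < N) {cs : List ℕ} {K : ℕ}
    (h : (leK (onesv N 1) cs K (onesv N 1)).testBit r = true) : cval N cs 0 r ≤ K := by
  rcases (leK_spec (N := N) (onesv N 1) (testBit_onesv hr) cs K (onesv N 1)).1 h with h | h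
  · exact h.le
  · exact h.1.le

/-- cut: the sum of the four cardinalities is at most K (stated with the existential sets) -/
theorem cut_sound (hr : r < N) (tw pm H L : ℕ) (hH : Clean N n H r) (hL : Clean N n L r)
    (hu : SqfOn (uZ N H L r) n) (hpm : (n + 1) / 2 ≤ pm + 1) (t : ℕ) (hAt : A + t ≤ n) (htw : t ≤ tw) (ks : List ℕ)
    (h : (cutT (mkLev N n A tw pm H L) t ks).testBit r = true) :
    ∃ (j K : ℕ) (T : Finset (ℤ × Fin 4)) (FR FL FB : Finset (Bool × ℕ)), j < ks.length ∧ ks.getD j 0 = K + 1 ∧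
      T.card + FR.card + FL.card + FB.card ≤ K ∧
      (∀ q', CovX (uZ N H L r) n A t q' T) ∧
      CovF (uZ N H L r) n A t (j + 3) (fun P c => 0 ≤ c - P + 1 ∧ (n : ℤ) < c + P) FR ∧
      CovF (uZ N H L r) n A t (j + 3) (fun P c => c - P + 1 < 0 ∧ c + P ≤ (n : ℤ)) FL ∧
      CovF (uZ N H L r) n A t (j + 3) (fun P c => c - P + 1 < 0 ∧ (n : ℤ) < c + P) FB := by
  have hw := tab_ok (A := A) hr tw pm H L hH hL
  have hlen : (mkLev N n A tw pm H L).ws.length = pm := hw.1
  have e : cutT (mkLev N n A tw pm H L) t ks = cutLoop N (onesv N 1) n A t ks 2 (mkLev N n A tw pm H L).ws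
      (cntR N (onesv N 1) (mkLev N n A tw pm H L).pl t) 0 := rfl
  rw [e] at h
  rcases cutLoop_spec hr n A t ks 2 _ _ 0 h with h0 | ⟨j, K, h1, h2, h3, h4⟩
  · rw [Nat.zero_testBit] at h0
    exact absurd h0 (by decide)
  · rw [hlen] at h2
    have hT := T_le (A := A) hr tw pm H L hH hL hu hpm t
    set ws := (mkLev N n A tw pm H L).ws with hws
    have hq : j + 1 + 2 ≤ pm + 2 := by omega
    refine ⟨j, K, Tset (uZ N H L r) n A t, Fset N r ws (j + 1 + 2) (lo2 n A t) (fun P => t - lo2 n A t P),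
      Fset N r ws (j + 1 + 2) (fun _ => 0) (fun P => lo1 n A t P),
      Fset N r ws (j + 1 + 2) (lo1 n A t) (fun P => if 2 * P ≤ n + 1 then 0 else lo2 n A t P - lo1 n A t P),
      h1, h3, ?_, fun q' => covX_Tset t q', ?_, ?_, ?_⟩
    · rw [Fset_card, Fset_card, Fset_card]
      have hs : ∀ i ∈ Finset.range (j + 1),
          flL N n A t (2 + i) (ws.getD i (0, 0)) r + flR N n A t (2 + i) (ws.getD i (0, 0)) r +
            flB N n A t (2 + i) (ws.getD i (0, 0)) r =
          (anyN N (ws.getD i (0, 0)).1 (lo2 n A t (2 + i)) (t - lo2 n A t (2 + i)) r +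
            anyN N (ws.getD i (0, 0)).2 (lo2 n A t (2 + i)) (t - lo2 n A t (2 + i)) r) +
          (anyN N (ws.getD i (0, 0)).1 0 (lo1 n A t (2 + i)) r +
            anyN N (ws.getD i (0, 0)).2 0 (lo1 n A t (2 + i)) r) +
          (anyN N (ws.getD i (0, 0)).1 (lo1 n A t (2 + i))
              (if 2 * (2 + i) ≤ n + 1 then 0 else lo2 n A t (2 + i) - lo1 n A t (2 + i)) r +
            anyN N (ws.getD i (0, 0)).2 (lo1 n A t (2 + i))
              (if 2 * (2 + i) ≤ n + 1 then 0 else lo2 n A t (2 + i) - lo1 n A t (2 + i)) r) := by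
        intro i _
        unfold flL flR flB
        by_cases hc : 2 * (2 + i) ≤ n + 1
        · simp only [if_pos hc, anyN_zero]
          omega
        · simp only [if_neg hc]
          omega
      rw [Finset.sum_congr rfl hs, Finset.sum_add_distrib, Finset.sum_add_distrib] at h4
      omega
    · exact covR_Fset hw hq (Or.inl le_rfl) htw
    · exact covL_Fset hw hq (Or.inl le_rfl) htw (fun _ _ _ _ hc => hc)
    · exact covB_Fset hw hq htw

/-- end test: the block is [A, n); te is the length of the part where left-crossing centres can occur -/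
theorem end_sound (hr : r < N) (tw pm H L : ℕ) (hH : Clean N n H r) (hL : Clean N n L r)
    (hu : SqfOn (uZ N H L r) n) (hpm : (n + 1) / 2 ≤ pm + 1) (hAn : A ≤ n) (te K : ℕ) (hte : te ≤ tw)
    (hte2 : n ≤ 2 * (A + te) + 1)
    (h : (endT (mkLev N n A tw pm H L) te K).testBit r = true) :
    ∃ (T : Finset (ℤ × Fin 4)) (FL : Finset (Bool × ℕ)), T.card + (FL.filter (fun f => f.2 < pm + 2)).card ≤ K ∧
      CovX (uZ N H L r) n A (n - A) (n - A + 1) T ∧
      CovF (uZ N H L r) n A (n - A) (n - A + 1) (fun P c => c - P + 1 < 0 ∧ c + P ≤ (n : ℤ)) FL := by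
  classical
  have hw := tab_ok (A := A) hr tw pm H L hH hL
  have hlen : (mkLev N n A tw pm H L).ws.length = pm := hw.1
  have e : endT (mkLev N n A tw pm H L) te K = leK (onesv N 1) (endLoop N (onesv N 1) n A te (n - A - 1) 2
      (mkLev N n A tw pm H L).ws (cntR N (onesv N 1) (mkLev N n A tw pm H L).pl (n - A))) K (onesv N 1) := rfl
  rw [e] at h
  have h1 := le_of_leK hr h
  rw [endLoop_val hr, hlen] at h1
  have hT := T_le (A := A) hr tw pm H L hH hL hu hpm (n - A)
  set ws := (mkLev N n A tw pm H L).ws with hws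
  set m := min (n - A - 1) pm with hm
  have hq : m + 2 ≤ pm + 2 := by omega
  refine ⟨Tset (uZ N H L r) n A (n - A),
    Fset N r ws (m + 2) (fun _ => 0) (fun P => lo1 n A te P) ∪
      (Finset.univ : Finset Bool) ×ˢ (Finset.Ico (pm + 2) (n - A + 1)), ?_, covX_Tset _ _, ?_⟩
  · have hsub : (Fset N r ws (m + 2) (fun _ => 0) (fun P => lo1 n A te P) ∪
        (Finset.univ : Finset Bool) ×ˢ (Finset.Ico (pm + 2) (n - A + 1))).filter (fun f => f.2 < pm + 2) ⊆
        Fset N r ws (m + 2) (fun _ => 0) (fun P => lo1 n A te P) := by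
      intro f hf
      obtain ⟨h2, h3⟩ := Finset.mem_filter.1 hf
      rcases Finset.mem_union.1 h2 with h4 | h4
      · exact h4
      · have h5 := (Finset.mem_Ico.1 (Finset.mem_product.1 h4).2).1
        omega
    have h2 := Finset.card_le_card hsub
    rw [Fset_card] at h2
    have h3 : ∑ i ∈ Finset.range m, flL N n A te (2 + i) (ws.getD i (0, 0)) r =
        ∑ i ∈ Finset.range m, (anyN N (ws.getD i (0, 0)).1 0 (lo1 n A te (2 + i)) r +
          anyN N (ws.getD i (0, 0)).2 0 (lo1 n A te (2 + i)) r) := rfl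
    rw [h3] at h1
    omega
  · intro τ P c g hP a1 a2 hp hpot ho
    rcases Nat.lt_or_ge P (pm + 2) with h2 | h2
    · refine Finset.mem_union_left _ ?_
      refine covL_Fset (q' := min (n - A + 1) (pm + 2)) hw hq (by omega) hte ?_ τ P c g (by omega) a1 a2 hp hpot ho
      intro P' c' b1 b2 _
      omega
    · exact Finset.mem_union_right _ (Finset.mem_product.2 ⟨Finset.mem_univ _, Finset.mem_Ico.2 ⟨h2, hP⟩⟩)

/-- start test: the block is [A, A + t) and the window begins at the beginning of the word -/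
theorem sta_sound (hr : r < N) (tw pm H L : ℕ) (hH : Clean N n H r) (hL : Clean N n L r)
    (hu : SqfOn (uZ N H L r) n) (hpm : (n + 1) / 2 ≤ pm + 1) (t K : ℕ) (hAt : A + t ≤ n) (htw : t ≤ tw)
    (hpm2 : A + t ≤ pm + 1)
    (h : (staT (mkLev N n A tw pm H L) t K).testBit r = true) :
    ∃ (T : Finset (ℤ × Fin 4)) (FR : Finset (Bool × ℕ)), T.card + FR.card ≤ K ∧
      CovX (uZ N H L r) n A t (A + t + 1) T ∧
      CovF (uZ N H L r) n A t (A + t + 1) (fun P c => 0 ≤ c - P + 1 ∧ (n : ℤ) < c + P) FR := by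
  have _ := hAt
  have hw := tab_ok (A := A) hr tw pm H L hH hL
  have hlen : (mkLev N n A tw pm H L).ws.length = pm := hw.1
  have e : staT (mkLev N n A tw pm H L) t K = leK (onesv N 1) (staLoop N (onesv N 1) n A t (A + t - 1) 2
      (mkLev N n A tw pm H L).ws (cntR N (onesv N 1) (mkLev N n A tw pm H L).pl t)) K (onesv N 1) := rfl
  rw [e] at h
  have h1 := le_of_leK hr h
  rw [staLoop_val hr, hlen] at h1
  have hT := T_le (A := A) hr tw pm H L hH hL hu hpm t
  set ws := (mkLev N n A tw pm H L).ws with hws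
  have hmin : min (A + t - 1) pm = A + t - 1 := by omega
  rw [hmin] at h1
  refine ⟨Tset (uZ N H L r) n A t, Fset N r ws (A + t - 1 + 2) (lo2 n A t) (fun P => t - lo2 n A t P), ?_,
    covX_Tset _ _, ?_⟩
  · rw [Fset_card]
    have h3 : ∑ i ∈ Finset.range (A + t - 1), flR N n A t (2 + i) (ws.getD i (0, 0)) r =
        ∑ i ∈ Finset.range (A + t - 1), (anyN N (ws.getD i (0, 0)).1 (lo2 n A t (2 + i)) (t - lo2 n A t (2 + i)) r +
          anyN N (ws.getD i (0, 0)).2 (lo2 n A t (2 + i)) (t - lo2 n A t (2 + i)) r) := rfl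
    rw [h3] at h1
    omega
  · exact covR_Fset hw (by omega) (by omega) htw

end Pool.Agent.SQF4.Eng
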