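import Pool.Agent.SQF4.S6
import Pool.Agent.SQF4.S7
import Pool.Agent.SQF4.S8

/-!
TESTS, part A: the set T of the pairs and its cardinality. riseP_val: induction with cval_inc (S7). Tset_card: for every
type τ and half-length P (2 ≤ P, 2 P ≤ n + 1, i.e. P = i + 2 with i < (n + 1) / 2 - 1 ≤ pm) let T_{τ,P} be the pairs of Tset
with an event of this type and half-length; rise_card bounds it by numN (wlen ≥ n + 1 - P - A); Tset is the union
(EvIn.two_le; an event in the window has 2 P - 1 ≤ n positions); sum of the bounds = double sum of riseP_val.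
-/

set_option autoImplicit false

namespace Pool.Agent.SQF4.Eng

variable {N r n A : ℕ} {u : ℤ → Fin 4}

noncomputable def Tset (u : ℤ → Fin 4) (n A t : ℕ) : Finset (ℤ × Fin 4) := by
  classical
  exact ((Finset.Icc (0 : ℤ) n) ×ˢ (Finset.univ : Finset (Fin 4))).filter
    (fun p => ∃ (τ : Bool) (P : ℕ) (c : ℤ), (A : ℤ) ≤ c ∧ c < A + t ∧ EvIn u n τ P c p.1 p.2 ∧ VisNT u n p.1 p.2 ∧
      ¬ Less u n τ P p.1 p.2)

/-- T contains the pairs of the events with centre in the block, nontrivial and without a smaller event -/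
def CovX (u : ℤ → Fin 4) (n A t q : ℕ) (T : Finset (ℤ × Fin 4)) : Prop :=
  ∀ (τ : Bool) (P : ℕ) (c g : ℤ) (y : Fin 4), P < q → (A : ℤ) ≤ c → c < A + t → EvIn u n τ P c g y →
    VisNT u n g y → ¬ Less u n τ P g y → (g, y) ∈ T

/-- the open potential events with half-length P < q, centre in the block and property p P c are in F -/
def CovF (u : ℤ → Fin 4) (n A t q : ℕ) (p : ℕ → ℤ → Prop) (F : Finset (Bool × ℕ)) : Prop :=
  ∀ (τ : Bool) (P : ℕ) (c g : ℤ), P < q → (A : ℤ) ≤ c → c < A + t → p P c →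
    Pot u 0 n τ P c g → OpenX u n τ P g → (τ, P) ∈ F

/-- the table W is correct for the half-lengths 2, ..., pm + 1 -/
def TabOK (N n A tw pm : ℕ) (u : ℤ → Fin 4) (r : ℕ) (ws : List (ℕ × ℕ)) : Prop :=
  ws.length = pm ∧ ∀ j, j < pm → WOK N n A (wlen n A tw (j + 2)) u r (j + 2) (ws.getD j (0, 0))

theorem riseP_val (hr : r < N) (m : ℕ) : ∀ (ws : List (ℕ × ℕ)) (P : ℕ) (pl : List ℕ) (c : ℕ),
    cval N (riseP N n A m ws P pl) c r = cval N pl c r + ∑ i ∈ Finset.range (min m ws.length),
      ((bt N (rise N n A (P + i) (ws.getD i (0, 0)).1) c r).toNat +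
        (bt N (rise N n A (P + i) (ws.getD i (0, 0)).2) c r).toNat) := by
  have _ := hr
  induction m with
  | zero =>
    intro ws P pl c
    rw [Nat.zero_min, Finset.sum_range_zero, Nat.add_zero]
    rfl
  | succ m ih =>
    intro ws P pl c
    cases ws with
    | nil =>
      rw [List.length_nil, Nat.min_zero, Finset.sum_range_zero, Nat.add_zero]
      rfl
    | cons w ws =>
      have e1 : riseP N n A (m + 1) (w :: ws) P pl =
        riseP N n A m ws (P + 1) (inc2 pl (rise N n A P w.1) (rise N n A P w.2)) := rfl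
      have e2 : min (m + 1) (w :: ws).length = min m ws.length + 1 := by
        rw [List.length_cons]
        omega
      rw [e1, ih, cval_inc2, e2, Finset.sum_range_succ']
      have e3 : ∀ i, P + 1 + i = P + (i + 1) := fun i => by omega
      simp only [e3, List.getD_cons_succ, List.getD_cons_zero, Nat.add_zero]
      ring

private theorem open_of {τ : Bool} {P : ℕ} {c g : ℤ} {y : Fin 4} (h : EvIn u n τ P c g y)
    (h1 : VisNT u n g y) (h2 : ¬ Less u n τ P g y) : OpenX u n τ P g := by
  intro _ _ _ _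
  have e : u (hinge τ P g) = y := h.2.2.2
  rw [e]
  exact ⟨h1, h2⟩

/-- the pairs of Tset with an event of the type τ and half-length P -/
private noncomputable def Tp (u : ℤ → Fin 4) (n A t : ℕ) (τ : Bool) (P : ℕ) : Finset (ℤ × Fin 4) := by
  classical
  exact (Tset u n A t).filter (fun p => ∃ c : ℤ, (A : ℤ) ≤ c ∧ c < A + t ∧ EvIn u n τ P c p.1 p.2 ∧
    OpenX u n τ P p.1)

private theorem Tp_card (hr : r < N) (hu : SqfOn u n) {τ : Bool} {P w V : ℕ} (t : ℕ)
    (hC : WC N n A w u r τ P V) (hI : WI N n A w u r τ P V) (hw : n + 1 - P - A ≤ w) :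
    (Tp u n A t τ P).card ≤ numN N (rise N n A P V) t r := by
  classical
  refine rise_card hr hu hC hI hw _ fun p hp => ?_
  unfold Tp at hp
  exact (Finset.mem_filter.1 hp).2

/-- every pair of Tset has an event with 2 ≤ P and 2 P ≤ n + 1; rise_card for each type and half-length; union bound -/
theorem Tset_card (hr : r < N) (hu : SqfOn u n) {tw pm : ℕ} {ws : List (ℕ × ℕ)} (hw : TabOK N n A tw pm u r ws)
    (hpm : (n + 1) / 2 ≤ pm + 1) (t : ℕ) :
    (Tset u n A t).card ≤ ∑ j ∈ Finset.range t, cval N (riseP N n A ((n + 1) / 2 - 1) ws 2 []) j r := by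
  classical
  obtain ⟨hlen, hW⟩ := hw
  have hmin : min ((n + 1) / 2 - 1) ws.length = (n + 1) / 2 - 1 := by
    rw [hlen]
    omega
  have hsum : ∑ j ∈ Finset.range t, cval N (riseP N n A ((n + 1) / 2 - 1) ws 2 []) j r =
      ∑ i ∈ Finset.range ((n + 1) / 2 - 1),
        (numN N (rise N n A (2 + i) (ws.getD i (0, 0)).1) t r +
          numN N (rise N n A (2 + i) (ws.getD i (0, 0)).2) t r) := by
    simp only [riseP_val hr, hmin, numN]
    have e0 : ∀ j, cval N [] j r = 0 := fun j => rfl
    simp only [e0, Nat.zero_add]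
    rw [Finset.sum_comm]
    refine Finset.sum_congr rfl fun i _ => ?_
    rw [Finset.sum_add_distrib]
  rw [hsum]
  have hsub : Tset u n A t ⊆ (Finset.range ((n + 1) / 2 - 1)).biUnion
      (fun i => Tp u n A t false (2 + i) ∪ Tp u n A t true (2 + i)) := by
    intro p hp
    have hp' := hp
    unfold Tset at hp'
    obtain ⟨_, τ, P, c, h1, h2, h3, h4, h5⟩ := Finset.mem_filter.1 hp'
    have h6 := h3.two_le
    have h7 := h3.1
    have h8 := h3.2.1
    have hmem : p ∈ Tp u n A t τ P := by
      unfold Tp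
      exact Finset.mem_filter.2 ⟨hp, c, h1, h2, h3, open_of h3 h4 h5⟩
    refine Finset.mem_biUnion.2 ⟨P - 2, Finset.mem_range.2 (by omega), ?_⟩
    have e : 2 + (P - 2) = P := by omega
    rw [e]
    cases τ
    · exact Finset.mem_union_left _ hmem
    · exact Finset.mem_union_right _ hmem
  refine (Finset.card_le_card hsub).trans (Finset.card_biUnion_le.trans (Finset.sum_le_sum fun i hi => ?_))
  have hi' : i < pm := by
    have := Finset.mem_range.1 hi
    omega
  obtain ⟨w1, w2, w3, w4⟩ := hW i hi'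
  have hwl : n + 1 - (i + 2) - A ≤ wlen n A tw (i + 2) := by
    have e : wlen n A tw (i + 2) = tw + ((n + 1 - (i + 2) - A) - tw) := rfl
    rw [e]
    omega
  have e : 2 + i = i + 2 := by omega
  rw [e]
  refine (Finset.card_union_le _ _).trans (Nat.add_le_add ?_ ?_)
  · exact Tp_card hr hu t w1 w2 hwl
  · exact Tp_card hr hu t w3 w4 hwl

end Pool.Agent.SQF4.Eng
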