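import Pool.Agent.SQF4.S9A

/-!
TESTS, part B: flags. Fset_card: product and filter, sum over the two types; anyN of Sem is the indicator. mem_Fset: WC.
A potential event (Pot) has 2 ≤ P (for P ≤ 1 there is no gap g), so (τ, P) is in the product.
-/

set_option autoImplicit false

namespace Pool.Agent.SQF4.Eng

variable {N r n A : ℕ} {u : ℤ → Fin 4}

/-- the type τ entry of a pair -/
def sel (τ : Bool) (p : ℕ × ℕ) : ℕ := if τ then p.2 else p.1

/-- flags (τ, P), 2 ≤ P < q, with a bit of W at a position in [lo P, lo P + k P) -/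
noncomputable def Fset (N r : ℕ) (ws : List (ℕ × ℕ)) (q : ℕ) (lo k : ℕ → ℕ) : Finset (Bool × ℕ) := by
  classical
  exact ((Finset.univ : Finset Bool) ×ˢ (Finset.Ico 2 q)).filter
    (fun f => ∃ j, lo f.2 ≤ j ∧ j < lo f.2 + k f.2 ∧ bt N (sel f.1 (ws.getD (f.2 - 2) (0, 0))) j r = true)

theorem Fset_card (ws : List (ℕ × ℕ)) (m : ℕ) (lo k : ℕ → ℕ) :
    (Fset N r ws (m + 2) lo k).card = ∑ i ∈ Finset.range m,
      (anyN N (ws.getD i (0, 0)).1 (lo (2 + i)) (k (2 + i)) r + anyN N (ws.getD i (0, 0)).2 (lo (2 + i)) (k (2 + i)) r) := by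
  classical
  unfold Fset
  rw [Finset.card_filter, Finset.sum_product_right, Finset.sum_Ico_eq_sum_range]
  have e : m + 2 - 2 = m := rfl
  rw [e]
  refine Finset.sum_congr rfl fun i _ => ?_
  rw [Fintype.sum_bool]
  have e2 : 2 + i - 2 = i := by omega
  simp only [e2]
  rw [add_comm]
  unfold anyN
  congr 1

/-- the completeness of the flags (WC): a potential event (τ, P) open, centre A + c', c' in the range, is in Fset -/
theorem mem_Fset {tw pm : ℕ} {ws : List (ℕ × ℕ)} (hw : TabOK N n A tw pm u r ws) {q : ℕ} (hq : q ≤ pm + 2)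
    {lo k : ℕ → ℕ} {τ : Bool} {P c' : ℕ} {g : ℤ} (hP : P < q) (h1 : c' < wlen n A tw P)
    (hpot : Pot u 0 n τ P ((A : ℤ) + c') g) (ho : OpenX u n τ P g) (h2 : lo P ≤ c') (h3 : c' < lo P + k P) :
    (τ, P) ∈ Fset N r ws q lo k := by
  classical
  have hP2 : 2 ≤ P := by
    unfold Pot at hpot
    split_ifs at hpot with hτ
    · have a1 := hpot.1
      have a2 := hpot.2.1
      omega
    · have a1 := hpot.1
      have a2 := hpot.2.1
      omega
  obtain ⟨-, hW⟩ := hw
  have hj := hW (P - 2) (by omega)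
  have e : P - 2 + 2 = P := by omega
  rw [e] at hj
  obtain ⟨w1, -, w3, -⟩ := hj
  unfold Fset
  rw [Finset.mem_filter, Finset.mem_product, Finset.mem_Ico]
  refine ⟨⟨Finset.mem_univ _, hP2, hP⟩, c', h2, h3, ?_⟩
  cases τ with
  | false => exact w1 c' g h1 hpot ho
  | true => exact w3 c' g h1 hpot ho

end Pool.Agent.SQF4.Eng
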