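import Pool.Agent.SQF4.S1
import Pool.Agent.SQF4.Ind

/-!
Semantics of a row of the packed state: letters, events, predicates used in the soundness of the engine.
-/

set_option autoImplicit false

namespace Pool.Agent.SQF4.Eng

/-- the letter with the bits h (high), l (low) -/
def code (h l : Bool) : Fin 4 := if h then (if l then 3 else 2) else (if l then 1 else 0)

theorem code_inj {h l h' l' : Bool} (e : code h l = code h' l') : h = h' ∧ l = l' := by
  revert e
  revert h l h' l'
  decide

/-- the letter of the row r at the position a -/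
def uN (N H L r a : ℕ) : Fin 4 := code (bt N H a r) (bt N L a r)

/-- the row r as a function on ℤ -/
def uZ (N H L r : ℕ) (i : ℤ) : Fin 4 := uN N H L r i.toNat

/-- no bits of the row r at the positions ≥ n -/
def Clean (N n V r : ℕ) : Prop := ∀ a, n ≤ a → bt N V a r = false

/-- x is the mismatch vector of shift s of the row r -/
def XS (N n : ℕ) (u : ℤ → Fin 4) (r s x : ℕ) : Prop :=
  ∀ a : ℕ, bt N x a r = true ↔ a + s < n ∧ u (a : ℤ) ≠ u ((a : ℤ) + s)

/-- ls are the four letter vectors of the row r -/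
def LS (N n : ℕ) (u : ℤ → Fin 4) (r : ℕ) (ls : List ℕ) : Prop :=
  ls.length = 4 ∧ ∀ (l : Fin 4) (a : ℕ), bt N (ls.getD l 0) a r = true ↔ a < n ∧ u (a : ℤ) = l

/-- an event of the pair (g, y) inside the window which is lexicographically smaller than (P, τ) -/
def Less (u : ℤ → Fin 4) (n : ℕ) (τ : Bool) (P : ℕ) (g : ℤ) (y : Fin 4) : Prop :=
  ∃ (τ' : Bool) (P' : ℕ) (c' : ℤ), (P' < P ∨ (P' = P ∧ τ' = false ∧ τ = true)) ∧ EvIn u n τ' P' c' g y

/-- the four vectors G (over the gaps) only contain trivial pairs and pairs with a smaller event -/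
def GS (N n : ℕ) (u : ℤ → Fin 4) (r : ℕ) (τ : Bool) (P : ℕ) (G : List ℕ) : Prop :=
  G.length = 4 ∧ ∀ (l : Fin 4) (g : ℕ), bt N (G.getD l 0) g r = true → ¬ VisNT u n g l ∨ Less u n τ P g l

/-- the pair of the potential event (τ, P, ., g) is not visible, or nontrivial and without a smaller event -/
def OpenX (u : ℤ → Fin 4) (n : ℕ) (τ : Bool) (P : ℕ) (g : ℤ) : Prop :=
  0 ≤ hinge τ P g → hinge τ P g < n → 0 ≤ g → g ≤ n →
    VisNT u n g (u (hinge τ P g)) ∧ ¬ Less u n τ P g (u (hinge τ P g))

/-- drop vector of type false (over the gap) -/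
def DF (N n : ℕ) (u : ℤ → Fin 4) (r P d : ℕ) : Prop :=
  ∀ g : ℕ, bt N d g r = true → g + P - 1 < n ∧ g ≤ n ∧ ¬ OpenX u n false P g

/-- drop vector of type true (over the hinge h, the gap is h + P) -/
def DT (N n : ℕ) (u : ℤ → Fin 4) (r P d : ℕ) : Prop :=
  ∀ h : ℕ, bt N d h r = true → h < n ∧ h + P ≤ n ∧ ¬ OpenX u n true P ((h : ℤ) + P)

/-- completeness of the vector V over c' in [0, w), centre A + c' -/
def WC (N n A w : ℕ) (u : ℤ → Fin 4) (r : ℕ) (τ : Bool) (P V : ℕ) : Prop :=
  ∀ (c' : ℕ) (g : ℤ), c' < w → Pot u 0 n τ P ((A : ℤ) + c') g → OpenX u n τ P g → bt N V c' r = true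

/-- the events inside the window: if the bit is set there is an event with this centre -/
def WI (N n A w : ℕ) (u : ℤ → Fin 4) (r : ℕ) (τ : Bool) (P V : ℕ) : Prop :=
  ∀ c' : ℕ, c' < w → P ≤ A + c' + 1 → A + c' + P ≤ n → bt N V c' r = true →
    ∃ (g : ℤ) (y : Fin 4), EvIn u n τ P ((A : ℤ) + c') g y

/-- value of the counter with the planes cs at the position a of the row r -/
def cval (N : ℕ) : List ℕ → ℕ → ℕ → ℕ
  | [], _, _ => 0
  | c :: cs, a, r => (bt N c a r).toNat + 2 * cval N cs a r

/-- is there a bit of W of the row r at a position in [lo, lo + k)? as a number -/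
noncomputable def anyN (N W lo k r : ℕ) : ℕ := by
  classical
  exact if ∃ j, lo ≤ j ∧ j < lo + k ∧ bt N W j r = true then 1 else 0

/-- number of bits of W of the row r at the positions [0, t) -/
def numN (N W t r : ℕ) : ℕ := ∑ j ∈ Finset.range t, (bt N W j r).toNat

end Pool.Agent.SQF4.Eng
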